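import Pool.Agent.Run7.h331.Dual

/-!
Sufficiency of the algebraic relation `f² Q = Q*`.
-/

open Filter Topology Complex Set MeasureTheory Polynomial

set_option maxHeartbeats 400000

namespace Run7.h331

/-- the polynomial form of the relation -/
structure EP (r : ℝ) (f : ℂ → ℂ) (D : ℕ) (p : ℂ[X]) (κ : ℂ) : Prop where
  ne : p ≠ 0
  deg : p.natDegree ≤ D
  norm : ‖κ‖ = 1
  rel : ∀ z ∈ annulus r, f z ^ 2 * p.eval z =
    κ * z ^ D * (starRingEnd ℂ) (p.eval ((starRingEnd ℂ) z)⁻¹)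

lemma EP.remove {r : ℝ} (hr : 0 < r) {f : ℂ → ℂ} {D : ℕ} {p : ℂ[X]} {κ : ℂ} (h : EP r f D p κ)
    {ζ : ℂ} (hζ : ‖ζ‖ = 1) (h0 : p.eval ζ = 0) :
    ∃ (q : ℂ[X]) (κ' : ℂ), q.natDegree + 1 = p.natDegree ∧ EP r f (D - 1) q κ' := by
  obtain ⟨q, hq⟩ := dvd_iff_isRoot.2 h0
  have hq0 : q ≠ 0 := by
    rintro rfl
    rw [mul_zero] at hq
    exact h.ne hq
  have hdeg : q.natDegree + 1 = p.natDegree := by
    rw [hq, natDegree_mul (X_sub_C_ne_zero ζ) hq0, natDegree_X_sub_C]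
    ring
  have hD : 1 ≤ D := by have := h.deg; omega
  refine ⟨q, -κ * (starRingEnd ℂ) ζ, hdeg, hq0, ?_, ?_, fun z hz => ?_⟩
  · have := h.deg; omega
  · rw [norm_mul, norm_neg, RCLike.norm_conj, h.norm, hζ, one_mul]
  · have hz0 := ne_zero_of_mem hr hz
    have h1 := h.rel z hz
    have hzζ : z - ζ ≠ 0 := by
      intro h2
      have : z = ζ := sub_eq_zero.1 h2
      rw [this] at hz
      have := hz.2
      rw [hζ] at this
      exact lt_irrefl _ this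
    obtain ⟨d, rfl⟩ : ∃ d, D = d + 1 := ⟨D - 1, by omega⟩
    rw [hq] at h1
    simp only [eval_mul, eval_sub, eval_X, eval_C, map_mul, map_sub, map_inv₀,
      Complex.conj_conj] at h1
    rw [Nat.add_sub_cancel]
    have hc : (starRingEnd ℂ) ζ * ζ = 1 := by
      rw [mul_comm, Complex.mul_conj, Complex.normSq_eq_norm_sq, hζ]; simp
    have h2 : z ^ (d + 1) * (z⁻¹ - (starRingEnd ℂ) ζ) =
        -(starRingEnd ℂ) ζ * z ^ d * (z - ζ) := by
      rw [pow_succ]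
      field_simp
      linear_combination (-1 : ℂ) * hc
    have h3 : (z - ζ) * (f z ^ 2 * q.eval z) =
        (z - ζ) * (-κ * (starRingEnd ℂ) ζ * z ^ d *
          (starRingEnd ℂ) (q.eval ((starRingEnd ℂ) z)⁻¹)) := by
      linear_combination h1 + κ * (starRingEnd ℂ) (q.eval ((starRingEnd ℂ) z)⁻¹) * h2
    exact mul_left_cancel₀ hzζ h3

lemma EP.reduce {r : ℝ} (hr : 0 < r) {f : ℂ → ℂ} (n : ℕ) : ∀ {D : ℕ} {p : ℂ[X]} {κ : ℂ},
    p.natDegree = n → EP r f D p κ →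
    ∃ (D' : ℕ) (q : ℂ[X]) (κ' : ℂ), D' ≤ D ∧ EP r f D' q κ' ∧ ∀ ζ, ‖ζ‖ = 1 → q.eval ζ ≠ 0 := by
  induction n with
  | zero =>
    intro D p κ hp h
    refine ⟨D, p, κ, le_rfl, h, fun ζ _ h0 => ?_⟩
    rw [natDegree_eq_zero] at hp
    obtain ⟨x, rfl⟩ := hp
    rw [eval_C] at h0
    exact h.ne (by rw [h0, C_0])
  | succ n ih =>
    intro D p κ hp h
    by_cases hz : ∃ ζ, ‖ζ‖ = 1 ∧ p.eval ζ = 0
    · obtain ⟨ζ, hζ, h0⟩ := hz
      obtain ⟨q, κ', hq, hE⟩ := h.remove hr hζ h0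
      obtain ⟨D', q', κ'', h1, h2, h3⟩ := ih (by omega) hE
      exact ⟨D', q', κ'', by omega, h2, h3⟩
    · push Not at hz
      exact ⟨D, p, κ, le_rfl, h, hz⟩

lemma sqrt_lim {ι : Type*} {l : Filter ι} {w : ι → ℂ} {s : ℝ} (hs : 0 < s)
    (hw : ∀ᶠ i in l, 0 < (w i).re) (h : Tendsto (fun i => w i ^ 2) l (𝓝 ((s : ℂ) ^ 2))) :
    Tendsto w l (𝓝 (s : ℂ)) := by
  rw [tendsto_iff_norm_sub_tendsto_zero] at h ⊢
  have h1 : Tendsto (fun i => ‖w i ^ 2 - (s : ℂ) ^ 2‖ / s) l (𝓝 0) := by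
    have := h.div_const s
    rwa [zero_div] at this
  refine squeeze_zero' (Eventually.of_forall fun i => norm_nonneg _) ?_ h1
  filter_upwards [hw] with i hi
  rw [le_div_iff₀ hs]
  have e : w i ^ 2 - (s : ℂ) ^ 2 = (w i - s) * (w i + s) := by ring
  rw [e, norm_mul]
  refine mul_le_mul_of_nonneg_left ?_ (norm_nonneg _)
  have h2 := Complex.re_le_norm (w i + s)
  rw [Complex.add_re, Complex.ofReal_re] at h2
  linarith

/-- the auxiliary function -/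
noncomputable def WW (f : ℂ → ℂ) (D : ℕ) (p : ℂ[X]) (lam : ℂ) (x : ℝ × ℝ) : ℂ :=
  lam * Complex.exp (-(D * x.2 / 2 : ℝ) * I) *
    (f ((x.1 : ℂ) * ex 1 x.2) * p.eval ((x.1 : ℂ) * ex 1 x.2))

noncomputable def VV (D : ℕ) (p : ℂ[X]) (ρ : ℝ) (w : ℂ) : ℂ :=
  (ρ : ℂ) ^ D * ((starRingEnd ℂ) (p.eval ((ρ : ℂ)⁻¹ * w)) * p.eval ((ρ : ℂ) * w))

lemma WW_sq {r : ℝ} (hr : 0 < r) {f : ℂ → ℂ} {D : ℕ} {p : ℂ[X]} {κ lam : ℂ} (h : EP r f D p κ)
    (hlam : lam ^ 2 * κ = 1) {ρ : ℝ} (hρ : ρ ∈ Ioo r 1) (θ : ℝ) :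
    WW f D p lam (ρ, θ) ^ 2 = VV D p ρ (ex 1 θ) := by
  have hρ0 : 0 < ρ := hr.trans hρ.1
  have hmem : (ρ : ℂ) * ex 1 θ ∈ annulus r := circ_mem hρ0.le hρ.1 hρ.2 θ
  have h1 := h.rel _ hmem
  have hconj : ((starRingEnd ℂ) ((ρ : ℂ) * ex 1 θ))⁻¹ = (ρ : ℂ)⁻¹ * ex 1 θ := by
    rw [map_mul, Complex.conj_ofReal, mul_inv, ex_conj]
    congr 1
    unfold ex
    rw [zpow_neg, inv_inv]
  rw [hconj] at h1
  have hexp : Complex.exp (-(D * θ / 2 : ℝ) * I) ^ 2 * (ex 1 θ) ^ D = 1 := by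
    unfold ex
    rw [zpow_one, ← Complex.exp_nat_mul, ← Complex.exp_nat_mul, ← Complex.exp_add]
    have : ((2:ℕ) : ℂ) * (-(D * θ / 2 : ℝ) * I) + (D : ℂ) * (θ * I) = 0 := by
      push_cast
      ring
    rw [this, Complex.exp_zero]
  unfold WW VV
  simp only
  rw [mul_pow, mul_pow, mul_pow]
  have h2 : f ((ρ : ℂ) * ex 1 θ) ^ 2 * p.eval ((ρ : ℂ) * ex 1 θ) ^ 2 =
      κ * ((ρ : ℂ) * ex 1 θ) ^ D * (starRingEnd ℂ) (p.eval ((ρ : ℂ)⁻¹ * ex 1 θ)) *
        p.eval ((ρ : ℂ) * ex 1 θ) := by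
    rw [← h1]; ring
  rw [h2, mul_pow]
  calc lam ^ 2 * Complex.exp (-(D * θ / 2 : ℝ) * I) ^ 2 *
        (κ * ((ρ : ℂ) ^ D * ex 1 θ ^ D) * (starRingEnd ℂ) (p.eval ((ρ : ℂ)⁻¹ * ex 1 θ)) *
        p.eval ((ρ : ℂ) * ex 1 θ))
      = (lam ^ 2 * κ) * (Complex.exp (-(D * θ / 2 : ℝ) * I) ^ 2 * (ex 1 θ) ^ D) *
        ((ρ : ℂ) ^ D * ((starRingEnd ℂ) (p.eval ((ρ : ℂ)⁻¹ * ex 1 θ)) *
        p.eval ((ρ : ℂ) * ex 1 θ))) := by ring
    _ = _ := by rw [hlam, hexp, one_mul, one_mul]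

lemma VV_pos (D : ℕ) {p : ℂ[X]} (hp : ∀ ζ, ‖ζ‖ = 1 → p.eval ζ ≠ 0) {r : ℝ} (hr1 : r < 1) :
    ∃ ρ0, r ≤ ρ0 ∧ ρ0 < 1 ∧ ∀ ρ ∈ Ioo ρ0 1, ∀ w : ℂ, ‖w‖ = 1 → 0 < (VV D p ρ w).re := by
  have h1 : ∀ᶠ ρ : ℝ in 𝓝 1, ∀ w ∈ Metric.sphere (0:ℂ) 1, 0 < (VV D p ρ w).re := by
    refine (isCompact_sphere (0:ℂ) 1).eventually_forall_of_forall_eventually (fun w hw => ?_)
    rw [mem_sphere_zero_iff_norm] at hw
    have hc : ContinuousAt (fun x : ℝ × ℂ => (VV D p x.1 x.2).re) (1, w) := by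
      unfold VV
      have hof : ContinuousAt (fun x : ℝ × ℂ => (x.1 : ℂ)) (1, w) :=
        (Complex.continuous_ofReal.comp continuous_fst).continuousAt
      refine Complex.continuous_re.continuousAt.comp' ?_
      refine (hof.pow D).mul (ContinuousAt.mul ?_ ?_)
      · refine Complex.continuous_conj.continuousAt.comp' ?_
        refine (Polynomial.continuous p).continuousAt.comp' ?_
        refine ContinuousAt.mul (hof.inv₀ ?_) continuous_snd.continuousAt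
        simp
      · refine (Polynomial.continuous p).continuousAt.comp' ?_
        exact hof.mul continuous_snd.continuousAt
    refine hc.eventually (lt_mem_nhds ?_)
    unfold VV
    simp only [Complex.ofReal_one, one_pow, inv_one, one_mul]
    rw [mul_comm, Complex.mul_conj, Complex.ofReal_re]
    exact Complex.normSq_pos.2 (hp w hw)
  have h2 : ∀ᶠ ρ : ℝ in 𝓝[<] 1, ∀ w ∈ Metric.sphere (0:ℂ) 1, 0 < (VV D p ρ w).re :=
    nhdsWithin_le_nhds h1
  obtain ⟨l, hl, hl2⟩ := (mem_nhdsLT_iff_exists_Ioo_subset' hr1).1 h2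
  refine ⟨max r l, le_max_left _ _, max_lt hr1 hl, fun ρ hρ w hw => ?_⟩
  exact hl2 ⟨lt_of_le_of_lt (le_max_right _ _) hρ.1, hρ.2⟩ w (mem_sphere_zero_iff_norm.2 hw)

/-- choice of the sign -/
lemma exists_sign {r : ℝ} (hr : 0 < r) {f : ℂ → ℂ} (hf : IsB r f) {D : ℕ} {p : ℂ[X]} {κ : ℂ}
    (h : EP r f D p κ) {ρ0 : ℝ} (hρ0 : r ≤ ρ0) (h01 : ρ0 < 1)
    (hV : ∀ ρ ∈ Ioo ρ0 1, ∀ w : ℂ, ‖w‖ = 1 → 0 < (VV D p ρ w).re) :
    ∃ lam : ℂ, lam ^ 2 * κ = 1 ∧ ∀ ρ ∈ Ioo ρ0 1, ∀ θ, 0 < (WW f D p lam (ρ, θ)).re := by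
  have hκ : κ ≠ 0 := by
    intro h0; have := h.norm; rw [h0, norm_zero] at this; exact zero_ne_one this
  obtain ⟨μ, hμ⟩ := IsAlgClosed.exists_pow_nat_eq κ⁻¹ (n := 2) two_pos
  have hμ2 : μ ^ 2 * κ = 1 := by rw [hμ, inv_mul_cancel₀ hκ]
  have hne : ∀ x ∈ Ioo ρ0 1 ×ˢ (univ : Set ℝ), (WW f D p μ x).re ≠ 0 := by
    rintro ⟨ρ, θ⟩ ⟨hρ, -⟩ h0
    have hρ' : ρ ∈ Ioo r 1 := ⟨lt_of_le_of_lt hρ0 hρ.1, hρ.2⟩
    have h1 := WW_sq hr h hμ2 hρ' θ
    have h2 := hV ρ hρ (ex 1 θ) (norm_ex 1 θ)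
    rw [← h1, pow_two, Complex.mul_re, h0] at h2
    nlinarith [sq_nonneg (WW f D p μ (ρ, θ)).im]
  have hcont : ContinuousOn (fun x => (WW f D p μ x).re) (Ioo ρ0 1 ×ˢ (univ : Set ℝ)) := by
    refine Complex.continuous_re.comp_continuousOn ?_
    unfold WW
    have hpt : Continuous fun x : ℝ × ℝ => (x.1 : ℂ) * ex 1 x.2 :=
      (Complex.continuous_ofReal.comp continuous_fst).mul ((ex_continuous 1).comp continuous_snd)
    refine ContinuousOn.mul (Continuous.continuousOn ?_) (ContinuousOn.mul ?_ ?_)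
    · refine continuous_const.mul (Complex.continuous_exp.comp ?_)
      refine Continuous.mul ?_ continuous_const
      refine Continuous.neg ?_
      refine Complex.continuous_ofReal.comp ?_
      exact (continuous_const.mul continuous_snd).div_const 2
    · refine hf.1.continuousOn.comp hpt.continuousOn ?_
      rintro ⟨ρ, θ⟩ ⟨hρ, -⟩
      exact circ_mem (hr.le.trans (hρ0.trans hρ.1.le)) (lt_of_le_of_lt hρ0 hρ.1) hρ.2 θ
    · exact ((Polynomial.continuous p).comp hpt).continuousOn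
  have hpre : IsPreconnected (Ioo ρ0 1 ×ˢ (univ : Set ℝ)) :=
    isPreconnected_Ioo.prod isPreconnected_univ
  by_cases hpos : ∀ x ∈ Ioo ρ0 1 ×ˢ (univ : Set ℝ), 0 < (WW f D p μ x).re
  · exact ⟨μ, hμ2, fun ρ hρ θ => hpos (ρ, θ) ⟨hρ, mem_univ _⟩⟩
  · push Not at hpos
    obtain ⟨x, hx, hx0⟩ := hpos
    refine ⟨-μ, by rw [neg_sq]; exact hμ2, fun ρ hρ θ => ?_⟩
    have hneg : (WW f D p (-μ) (ρ, θ)).re = -(WW f D p μ (ρ, θ)).re := by
      unfold WW
      rw [neg_mul, neg_mul, Complex.neg_re]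
    rw [hneg, neg_pos]
    by_contra hcon
    rw [not_lt] at hcon
    have hy' : ((ρ, θ) : ℝ × ℝ) ∈ Ioo ρ0 1 ×ˢ (univ : Set ℝ) := ⟨hρ, mem_univ θ⟩
    have h3 := hpre.intermediate_value hx hy' hcont
    obtain ⟨y, hy, hy0⟩ := h3 ⟨hx0, hcon⟩
    exact hne y hy hy0

/-- the degree is even -/
lemma deg_even {f : ℂ → ℂ} {D : ℕ} {p : ℂ[X]} {lam : ℂ} {ρ : ℝ}
    (h : ∀ θ, 0 < (WW f D p lam (ρ, θ)).re) : Even D := by
  by_contra hodd
  rw [Nat.not_even_iff_odd] at hodd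
  obtain ⟨e, he⟩ := hodd
  have h1 : WW f D p lam (ρ, 2 * Real.pi) = -WW f D p lam (ρ, 0) := by
    unfold WW
    have h2 : ex 1 (2 * Real.pi) = 1 := by
      unfold ex
      rw [zpow_one]
      have := Complex.exp_two_pi_mul_I
      push_cast
      exact this
    have h3 : ex 1 0 = 1 := by unfold ex; simp
    have h4 : Complex.exp (-(D * (2 * Real.pi) / 2 : ℝ) * I) = -1 := by
      have : (-(D * (2 * Real.pi) / 2 : ℝ) * I : ℂ) = -((e : ℂ) * (2 * Real.pi * I) +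
          Real.pi * I) := by
        rw [he]; push_cast; ring
      rw [this, Complex.exp_neg, Complex.exp_add, Complex.exp_nat_mul, Complex.exp_two_pi_mul_I,
        one_pow, Complex.exp_pi_mul_I]
      norm_num
    simp only [h2, h3, h4]
    have h5 : (-(D * 0 / 2 : ℝ) * I : ℂ) = 0 := by push_cast; ring
    rw [h5, Complex.exp_zero]
    ring
  have h2 := h (2 * Real.pi)
  have h3 := h 0
  rw [h1, Complex.neg_re] at h2
  linarith

/-- the coefficients of the new functional -/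
noncomputable def cnew (e : ℕ) (p : ℂ[X]) (lam : ℂ) (k : ℤ) : ℂ :=
  if k ∈ Finset.Icc (-(e : ℤ)) e then lam * p.coeff (e - k).toNat else 0

lemma QL_cnew {e : ℕ} {p : ℂ[X]} (hp : p.natDegree ≤ 2 * e) (lam : ℂ) {N : ℕ} (hN : e ≤ N) {z : ℂ}
    (hz : z ≠ 0) :
    QL (Finset.Icc (-(N : ℤ)) N) (cnew e p lam) z = lam * (z ^ (-(e : ℤ)) * p.eval z) := by
  unfold QL
  have h1 : ∑ k ∈ Finset.Icc (-(N : ℤ)) N, cnew e p lam k * z ^ (-k) =
      ∑ k ∈ Finset.Icc (-(e : ℤ)) e, lam * p.coeff (e - k).toNat * z ^ (-k) := by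
    symm
    rw [← Finset.sum_subset (s₁ := Finset.Icc (-(e : ℤ)) e) (s₂ := Finset.Icc (-(N : ℤ)) N)]
    · refine Finset.sum_congr rfl (fun k hk => ?_)
      unfold cnew
      rw [if_pos hk]
    · intro k hk
      rw [Finset.mem_Icc] at hk ⊢
      omega
    · intro k _ hk
      unfold cnew
      rw [if_neg hk, zero_mul]
  rw [h1, Polynomial.eval_eq_sum_range' (lt_of_le_of_lt hp (Nat.lt_succ_self _)), Finset.mul_sum,
    Finset.mul_sum]
  refine Finset.sum_nbij' (fun k => ((e : ℤ) - k).toNat) (fun i => (e : ℤ) - i) ?_ ?_ ?_ ?_ ?_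
  · intro k hk
    rw [Finset.mem_Icc] at hk
    rw [Finset.mem_range]
    omega
  · intro i hi
    rw [Finset.mem_range] at hi
    rw [Finset.mem_Icc]
    omega
  · intro k hk
    rw [Finset.mem_Icc] at hk
    omega
  · intro i hi
    rw [Finset.mem_range] at hi
    omega
  · intro k hk
    rw [Finset.mem_Icc] at hk
    have h2 : z ^ (-(e : ℤ)) * z ^ ((e : ℤ) - k).toNat = z ^ (-k) := by
      rw [← zpow_natCast z, ← zpow_add₀ hz]
      congr 1
      have : ((((e : ℤ) - k).toNat : ℕ) : ℤ) = e - k := Int.toNat_of_nonneg (by omega)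
      rw [this]
      ring
    rw [← h2]
    ring

/-- the algebraic relation without zeros on the circle gives a maximiser -/
lemma isMax_of_EP {r : ℝ} (hr : 0 < r) (hr1 : r < 1) {f : ℂ → ℂ} {a : ℤ → ℂ} (hf : IsB r f)
    (hL : IsLaurent r f a) {D : ℕ} {p : ℂ[X]} {κ : ℂ}
    (h : EP r f D p κ) (hp : ∀ ζ, ‖ζ‖ = 1 → p.eval ζ ≠ 0) {N : ℕ} (hN : D ≤ 2 * N) :
    ∃ c : ℤ → ℂ, (∃ k ∈ Finset.Icc (-(N : ℤ)) N, c k ≠ 0) ∧
      IsMax r (Finset.Icc (-(N : ℤ)) N) c a := by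
  obtain ⟨ρ0, hρ0, h01, hV⟩ := VV_pos D hp hr1
  obtain ⟨lam, hlam, hW⟩ := exists_sign hr hf h hρ0 h01 hV
  obtain ⟨ρ', h1', h2'⟩ := exists_between h01
  obtain ⟨e, he⟩ := deg_even (hW ρ' ⟨h1', h2'⟩)
  have he2 : D = 2 * e := by omega
  subst he2
  have heN : e ≤ N := by omega
  have hlam0 : lam ≠ 0 := by
    rintro rfl
    simp at hlam
  set S := Finset.Icc (-(N : ℤ)) N with hS
  set c := cnew e p lam with hc
  have hQ : ∀ z, z ≠ 0 → QL S c z = lam * (z ^ (-(e : ℤ)) * p.eval z) :=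
    fun z hz => QL_cnew h.deg lam heN hz
  -- the functional does not vanish
  have hc0 : ∃ k ∈ S, c k ≠ 0 := by
    refine ⟨(e : ℤ) - p.natDegree, ?_, ?_⟩
    · have := h.deg
      rw [hS, Finset.mem_Icc]
      omega
    · have hd := h.deg
      rw [hc]
      unfold cnew
      rw [if_pos (by rw [Finset.mem_Icc]; omega)]
      have : ((e : ℤ) - ((e : ℤ) - p.natDegree)).toNat = p.natDegree := by omega
      rw [this]
      exact mul_ne_zero hlam0 (leadingCoeff_ne_zero.2 h.ne)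
  refine ⟨c, hc0, ?_⟩
  -- relation between the functional and `WW`
  have hrel : ∀ ρ ∈ Ioo ρ0 1, ∀ θ, f ((ρ : ℂ) * ex 1 θ) * QL S c ((ρ : ℂ) * ex 1 θ) =
      ((ρ ^ (-(e : ℤ)) : ℝ) : ℂ) * WW f (2 * e) p lam (ρ, θ) := by
    intro ρ hρ θ
    have hρp : 0 < ρ := hr.trans (lt_of_le_of_lt hρ0 hρ.1)
    have hz0 : (ρ : ℂ) * ex 1 θ ≠ 0 := by
      rw [← norm_pos_iff, norm_circ hρp.le]; exact hρp
    rw [hQ _ hz0, circ_zpow]
    unfold WW
    have h3 : Complex.exp (-(((2 * e : ℕ) : ℝ) * θ / 2 : ℝ) * I) = ex (-(e : ℤ)) θ := by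
      rw [ex_eq_exp]
      congr 1
      push_cast
      ring
    simp only [h3]
    ring
  -- the limit
  have hlim : Tendsto (fun ρ : ℝ => ∫ θ in (0:ℝ)..2 * Real.pi,
      f ((ρ : ℂ) * ex 1 θ) * QL S c ((ρ : ℂ) * ex 1 θ)) (𝓝[Ioo ρ0 1] 1)
      (𝓝 (∫ θ in (0:ℝ)..2 * Real.pi, ((‖tp S c θ‖ : ℝ) : ℂ))) := by
    have hQc : ContinuousOn (QL S c) (closedAnn r) := by
      intro z hz
      have hz0 : z ≠ 0 := by
        intro h0
        have := hz.1
        rw [h0, norm_zero] at this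
        linarith
      exact (QL_analyticAt S c hz0).continuousAt.continuousWithinAt
    obtain ⟨C, hC⟩ := (closedAnn_isCompact r).exists_bound_of_continuousOn hQc
    refine intervalIntegral.tendsto_integral_filter_of_dominated_convergence (fun _ => C) ?_ ?_ ?_ ?_
    · filter_upwards [self_mem_nhdsWithin] with ρ hρ
      have hρr : r < ρ := lt_of_le_of_lt hρ0 hρ.1
      refine Continuous.aestronglyMeasurable ?_
      have hcg : Continuous fun θ : ℝ => f ((ρ : ℂ) * ex 1 θ) :=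
        hf.1.continuousOn.comp_continuous (continuous_const.mul (ex_continuous 1))
          (fun θ => circ_mem (hr.trans hρr).le hρr hρ.2 θ)
      have hcu : Continuous fun θ : ℝ => QL S c ((ρ : ℂ) * ex 1 θ) :=
        hQc.comp_continuous (continuous_const.mul (ex_continuous 1))
          (fun θ => circ_mem_closedAnn hr.le hρr.le hρ.2.le θ)
      exact hcg.mul hcu
    · filter_upwards [self_mem_nhdsWithin] with ρ hρ
      have hρr : r < ρ := lt_of_le_of_lt hρ0 hρ.1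
      refine Eventually.of_forall (fun θ _ => ?_)
      rw [norm_mul]
      have h3 := hf.2 _ (circ_mem (hr.trans hρr).le hρr hρ.2 θ)
      have h4 := hC _ (circ_mem_closedAnn hr.le hρr.le hρ.2.le θ)
      calc _ ≤ 1 * ‖QL S c ((ρ : ℂ) * ex 1 θ)‖ := mul_le_mul_of_nonneg_right h3 (norm_nonneg _)
        _ ≤ C := by rw [one_mul]; exact h4
    · exact intervalIntegrable_const
    · refine Eventually.of_forall (fun θ _ => ?_)
      have hz1 : ex 1 θ ≠ 0 := by rw [← norm_pos_iff, norm_ex]; exact one_pos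
      have htp : tp S c θ = QL S c (ex 1 θ) := by
        unfold tp QL
        refine Finset.sum_congr rfl (fun k _ => ?_)
        congr 1
        unfold ex
        rw [zpow_one]
      have hnorm : ‖tp S c θ‖ = ‖p.eval (ex 1 θ)‖ := by
        have hl : ‖lam‖ = 1 := by
          have := congrArg norm hlam
          rw [norm_mul, h.norm, mul_one, norm_pow, norm_one] at this
          exact (pow_eq_one_iff_of_nonneg (norm_nonneg _) two_ne_zero).1 this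
        rw [htp, hQ _ hz1, norm_mul, hl, one_mul, norm_mul, norm_zpow, norm_ex, one_zpow, one_mul]
      have hpos : 0 < ‖tp S c θ‖ := by
        rw [hnorm]
        exact norm_pos_iff.2 (hp _ (norm_ex 1 θ))
      refine sqrt_lim hpos ?_ ?_
      · filter_upwards [self_mem_nhdsWithin] with ρ hρ
        rw [hrel ρ hρ θ, Complex.re_ofReal_mul]
        have hρp : 0 < ρ := hr.trans (lt_of_le_of_lt hρ0 hρ.1)
        exact mul_pos (zpow_pos hρp _) (hW ρ hρ θ)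
      · have hV' : Tendsto (fun ρ : ℝ => ((ρ ^ (-(e : ℤ)) : ℝ) : ℂ) ^ 2 * VV (2 * e) p ρ (ex 1 θ))
            (𝓝[Ioo ρ0 1] 1) (𝓝 ((((1:ℝ) ^ (-(e : ℤ)) : ℝ) : ℂ) ^ 2 * VV (2 * e) p 1 (ex 1 θ))) := by
          refine Tendsto.mono_left ?_ nhdsWithin_le_nhds
          refine Tendsto.mul (Tendsto.pow ?_ 2) ?_
          · exact (Complex.continuous_ofReal.tendsto _).comp
              (continuousAt_zpow₀ (1:ℝ) (-(e : ℤ)) (Or.inl one_ne_zero)).tendsto
          · unfold VV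
            have hof : Tendsto (fun x : ℝ => (x : ℂ)) (𝓝 1) (𝓝 ((1:ℝ) : ℂ)) :=
              Complex.continuous_ofReal.tendsto _
            refine (hof.pow _).mul (Tendsto.mul ?_ ?_)
            · refine (Complex.continuous_conj.tendsto _).comp ?_
              refine ((Polynomial.continuous p).tendsto _).comp ?_
              exact (hof.inv₀ (by simp)).mul_const _
            · refine ((Polynomial.continuous p).tendsto _).comp ?_
              exact hof.mul_const _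
        have hval : (((1:ℝ) ^ (-(e : ℤ)) : ℝ) : ℂ) ^ 2 * VV (2 * e) p 1 (ex 1 θ) =
            ((‖tp S c θ‖ : ℝ) : ℂ) ^ 2 := by
          rw [hnorm]
          unfold VV
          simp only [one_zpow, Complex.ofReal_one, one_pow, inv_one, one_mul]
          rw [mul_comm, Complex.mul_conj']
        rw [hval] at hV'
        refine hV'.congr' ?_
        filter_upwards [self_mem_nhdsWithin] with ρ hρ
        rw [hrel ρ hρ θ, mul_pow, WW_sq hr h hlam ⟨lt_of_le_of_lt hρ0 hρ.1, hρ.2⟩ θ]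
  have hconst : Tendsto (fun ρ : ℝ => ∫ θ in (0:ℝ)..2 * Real.pi,
      f ((ρ : ℂ) * ex 1 θ) * QL S c ((ρ : ℂ) * ex 1 θ)) (𝓝[Ioo ρ0 1] 1)
      (𝓝 (2 * Real.pi * Lc S c a)) := by
    refine tendsto_const_nhds.congr' ?_
    filter_upwards [self_mem_nhdsWithin] with ρ hρ
    exact (Lc_integral hr S c hL ⟨lt_of_le_of_lt hρ0 hρ.1, hρ.2⟩).symm
  have hNB : (𝓝[Ioo ρ0 1] (1:ℝ)).NeBot := right_nhdsWithin_Ioo_neBot h01
  have heq := tendsto_nhds_unique hconst hlim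
  rw [intervalIntegral.integral_ofReal] at heq
  have hp' : (0:ℝ) < 2 * Real.pi := by positivity
  have hval : (Lc S c a).re = (2 * Real.pi)⁻¹ * ∫ θ in (0:ℝ)..2 * Real.pi, ‖tp S c θ‖ := by
    have h3 : (2 * Real.pi * Lc S c a : ℂ) = ((2 * Real.pi : ℝ) : ℂ) * Lc S c a := by
      push_cast; ring
    have h4 := congrArg Complex.re heq
    rw [h3, Complex.re_ofReal_mul, Complex.ofReal_re] at h4
    rw [← h4]
    field_simp
  intro g b hg hb
  rw [hval]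
  exact (Complex.re_le_norm _).trans (pair_outer hr.le hr1 hg hb S c)

end Run7.h331
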