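import Pool.Agent.Run7.h331.TwoCircles

/-!
Approximation of a bounded function by continuous ones, and the data attached to a coefficient
functional.
-/

open Filter Topology Complex Set

set_option maxHeartbeats 400000

namespace Run7.h331

lemma summable_natAbs {q : ℝ} (h0 : 0 ≤ q) (h1 : q < 1) : Summable fun j : ℤ => q ^ j.natAbs := by
  refine Summable.of_nat_of_neg ?_ ?_
  · simpa using summable_geometric_of_lt_one h0 h1
  · simpa using summable_geometric_of_lt_one h0 h1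

/-- coefficient bounds -/
structure CB (r : ℝ) (a : ℤ → ℂ) : Prop where
  one : ∀ j, ‖a j‖ ≤ 1
  inner : ∀ j, ‖a j‖ * r ^ j ≤ 1

lemma cb_of {r : ℝ} (hr : 0 < r) (hr1 : r < 1) {f : ℂ → ℂ} {a : ℤ → ℂ} (hf : IsB r f)
    (h : IsLaurent r f a) : CB r a :=
  ⟨coef_le_one hr.le hr1 hf h, coef_le_inner hr hr1 hf h⟩

lemma CB.neg {r : ℝ} (hr : 0 < r) {a : ℤ → ℂ} (h : CB r a) {j : ℤ} (hj : j ≤ 0) :
    ‖a j‖ ≤ r ^ j.natAbs := by
  have h1 := h.inner j
  have h2 : r ^ j * r ^ j.natAbs = 1 := by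
    have : (j.natAbs : ℤ) = -j := by omega
    rw [← zpow_natCast r j.natAbs, this, ← zpow_add₀ hr.ne']
    simp
  have h3 : 0 < r ^ j := zpow_pos hr j
  have h4 : 0 < r ^ j.natAbs := pow_pos hr _
  have : ‖a j‖ * r ^ j * r ^ j.natAbs ≤ 1 * r ^ j.natAbs :=
    mul_le_mul_of_nonneg_right h1 h4.le
  rw [mul_assoc, h2] at this
  linarith

lemma CB.pos {r : ℝ} (hr : 0 < r) {a : ℤ → ℂ} (h : CB r a) {j : ℤ} (hj : 0 ≤ j) :
    ‖a j‖ * r ^ j ≤ r ^ j.natAbs := by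
  have h1 := h.one j
  have h2 : r ^ j = r ^ j.natAbs := by
    have : (j.natAbs : ℤ) = j := by omega
    rw [← zpow_natCast r j.natAbs, this]
  rw [h2]
  exact mul_le_of_le_one_left (pow_pos hr _).le h1

lemma term_norm_le {r : ℝ} (hr : 0 < r) {a : ℤ → ℂ} (h : CB r a) (j : ℤ) :
    ‖a j • EE r j‖ ≤ 1 := by
  rw [ContinuousMap.norm_le _ zero_le_one]
  rintro ⟨b, z⟩
  rw [ContinuousMap.smul_apply, norm_smul]
  cases b
  · rw [EE_false, norm_zpow, norm_mul, Circle.norm_coe, mul_one, Complex.norm_real,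
      Real.norm_of_nonneg hr.le]
    exact h.inner j
  · rw [EE_true, norm_zpow, Circle.norm_coe, one_zpow, mul_one]
    exact h.one j

/-- the continuous approximations -/
noncomputable def Fr (r : ℝ) (a : ℤ → ℂ) (ρ : ℝ) : C(KK, ℂ) :=
  ∑' j : ℤ, ((ρ ^ j.natAbs : ℝ) : ℂ) • (a j • EE r j)

lemma Fr_summable {r ρ : ℝ} (hr : 0 < r) {a : ℤ → ℂ} (h : CB r a) (h0 : 0 ≤ ρ) (h1 : ρ < 1) :
    Summable fun j : ℤ => ((ρ ^ j.natAbs : ℝ) : ℂ) • (a j • EE r j) := by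
  refine Summable.of_norm_bounded (summable_natAbs h0 h1) (fun j => ?_)
  rw [norm_smul, Complex.norm_real, Real.norm_of_nonneg (pow_nonneg h0 _)]
  exact mul_le_of_le_one_right (pow_nonneg h0 _) (term_norm_le hr h j)

/-- applying a functional -/
lemma Fr_apply {r ρ : ℝ} (hr : 0 < r) {a : ℤ → ℂ} (h : CB r a) (h0 : 0 ≤ ρ) (h1 : ρ < 1)
    (T : C(KK, ℂ) →L[ℂ] ℂ) (φ : C(KK, ℂ)) :
    T (Fr r a ρ * φ) = ∑' j : ℤ, ((ρ ^ j.natAbs : ℝ) : ℂ) * (a j * T (EE r j * φ)) := by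
  have h2 : HasSum (fun j : ℤ => T (((ρ ^ j.natAbs : ℝ) : ℂ) • (a j • EE r j) * φ))
      (T (Fr r a ρ * φ)) := ((Fr_summable hr h h0 h1).hasSum.mul_right φ).mapL T
  rw [← h2.tsum_eq]
  refine tsum_congr (fun j => ?_)
  rw [smul_mul_assoc, smul_mul_assoc, map_smul, map_smul, smul_eq_mul, smul_eq_mul]

lemma Fr_eval {r ρ : ℝ} (hr : 0 < r) {a : ℤ → ℂ} (h : CB r a) (h0 : 0 ≤ ρ) (h1 : ρ < 1) (p : KK) :
    HasSum (fun j : ℤ => ((ρ ^ j.natAbs : ℝ) : ℂ) * (a j * EE r j p)) (Fr r a ρ p) := by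
  have h2 : HasSum (fun j : ℤ => ContinuousMap.evalCLM ℂ p (((ρ ^ j.natAbs : ℝ) : ℂ) •
      (a j • EE r j))) (Fr r a ρ p) :=
    (Fr_summable hr h h0 h1).hasSum.mapL (ContinuousMap.evalCLM ℂ p)
  exact h2

/-- the error -/
noncomputable def eps (r ρ : ℝ) : ℝ := ∑' j : ℤ, ((r / ρ) ^ j.natAbs - (r * ρ) ^ j.natAbs)

lemma eps_summable {r ρ : ℝ} (hr : 0 < r) (h1 : r < ρ) (h2 : ρ < 1) :
    Summable fun j : ℤ => (r / ρ) ^ j.natAbs - (r * ρ) ^ j.natAbs := by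
  have hρ : 0 < ρ := hr.trans h1
  refine (summable_natAbs (by positivity) ?_).sub (summable_natAbs (by positivity) ?_)
  · rw [div_lt_one hρ]; exact h1
  · nlinarith

lemma eps_term_eq {r ρ : ℝ} (n : ℕ) :
    (r / ρ) ^ n - (r * ρ) ^ n = r ^ n * ((ρ ^ n)⁻¹ - ρ ^ n) := by
  rw [div_pow, mul_pow, div_eq_mul_inv]
  ring

lemma eps_term_nonneg {r ρ : ℝ} (hr : 0 < r) (h1 : r < ρ) (h2 : ρ < 1) (n : ℕ) :
    0 ≤ (r / ρ) ^ n - (r * ρ) ^ n := by
  have hρ : 0 < ρ := hr.trans h1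
  have : (r * ρ) ^ n ≤ (r / ρ) ^ n := by
    apply pow_le_pow_left₀ (by positivity)
    rw [le_div_iff₀ hρ]
    nlinarith [mul_pos hr hρ]
  linarith

lemma eps_nonneg {r ρ : ℝ} (hr : 0 < r) (h1 : r < ρ) (h2 : ρ < 1) : 0 ≤ eps r ρ :=
  tsum_nonneg (fun _ => eps_term_nonneg hr h1 h2 _)

lemma Fr_norm_le {r ρ : ℝ} (hr : 0 < r) (h1 : r < ρ) (h2 : ρ < 1) {f : ℂ → ℂ} {a : ℤ → ℂ}
    (hf : IsB r f) (hL : IsLaurent r f a) : ‖Fr r a ρ‖ ≤ 1 + eps r ρ := by
  have hρ : 0 < ρ := hr.trans h1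
  have hr1 : r < 1 := h1.trans h2
  have hcb := cb_of hr hr1 hf hL
  have hε := eps_nonneg hr h1 h2
  have hsum := (eps_summable hr h1 h2).hasSum
  rw [ContinuousMap.norm_le _ (by positivity)]
  rintro ⟨b, z⟩
  have hz0 : (z : ℂ) ≠ 0 := circle_ne z
  have hF := Fr_eval hr hcb hρ.le h2 (b, z)
  cases b
  · -- inner circle
    have hmem : ((r / ρ : ℝ) : ℂ) * z ∈ annulus r := by
      have e : ‖((r / ρ : ℝ) : ℂ) * z‖ = r / ρ := by
        rw [norm_mul, Circle.norm_coe, mul_one, Complex.norm_real, Real.norm_of_nonneg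
          (by positivity)]
      refine ⟨?_, ?_⟩
      · rw [e, lt_div_iff₀ hρ]; nlinarith
      · rw [e, div_lt_one hρ]; exact h1
    have hG := hL _ hmem
    have hd := hF.sub hG
    have hb : ‖Fr r a ρ (false, z) - f (((r / ρ : ℝ) : ℂ) * z)‖ ≤ eps r ρ := by
      refine hd.tsum_eq ▸ (tsum_of_norm_bounded hsum (fun j => ?_))
      have e1 : ((ρ ^ j.natAbs : ℝ) : ℂ) * (a j * EE r j (false, z)) -
          a j * (((r / ρ : ℝ) : ℂ) * z) ^ j =
          a j * ((r ^ j * (ρ ^ j.natAbs - (ρ ^ j)⁻¹) : ℝ) : ℂ) * (z : ℂ) ^ j := by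
        rw [EE_false, mul_zpow, mul_zpow]
        push_cast
        rw [div_zpow]
        ring
      rw [e1, norm_mul, norm_mul, norm_zpow, Circle.norm_coe, one_zpow, mul_one,
        Complex.norm_real, Real.norm_eq_abs, abs_mul, abs_of_pos (zpow_pos hr j), ← mul_assoc]
      rcases le_or_gt j 0 with hj | hj
      · have e2 : ρ ^ j.natAbs - (ρ ^ j)⁻¹ = 0 := by
          have : (j.natAbs : ℤ) = -j := by omega
          rw [← zpow_natCast ρ j.natAbs, this, zpow_neg, sub_self]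
        rw [e2, abs_zero, mul_zero]
        exact eps_term_nonneg hr h1 h2 _
      · have e3 : ρ ^ j = ρ ^ j.natAbs := by
          have : (j.natAbs : ℤ) = j := by omega
          rw [← zpow_natCast ρ j.natAbs, this]
        rw [e3, eps_term_eq]
        have h4 : ρ ^ j.natAbs ≤ 1 := pow_le_one₀ hρ.le h2.le
        have h5 : 1 ≤ (ρ ^ j.natAbs)⁻¹ := (one_le_inv₀ (by positivity)).2 h4
        have h6 : |ρ ^ j.natAbs - (ρ ^ j.natAbs)⁻¹| = (ρ ^ j.natAbs)⁻¹ - ρ ^ j.natAbs := by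
          rw [abs_sub_comm, abs_of_nonneg (by linarith)]
        rw [h6]
        exact mul_le_mul_of_nonneg_right (hcb.pos hr hj.le) (by linarith)
    have h3 := hf.2 _ hmem
    calc ‖Fr r a ρ (false, z)‖ ≤ ‖f (((r / ρ : ℝ) : ℂ) * z)‖ +
          ‖Fr r a ρ (false, z) - f (((r / ρ : ℝ) : ℂ) * z)‖ := by
          have := norm_add_le (f (((r / ρ : ℝ) : ℂ) * z))
            (Fr r a ρ (false, z) - f (((r / ρ : ℝ) : ℂ) * z))
          simpa using this
      _ ≤ 1 + eps r ρ := add_le_add h3 hb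
  · -- outer circle
    have hmem : (ρ : ℂ) * z ∈ annulus r := by
      have e : ‖(ρ : ℂ) * z‖ = ρ := by
        rw [norm_mul, Circle.norm_coe, mul_one, Complex.norm_real, Real.norm_of_nonneg hρ.le]
      exact ⟨by rw [e]; exact h1, by rw [e]; exact h2⟩
    have hG := hL _ hmem
    have hd := hF.sub hG
    have hb : ‖Fr r a ρ (true, z) - f ((ρ : ℂ) * z)‖ ≤ eps r ρ := by
      refine hd.tsum_eq ▸ (tsum_of_norm_bounded hsum (fun j => ?_))
      have e1 : ((ρ ^ j.natAbs : ℝ) : ℂ) * (a j * EE r j (true, z)) -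
          a j * ((ρ : ℂ) * z) ^ j =
          a j * ((ρ ^ j.natAbs - ρ ^ j : ℝ) : ℂ) * (z : ℂ) ^ j := by
        rw [EE_true, mul_zpow]
        push_cast
        ring
      rw [e1, norm_mul, norm_mul, norm_zpow, Circle.norm_coe, one_zpow, mul_one,
        Complex.norm_real, Real.norm_eq_abs]
      rcases le_or_gt 0 j with hj | hj
      · have e2 : ρ ^ j.natAbs - ρ ^ j = 0 := by
          have : (j.natAbs : ℤ) = j := by omega
          rw [← zpow_natCast ρ j.natAbs, this, sub_self]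
        rw [e2, abs_zero, mul_zero]
        exact eps_term_nonneg hr h1 h2 _
      · have e3 : ρ ^ j = (ρ ^ j.natAbs)⁻¹ := by
          have : (j.natAbs : ℤ) = -j := by omega
          rw [← zpow_natCast ρ j.natAbs, this, zpow_neg, inv_inv]
        rw [e3, eps_term_eq]
        have h4 : ρ ^ j.natAbs ≤ 1 := pow_le_one₀ hρ.le h2.le
        have h5 : 1 ≤ (ρ ^ j.natAbs)⁻¹ := (one_le_inv₀ (by positivity)).2 h4
        have h6 : |ρ ^ j.natAbs - (ρ ^ j.natAbs)⁻¹| = (ρ ^ j.natAbs)⁻¹ - ρ ^ j.natAbs := by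
          rw [abs_sub_comm, abs_of_nonneg (by linarith)]
        rw [h6]
        exact mul_le_mul_of_nonneg_right (hcb.neg hr hj.le) (by linarith)
    have h3 := hf.2 _ hmem
    calc ‖Fr r a ρ (true, z)‖ ≤ ‖f ((ρ : ℂ) * z)‖ +
          ‖Fr r a ρ (true, z) - f ((ρ : ℂ) * z)‖ := by
          have := norm_add_le (f ((ρ : ℂ) * z)) (Fr r a ρ (true, z) - f ((ρ : ℂ) * z))
          simpa using this
      _ ≤ 1 + eps r ρ := add_le_add h3 hb

lemma eps_tendsto {r : ℝ} (hr : 0 < r) (hr1 : r < 1) :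
    Tendsto (fun ρ => eps r ρ) (𝓝[<] 1) (𝓝 0) := by
  obtain ⟨ρ0, h1, h2⟩ := exists_between hr1
  have hρ0 : 0 < ρ0 := hr.trans h1
  have hq : r / ρ0 < 1 := (div_lt_one hρ0).2 h1
  have key : Tendsto (fun ρ => ∑' j : ℤ, ((r / ρ) ^ j.natAbs - (r * ρ) ^ j.natAbs)) (𝓝[<] 1)
      (𝓝 (∑' _j : ℤ, (0 : ℝ))) := by
    refine tendsto_tsum_of_dominated_convergence (bound := fun j : ℤ => (r / ρ0) ^ j.natAbs)
      (summable_natAbs (by positivity) hq) (fun j => ?_) ?_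
    · have h3 : Tendsto (fun ρ : ℝ => (r / ρ) ^ j.natAbs - (r * ρ) ^ j.natAbs) (𝓝 1)
          (𝓝 ((r / 1) ^ j.natAbs - (r * 1) ^ j.natAbs)) := by
        refine Tendsto.sub ?_ ?_
        · exact (tendsto_const_nhds.div tendsto_id one_ne_zero).pow _
        · exact (tendsto_const_nhds.mul tendsto_id).pow _
      rw [div_one, mul_one, sub_self] at h3
      exact h3.mono_left nhdsWithin_le_nhds
    · have : Ioo ρ0 1 ∈ 𝓝[<] (1:ℝ) := Ioo_mem_nhdsLT h2
      filter_upwards [this] with ρ hρ j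
      have hρp : 0 < ρ := hρ0.trans hρ.1
      have h4 := eps_term_nonneg hr (h1.trans hρ.1) hρ.2 j.natAbs
      rw [Real.norm_of_nonneg h4]
      have h5 : 0 ≤ (r * ρ) ^ j.natAbs := by positivity
      have h6 : (r / ρ) ^ j.natAbs ≤ (r / ρ0) ^ j.natAbs := by
        apply pow_le_pow_left₀ (by positivity)
        exact div_le_div_of_nonneg_left hr.le hρ0 hρ.1.le
      linarith
  simpa [eps] using key

/-- Abel summation -/
lemma abel_limit {y : ℤ → ℂ} (hy : Summable fun j => ‖y j‖) :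
    Tendsto (fun ρ : ℝ => ∑' j : ℤ, ((ρ ^ j.natAbs : ℝ) : ℂ) * y j) (𝓝[<] 1)
      (𝓝 (∑' j, y j)) := by
  refine tendsto_tsum_of_dominated_convergence (bound := fun j => ‖y j‖) hy (fun j => ?_) ?_
  · have h3 : Tendsto (fun ρ : ℝ => ((ρ ^ j.natAbs : ℝ) : ℂ) * y j) (𝓝 1)
        (𝓝 (((1 ^ j.natAbs : ℝ) : ℂ) * y j)) := by
      refine Tendsto.mul_const _ ?_
      exact (Complex.continuous_ofReal.tendsto _).comp ((continuous_pow _).tendsto 1)
    rw [one_pow, Complex.ofReal_one, one_mul] at h3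
    exact h3.mono_left nhdsWithin_le_nhds
  · have : Ioo (0:ℝ) 1 ∈ 𝓝[<] (1:ℝ) := Ioo_mem_nhdsLT one_pos
    filter_upwards [this] with ρ hρ j
    rw [norm_mul, Complex.norm_real, Real.norm_of_nonneg (pow_nonneg hρ.1.le _)]
    exact mul_le_of_le_one_left (norm_nonneg _) (pow_le_one₀ hρ.1.le hρ.2.le)

/-- the radii -/
noncomputable def rho (r : ℝ) (n : ℕ) : ℝ := 1 - (1 - r) / (n + 2)

lemma rho_mem {r : ℝ} (hr1 : r < 1) (n : ℕ) : r < rho r n ∧ rho r n < 1 := by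
  unfold rho
  have h1 : 0 < 1 - r := by linarith
  have h2 : (0:ℝ) < n + 2 := by positivity
  have h3 : (1 - r) / (n + 2) < 1 - r := by
    rw [div_lt_iff₀ h2]
    have : (0:ℝ) ≤ n := Nat.cast_nonneg n
    nlinarith
  have h4 : 0 < (1 - r) / (n + 2) := by positivity
  constructor <;> linarith

lemma rho_tendsto {r : ℝ} (hr1 : r < 1) : Tendsto (rho r) atTop (𝓝[<] 1) := by
  refine tendsto_nhdsWithin_iff.2 ⟨?_, Eventually.of_forall (fun n => (rho_mem hr1 n).2)⟩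
  have h1 : Tendsto (fun n : ℕ => (1 - r) / ((n : ℝ) + 2)) atTop (𝓝 0) := by
    refine Tendsto.div_atTop tendsto_const_nhds ?_
    exact tendsto_atTop_add_const_right _ _ tendsto_natCast_atTop_atTop
  have h2 := (tendsto_const_nhds (x := (1:ℝ))).sub h1
  rw [sub_zero] at h2
  exact h2

/-- the normalised approximations -/
noncomputable def gn (r : ℝ) (a : ℤ → ℂ) (n : ℕ) : C(KK, ℂ) :=
  (((1 + eps r (rho r n))⁻¹ : ℝ) : ℂ) • Fr r a (rho r n)

lemma gn_norm {r : ℝ} (hr : 0 < r) (hr1 : r < 1) {f : ℂ → ℂ} {a : ℤ → ℂ}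
    (hf : IsB r f) (hL : IsLaurent r f a) (n : ℕ) : ‖gn r a n‖ ≤ 1 := by
  obtain ⟨h1, h2⟩ := rho_mem hr1 n
  have h3 := Fr_norm_le hr h1 h2 hf hL
  have h4 : 0 < 1 + eps r (rho r n) := by
    have := eps_nonneg hr h1 h2
    linarith
  unfold gn
  rw [norm_smul, Complex.norm_real, Real.norm_of_nonneg (inv_pos.2 h4).le, inv_mul_le_iff₀ h4,
    mul_one]
  exact h3

lemma fac_tendsto {r : ℝ} (hr : 0 < r) (hr1 : r < 1) :
    Tendsto (fun n => (((1 + eps r (rho r n))⁻¹ : ℝ) : ℂ)) atTop (𝓝 1) := by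
  have h1 := (eps_tendsto hr hr1).comp (rho_tendsto hr1)
  have h2 := ((tendsto_const_nhds (x := (1:ℝ))).add h1).inv₀ (by norm_num)
  rw [add_zero, inv_one] at h2
  have h3 := (Complex.continuous_ofReal.tendsto 1).comp h2
  rw [Complex.ofReal_one] at h3
  exact h3

/-- limits along `gn` -/
lemma gn_limit {r : ℝ} (hr : 0 < r) (hr1 : r < 1) {f : ℂ → ℂ} {a : ℤ → ℂ}
    (hf : IsB r f) (hL : IsLaurent r f a) (T : C(KK, ℂ) →L[ℂ] ℂ) (φ : C(KK, ℂ))
    (hs : Summable fun j => ‖a j * T (EE r j * φ)‖) :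
    Tendsto (fun n => T (gn r a n * φ)) atTop (𝓝 (∑' j, a j * T (EE r j * φ))) := by
  have hcb := cb_of hr hr1 hf hL
  have h1 := (abel_limit hs).comp (rho_tendsto hr1)
  have h2 := (fac_tendsto hr hr1).mul h1
  rw [one_mul] at h2
  refine h2.congr (fun n => ?_)
  obtain ⟨h3, h4⟩ := rho_mem hr1 n
  unfold gn
  rw [smul_mul_assoc, map_smul, smul_eq_mul, Fr_apply hr hcb (hr.trans h3).le h4]
  rfl

end Run7.h331
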