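import Pool.Agent.Run7.h331.Defs

open Complex MeasureTheory Filter Topology Set

namespace Run7.h331

/-- the exponential `e^{ikθ}` -/
noncomputable def ex (k : ℤ) (θ : ℝ) : ℂ := Complex.exp (θ * I) ^ k

lemma norm_ex (k : ℤ) (θ : ℝ) : ‖ex k θ‖ = 1 := by
  simp [ex, Complex.norm_exp_ofReal_mul_I]

lemma ex_continuous (k : ℤ) : Continuous (ex k) := by
  unfold ex
  refine Continuous.zpow₀ (by fun_prop) k (fun a => Or.inl (Complex.exp_ne_zero _))

lemma ex_mul (k l : ℤ) (θ : ℝ) : ex k θ * ex l θ = ex (k + l) θ := by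
  unfold ex
  rw [zpow_add₀ (Complex.exp_ne_zero _)]

lemma ex_zero (θ : ℝ) : ex 0 θ = 1 := by simp [ex]

lemma ex_conj (k : ℤ) (θ : ℝ) : (starRingEnd ℂ) (ex k θ) = ex (-k) θ := by
  unfold ex
  rw [map_zpow₀, ← Complex.exp_conj, map_mul, Complex.conj_ofReal, Complex.conj_I, zpow_neg,
    mul_neg, Complex.exp_neg, inv_zpow]

lemma ex_eq_exp (k : ℤ) (θ : ℝ) : ex k θ = Complex.exp (((k : ℂ) * I) * θ) := by
  unfold ex
  rw [← Complex.exp_int_mul]
  congr 1
  ring

lemma int_ex (k : ℤ) : (∫ θ in (0:ℝ)..2 * Real.pi, ex k θ) = if k = 0 then (2 * Real.pi : ℂ) else 0 := by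
  split_ifs with h
  · subst h
    simp [ex]
  · have h1 : ((k : ℂ) * I) ≠ 0 := by
      simp [h]
    have : (∫ θ in (0:ℝ)..2 * Real.pi, ex k θ) =
        ∫ θ in (0:ℝ)..2 * Real.pi, Complex.exp (((k : ℂ) * I) * θ) := by
      refine intervalIntegral.integral_congr (fun θ _ => ex_eq_exp k θ)
    rw [this, integral_exp_mul_complex h1]
    have h2 : Complex.exp ((k : ℂ) * I * ((2 * Real.pi : ℝ) : ℂ)) = 1 := by
      have := Complex.exp_int_mul_two_pi_mul_I k
      rw [← this]
      congr 1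
      push_cast
      ring
    rw [h2]
    simp

/-- the sum of an absolutely convergent trigonometric series -/
noncomputable def ts (a : ℤ → ℂ) (θ : ℝ) : ℂ := ∑' k, a k * ex k θ

lemma summable_ts {a : ℤ → ℂ} (ha : Summable fun k => ‖a k‖) (θ : ℝ) :
    Summable fun k => a k * ex k θ := by
  refine Summable.of_norm ?_
  simpa [norm_ex] using ha

lemma ts_continuous {a : ℤ → ℂ} (ha : Summable fun k => ‖a k‖) : Continuous (ts a) := by
  refine continuous_tsum (fun k => continuous_const.mul (ex_continuous k)) ha (fun k θ => ?_)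
  simp [norm_ex]

/-- termwise integration -/
lemma int_ts_mul {a : ℤ → ℂ} (ha : Summable fun k => ‖a k‖) {g : ℝ → ℂ} (hg : Continuous g) :
    HasSum (fun k => a k * ∫ θ in (0:ℝ)..2 * Real.pi, ex k θ * g θ)
      (∫ θ in (0:ℝ)..2 * Real.pi, ts a θ * g θ) := by
  obtain ⟨C, hC⟩ : ∃ C, ∀ θ ∈ uIcc (0:ℝ) (2 * Real.pi), ‖g θ‖ ≤ C :=
    (isCompact_uIcc.exists_bound_of_continuousOn hg.continuousOn)
  have key : HasSum (fun k => ∫ θ in (0:ℝ)..2 * Real.pi, a k * ex k θ * g θ)
      (∫ θ in (0:ℝ)..2 * Real.pi, ts a θ * g θ) := by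
    refine intervalIntegral.hasSum_integral_of_dominated_convergence
      (fun k _ => ‖a k‖ * C) (fun k => ?_) (fun k => ?_) ?_ ?_ ?_
    · exact (Continuous.mul (continuous_const.mul (ex_continuous k)) hg).aestronglyMeasurable
    · refine Eventually.of_forall (fun θ hθ => ?_)
      rw [norm_mul, norm_mul, norm_ex, mul_one]
      exact mul_le_mul_of_nonneg_left (hC θ (uIoc_subset_uIcc hθ)) (norm_nonneg _)
    · exact Eventually.of_forall (fun θ _ => ha.mul_right C)
    · exact intervalIntegrable_const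
    · refine Eventually.of_forall (fun θ _ => ?_)
      exact (summable_ts ha θ).hasSum.mul_right (g θ)
  convert key using 2 with k
  rw [← intervalIntegral.integral_const_mul]
  refine intervalIntegral.integral_congr (fun θ _ => ?_)
  ring

lemma int_ts_ex {a : ℤ → ℂ} (ha : Summable fun k => ‖a k‖) (n : ℤ) :
    (∫ θ in (0:ℝ)..2 * Real.pi, ts a θ * ex (-n) θ) = 2 * Real.pi * a n := by
  have h := int_ts_mul ha (ex_continuous (-n))
  rw [← h.tsum_eq, tsum_eq_single n]
  · simp only [ex_mul]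
    rw [int_ex, if_pos (by ring)]
    ring
  · intro k hk
    simp only [ex_mul]
    rw [int_ex, if_neg (by omega), mul_zero]

end Run7.h331
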