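import Pool.Agent.Run7.h331.Struct

/-!
Sufficiency of the two-sided type.
-/

open Filter Topology Complex Set MeasureTheory

set_option maxHeartbeats 400000

namespace Run7.h331

lemma closedAnn_isCompact (r : ℝ) : IsCompact (closedAnn r) := by
  refine Metric.isCompact_of_isClosed_isBounded ?_ ?_
  · exact (isClosed_le continuous_const continuous_norm).inter
      (isClosed_le continuous_norm continuous_const)
  · refine (Metric.isBounded_closedBall (x := (0:ℂ)) (r := 1)).subset (fun z hz => ?_)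
    rw [Metric.mem_closedBall, dist_zero_right]
    exact hz.2

lemma circ_mem_closedAnn {r ρ : ℝ} (hr : 0 ≤ r) (h1 : r ≤ ρ) (h2 : ρ ≤ 1) (θ : ℝ) :
    (ρ : ℂ) * ex 1 θ ∈ closedAnn r := by
  refine ⟨?_, ?_⟩ <;> rw [norm_circ (hr.trans h1)] <;> assumption

/-- continuity of circle integrals -/
lemma circle_int_tendsto {E : Type*} [NormedAddCommGroup E] [NormedSpace ℝ E] {r ρ0 : ℝ}
    (hr : 0 ≤ r) (h1 : r ≤ ρ0) (h2 : ρ0 ≤ 1) {φ : ℂ → E}
    (hφ : ∀ z ∈ closedAnn r, ContinuousAt φ z) :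
    Tendsto (fun ρ : ℝ => ∫ θ in (0:ℝ)..2 * Real.pi, φ ((ρ : ℂ) * ex 1 θ)) (𝓝[Ioo r 1] ρ0)
      (𝓝 (∫ θ in (0:ℝ)..2 * Real.pi, φ ((ρ0 : ℂ) * ex 1 θ))) := by
  have hc : ContinuousOn φ (closedAnn r) := fun z hz => (hφ z hz).continuousWithinAt
  obtain ⟨C, hC⟩ := (closedAnn_isCompact r).exists_bound_of_continuousOn hc
  have hcont : ∀ ρ ∈ Ioo r 1, Continuous fun θ : ℝ => φ ((ρ : ℂ) * ex 1 θ) := by
    intro ρ hρ
    exact hc.comp_continuous (continuous_const.mul (ex_continuous 1))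
      (fun θ => circ_mem_closedAnn hr hρ.1.le hρ.2.le θ)
  refine intervalIntegral.tendsto_integral_filter_of_dominated_convergence (fun _ => C) ?_ ?_ ?_ ?_
  · filter_upwards [self_mem_nhdsWithin] with ρ hρ
    exact (hcont ρ hρ).aestronglyMeasurable
  · filter_upwards [self_mem_nhdsWithin] with ρ hρ
    refine Eventually.of_forall (fun θ _ => ?_)
    exact hC _ (circ_mem_closedAnn hr hρ.1.le hρ.2.le θ)
  · exact intervalIntegrable_const
  · refine Eventually.of_forall (fun θ _ => ?_)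
    have h3 : Tendsto (fun ρ : ℝ => (ρ : ℂ) * ex 1 θ) (𝓝 ρ0) (𝓝 ((ρ0 : ℂ) * ex 1 θ)) :=
      (Complex.continuous_ofReal.tendsto _).mul_const _
    exact (hφ _ (circ_mem_closedAnn hr h1 h2 θ)).tendsto.comp (h3.mono_left nhdsWithin_le_nhds)

lemma Ioo_neBot_left {r : ℝ} (h : r < 1) : (𝓝[Ioo r 1] r).NeBot := left_nhdsWithin_Ioo_neBot h

lemma Ioo_neBot_right {r : ℝ} (h : r < 1) : (𝓝[Ioo r 1] (1:ℝ)).NeBot :=
  right_nhdsWithin_Ioo_neBot h

/-- the mean of a product -/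
lemma exists_mean {r : ℝ} (hr : 0 < r) (hr1 : r < 1) {g : ℂ → ℂ} {b : ℤ → ℂ} (hg : IsB r g)
    (hb : IsLaurent r g b) {u : ℂ → ℂ} (hu : AnalyticOnNhd ℂ u (closedAnn r)) :
    ∃ A : ℂ, (∀ ρ ∈ Ioo r 1, (∫ θ in (0:ℝ)..2 * Real.pi,
        g ((ρ : ℂ) * ex 1 θ) * u ((ρ : ℂ) * ex 1 θ)) = A) ∧
      (‖A‖ ≤ ∫ θ in (0:ℝ)..2 * Real.pi, ‖u (((1:ℝ) : ℂ) * ex 1 θ)‖) ∧
      (‖A‖ ≤ ∫ θ in (0:ℝ)..2 * Real.pi, ‖u ((r : ℂ) * ex 1 θ)‖) ∧
      ∀ F : ℂ → ℂ, AnalyticOnNhd ℂ F (closedAnn r) → (∀ z ∈ annulus r, F z = g z) →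
        A = (∫ θ in (0:ℝ)..2 * Real.pi, F (((1:ℝ) : ℂ) * ex 1 θ) * u (((1:ℝ) : ℂ) * ex 1 θ)) ∧
        A = (∫ θ in (0:ℝ)..2 * Real.pi, F ((r : ℂ) * ex 1 θ) * u ((r : ℂ) * ex 1 θ)) := by
  have hud : DifferentiableOn ℂ u (ring r 1) := fun z hz =>
    (hu z ⟨hz.1.le, hz.2.le⟩).differentiableAt.differentiableWithinAt
  obtain ⟨β, hβ⟩ := exists_hasL hr hr1 hud
  have hmul := HasL.mul hr.le (isLaurent_iff.1 hb) hβ
  have h1 : ∀ ρ ∈ Ioo r 1, (∫ θ in (0:ℝ)..2 * Real.pi,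
        g ((ρ : ℂ) * ex 1 θ) * u ((ρ : ℂ) * ex 1 θ)) = 2 * Real.pi * conv b β 0 := by
    intro ρ hρ
    have h3 := hmul.integral (hr.trans hρ.1).le hρ.1 hρ.2 0
    simpa [ex_zero] using h3
  have hle : ∀ ρ ∈ Ioo r 1, ‖(2 * Real.pi * conv b β 0 : ℂ)‖ ≤
      ∫ θ in (0:ℝ)..2 * Real.pi, ‖u ((ρ : ℂ) * ex 1 θ)‖ := by
    intro ρ hρ
    have hρ0 : 0 ≤ ρ := (hr.trans hρ.1).le
    have hcu : Continuous fun θ : ℝ => u ((ρ : ℂ) * ex 1 θ) :=
      hud.continuousOn.comp_continuous (continuous_const.mul (ex_continuous 1))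
        (fun θ => circ_mem hρ0 hρ.1 hρ.2 θ)
    have hcg : Continuous fun θ : ℝ => g ((ρ : ℂ) * ex 1 θ) :=
      hg.1.continuousOn.comp_continuous (continuous_const.mul (ex_continuous 1))
        (fun θ => circ_mem hρ0 hρ.1 hρ.2 θ)
    have hp : (0:ℝ) ≤ 2 * Real.pi := by positivity
    rw [← h1 ρ hρ]
    refine (intervalIntegral.norm_integral_le_integral_norm hp).trans ?_
    refine intervalIntegral.integral_mono_on hp ((hcg.mul hcu).norm.intervalIntegrable _ _)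
      (hcu.norm.intervalIntegrable _ _) (fun θ _ => ?_)
    rw [norm_mul]
    exact mul_le_of_le_one_left (norm_nonneg _) (hg.2 _ (circ_mem hρ0 hρ.1 hρ.2 θ))
  have hun : ∀ z ∈ closedAnn r, ContinuousAt (fun z => ‖u z‖) z :=
    fun z hz => (hu z hz).continuousAt.norm
  have := Ioo_neBot_left hr1
  have := Ioo_neBot_right hr1
  refine ⟨2 * Real.pi * conv b β 0, h1, ?_, ?_, fun F hF hFg => ?_⟩
  · refine ge_of_tendsto (circle_int_tendsto hr.le hr1.le le_rfl hun) ?_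
    filter_upwards [self_mem_nhdsWithin] with ρ hρ
    exact hle ρ hρ
  · refine ge_of_tendsto (circle_int_tendsto hr.le le_rfl hr1.le hun) ?_
    filter_upwards [self_mem_nhdsWithin] with ρ hρ
    exact hle ρ hρ
  · have hFu : ∀ z ∈ closedAnn r, ContinuousAt (fun z => F z * u z) z :=
      fun z hz => (hF z hz).continuousAt.mul (hu z hz).continuousAt
    have h4 : ∀ ρ ∈ Ioo r 1, (∫ θ in (0:ℝ)..2 * Real.pi,
        F ((ρ : ℂ) * ex 1 θ) * u ((ρ : ℂ) * ex 1 θ)) = 2 * Real.pi * conv b β 0 := by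
      intro ρ hρ
      rw [← h1 ρ hρ]
      refine intervalIntegral.integral_congr (fun θ _ => ?_)
      rw [hFg _ (circ_mem (hr.trans hρ.1).le hρ.1 hρ.2 θ)]
    constructor
    · refine tendsto_nhds_unique ?_ (circle_int_tendsto hr.le hr1.le le_rfl hFu)
      refine tendsto_const_nhds.congr' ?_
      filter_upwards [self_mem_nhdsWithin] with ρ hρ
      exact (h4 ρ hρ).symm
    · refine tendsto_nhds_unique ?_ (circle_int_tendsto hr.le le_rfl hr1.le hFu)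
      refine tendsto_const_nhds.congr' ?_
      filter_upwards [self_mem_nhdsWithin] with ρ hρ
      exact (h4 ρ hρ).symm

/-- the functional as a circle integral -/
lemma Lc_integral {r : ℝ} (hr : 0 < r) (S : Finset ℤ) (c : ℤ → ℂ) {g : ℂ → ℂ}
    {b : ℤ → ℂ} (hb : IsLaurent r g b) {ρ : ℝ} (hρ : ρ ∈ Ioo r 1) :
    (∫ θ in (0:ℝ)..2 * Real.pi, g ((ρ : ℂ) * ex 1 θ) * QL S c ((ρ : ℂ) * ex 1 θ)) =
      2 * Real.pi * Lc S c b := by
  have hQ : HasL r 1 (QL S c) (fun k : ℤ => if -k ∈ S then c (-k) else 0) :=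
    fun z _ => Pack.hasSum_QL S c z
  have h3 := (HasL.mul hr.le (isLaurent_iff.1 hb) hQ).integral (hr.trans hρ.1).le hρ.1 hρ.2 0
  have h4 : conv b (fun k : ℤ => if -k ∈ S then c (-k) else 0) 0 = Lc S c b := by
    unfold conv Lc
    rw [tsum_eq_sum (s := S)]
    · refine Finset.sum_congr rfl (fun k hk => ?_)
      have : -(0 - k) = k := by ring
      simp only [this]
      rw [if_pos hk, mul_comm]
    · intro k hk
      have : -(0 - k) = k := by ring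
      simp only [this]
      rw [if_neg hk, mul_zero]
  rw [h4] at h3
  simpa [ex_zero] using h3

/-- the two-sided type is sufficient -/
theorem isMax_of_typeT {r : ℝ} (hr : 0 < r) (hr1 : r < 1) (S : Finset ℤ) (c : ℤ → ℂ) {f : ℂ → ℂ}
    {a : ℤ → ℂ} (hf : IsB r f) (hL : IsLaurent r f a) (hT : TypeT r S c f) : IsMax r S c a := by
  obtain ⟨F, h₁, h₂, hF, hh₁, hh₂, hFf, hQ, hout, hin⟩ := hT
  have key : ∀ (g : ℂ → ℂ) (b : ℤ → ℂ), IsB r g → IsLaurent r g b → ∃ A₁ A₂ : ℂ,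
      2 * Real.pi * Lc S c b = A₁ + A₂ ∧
      (‖A₁‖ ≤ ∫ θ in (0:ℝ)..2 * Real.pi, ‖h₁ (((1:ℝ) : ℂ) * ex 1 θ)‖) ∧
      (‖A₂‖ ≤ ∫ θ in (0:ℝ)..2 * Real.pi, ‖h₂ ((r : ℂ) * ex 1 θ)‖) ∧
      (∀ F : ℂ → ℂ, AnalyticOnNhd ℂ F (closedAnn r) → (∀ z ∈ annulus r, F z = g z) →
        A₁ = (∫ θ in (0:ℝ)..2 * Real.pi, F (((1:ℝ) : ℂ) * ex 1 θ) * h₁ (((1:ℝ) : ℂ) * ex 1 θ)) ∧
        A₂ = (∫ θ in (0:ℝ)..2 * Real.pi, F ((r : ℂ) * ex 1 θ) * h₂ ((r : ℂ) * ex 1 θ))) := by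
    intro g b hg hb
    obtain ⟨A₁, e₁, b₁, -, c₁⟩ := exists_mean hr hr1 hg hb hh₁
    obtain ⟨A₂, e₂, -, b₂, c₂⟩ := exists_mean hr hr1 hg hb hh₂
    refine ⟨A₁, A₂, ?_, b₁, b₂, fun F hF hFg => ⟨(c₁ F hF hFg).1, (c₂ F hF hFg).2⟩⟩
    obtain ⟨ρ, h1, h2⟩ := exists_between hr1
    have hρ0 : 0 ≤ ρ := (hr.trans h1).le
    rw [← Lc_integral hr S c hb ⟨h1, h2⟩, ← e₁ ρ ⟨h1, h2⟩, ← e₂ ρ ⟨h1, h2⟩,
      ← intervalIntegral.integral_add]
    · refine intervalIntegral.integral_congr (fun θ _ => ?_)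
      rw [← hQ _ (circ_mem_closedAnn hr.le h1.le h2.le θ)]
      ring
    · refine Continuous.intervalIntegrable ?_ _ _
      have hcg : Continuous fun θ : ℝ => g ((ρ : ℂ) * ex 1 θ) :=
        hg.1.continuousOn.comp_continuous (continuous_const.mul (ex_continuous 1))
          (fun θ => circ_mem hρ0 h1 h2 θ)
      have hcu : Continuous fun θ : ℝ => h₁ ((ρ : ℂ) * ex 1 θ) :=
        hh₁.continuousOn.comp_continuous (continuous_const.mul (ex_continuous 1))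
          (fun θ => circ_mem_closedAnn hr.le h1.le h2.le θ)
      exact hcg.mul hcu
    · refine Continuous.intervalIntegrable ?_ _ _
      have hcg : Continuous fun θ : ℝ => g ((ρ : ℂ) * ex 1 θ) :=
        hg.1.continuousOn.comp_continuous (continuous_const.mul (ex_continuous 1))
          (fun θ => circ_mem hρ0 h1 h2 θ)
      have hcu : Continuous fun θ : ℝ => h₂ ((ρ : ℂ) * ex 1 θ) :=
        hh₂.continuousOn.comp_continuous (continuous_const.mul (ex_continuous 1))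
          (fun θ => circ_mem_closedAnn hr.le h1.le h2.le θ)
      exact hcg.mul hcu
  have hp : (0:ℝ) < 2 * Real.pi := by positivity
  have hre : ∀ w : ℂ, (2 * Real.pi * w : ℂ).re = 2 * Real.pi * w.re := by
    intro w
    have : (2 * Real.pi * w : ℂ) = ((2 * Real.pi : ℝ) : ℂ) * w := by push_cast; ring
    rw [this, Complex.re_ofReal_mul]
  -- the value for `f`
  have hval : 2 * Real.pi * (Lc S c a).re =
      (∫ θ in (0:ℝ)..2 * Real.pi, ‖h₁ (((1:ℝ) : ℂ) * ex 1 θ)‖) +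
      ∫ θ in (0:ℝ)..2 * Real.pi, ‖h₂ ((r : ℂ) * ex 1 θ)‖ := by
    obtain ⟨A₁, A₂, e, -, -, hc⟩ := key f a hf hL
    obtain ⟨e₁, e₂⟩ := hc F hF hFf
    have i₁ : A₁ = ((∫ θ in (0:ℝ)..2 * Real.pi, ‖h₁ (((1:ℝ) : ℂ) * ex 1 θ)‖ : ℝ) : ℂ) := by
      rw [e₁, ← intervalIntegral.integral_ofReal]
      refine intervalIntegral.integral_congr (fun θ _ => ?_)
      exact (hout _ (norm_circ zero_le_one θ)).2
    have i₂ : A₂ = ((∫ θ in (0:ℝ)..2 * Real.pi, ‖h₂ ((r : ℂ) * ex 1 θ)‖ : ℝ) : ℂ) := by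
      rw [e₂, ← intervalIntegral.integral_ofReal]
      refine intervalIntegral.integral_congr (fun θ _ => ?_)
      exact (hin _ (norm_circ hr.le θ)).2
    rw [← hre, e, i₁, i₂, ← Complex.ofReal_add, Complex.ofReal_re]
  intro g b hg hb
  obtain ⟨A₁, A₂, e, b₁, b₂, -⟩ := key g b hg hb
  have h3 : 2 * Real.pi * (Lc S c b).re ≤ 2 * Real.pi * (Lc S c a).re := by
    rw [hval, ← hre, e, Complex.add_re]
    exact add_le_add ((Complex.re_le_norm A₁).trans b₁) ((Complex.re_le_norm A₂).trans b₂)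
  exact le_of_mul_le_mul_left h3 hp

end Run7.h331
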