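import Pool.Agent.Run7.h331.Theta
import Pool.Agent.Run7.h331.Dual

/-!
Functions analytic on the closed annulus and unimodular on both boundary circles.
-/

open Filter Topology Complex Set MeasureTheory

set_option maxHeartbeats 400000

namespace Run7.h331

lemma closedAnn_isPreconnected {r : ℝ} (hr : 0 ≤ r) : IsPreconnected (closedAnn r) := by
  have h1 : IsPreconnected ((Icc r 1) ×ˢ (univ : Set ℝ)) :=
    isPreconnected_Icc.prod isPreconnected_univ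
  have h2 : closedAnn r = (fun p : ℝ × ℝ => (p.1 : ℂ) * ex 1 p.2) '' ((Icc r 1) ×ˢ univ) := by
    ext z
    constructor
    · intro hz
      obtain ⟨θ, hθ⟩ := exists_circ z
      exact ⟨(‖z‖, θ), ⟨hz, mem_univ _⟩, hθ.symm⟩
    · rintro ⟨⟨ρ, θ⟩, ⟨h, -⟩, rfl⟩
      exact circ_mem_closedAnn hr h.1 h.2 θ
  rw [h2]
  refine h1.image _ (Continuous.continuousOn ?_)
  exact (Complex.continuous_ofReal.comp continuous_fst).mul ((ex_continuous 1).comp continuous_snd)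

/-- extension of an identity to the closed annulus -/
lemma eq_on_closedAnn {r : ℝ} (hr : 0 ≤ r) (hr1 : r < 1) {u v : ℂ → ℂ}
    (hu : ∀ z ∈ closedAnn r, ContinuousAt u z) (hv : ∀ z ∈ closedAnn r, ContinuousAt v z)
    (h : ∀ z ∈ annulus r, u z = v z) {z : ℂ} (hz : z ∈ closedAnn r) : u z = v z := by
  obtain ⟨θ, hθ⟩ := exists_circ z
  have hcl : ‖z‖ ∈ closure (Ioo r 1) := by
    rw [closure_Ioo hr1.ne]
    exact hz
  have hNB : (𝓝[Ioo r 1] ‖z‖).NeBot := mem_closure_iff_nhdsWithin_neBot.1 hcl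
  have ht : Tendsto (fun ρ : ℝ => (ρ : ℂ) * ex 1 θ) (𝓝[Ioo r 1] ‖z‖) (𝓝 z) := by
    have h3 : Tendsto (fun ρ : ℝ => (ρ : ℂ) * ex 1 θ) (𝓝 ‖z‖) (𝓝 ((‖z‖ : ℂ) * ex 1 θ)) :=
      (Complex.continuous_ofReal.tendsto _).mul_const _
    rw [← hθ] at h3
    exact h3.mono_left nhdsWithin_le_nhds
  have h1 := (hu z hz).tendsto.comp ht
  have h2 := (hv z hz).tendsto.comp ht
  refine tendsto_nhds_unique h1 (h2.congr' ?_)
  filter_upwards [self_mem_nhdsWithin] with ρ hρ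
  exact (h _ (circ_mem (hr.trans hρ.1.le) hρ.1 hρ.2 θ)).symm

/-- Laurent coefficients through boundary integrals -/
lemma coef_boundary {r : ℝ} (hr : 0 < r) (hr1 : r < 1) {u : ℂ → ℂ} {β : ℤ → ℂ}
    (hu : AnalyticOnNhd ℂ u (closedAnn r)) (hβ : HasL r 1 u β) {ρ0 : ℝ} (h1 : r ≤ ρ0)
    (h2 : ρ0 ≤ 1) (k : ℤ) :
    (∫ θ in (0:ℝ)..2 * Real.pi, u ((ρ0 : ℂ) * ex 1 θ) * ((ρ0 : ℂ) * ex 1 θ) ^ (-k)) =
      2 * Real.pi * β k := by
  have hφ : ∀ z ∈ closedAnn r, ContinuousAt (fun z => u z * z ^ (-k)) z := by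
    intro z hz
    have hz0 : z ≠ 0 := norm_pos_iff.1 (hr.trans_le hz.1)
    exact (hu z hz).continuousAt.mul (continuousAt_zpow₀ z (-k) (Or.inl hz0))
  have hcl : ρ0 ∈ closure (Ioo r 1) := by
    rw [closure_Ioo hr1.ne]
    exact ⟨h1, h2⟩
  have hNB : (𝓝[Ioo r 1] ρ0).NeBot := mem_closure_iff_nhdsWithin_neBot.1 hcl
  refine tendsto_nhds_unique (circle_int_tendsto hr.le h1 h2 hφ) ?_
  refine tendsto_const_nhds.congr' ?_
  filter_upwards [self_mem_nhdsWithin] with ρ hρ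
  have hρ0 : 0 < ρ := hr.trans hρ.1
  have h3 := hβ.integral hρ0.le hρ.1 hρ.2 k
  have h4 : (∫ θ in (0:ℝ)..2 * Real.pi, u ((ρ : ℂ) * ex 1 θ) * ((ρ : ℂ) * ex 1 θ) ^ (-k)) =
      ((ρ ^ (-k) : ℝ) : ℂ) * ∫ θ in (0:ℝ)..2 * Real.pi, u ((ρ : ℂ) * ex 1 θ) * ex (-k) θ := by
    rw [← intervalIntegral.integral_const_mul]
    refine intervalIntegral.integral_congr (fun θ _ => ?_)
    simp only [circ_zpow]
    ring
  rw [h4, h3]
  have h5 : ((ρ ^ (-k) : ℝ) : ℂ) * ((ρ ^ k : ℝ) : ℂ) = 1 := by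
    rw [← Complex.ofReal_mul, ← zpow_add₀ hρ0.ne']; simp
  linear_combination (-(2 * Real.pi * β k) : ℂ) * h5

lemma conj_inv_of_norm {z : ℂ} {ρ : ℝ} (hz : ‖z‖ = ρ) (hρ : 0 < ρ) :
    (starRingEnd ℂ) z = ((ρ ^ 2 : ℝ) : ℂ) * z⁻¹ := by
  have hz0 : z ≠ 0 := by rw [← norm_pos_iff, hz]; exact hρ
  have : z * (starRingEnd ℂ) z = ((ρ ^ 2 : ℝ) : ℂ) := by
    rw [Complex.mul_conj, Complex.normSq_eq_norm_sq, hz]
  rw [← this]
  field_simp

lemma int_conj (f : ℝ → ℂ) (a b : ℝ) :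
    (starRingEnd ℂ) (∫ θ in a..b, f θ) = ∫ θ in a..b, (starRingEnd ℂ) (f θ) := by
  simp only [intervalIntegral, map_sub, ← integral_conj]

lemma conj_coef {r : ℝ} (hr : 0 < r) (hr1 : r < 1) {G : ℂ → ℂ} {g e : ℤ → ℂ}
    (hG : AnalyticOnNhd ℂ G (closedAnn r)) (hne : ∀ z ∈ closedAnn r, G z ≠ 0)
    (hg : HasL r 1 G g) (he : HasL r 1 (fun z => (G z)⁻¹) e) {s ρ0 : ℝ} (hs : 0 < s)
    (h1 : r ≤ ρ0) (h2 : ρ0 ≤ 1) (hn : ∀ z, ‖z‖ = ρ0 → ‖G z‖ = s) (k : ℤ) :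
    (starRingEnd ℂ) (g k) = ((s ^ 2 * ρ0 ^ (-2 * k) : ℝ) : ℂ) * e (-k) := by
  have hρ0 : 0 < ρ0 := hr.trans_le h1
  have hGi : AnalyticOnNhd ℂ (fun z => (G z)⁻¹) (closedAnn r) :=
    fun z hz => (hG z hz).fun_inv (hne z hz)
  have e1 := congrArg (starRingEnd ℂ) (coef_boundary hr hr1 hG hg h1 h2 k)
  have e2 := coef_boundary hr hr1 hGi he h1 h2 (-k)
  rw [neg_neg] at e2
  have h3 : (starRingEnd ℂ) (∫ θ in (0:ℝ)..2 * Real.pi,
      G ((ρ0 : ℂ) * ex 1 θ) * ((ρ0 : ℂ) * ex 1 θ) ^ (-k)) =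
      ((s ^ 2 * ρ0 ^ (-2 * k) : ℝ) : ℂ) * ∫ θ in (0:ℝ)..2 * Real.pi,
        (G ((ρ0 : ℂ) * ex 1 θ))⁻¹ * ((ρ0 : ℂ) * ex 1 θ) ^ k := by
    rw [← intervalIntegral.integral_const_mul, int_conj]
    refine intervalIntegral.integral_congr (fun θ _ => ?_)
    have hz : ‖(ρ0 : ℂ) * ex 1 θ‖ = ρ0 := norm_circ hρ0.le θ
    have hz0 : (ρ0 : ℂ) * ex 1 θ ≠ 0 := by rw [← norm_pos_iff, hz]; exact hρ0
    beta_reduce
    generalize (ρ0 : ℂ) * ex 1 θ = z at hz hz0 ⊢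
    rw [map_mul, map_zpow₀, conj_inv_of_norm (hn z hz) hs, conj_inv_of_norm hz hρ0, mul_zpow,
      inv_zpow, zpow_neg z, inv_inv]
    have h4 : (((ρ0 ^ 2 : ℝ) : ℂ)) ^ (-k) = ((ρ0 ^ (-2 * k) : ℝ) : ℂ) := by
      rw [← Complex.ofReal_zpow, ← zpow_natCast ρ0 2, ← zpow_mul]
      congr 2
      push_cast
      ring
    rw [h4]
    push_cast
    ring
  rw [h3, e2] at e1
  have h5 : (starRingEnd ℂ) (2 * Real.pi * g k) = 2 * Real.pi * (starRingEnd ℂ) (g k) := by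
    rw [map_mul]
    congr 1
    have : (2 * Real.pi : ℂ) = ((2 * Real.pi : ℝ) : ℂ) := by push_cast; ring
    rw [this, Complex.conj_ofReal]
  rw [h5] at e1
  refine mul_left_cancel₀ two_pi_ne ?_
  rw [← e1]
  ring

/-- a nonvanishing function with constant moduli on the two circles is a monomial -/
lemma monomial_of_const {r : ℝ} (hr : 0 < r) (hr1 : r < 1) {G : ℂ → ℂ}
    (hG : AnalyticOnNhd ℂ G (closedAnn r)) (hne : ∀ z ∈ closedAnn r, G z ≠ 0) {s t : ℝ}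
    (hs : 0 < s) (ht : 0 < t) (h1 : ∀ z, ‖z‖ = 1 → ‖G z‖ = s) (h2 : ∀ z, ‖z‖ = r → ‖G z‖ = t) :
    ∃ (c : ℂ) (m : ℤ), ∀ z ∈ closedAnn r, G z = c * z ^ m := by
  have hd : DifferentiableOn ℂ G (ring r 1) := fun z hz =>
    (hG z ⟨hz.1.le, hz.2.le⟩).differentiableAt.differentiableWithinAt
  have hGi : AnalyticOnNhd ℂ (fun z => (G z)⁻¹) (closedAnn r) :=
    fun z hz => (hG z hz).fun_inv (hne z hz)
  have hdi : DifferentiableOn ℂ (fun z => (G z)⁻¹) (ring r 1) := fun z hz =>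
    (hGi z ⟨hz.1.le, hz.2.le⟩).differentiableAt.differentiableWithinAt
  obtain ⟨g, hg⟩ := exists_hasL hr hr1 hd
  obtain ⟨e, he⟩ := exists_hasL hr hr1 hdi
  have k1 : ∀ k, (starRingEnd ℂ) (g k) = ((s ^ 2 * 1 ^ (-2 * k) : ℝ) : ℂ) * e (-k) :=
    conj_coef hr hr1 hG hne hg he hs hr1.le le_rfl h1
  have k2 : ∀ k, (starRingEnd ℂ) (g k) = ((t ^ 2 * r ^ (-2 * k) : ℝ) : ℂ) * e (-k) :=
    conj_coef hr hr1 hG hne hg he ht le_rfl hr1.le h2
  have key : ∀ k, g k ≠ 0 → s ^ 2 = t ^ 2 * r ^ (-2 * k) := by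
    intro k hk
    have hk' : (starRingEnd ℂ) (g k) ≠ 0 := (map_ne_zero _).2 hk
    have hek : e (-k) ≠ 0 := by
      intro h0
      rw [k1, h0, mul_zero] at hk'
      exact hk' rfl
    have h3 := (k1 k).symm.trans (k2 k)
    have h4 := mul_right_cancel₀ hek h3
    rw [one_zpow, mul_one] at h4
    exact_mod_cast h4
  have hex : ∃ m, g m ≠ 0 := by
    by_contra hcon
    push Not at hcon
    obtain ⟨ρ, h3, h4⟩ := exists_between hr1
    have hmem : (ρ : ℂ) * ex 1 0 ∈ ring r 1 := circ_mem (hr.trans h3).le h3 h4 0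
    have h5 := hg _ hmem
    have h6 : (fun k : ℤ => g k * ((ρ : ℂ) * ex 1 0) ^ k) = fun _ => 0 := by
      funext k; rw [hcon, zero_mul]
    rw [h6] at h5
    have h7 := h5.unique hasSum_zero
    exact hne _ ⟨hmem.1.le, hmem.2.le⟩ h7
  obtain ⟨m, hm⟩ := hex
  have hother : ∀ k, k ≠ m → g k = 0 := by
    intro k hk
    by_contra h0
    have h3 := key k h0
    have h4 := key m hm
    rw [h4] at h3
    have h5 : r ^ (-2 * m) = r ^ (-2 * k) := mul_left_cancel₀ (by positivity) h3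
    have h6 := zpow_right_injective₀ hr hr1.ne h5
    exact hk (by omega)
  refine ⟨g m, m, fun z hz => ?_⟩
  refine eq_on_closedAnn hr.le hr1 (u := G) (v := fun z => g m * z ^ m)
    (fun z hz => (hG z hz).continuousAt) (fun z hz => ?_) (fun z hz => ?_) hz
  · have hz0 : z ≠ 0 := norm_pos_iff.1 (hr.trans_le hz.1)
    exact continuousAt_const.mul (continuousAt_zpow₀ z m (Or.inl hz0))
  · have h3 := hg z hz
    refine h3.unique (hasSum_single m (fun k hk => ?_))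
    rw [hother k hk, zero_mul]

/-- extraction of the zeros -/
lemma extract_zeros {r : ℝ} (hr : 0 < r) (hr1 : r < 1) {F : ℂ → ℂ}
    (hF : AnalyticOnNhd ℂ F (closedAnn r)) (h1 : ∀ z, ‖z‖ = 1 → F z ≠ 0)
    (h2 : ∀ z, ‖z‖ = r → F z ≠ 0) :
    ∃ (Z : Finset ℂ) (m : ℂ → ℕ) (g : ℂ → ℂ), (∀ a ∈ Z, a ∈ annulus r) ∧
      AnalyticOnNhd ℂ g (closedAnn r) ∧ (∀ z ∈ closedAnn r, g z ≠ 0) ∧
      ∀ z ∈ closedAnn r, F z = (∏ a ∈ Z, (z - a) ^ m a) * g z := by
  set U := closedAnn r with hU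
  have hpre : IsPreconnected U := closedAnn_isPreconnected hr.le
  have h1U : (1:ℂ) ∈ U := ⟨by rw [norm_one]; exact hr1.le, by rw [norm_one]⟩
  have hord : ∀ u : U, meromorphicOrderAt F u ≠ ⊤ := by
    rintro ⟨u, hu⟩ htop
    rw [meromorphicOrderAt_eq_top_iff] at htop
    have h3 : F =ᶠ[𝓝 u] 0 := by
      rcases (hF u hu).eventually_eq_zero_or_eventually_ne_zero with h | h
      · exact h
      · exfalso
        obtain ⟨w, hw1, hw2⟩ := (htop.and h).exists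
        exact hw2 hw1
    have h4 := hF.eqOn_zero_of_preconnected_of_eventuallyEq_zero hpre hu h3
    exact h1 1 norm_one (h4 h1U)
  set D := MeromorphicOn.divisor F U with hD
  have hfin : D.support.Finite := D.finiteSupport (closedAnn_isCompact r)
  obtain ⟨g, hg, hgne, heq⟩ := hF.meromorphicOn.extract_zeros_poles hord hfin
  have hDnn : ∀ z, 0 ≤ D z := by
    intro z
    exact (MeromorphicOn.AnalyticOnNhd.divisor_nonneg hF) z
  have hprod : (∏ᶠ u, (fun z : ℂ => z - u) ^ D u) =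
      fun z => ∏ a ∈ hfin.toFinset, (z - a) ^ (D a).toNat := by
    rw [Function.FactorizedRational.finprod_eq_fun hfin]
    funext z
    rw [finprod_eq_prod_of_mulSupport_subset (s := hfin.toFinset)]
    · refine Finset.prod_congr rfl (fun a _ => ?_)
      rw [← zpow_natCast, Int.toNat_of_nonneg (hDnn a)]
    · intro u hu
      rw [Set.Finite.coe_toFinset, Function.mem_support]
      intro h0
      rw [Function.mem_mulSupport, h0, zpow_zero] at hu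
      exact hu rfl
  refine ⟨hfin.toFinset, fun a => (D a).toNat, g, ?_, hg, fun z hz => hgne ⟨z, hz⟩, ?_⟩
  · intro a ha
    rw [Set.Finite.mem_toFinset] at ha
    have haU : a ∈ U := D.supportWithinDomain ha
    have hFa : F a = 0 := by
      by_contra h0
      have h3 : D a = 0 := by
        rw [hD, MeromorphicOn.divisor_apply hF.meromorphicOn haU,
          (hF a haU).meromorphicOrderAt_eq, (hF a haU).analyticOrderAt_eq_zero.2 h0]
        simp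
      exact ha h3
    refine ⟨lt_of_le_of_ne haU.1 (fun h => h2 a h.symm hFa),
      lt_of_le_of_ne haU.2 (fun h => h1 a h hFa)⟩
  · intro z hz
    have hpc : ∀ w : ℂ, ContinuousAt (fun z => ∏ a ∈ hfin.toFinset, (z - a) ^ (D a).toNat) w := by
      intro w
      refine Continuous.continuousAt ?_
      fun_prop
    refine eq_on_closedAnn hr.le hr1 (u := F)
      (v := fun z => (∏ a ∈ hfin.toFinset, (z - a) ^ (D a).toNat) * g z)
      (fun z hz => (hF z hz).continuousAt) (fun z hz => (hpc z).mul (hg z hz).continuousAt)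
      (fun z hz => ?_) hz
    have hzU : z ∈ U := ⟨hz.1.le, hz.2.le⟩
    have h3 : ∀ᶠ w in 𝓝[≠] z, F w = (∏ a ∈ hfin.toFinset, (w - a) ^ (D a).toNat) * g w := by
      have h4 := mem_codiscreteWithin_iff_forall_mem_nhdsNE.1 heq z hzU
      have h5 : ∀ᶠ w in 𝓝[≠] z, w ∈ annulus r :=
        nhdsWithin_le_nhds ((annulus_isOpen r).mem_nhds hz)
      filter_upwards [h4, h5] with w hw1 hw2
      rcases hw1 with hw | hw
      · have h6 : F w = ((∏ᶠ u, (fun z : ℂ => z - u) ^ D u) • g) w := hw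
        rw [h6, Pi.smul_apply', hprod, smul_eq_mul]
      · exact absurd ⟨hw2.1.le, hw2.2.le⟩ hw
    have h6 : Tendsto F (𝓝[≠] z) (𝓝 (F z)) :=
      (hF z hzU).continuousAt.mono_left nhdsWithin_le_nhds
    have h7 : Tendsto (fun z => (∏ a ∈ hfin.toFinset, (z - a) ^ (D a).toNat) * g z) (𝓝[≠] z)
        (𝓝 ((∏ a ∈ hfin.toFinset, (z - a) ^ (D a).toNat) * g z)) :=
      ((hpc z).mul (hg z hzU).continuousAt).mono_left nhdsWithin_le_nhds
    refine tendsto_nhds_unique h6 (h7.congr' ?_)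
    filter_upwards [h3] with w hw
    exact hw.symm

end Run7.h331
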