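import Pool.Agent.Run7.h331.Blaschke

/-!
The product formula for functions unimodular on both boundary circles.
-/

open Filter Topology Complex Set MeasureTheory

set_option maxHeartbeats 400000

namespace Run7.h331

/-- the finite product with zeros `a j` -/
noncomputable def aprod (r : ℝ) (κ : ℂ) (p : ℤ) {n : ℕ} (a : Fin n → ℂ) (z : ℂ) : ℂ :=
  κ * (r / z) ^ p * ∏ j, bl r (a j) z

lemma list_exists (Z : Finset ℂ) (m : ℂ → ℕ) :
    ∃ l : List ℂ, (∀ x ∈ l, x ∈ Z) ∧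
      (∀ φ : ℂ → ℂ, (l.map φ).prod = ∏ a ∈ Z, φ a ^ m a) ∧
      ∀ φ : ℂ → ℝ, (l.map φ).prod = ∏ a ∈ Z, φ a ^ m a := by
  classical
  induction Z using Finset.induction_on with
  | empty => exact ⟨[], by simp, by simp, by simp⟩
  | insert a Z ha ih =>
    obtain ⟨l, h1, h2, h3⟩ := ih
    refine ⟨List.replicate (m a) a ++ l, fun x hx => ?_, fun φ => ?_, fun φ => ?_⟩
    · rw [List.mem_append] at hx
      rcases hx with hx | hx
      · rw [List.eq_of_mem_replicate hx]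
        exact Finset.mem_insert_self a Z
      · exact Finset.mem_insert_of_mem (h1 x hx)
    · rw [List.map_append, List.prod_append, List.map_replicate, List.prod_replicate, h2,
        Finset.prod_insert ha]
    · rw [List.map_append, List.prod_append, List.map_replicate, List.prod_replicate, h3,
        Finset.prod_insert ha]

section

variable {r : ℝ} (hr : 0 < r) (hr1 : r < 1)

include hr hr1

/-- the product formula -/
theorem exists_aprod {F : ℂ → ℂ} (hF : AnalyticOnNhd ℂ F (closedAnn r))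
    (h1 : ∀ z, ‖z‖ = 1 → ‖F z‖ = 1) (h2 : ∀ z, ‖z‖ = r → ‖F z‖ = 1) :
    ∃ (κ : ℂ) (p : ℤ) (n : ℕ) (a : Fin n → ℂ), ‖κ‖ = 1 ∧ (∀ j, a j ∈ annulus r) ∧
      ∏ j, ‖a j‖ = r ^ p ∧ ∀ z ∈ closedAnn r, F z = aprod r κ p a z := by
  obtain ⟨Z, m, g, hZ, hg, hgne, hFg⟩ := extract_zeros hr hr1 hF
    (fun z hz h => by have := h1 z hz; rw [h, norm_zero] at this; exact zero_ne_one this)
    (fun z hz h => by have := h2 z hz; rw [h, norm_zero] at this; exact zero_ne_one this)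
  set G : ℂ → ℂ := fun z => g z * ∏ a ∈ Z, ((cof r a z) ^ m a)⁻¹ with hG
  have hcofne : ∀ z ∈ closedAnn r, ∀ a ∈ Z, (cof r a z) ^ m a ≠ 0 :=
    fun z hz a ha => pow_ne_zero _ (cof_ne hr hr1 (hZ a ha) hz)
  have hGan : AnalyticOnNhd ℂ G (closedAnn r) := by
    intro z hz
    refine (hg z hz).mul ?_
    refine Finset.analyticAt_fun_prod _ (fun a ha => ?_)
    exact ((cof_analyticAt hr hr1 (hZ a ha) hz).pow _).fun_inv (hcofne z hz a ha)
  have hGne : ∀ z ∈ closedAnn r, G z ≠ 0 := by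
    intro z hz
    refine mul_ne_zero (hgne z hz) (Finset.prod_ne_zero_iff.2 (fun a ha => ?_))
    exact inv_ne_zero (hcofne z hz a ha)
  have hFG : ∀ z ∈ closedAnn r, F z = (∏ a ∈ Z, (bl r a z) ^ m a) * G z := by
    intro z hz
    rw [hFg z hz, hG]
    have h3 : ∏ a ∈ Z, (bl r a z) ^ m a =
        (∏ a ∈ Z, (z - a) ^ m a) * ∏ a ∈ Z, (cof r a z) ^ m a := by
      rw [← Finset.prod_mul_distrib]
      refine Finset.prod_congr rfl (fun a ha => ?_)
      rw [bl_eq hr hr1 (hZ a ha), mul_pow]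
    have h4 : (∏ a ∈ Z, (cof r a z) ^ m a) * ∏ a ∈ Z, ((cof r a z) ^ m a)⁻¹ = 1 := by
      rw [← Finset.prod_mul_distrib]
      exact Finset.prod_eq_one (fun a ha => mul_inv_cancel₀ (hcofne z hz a ha))
    simp only
    rw [h3]
    linear_combination -(∏ a ∈ Z, (z - a) ^ m a) * g z * h4
  set s : ℝ := ∏ a ∈ Z, ‖a‖ ^ m a with hs
  have hspos : 0 < s := Finset.prod_pos (fun a ha => pow_pos (hr.trans (hZ a ha).1) _)
  have hG1 : ∀ z, ‖z‖ = 1 → ‖G z‖ = s := by
    intro z hz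
    have hzc : z ∈ closedAnn r := ⟨by rw [hz]; exact hr1.le, hz.le⟩
    have h3 := congrArg norm (hFG z hzc)
    rw [h1 z hz, norm_mul, norm_prod] at h3
    have h4 : ∏ a ∈ Z, ‖(bl r a z) ^ m a‖ = s⁻¹ := by
      rw [hs, ← Finset.prod_inv_distrib]
      refine Finset.prod_congr rfl (fun a ha => ?_)
      rw [norm_pow, bl_norm_one hr hr1 (hZ a ha) hz, inv_pow]
    rw [h4] at h3
    field_simp at h3
    linarith
  have hG2 : ∀ z, ‖z‖ = r → ‖G z‖ = 1 := by
    intro z hz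
    have hzc : z ∈ closedAnn r := ⟨hz.ge, by rw [hz]; exact hr1.le⟩
    have h3 := congrArg norm (hFG z hzc)
    rw [h2 z hz, norm_mul, norm_prod] at h3
    have h4 : ∏ a ∈ Z, ‖(bl r a z) ^ m a‖ = 1 := by
      refine Finset.prod_eq_one (fun a ha => ?_)
      rw [norm_pow, bl_norm_r hr hr1 (hZ a ha) hz, one_pow]
    rw [h4, one_mul] at h3
    exact h3.symm
  obtain ⟨c, k, hck⟩ := monomial_of_const hr hr1 hGan hGne hspos one_pos hG1 hG2
  have hc1 : ‖c‖ = s := by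
    have h3 := hG1 1 norm_one
    have h1c : (1:ℂ) ∈ closedAnn r := ⟨by rw [norm_one]; exact hr1.le, by rw [norm_one]⟩
    rw [hck 1 h1c, one_zpow, mul_one] at h3
    exact h3
  have hc2 : ‖c‖ * r ^ k = 1 := by
    have hnr : ‖(r : ℂ)‖ = r := by rw [Complex.norm_real, Real.norm_of_nonneg hr.le]
    have h3 := hG2 r hnr
    have hrc : (r : ℂ) ∈ closedAnn r := ⟨hnr.ge, by rw [hnr]; exact hr1.le⟩
    rw [hck _ hrc, norm_mul, norm_zpow, hnr] at h3
    exact h3
  have hrk : r ^ k ≠ 0 := (zpow_pos hr k).ne'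
  have hs2 : s = r ^ (-k) := by
    rw [zpow_neg, ← hc1]
    exact eq_inv_of_mul_eq_one_left hc2
  obtain ⟨l, hl1, hl2, hl3⟩ := list_exists Z m
  have hrc : (r : ℂ) ≠ 0 := by exact_mod_cast hr.ne'
  refine ⟨c / (r : ℂ) ^ (-k), -k, l.length, fun j => l[j.1], ?_, ?_, ?_, ?_⟩
  · rw [norm_div, norm_zpow, Complex.norm_real, Real.norm_of_nonneg hr.le, hc1, hs2,
      div_self (zpow_pos hr _).ne']
  · intro j
    exact hZ _ (hl1 _ (List.getElem_mem _))
  · rw [Fin.prod_univ_fun_getElem l (fun a => ‖a‖), hl3, ← hs2]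
  · intro z hz
    have hz0 : z ≠ 0 := norm_pos_iff.1 (hr.trans_le hz.1)
    unfold aprod
    rw [Fin.prod_univ_fun_getElem l (fun a => bl r a z), hl2, hFG z hz, hck z hz, div_zpow]
    have h5 : (r : ℂ) ^ (-k) ≠ 0 := zpow_ne_zero _ hrc
    rw [zpow_neg z]
    field_simp

/-- the converse -/
theorem aprod_unimodular {κ : ℂ} {p : ℤ} {n : ℕ} {a : Fin n → ℂ} (hκ : ‖κ‖ = 1)
    (ha : ∀ j, a j ∈ annulus r) (hp : ∏ j, ‖a j‖ = r ^ p) :
    AnalyticOnNhd ℂ (aprod r κ p a) (closedAnn r) ∧ (∀ z, ‖z‖ = 1 → ‖aprod r κ p a z‖ = 1) ∧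
      ∀ z, ‖z‖ = r → ‖aprod r κ p a z‖ = 1 := by
  have hrc : (r : ℂ) ≠ 0 := by exact_mod_cast hr.ne'
  refine ⟨fun z hz => ?_, fun z hz => ?_, fun z hz => ?_⟩
  · have hz0 : z ≠ 0 := norm_pos_iff.1 (hr.trans_le hz.1)
    unfold aprod
    refine (analyticAt_const.mul ?_).mul ?_
    · exact AnalyticAt.fun_zpow (analyticAt_const.div analyticAt_id hz0) (div_ne_zero hrc hz0)
    · exact Finset.analyticAt_fun_prod _ (fun j _ => bl_analyticAt hr hr1 (ha j) hz)
  · unfold aprod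
    rw [norm_mul, norm_mul, hκ, one_mul, norm_zpow, norm_div, hz, div_one, Complex.norm_real,
      Real.norm_of_nonneg hr.le, norm_prod, ← hp]
    have h3 : ∏ j, ‖bl r (a j) z‖ = (∏ j, ‖a j‖)⁻¹ := by
      rw [← Finset.prod_inv_distrib]
      exact Finset.prod_congr rfl (fun j _ => bl_norm_one hr hr1 (ha j) hz)
    rw [h3, mul_inv_cancel₀]
    exact (Finset.prod_pos (fun j _ => hr.trans (ha j).1)).ne'
  · unfold aprod
    rw [norm_mul, norm_mul, hκ, one_mul, norm_zpow, norm_div, hz, Complex.norm_real,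
      Real.norm_of_nonneg hr.le, div_self hr.ne', one_zpow, one_mul, norm_prod]
    exact Finset.prod_eq_one (fun j _ => bl_norm_r hr hr1 (ha j) hz)

end

end Run7.h331
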