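import Pool.Agent.Run7.h331.LExist

/-!
The class of bounded functions on the annulus: coefficient estimates.
-/

open Complex MeasureTheory Filter Topology Set Metric

set_option maxHeartbeats 400000

namespace Run7.h331

/-- the trigonometric polynomial `∑ c_k e^{-ikθ}` -/
noncomputable def tp (S : Finset ℤ) (c : ℤ → ℂ) (θ : ℝ) : ℂ := ∑ k ∈ S, c k * ex (-k) θ

lemma tp_continuous (S : Finset ℤ) (c : ℤ → ℂ) : Continuous (tp S c) :=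
  continuous_finset_sum _ (fun k _ => continuous_const.mul (ex_continuous (-k)))

lemma pair_rho {r ρ : ℝ} (h0 : 0 ≤ r) {f : ℂ → ℂ} {a : ℤ → ℂ} (hf : IsB r f)
    (h : IsLaurent r f a) (h1 : r < ρ) (h2 : ρ < 1) (S : Finset ℤ) (c : ℤ → ℂ) :
    ‖∑ k ∈ S, c k * (a k * ((ρ ^ k : ℝ) : ℂ))‖ ≤
      (2 * Real.pi)⁻¹ * ∫ θ in (0:ℝ)..2 * Real.pi, ‖tp S c θ‖ := by
  have hρ : 0 ≤ ρ := h0.trans h1.le
  have hcont : Continuous fun θ : ℝ => f ((ρ : ℂ) * ex 1 θ) := by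
    have h3 : Continuous fun θ : ℝ => (ρ : ℂ) * ex 1 θ :=
      continuous_const.mul (ex_continuous 1)
    exact hf.1.continuousOn.comp_continuous h3 (fun θ => circ_mem hρ h1 h2 θ)
  have e1 : (∫ θ in (0:ℝ)..2 * Real.pi, f ((ρ : ℂ) * ex 1 θ) * tp S c θ) =
      2 * Real.pi * ∑ k ∈ S, c k * (a k * ((ρ ^ k : ℝ) : ℂ)) := by
    have e2 : (∫ θ in (0:ℝ)..2 * Real.pi, f ((ρ : ℂ) * ex 1 θ) * tp S c θ) =
        ∑ k ∈ S, ∫ θ in (0:ℝ)..2 * Real.pi, c k * (f ((ρ : ℂ) * ex 1 θ) * ex (-k) θ) := by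
      rw [← intervalIntegral.integral_finset_sum]
      · refine intervalIntegral.integral_congr (fun θ _ => ?_)
        simp only [tp, Finset.mul_sum]
        refine Finset.sum_congr rfl (fun k _ => ?_)
        ring
      · intro k _
        exact (continuous_const.mul (hcont.mul (ex_continuous (-k)))).intervalIntegrable _ _
    rw [e2, Finset.mul_sum]
    refine Finset.sum_congr rfl (fun k _ => ?_)
    rw [intervalIntegral.integral_const_mul, HasL.integral (isLaurent_iff.1 h) hρ h1 h2 k]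
    ring
  have hp : 0 < 2 * Real.pi := by positivity
  have h3 : (2 * Real.pi : ℂ) = ((2 * Real.pi : ℝ) : ℂ) := by push_cast; ring
  have e3 : ‖∫ θ in (0:ℝ)..2 * Real.pi, f ((ρ : ℂ) * ex 1 θ) * tp S c θ‖ ≤
      ∫ θ in (0:ℝ)..2 * Real.pi, ‖tp S c θ‖ := by
    refine (intervalIntegral.norm_integral_le_integral_norm hp.le).trans ?_
    refine intervalIntegral.integral_mono_on hp.le
      ((hcont.mul (tp_continuous S c)).norm.intervalIntegrable _ _)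
      ((tp_continuous S c).norm.intervalIntegrable _ _) (fun θ _ => ?_)
    rw [norm_mul]
    have := hf.2 _ (circ_mem hρ h1 h2 θ)
    nlinarith [norm_nonneg (tp S c θ)]
  rw [e1, norm_mul, h3, Complex.norm_real, Real.norm_of_nonneg hp.le] at e3
  rw [inv_mul_eq_div, le_div_iff₀ hp]
  linarith

lemma pair_tendsto {ρ0 : ℝ} (h0 : 0 < ρ0) (S : Finset ℤ) (c a : ℤ → ℂ) :
    Tendsto (fun ρ : ℝ => ‖∑ k ∈ S, c k * (a k * ((ρ ^ k : ℝ) : ℂ))‖) (𝓝 ρ0)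
      (𝓝 ‖∑ k ∈ S, c k * (a k * ((ρ0 ^ k : ℝ) : ℂ))‖) := by
  refine Tendsto.norm ?_
  refine tendsto_finset_sum _ (fun k _ => ?_)
  refine Tendsto.const_mul _ (Tendsto.const_mul _ ?_)
  exact (Complex.continuous_ofReal.tendsto _).comp
    (continuousAt_zpow₀ ρ0 k (Or.inl h0.ne')).tendsto

/-- the outer circle bound -/
lemma pair_outer {r : ℝ} (h0 : 0 ≤ r) (hr1 : r < 1) {f : ℂ → ℂ} {a : ℤ → ℂ} (hf : IsB r f)
    (h : IsLaurent r f a) (S : Finset ℤ) (c : ℤ → ℂ) :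
    ‖∑ k ∈ S, c k * a k‖ ≤
      (2 * Real.pi)⁻¹ * ∫ θ in (0:ℝ)..2 * Real.pi, ‖tp S c θ‖ := by
  have h1 := (pair_tendsto one_pos S c a).mono_left
    (nhdsWithin_le_nhds : 𝓝[<] (1:ℝ) ≤ 𝓝 1)
  have h2 : ∀ᶠ ρ : ℝ in 𝓝[<] 1, ‖∑ k ∈ S, c k * (a k * ((ρ ^ k : ℝ) : ℂ))‖ ≤
      (2 * Real.pi)⁻¹ * ∫ θ in (0:ℝ)..2 * Real.pi, ‖tp S c θ‖ := by
    have : Ioo r 1 ∈ 𝓝[<] (1:ℝ) := Ioo_mem_nhdsLT hr1
    filter_upwards [this] with ρ hρ
    exact pair_rho h0 hf h hρ.1 hρ.2 S c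
  have h3 := le_of_tendsto h1 h2
  simpa using h3

/-- the inner circle bound -/
lemma pair_inner {r : ℝ} (h0 : 0 < r) (hr1 : r < 1) {f : ℂ → ℂ} {a : ℤ → ℂ} (hf : IsB r f)
    (h : IsLaurent r f a) (S : Finset ℤ) (c : ℤ → ℂ) :
    ‖∑ k ∈ S, c k * (a k * ((r ^ k : ℝ) : ℂ))‖ ≤
      (2 * Real.pi)⁻¹ * ∫ θ in (0:ℝ)..2 * Real.pi, ‖tp S c θ‖ := by
  have h1 := (pair_tendsto h0 S c a).mono_left
    (nhdsWithin_le_nhds : 𝓝[>] r ≤ 𝓝 r)
  have h2 : ∀ᶠ ρ : ℝ in 𝓝[>] r, ‖∑ k ∈ S, c k * (a k * ((ρ ^ k : ℝ) : ℂ))‖ ≤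
      (2 * Real.pi)⁻¹ * ∫ θ in (0:ℝ)..2 * Real.pi, ‖tp S c θ‖ := by
    have : Ioo r 1 ∈ 𝓝[>] r := Ioo_mem_nhdsGT hr1
    filter_upwards [this] with ρ hρ
    exact pair_rho h0.le hf h hρ.1 hρ.2 S c
  exact le_of_tendsto h1 h2

lemma int_norm_single (k : ℤ) (c : ℤ → ℂ) :
    (2 * Real.pi)⁻¹ * ∫ θ in (0:ℝ)..2 * Real.pi, ‖tp {k} c θ‖ = ‖c k‖ := by
  have : ∀ θ, ‖tp {k} c θ‖ = ‖c k‖ := by
    intro θ
    simp [tp, norm_ex]
  simp only [this, intervalIntegral.integral_const, smul_eq_mul]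
  have hp : (2 * Real.pi) ≠ 0 := by positivity
  field_simp
  ring

/-- Cauchy's estimates -/
lemma coef_le_one {r : ℝ} (h0 : 0 ≤ r) (hr1 : r < 1) {f : ℂ → ℂ} {a : ℤ → ℂ} (hf : IsB r f)
    (h : IsLaurent r f a) (k : ℤ) : ‖a k‖ ≤ 1 := by
  have h1 := pair_outer h0 hr1 hf h {k} (fun _ => 1)
  rw [int_norm_single] at h1
  simpa using h1

lemma coef_le_inner {r : ℝ} (h0 : 0 < r) (hr1 : r < 1) {f : ℂ → ℂ} {a : ℤ → ℂ} (hf : IsB r f)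
    (h : IsLaurent r f a) (k : ℤ) : ‖a k‖ * r ^ k ≤ 1 := by
  have h1 := pair_inner h0 hr1 hf h {k} (fun _ => 1)
  rw [int_norm_single] at h1
  rw [Finset.sum_singleton, one_mul, norm_mul, Complex.norm_real,
    Real.norm_of_nonneg (zpow_nonneg h0.le k), norm_one] at h1
  exact h1

end Run7.h331
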