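import Pool.Agent.Run7.h331.Final1

/-!
A lower bound for the number of zeros of a function unimodular on both boundary circles.
-/

open Filter Topology Complex Set MeasureTheory

set_option maxHeartbeats 400000

namespace Run7.h331

/-- comparison of the maxima of a polynomial on two circles -/
lemma one_le_of_poly {r ρ κ : ℝ} (hr : 0 < r) (hρ : r < ρ) (hκ : 0 ≤ κ) {n : ℕ} (a : Fin n → ℂ)
    (h : ∀ z : ℂ, ‖z‖ = ρ →
      ‖∏ j, (z - a j)‖ ≤ κ * (ρ / r) ^ n * ‖∏ j, (((r ^ 2 / ρ ^ 2 : ℝ) : ℂ) * z - a j)‖) :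
    1 ≤ κ * (ρ / r) ^ n := by
  have hρ0 : 0 < ρ := hr.trans hρ
  set A : ℂ → ℂ := fun z => ∏ j, (z - a j) with hA
  have hAd : Differentiable ℂ A := by
    rw [hA]
    fun_prop
  obtain ⟨z0, hz0, hmax⟩ := (isCompact_sphere (0:ℂ) ρ).exists_isMaxOn
    (NormedSpace.sphere_nonempty.2 hρ0.le) (hAd.continuous.norm.continuousOn)
  have hz0' : ‖z0‖ = ρ := mem_sphere_zero_iff_norm.1 hz0
  have hball : ∀ w : ℂ, ‖w‖ ≤ ρ → ‖A w‖ ≤ ‖A z0‖ := by
    intro w hw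
    refine Complex.norm_le_of_forall_mem_frontier_norm_le (U := Metric.ball 0 ρ)
      Metric.isBounded_ball hAd.diffContOnCl (fun z hz => ?_) ?_
    · rw [frontier_ball _ hρ0.ne'] at hz
      exact hmax hz
    · rw [closure_ball _ hρ0.ne', Metric.mem_closedBall, dist_zero_right]
      exact hw
  have hpos : 0 < ‖A z0‖ := by
    have hfin : (Set.range a).Finite := Set.finite_range a
    have hd : Dense (Set.range a)ᶜ := hfin.countable.dense_compl ℝ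
    obtain ⟨w, hw1, hw2⟩ := hd.inter_open_nonempty _ (Metric.isOpen_ball (x := (0:ℂ)) (ε := ρ))
      ⟨0, Metric.mem_ball_self hρ0⟩
    rw [Metric.mem_ball, dist_zero_right] at hw1
    have h1 : A w ≠ 0 := by
      rw [hA]
      refine Finset.prod_ne_zero_iff.2 (fun j _ h0 => hw2 ⟨j, ?_⟩)
      exact (sub_eq_zero.1 h0).symm
    exact lt_of_lt_of_le (norm_pos_iff.2 h1) (hball w hw1.le)
  have h1 := h z0 hz0'
  have h2 : ‖((r ^ 2 / ρ ^ 2 : ℝ) : ℂ) * z0‖ ≤ ρ := by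
    rw [norm_mul, Complex.norm_real, Real.norm_of_nonneg (by positivity), hz0']
    have : r ^ 2 / ρ ^ 2 ≤ 1 := by
      rw [div_le_one (by positivity)]
      exact pow_le_pow_left₀ hr.le hρ.le 2
    nlinarith
  have h3 := hball _ h2
  have h4 : 0 ≤ κ * (ρ / r) ^ n := by positivity
  have h5 : ‖A z0‖ ≤ κ * (ρ / r) ^ n * ‖A z0‖ := h1.trans (mul_le_mul_of_nonneg_left h3 h4)
  by_contra hcon
  rw [not_le] at hcon
  nlinarith

lemma norm_sq_diff (r : ℝ) (a z : ℂ) :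
    ‖((r ^ 2 : ℝ) : ℂ) - (starRingEnd ℂ) a * z‖ ^ 2 - r ^ 2 * ‖z - a‖ ^ 2 =
      (‖z‖ ^ 2 - r ^ 2) * (‖a‖ ^ 2 - r ^ 2) := by
  generalize hs : r ^ 2 = s
  simp only [← Complex.normSq_eq_norm_sq, Complex.normSq_apply]
  simp
  ring

lemma frontier_annulus {r : ℝ} (z : ℂ) (hz : z ∈ frontier (annulus r)) :
    ‖z‖ = 1 ∨ ‖z‖ = r := by
  have hcl : closure (annulus r) ⊆ closedAnn r := by
    refine closure_minimal (fun z hz => ⟨hz.1.le, hz.2.le⟩) ?_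
    exact (closedAnn_isCompact r).isClosed
  rw [(annulus_isOpen r).frontier_eq] at hz
  have h1 := hcl hz.1
  by_contra hcon
  push Not at hcon
  exact hz.2 ⟨lt_of_le_of_ne h1.1 (Ne.symm hcon.2), lt_of_le_of_ne h1.2 hcon.1⟩

/-- the number of zeros -/
theorem zeros_lower {r : ℝ} (hr : 0 < r) (hr1 : r < 1) {n : ℕ} {a : Fin n → ℂ} {g : ℂ → ℂ}
    (ha : ∀ j, a j ∈ annulus r) (hg : AnalyticOnNhd ℂ g (closedAnn r))
    (hgne : ∀ z ∈ closedAnn r, g z ≠ 0)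
    (hn : ∀ z, ‖z‖ = 1 ∨ ‖z‖ = r → ‖(∏ j, (z - a j)) * g z‖ = 1)
    {ρ κ : ℝ} (hρ : r < ρ) (hρ1 : ρ < 1) (hκ : 0 ≤ κ)
    (hF : ∀ z, ‖z‖ = ρ → ‖(∏ j, (z - a j)) * g z‖ ≤ κ) : 1 ≤ κ * (ρ / r) ^ n := by
  have hρ0 : 0 < ρ := hr.trans hρ
  have hden : ∀ j, ∀ z ∈ closedAnn r, ((r ^ 2 : ℝ) : ℂ) - (starRingEnd ℂ) (a j) * z ≠ 0 := by
    intro j z hz h0
    have h1 : ((r ^ 2 : ℝ) : ℂ) = (starRingEnd ℂ) (a j) * z := sub_eq_zero.1 h0
    have h2 := congrArg norm h1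
    rw [norm_mul, RCLike.norm_conj, Complex.norm_real, Real.norm_of_nonneg (by positivity)] at h2
    have h3 := (ha j).1
    have h4 : r * r < ‖a j‖ * ‖z‖ := by
      calc r * r < ‖a j‖ * r := mul_lt_mul_of_pos_right h3 hr
        _ ≤ ‖a j‖ * ‖z‖ := mul_le_mul_of_nonneg_left hz.1 (norm_nonneg _)
    nlinarith
  set G : ℂ → ℂ := fun z =>
    (∏ j, (r : ℂ) / (((r ^ 2 : ℝ) : ℂ) - (starRingEnd ℂ) (a j) * z)) / g z with hG
  have hGan : AnalyticOnNhd ℂ G (closedAnn r) := by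
    intro z hz
    refine AnalyticAt.div ?_ (hg z hz) (hgne z hz)
    refine Finset.analyticAt_fun_prod _ (fun j _ => ?_)
    refine analyticAt_const.div ?_ (hden j z hz)
    exact analyticAt_const.sub (analyticAt_const.mul analyticAt_id)
  have hfac : ∀ j, ∀ z ∈ closedAnn r,
      ‖(r : ℂ) / (((r ^ 2 : ℝ) : ℂ) - (starRingEnd ℂ) (a j) * z)‖ * ‖z - a j‖ ≤ 1 := by
    intro j z hz
    have hd := norm_pos_iff.2 (hden j z hz)
    rw [norm_div, Complex.norm_real, Real.norm_of_nonneg hr.le, div_mul_eq_mul_div,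
      div_le_one hd]
    have h1 := norm_sq_diff r (a j) z
    have h2 : 0 ≤ (‖z‖ ^ 2 - r ^ 2) * (‖a j‖ ^ 2 - r ^ 2) := by
      refine mul_nonneg ?_ ?_
      · have := pow_le_pow_left₀ hr.le hz.1 2
        linarith
      · have := pow_le_pow_left₀ hr.le (ha j).1.le 2
        linarith
    refine le_of_sq_le_sq ?_ hd.le
    rw [mul_pow]
    linarith
  have hbd : ∀ z, ‖z‖ = 1 ∨ ‖z‖ = r → ‖G z‖ ≤ 1 := by
    intro z hz
    have hzc : z ∈ closedAnn r := by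
      rcases hz with h | h
      · exact ⟨by rw [h]; exact hr1.le, h.le⟩
      · exact ⟨h.ge, by rw [h]; exact hr1.le⟩
    have h1 := hn z hz
    have hgp := norm_pos_iff.2 (hgne z hzc)
    rw [hG]
    simp only
    rw [norm_div, div_le_iff₀ hgp, one_mul]
    rw [norm_mul, norm_prod] at h1
    rw [norm_prod]
    have h2 : (∏ j, ‖(r : ℂ) / (((r ^ 2 : ℝ) : ℂ) - (starRingEnd ℂ) (a j) * z)‖) *
        ∏ j, ‖z - a j‖ ≤ 1 := by
      rw [← Finset.prod_mul_distrib]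
      exact Finset.prod_le_one (fun j _ => by positivity) (fun j _ => hfac j z hzc)
    have hApos : 0 < ∏ j, ‖z - a j‖ := by
      rcases (Finset.prod_nonneg (fun j _ => norm_nonneg (z - a j)) :
        0 ≤ ∏ j, ‖z - a j‖).lt_or_eq with h | h
      · exact h
      · rw [← h, zero_mul] at h1
        exact absurd h1 zero_ne_one
    have h3 : ‖g z‖ = (∏ j, ‖z - a j‖)⁻¹ := eq_inv_of_mul_eq_one_right h1
    rw [h3, ← one_div, le_div_iff₀ hApos]
    exact h2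
  have hGle : ∀ z ∈ closedAnn r, ‖G z‖ ≤ 1 := by
    intro z hz
    have hcl : closedAnn r ⊆ closure (annulus r) := by
      intro w hw
      obtain ⟨θ, hθ⟩ := exists_circ w
      have hcl : ‖w‖ ∈ closure (Ioo r 1) := by
        rw [closure_Ioo hr1.ne]
        exact hw
      have hNB : (𝓝[Ioo r 1] ‖w‖).NeBot := mem_closure_iff_nhdsWithin_neBot.1 hcl
      have h3 : Tendsto (fun ρ : ℝ => (ρ : ℂ) * ex 1 θ) (𝓝[Ioo r 1] ‖w‖)
          (𝓝 ((‖w‖ : ℂ) * ex 1 θ)) :=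
        ((Complex.continuous_ofReal.tendsto _).mul_const _).mono_left nhdsWithin_le_nhds
      rw [← hθ] at h3
      refine mem_closure_of_tendsto h3 ?_
      filter_upwards [self_mem_nhdsWithin] with ρ hρ
      exact circ_mem (hr.le.trans hρ.1.le) hρ.1 hρ.2 θ
    have hcl2 : closure (annulus r) ⊆ closedAnn r := by
      refine closure_minimal (fun z hz => ⟨hz.1.le, hz.2.le⟩) ?_
      exact (closedAnn_isCompact r).isClosed
    refine Complex.norm_le_of_forall_mem_frontier_norm_le (U := annulus r) ?_ ?_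
      (fun z hz => hbd z (frontier_annulus z hz)) (hcl hz)
    · exact (Metric.isBounded_closedBall (x := (0:ℂ)) (r := 1)).subset (fun z hz => by
        rw [Metric.mem_closedBall, dist_zero_right]; exact hz.2.le)
    · refine ⟨fun z hz => (hGan z ⟨hz.1.le, hz.2.le⟩).differentiableAt.differentiableWithinAt,
        fun z hz => (hGan z (hcl2 hz)).continuousAt.continuousWithinAt⟩
  refine one_le_of_poly hr hρ hκ a (fun z hz => ?_)
  have hzc : z ∈ closedAnn r := ⟨by rw [hz]; exact hρ.le, by rw [hz]; exact hρ1.le⟩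
  have hz0 : z ≠ 0 := by rw [← norm_pos_iff, hz]; exact hρ0
  have h1 := hGle z hzc
  have h2 := hF z hz
  have hgp := norm_pos_iff.2 (hgne z hzc)
  rw [hG] at h1
  simp only at h1
  rw [norm_div, div_le_one hgp, norm_prod] at h1
  rw [norm_mul] at h2
  -- the denominators
  have hdenn : ∀ j, ‖((r ^ 2 : ℝ) : ℂ) - (starRingEnd ℂ) (a j) * z‖ =
      ρ * ‖((r ^ 2 / ρ ^ 2 : ℝ) : ℂ) * z - a j‖ := by
    intro j
    have h5 : (starRingEnd ℂ) z = ((ρ ^ 2 : ℝ) : ℂ) * z⁻¹ := conj_inv_of_norm hz hρ0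
    have h6 : ((r ^ 2 : ℝ) : ℂ) - (starRingEnd ℂ) (a j) * z =
        z * (starRingEnd ℂ) (((r ^ 2 / ρ ^ 2 : ℝ) : ℂ) * z - a j) := by
      rw [map_sub, map_mul, Complex.conj_ofReal, h5]
      have hρc : (ρ : ℂ) ≠ 0 := by exact_mod_cast hρ0.ne'
      push_cast
      field_simp
    rw [h6, norm_mul, RCLike.norm_conj, hz]
  have h3 : (∏ j, ‖(r : ℂ) / (((r ^ 2 : ℝ) : ℂ) - (starRingEnd ℂ) (a j) * z)‖) =
      (r / ρ) ^ n * (∏ j, ‖((r ^ 2 / ρ ^ 2 : ℝ) : ℂ) * z - a j‖)⁻¹ := by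
    rw [← Finset.prod_inv_distrib]
    have : (r / ρ) ^ n = ∏ _j : Fin n, (r / ρ) := by
      rw [Finset.prod_const, Finset.card_univ, Fintype.card_fin]
    rw [this, ← Finset.prod_mul_distrib]
    refine Finset.prod_congr rfl (fun j _ => ?_)
    rw [norm_div, hdenn j, Complex.norm_real, Real.norm_of_nonneg hr.le, div_mul_eq_div_div,
      div_eq_mul_inv (r / ρ)]
  have hBpos : 0 < ∏ j, ‖((r ^ 2 / ρ ^ 2 : ℝ) : ℂ) * z - a j‖ := by
    refine Finset.prod_pos (fun j _ => ?_)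
    have h6 := norm_pos_iff.2 (hden j z hzc)
    rw [hdenn j] at h6
    exact pos_of_mul_pos_right h6 hρ0.le
  rw [h3] at h1
  rw [norm_prod, norm_prod]
  rw [norm_prod] at h2
  have hA0 : 0 ≤ ∏ j, ‖z - a j‖ := Finset.prod_nonneg (fun j _ => norm_nonneg _)
  have hrρ : 0 < (ρ / r) ^ n := by positivity
  have h4 : (r / ρ) ^ n * (ρ / r) ^ n = 1 := by
    rw [← mul_pow]
    have : r / ρ * (ρ / r) = 1 := by field_simp
    rw [this, one_pow]
  -- |A| (r/ρ)^n / |B| ≤ |A| |g| ≤ κ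
  have h5 : (∏ j, ‖z - a j‖) * ((r / ρ) ^ n * (∏ j, ‖((r ^ 2 / ρ ^ 2 : ℝ) : ℂ) * z - a j‖)⁻¹) ≤ κ :=
    (mul_le_mul_of_nonneg_left h1 hA0).trans h2
  set A := ∏ j, ‖z - a j‖
  set B := ∏ j, ‖((r ^ 2 / ρ ^ 2 : ℝ) : ℂ) * z - a j‖
  have h6 : A * ((r / ρ) ^ n * B⁻¹) * ((ρ / r) ^ n * B) = A := by
    have : B⁻¹ * B = 1 := inv_mul_cancel₀ hBpos.ne'
    calc A * ((r / ρ) ^ n * B⁻¹) * ((ρ / r) ^ n * B) =
        A * ((r / ρ) ^ n * (ρ / r) ^ n) * (B⁻¹ * B) := by ring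
      _ = A := by rw [h4, this, mul_one, mul_one]
  calc A = A * ((r / ρ) ^ n * B⁻¹) * ((ρ / r) ^ n * B) := h6.symm
    _ ≤ κ * ((ρ / r) ^ n * B) := mul_le_mul_of_nonneg_right h5 (by positivity)
    _ = κ * (ρ / r) ^ n * B := by ring

end Run7.h331
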