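import Pool.Agent.Run7.h331.Approx

/-!
The data attached to a coefficient functional.
-/

open Filter Topology Complex Set

set_option maxHeartbeats 400000

namespace Run7.h331

/-- the Poisson kernel -/
lemma poisson_id {u : ℂ} (hu : ‖u‖ = 1) {ρ : ℝ} (hn1 : ‖(ρ : ℂ) * u‖ < 1)
    (hn2 : ‖(ρ : ℂ) * u⁻¹‖ < 1) :
    (1 - (ρ : ℂ) * u)⁻¹ + (ρ : ℂ) * u⁻¹ * (1 - (ρ : ℂ) * u⁻¹)⁻¹ =
      (((1 - ρ ^ 2) / ‖1 - (ρ : ℂ) * u‖ ^ 2 : ℝ) : ℂ) := by
  have hu0 : u ≠ 0 := by
    intro h; rw [h, norm_zero] at hu; exact zero_ne_one hu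
  have hc : (starRingEnd ℂ) u = u⁻¹ := by
    rw [Complex.inv_def, Complex.normSq_eq_norm_sq, hu]
    simp
  have h3 : (1 : ℂ) - (ρ : ℂ) * u ≠ 0 := by
    intro h
    have : (ρ : ℂ) * u = 1 := by linear_combination -h
    rw [this] at hn1
    simp at hn1
  have h4 : (1 : ℂ) - (ρ : ℂ) * u⁻¹ ≠ 0 := by
    intro h
    have : (ρ : ℂ) * u⁻¹ = 1 := by linear_combination -h
    rw [this] at hn2
    simp at hn2
  have h5 : ((‖1 - (ρ : ℂ) * u‖ ^ 2 : ℝ) : ℂ) = (1 - (ρ : ℂ) * u) * (1 - (ρ : ℂ) * u⁻¹) := by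
    rw [← Complex.normSq_eq_norm_sq, ← Complex.mul_conj, map_sub, map_mul, hc, map_one,
      Complex.conj_ofReal]
  have hv : u * u⁻¹ = 1 := mul_inv_cancel₀ hu0
  rw [Complex.ofReal_div, h5]
  generalize u⁻¹ = v at *
  rw [eq_div_iff (mul_ne_zero h3 h4)]
  have e1 : (1 - (ρ : ℂ) * u)⁻¹ * (1 - (ρ : ℂ) * u) = 1 := inv_mul_cancel₀ h3
  have e2 : (1 - (ρ : ℂ) * v)⁻¹ * (1 - (ρ : ℂ) * v) = 1 := inv_mul_cancel₀ h4
  have e3 : (((1 - ρ ^ 2 : ℝ)) : ℂ) = 1 - (ρ : ℂ) ^ 2 := by push_cast; ring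
  rw [e3]
  linear_combination (1 - (ρ : ℂ) * v) * e1 + (ρ : ℂ) * v * (1 - (ρ : ℂ) * u) * e2
    - (ρ : ℂ) ^ 2 * hv

lemma poisson_hasSum {u : ℂ} (hu : ‖u‖ = 1) {ρ : ℝ} (h0 : 0 ≤ ρ) (h1 : ρ < 1) :
    HasSum (fun k : ℤ => ((ρ ^ k.natAbs : ℝ) : ℂ) * u ^ k)
      (((1 - ρ ^ 2) / ‖1 - (ρ : ℂ) * u‖ ^ 2 : ℝ) : ℂ) := by
  have hu0 : u ≠ 0 := by
    intro h; rw [h, norm_zero] at hu; exact zero_ne_one hu
  have hn1 : ‖(ρ : ℂ) * u‖ < 1 := by
    rw [norm_mul, hu, mul_one, Complex.norm_real, Real.norm_of_nonneg h0]; exact h1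
  have hn2 : ‖(ρ : ℂ) * u⁻¹‖ < 1 := by
    rw [norm_mul, norm_inv, hu, inv_one, mul_one, Complex.norm_real, Real.norm_of_nonneg h0]
    exact h1
  have s1 := hasSum_geometric_of_norm_lt_one hn1
  have s2 := (hasSum_geometric_of_norm_lt_one hn2).mul_left ((ρ : ℂ) * u⁻¹)
  have s3 : HasSum (fun n : ℕ => ((ρ ^ ((n : ℤ)).natAbs : ℝ) : ℂ) * u ^ (n : ℤ))
      (1 - (ρ : ℂ) * u)⁻¹ := by
    have e : (fun n : ℕ => ((ρ ^ ((n : ℤ)).natAbs : ℝ) : ℂ) * u ^ (n : ℤ)) =
        fun n : ℕ => ((ρ : ℂ) * u) ^ n := by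
      funext n
      rw [mul_pow, Int.natAbs_natCast, zpow_natCast, Complex.ofReal_pow]
    rw [e]; exact s1
  have s4 : HasSum (fun n : ℕ => ((ρ ^ (-((n : ℤ) + 1)).natAbs : ℝ) : ℂ) * u ^ (-((n : ℤ) + 1)))
      ((ρ : ℂ) * u⁻¹ * (1 - (ρ : ℂ) * u⁻¹)⁻¹) := by
    have e : (fun n : ℕ => ((ρ ^ (-((n : ℤ) + 1)).natAbs : ℝ) : ℂ) * u ^ (-((n : ℤ) + 1))) =
        fun n : ℕ => (ρ : ℂ) * u⁻¹ * ((ρ : ℂ) * u⁻¹) ^ n := by
      funext n
      have h3 : (-((n : ℤ) + 1)).natAbs = n + 1 := by omega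
      have h2 : u ^ (-((n : ℤ) + 1)) = (u⁻¹) ^ (n + 1) := by
        have h5 : (-((n : ℤ) + 1)) = -((n + 1 : ℕ) : ℤ) := by push_cast; ring
        rw [h5, zpow_neg, zpow_natCast, inv_pow]
      rw [h3, h2, Complex.ofReal_pow, ← mul_pow, pow_succ, mul_comm]
    rw [e]; exact s2
  have s5 := HasSum.of_nat_of_neg_add_one
    (f := fun k : ℤ => ((ρ ^ k.natAbs : ℝ) : ℂ) * u ^ k) s3 s4
  rw [poisson_id hu hn1 hn2] at s5
  exact s5

/-- the Poisson kernel on the circle `b` -/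
noncomputable def pk (b : Bool) (ρ θ : ℝ) : C(KK, ℂ) :=
  ∑' k : ℤ, ((ρ ^ k.natAbs : ℝ) : ℂ) • (ex k θ • mon b k)

lemma pk_summable (b : Bool) {ρ : ℝ} (h0 : 0 ≤ ρ) (h1 : ρ < 1) (θ : ℝ) :
    Summable fun k : ℤ => ((ρ ^ k.natAbs : ℝ) : ℂ) • (ex k θ • mon b k) := by
  refine Summable.of_norm_bounded (summable_natAbs h0 h1) (fun j => ?_)
  rw [norm_smul, norm_smul, norm_ex, one_mul, Complex.norm_real,
    Real.norm_of_nonneg (pow_nonneg h0 _)]
  exact mul_le_of_le_one_right (pow_nonneg h0 _) (mon_norm_le b j)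

lemma pk_apply (b : Bool) {ρ : ℝ} (h0 : 0 ≤ ρ) (h1 : ρ < 1) (θ : ℝ) (T : C(KK, ℂ) →L[ℂ] ℂ) :
    T (pk b ρ θ) = ∑' k : ℤ, ((ρ ^ k.natAbs : ℝ) : ℂ) * (ex k θ * T (mon b k)) := by
  have h2 : HasSum (fun k : ℤ => T (((ρ ^ k.natAbs : ℝ) : ℂ) • (ex k θ • mon b k)))
      (T (pk b ρ θ)) := (pk_summable b h0 h1 θ).hasSum.mapL T
  rw [← h2.tsum_eq]
  refine tsum_congr (fun j => ?_)
  rw [map_smul, map_smul, smul_eq_mul, smul_eq_mul]

lemma pk_nonneg (b : Bool) {ρ : ℝ} (h0 : 0 ≤ ρ) (h1 : ρ < 1) (θ : ℝ) (p : KK) :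
    (pk b ρ θ p).im = 0 ∧ 0 ≤ (pk b ρ θ p).re := by
  have h2 : HasSum (fun k : ℤ => ((ρ ^ k.natAbs : ℝ) : ℂ) * (ex k θ * mon b k p))
      (pk b ρ θ p) :=
    (pk_summable b h0 h1 θ).hasSum.mapL (ContinuousMap.evalCLM ℂ p)
  by_cases hb : p.1 = b
  · have hu : ‖ex 1 θ * (p.2 : ℂ)‖ = 1 := by
      rw [norm_mul, norm_ex, Circle.norm_coe, mul_one]
    have h3 := poisson_hasSum hu h0 h1
    have h4 : HasSum (fun k : ℤ => ((ρ ^ k.natAbs : ℝ) : ℂ) * (ex k θ * mon b k p))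
        (((1 - ρ ^ 2) / ‖1 - ρ * (ex 1 θ * (p.2 : ℂ))‖ ^ 2 : ℝ) : ℂ) := by
      refine h3.congr_fun (fun k => ?_)
      rw [mon_apply, if_pos hb, one_mul, mul_zpow]
      congr 2
      unfold ex
      rw [zpow_one]
    rw [h2.unique h4]
    refine ⟨Complex.ofReal_im _, ?_⟩
    rw [Complex.ofReal_re]
    apply div_nonneg
    · nlinarith
    · positivity
  · have h4 : HasSum (fun k : ℤ => ((ρ ^ k.natAbs : ℝ) : ℂ) * (ex k θ * mon b k p)) 0 := by
      refine hasSum_zero.congr_fun (fun k => ?_)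
      rw [mon_apply, if_neg hb]
      ring
    rw [h2.unique h4]
    simp

/-- the data of one side -/
structure Side (r : ℝ) (m n : ℤ → ℂ) : Prop where
  mb : ∃ B : ℝ, 0 ≤ B ∧ ∀ k, ‖m k‖ ≤ B ∧ ‖m k‖ ≤ B * r ^ k
  nb : ∃ B : ℝ, ∀ k, ‖n k‖ ≤ B
  herm : ∀ k, n (-k) = (starRingEnd ℂ) (n k)
  pos : ∀ ρ θ : ℝ, 0 ≤ ρ → ρ < 1 →
    0 ≤ (∑' k : ℤ, ((ρ ^ k.natAbs : ℝ) : ℂ) * (ex k θ * n k)).re

/-- the relation with the coefficients of an extremal function -/
structure Rel (r : ℝ) (a m n : ℤ → ℂ) : Prop where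
  conv : ∀ k, n k = ∑' j, a j * m (j + k)
  recon : ∀ k, Tendsto (fun i => ∑' j : ℤ, ((rho r i ^ j.natAbs : ℝ) : ℂ) * (a j * n (j - k))) atTop
    (𝓝 ((starRingEnd ℂ) (m k)))

lemma conv_summable {r : ℝ} (hr : 0 < r) (hr1 : r < 1) {a m : ℤ → ℂ} (ha : CB r a) {B : ℝ}
    (hB : 0 ≤ B) (hm : ∀ k, ‖m k‖ ≤ B ∧ ‖m k‖ ≤ B * r ^ k) (k : ℤ) :
    Summable fun j => ‖a j * m (j + k)‖ := by
  refine Summable.of_nonneg_of_le (fun _ => norm_nonneg _) (fun j => ?_)
    ((summable_natAbs hr.le hr1).mul_left (B * r ^ k + B))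
  rw [norm_mul]
  have hk : 0 < r ^ k := zpow_pos hr k
  have hj : 0 < r ^ j.natAbs := pow_pos hr _
  rcases le_total 0 j with h | h
  · have h1 := ha.one j
    have h2 := (hm (j + k)).2
    have h3 : r ^ (j + k) = r ^ j.natAbs * r ^ k := by
      rw [zpow_add₀ hr.ne']
      congr 1
      have : (j.natAbs : ℤ) = j := by omega
      rw [← zpow_natCast r j.natAbs, this]
    calc ‖a j‖ * ‖m (j + k)‖ ≤ 1 * (B * (r ^ j.natAbs * r ^ k)) := by
          rw [← h3]
          exact mul_le_mul h1 h2 (norm_nonneg _) zero_le_one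
      _ ≤ (B * r ^ k + B) * r ^ j.natAbs := by nlinarith [mul_nonneg hB hj.le]
  · have h1 := ha.neg hr h
    have h2 := (hm (j + k)).1
    calc ‖a j‖ * ‖m (j + k)‖ ≤ r ^ j.natAbs * B := mul_le_mul h1 h2 (norm_nonneg _) hj.le
      _ ≤ (B * r ^ k + B) * r ^ j.natAbs := by
          have : 0 ≤ B * r ^ k * r ^ j.natAbs := by positivity
          nlinarith

lemma tsum_neg_int (g : ℤ → ℂ) : ∑' j, g (-j) = ∑' j, g j := (Equiv.neg ℤ).tsum_eq g

/-- the main data theorem -/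
theorem exists_data {r : ℝ} (hr : 0 < r) (hr1 : r < 1) (S : Finset ℤ) (c : ℤ → ℂ)
    {M : ℝ}
    (hmax : ∀ (g : ℂ → ℂ) (b : ℤ → ℂ), IsB r g → IsLaurent r g b →
      (∑ k ∈ S, c k * b k).re ≤ M)
    (hatt : ∃ (g : ℂ → ℂ) (b : ℤ → ℂ), IsB r g ∧ IsLaurent r g b ∧
      (∑ k ∈ S, c k * b k).re = M) :
    ∃ m1 n1 m2 n2 : ℤ → ℂ, Side r m1 n1 ∧ Side r (fun k => m2 (-k)) (fun k => n2 (-k)) ∧
      (∀ k, m1 k + ((r ^ k : ℝ) : ℂ) * m2 k = if k ∈ S then c k else 0) ∧
      n1 0 + n2 0 = (M : ℂ) ∧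
      ∀ (f : ℂ → ℂ) (a : ℤ → ℂ), IsB r f → IsLaurent r f a →
        (∑ k ∈ S, c k * a k).re = M →
        Rel r a m1 n1 ∧ Rel r (fun j => a (-j) * ((r ^ (-j) : ℝ) : ℂ)) (fun k => m2 (-k))
          (fun k => n2 (-k)) := by
  obtain ⟨Λ, hΛ, hΛE⟩ := exists_functional hr hr1 S c hmax
  have hM : 0 ≤ M := (norm_nonneg _).trans hΛ
  -- values at the approximations
  have hval : ∀ (f : ℂ → ℂ) (a : ℤ → ℂ), IsB r f → IsLaurent r f a →
      Tendsto (fun n => Λ (gn r a n)) atTop (𝓝 (∑ k ∈ S, c k * a k)) := by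
    intro f a hf hL
    have h1 : ∀ j, a j * Λ (EE r j * 1) = if j ∈ S then c j * a j else 0 := by
      intro j
      rw [mul_one, hΛE]
      split_ifs <;> ring
    have hs : Summable fun j => ‖a j * Λ (EE r j * 1)‖ := by
      refine summable_of_ne_finset_zero (s := S) (fun j hj => ?_)
      rw [h1, if_neg hj, norm_zero]
    have h2 := gn_limit hr hr1 hf hL Λ 1 hs
    simp only [mul_one] at h2
    have h3 : ∑' j, a j * Λ (EE r j) = ∑ k ∈ S, c k * a k := by
      rw [tsum_eq_sum (s := S)]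
      · refine Finset.sum_congr rfl (fun j hj => ?_)
        have := h1 j
        rw [mul_one, if_pos hj] at this
        exact this
      · intro j hj
        have := h1 j
        rw [mul_one, if_neg hj] at this
        exact this
    rw [h3] at h2
    exact h2
  obtain ⟨f0, a0, hf0, hL0, hatt0⟩ := hatt
  have hlim0 : Tendsto (fun n => (Λ (gn r a0 n)).re) atTop (𝓝 M) := by
    have := (Complex.continuous_re.tendsto _).comp (hval f0 a0 hf0 hL0)
    rw [hatt0] at this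
    exact this
  obtain ⟨ν, hν⟩ := exists_limit Λ hΛ (gn_norm hr hr1 hf0 hL0) hlim0
  have hmrel : ∀ k, Λ (mon true k) + ((r ^ k : ℝ) : ℂ) * Λ (mon false k) =
      if k ∈ S then c k else 0 := by
    intro k
    rw [← hΛE k]
    unfold EE
    rw [map_add, map_smul, smul_eq_mul]
  have hmb : ∀ b k, ‖Λ (mon b k)‖ ≤ M := by
    intro b k
    refine (Λ.le_opNorm _).trans ?_
    have h1 := mon_norm_le b k
    have h2 : 0 ≤ ‖Λ‖ := norm_nonneg _
    nlinarith [norm_nonneg (mon b k)]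
  -- decay bounds
  set C : ℝ := M + M * ∑ i ∈ S, (r ^ (-i) + r ^ i) with hC
  have hsum0 : 0 ≤ ∑ i ∈ S, (r ^ (-i) + r ^ i) :=
    Finset.sum_nonneg (fun i _ => by positivity)
  have hC0 : 0 ≤ C := by positivity
  have hCM : M ≤ C := by
    have : 0 ≤ M * ∑ i ∈ S, (r ^ (-i) + r ^ i) := by positivity
    linarith
  have hrinv : ∀ k : ℤ, r ^ (-k) * r ^ k = 1 := by
    intro k; rw [← zpow_add₀ hr.ne']; simp
  have hdec1 : ∀ k, ‖Λ (mon true k)‖ ≤ C * r ^ k := by
    intro k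
    have hrk : 0 < r ^ k := zpow_pos hr k
    by_cases hk : k ∈ S
    · have h1 : r ^ (-k) ≤ ∑ i ∈ S, (r ^ (-i) + r ^ i) := by
        refine le_trans ?_ (Finset.single_le_sum (f := fun i => r ^ (-i) + r ^ i)
          (fun i _ => by positivity) hk)
        have : 0 < r ^ k := hrk
        show r ^ (-k) ≤ r ^ (-k) + r ^ k
        linarith
      have h2 : M * r ^ (-k) ≤ C := by
        have := mul_le_mul_of_nonneg_left h1 hM
        linarith
      calc ‖Λ (mon true k)‖ ≤ M := hmb true k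
        _ = M * r ^ (-k) * r ^ k := by rw [mul_assoc, hrinv, mul_one]
        _ ≤ C * r ^ k := mul_le_mul_of_nonneg_right h2 hrk.le
    · have h1 := hmrel k
      rw [if_neg hk] at h1
      have h2 : Λ (mon true k) = -(((r ^ k : ℝ) : ℂ) * Λ (mon false k)) := by
        linear_combination h1
      rw [h2, norm_neg, norm_mul, Complex.norm_real, Real.norm_of_nonneg hrk.le]
      have h3 := hmb false k
      nlinarith
  have hdec2 : ∀ k, ‖Λ (mon false k)‖ ≤ C * r ^ (-k) := by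
    intro k
    have hrk : 0 < r ^ k := zpow_pos hr k
    have hrk' : 0 < r ^ (-k) := zpow_pos hr (-k)
    by_cases hk : k ∈ S
    · have h1 : r ^ k ≤ ∑ i ∈ S, (r ^ (-i) + r ^ i) := by
        refine le_trans ?_ (Finset.single_le_sum (f := fun i => r ^ (-i) + r ^ i)
          (fun i _ => by positivity) hk)
        show r ^ k ≤ r ^ (-k) + r ^ k
        linarith
      have h2 : M * r ^ k ≤ C := by
        have := mul_le_mul_of_nonneg_left h1 hM
        linarith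
      calc ‖Λ (mon false k)‖ ≤ M := hmb false k
        _ = M * r ^ k * r ^ (-k) := by rw [mul_assoc, mul_comm (r ^ k), hrinv, mul_one]
        _ ≤ C * r ^ (-k) := mul_le_mul_of_nonneg_right h2 hrk'.le
    · have h1 := hmrel k
      rw [if_neg hk] at h1
      have h2 : Λ (mon false k) = -(((r ^ (-k) : ℝ) : ℂ) * Λ (mon true k)) := by
        have h3 : ((r ^ (-k) : ℝ) : ℂ) * ((r ^ k : ℝ) : ℂ) = 1 := by
          rw [← Complex.ofReal_mul, hrinv, Complex.ofReal_one]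
        linear_combination ((r ^ (-k) : ℝ) : ℂ) * h1 - Λ (mon false k) * h3
      rw [h2, norm_neg, norm_mul, Complex.norm_real, Real.norm_of_nonneg hrk'.le]
      have h3 := hmb true k
      nlinarith
  have hνb : ∀ b k, ‖ν (mon b k)‖ ≤ ‖ν‖ := by
    intro b k
    refine (ν.le_opNorm _).trans ?_
    exact mul_le_of_le_one_right (norm_nonneg _) (mon_norm_le b k)
  have hherm : ∀ b k, ν (mon b (-k)) = (starRingEnd ℂ) (ν (mon b k)) := by
    intro b k
    rw [← mon_star]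
    exact lim_star hΛ (gn_norm hr hr1 hf0 hL0) hlim0 hν _
  have hpos : ∀ b (ρ θ : ℝ), 0 ≤ ρ → ρ < 1 →
      0 ≤ (∑' k : ℤ, ((ρ ^ k.natAbs : ℝ) : ℂ) * (ex k θ * ν (mon b k))).re := by
    intro b ρ θ h0 h1
    rw [← pk_apply b h0 h1 θ ν]
    exact lim_nonneg hΛ (gn_norm hr hr1 hf0 hL0) hlim0 hν _ (pk_nonneg b h0 h1 θ)
  refine ⟨fun k => Λ (mon true k), fun k => ν (mon true k), fun k => Λ (mon false k),
    fun k => ν (mon false k), ⟨⟨C, hC0, fun k => ⟨(hmb true k).trans hCM, hdec1 k⟩⟩,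
      ⟨‖ν‖, hνb true⟩, hherm true, hpos true⟩,
    ⟨⟨C, hC0, fun k => ⟨(hmb false (-k)).trans hCM, ?_⟩⟩, ⟨‖ν‖, fun k => hνb false (-k)⟩,
      fun k => hherm false (-k), ?_⟩, hmrel, ?_, ?_⟩
  · have := hdec2 (-k)
    rwa [neg_neg] at this
  · intro ρ θ h0 h1
    have h2 := hpos false ρ (-θ) h0 h1
    rw [← tsum_neg_int] at h2
    convert h2 using 3
    funext k
    simp only [Int.natAbs_neg]
    congr 2
    unfold ex
    rw [zpow_neg, Complex.ofReal_neg, neg_mul, Complex.exp_neg, inv_zpow, inv_inv]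
  · rw [← map_add, mon_one]
    exact lim_one hΛ (gn_norm hr hr1 hf0 hL0) hlim0 hν
  · intro f a hf hL hatt
    have hcb := cb_of hr hr1 hf hL
    have hlim : Tendsto (fun n => (Λ (gn r a n)).re) atTop (𝓝 M) := by
      have := (Complex.continuous_re.tendsto _).comp (hval f a hf hL)
      rw [hatt] at this
      exact this
    have hν' : Tendsto (fun n => mulF Λ (gn r a n)) atTop (𝓝 ν) :=
      limit_unique Λ hΛ (gn_norm hr hr1 hf0 hL0) (gn_norm hr hr1 hf hL) hlim0 hlim hν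
    -- the reconstruction along `gn`
    have hrec : ∀ φ, Tendsto (fun n => ν (gn r a n * φ)) atTop
        (𝓝 ((starRingEnd ℂ) (Λ (star φ)))) :=
      fun φ => lim_rec hΛ (gn_norm hr hr1 hf hL) hlim hν' φ
    have hfac := fac_tendsto hr hr1
    have hrec' : ∀ φ, Tendsto (fun n => ∑' j : ℤ, ((rho r n ^ j.natAbs : ℝ) : ℂ) *
        (a j * ν (EE r j * φ))) atTop (𝓝 ((starRingEnd ℂ) (Λ (star φ)))) := by
      intro φ
      have h1 := (hrec φ).mul (hfac.inv₀ one_ne_zero)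
      rw [inv_one, mul_one] at h1
      refine h1.congr (fun n => ?_)
      obtain ⟨h3, h4⟩ := rho_mem hr1 n
      have h5 : (((1 + eps r (rho r n))⁻¹ : ℝ) : ℂ) ≠ 0 := by
        have := eps_nonneg hr h3 h4
        have h6 : (0:ℝ) < (1 + eps r (rho r n))⁻¹ := by positivity
        exact_mod_cast h6.ne'
      unfold gn
      rw [smul_mul_assoc, map_smul, smul_eq_mul, Fr_apply hr hcb (hr.trans h3).le h4]
      rw [mul_comm (((1 + eps r (rho r n))⁻¹ : ℝ) : ℂ), mul_assoc, mul_inv_cancel₀ h5, mul_one]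
    constructor
    · constructor
      · intro k
        have hs := conv_summable hr hr1 hcb hC0
          (m := fun k => Λ (mon true k)) (fun k => ⟨(hmb true k).trans hCM, hdec1 k⟩) k
        have hs' : Summable fun j => ‖a j * Λ (EE r j * mon true k)‖ := by
          simp only [EE_mul_true]; exact hs
        have h1 := gn_limit hr hr1 hf hL Λ (mon true k) hs'
        simp only [EE_mul_true] at h1
        exact tendsto_nhds_unique (lim_apply hν' (mon true k)) h1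
      · intro k
        have h1 := hrec' (mon true (-k))
        rw [mon_star, neg_neg] at h1
        refine h1.congr (fun n => ?_)
        refine tsum_congr (fun j => ?_)
        rw [EE_mul_true, sub_eq_add_neg]
    · constructor
      · intro k
        have hcb' : CB r (fun j => a (-j) * ((r ^ (-j) : ℝ) : ℂ)) := by
          constructor
          · intro j
            rw [norm_mul, Complex.norm_real, Real.norm_of_nonneg (zpow_nonneg hr.le _)]
            exact hcb.inner (-j)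
          · intro j
            rw [norm_mul, Complex.norm_real, Real.norm_of_nonneg (zpow_nonneg hr.le _), mul_assoc,
              hrinv, mul_one]
            exact hcb.one (-j)
        have hs := conv_summable hr hr1 hcb' hC0
          (m := fun k => Λ (mon false (-k))) (fun k => ⟨(hmb false (-k)).trans hCM, by
            have := hdec2 (-k)
            rwa [neg_neg] at this⟩) k
        have hs' : Summable fun j => ‖a j * Λ (EE r j * mon false (-k))‖ := by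
          rw [← (Equiv.neg ℤ).summable_iff]
          refine hs.congr (fun j => ?_)
          simp only [Function.comp, Equiv.neg_apply, EE_mul_false, map_smul, smul_eq_mul]
          rw [mul_assoc]
          congr 4
          congr 1
          ring
        have h1 := gn_limit hr hr1 hf hL Λ (mon false (-k)) hs'
        have h2 := tendsto_nhds_unique (lim_apply hν' (mon false (-k))) h1
        simp only
        rw [h2, ← tsum_neg_int]
        refine tsum_congr (fun j => ?_)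
        rw [EE_mul_false, map_smul, smul_eq_mul, mul_assoc]
        congr 4
        ring
      · intro k
        have h1 := hrec' (mon false k)
        rw [mon_star] at h1
        refine h1.congr (fun n => ?_)
        rw [← tsum_neg_int]
        refine tsum_congr (fun j => ?_)
        rw [EE_mul_false, map_smul, smul_eq_mul, Int.natAbs_neg, mul_assoc (a (-j))]
        congr 5
        ring

end Run7.h331
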