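import Mathlib

/-!
Definitions for MP_faa29e_an: Laurent coefficient bodies of bounded analytic functions
on the annulus `r < |z| < 1`.
-/

namespace Run7.h331

/-- The open annulus `r < |z| < 1`. -/
def annulus (r : ℝ) : Set ℂ := {z | r < ‖z‖ ∧ ‖z‖ < 1}

/-- The class of holomorphic functions on the annulus bounded by one. -/
def IsB (r : ℝ) (f : ℂ → ℂ) : Prop :=
  DifferentiableOn ℂ f (annulus r) ∧ ∀ z ∈ annulus r, ‖f z‖ ≤ 1

/-- `a` is the sequence of Laurent coefficients of `f` on the annulus. -/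
def IsLaurent (r : ℝ) (f : ℂ → ℂ) (a : ℤ → ℂ) : Prop :=
  ∀ z ∈ annulus r, HasSum (fun k : ℤ => a k * z ^ k) (f z)

/-- The coefficient body of the annulus for the finite set of indices `S`. -/
def body (r : ℝ) (S : Finset ℤ) : Set (S → ℂ) :=
  {v | ∃ (f : ℂ → ℂ) (a : ℤ → ℂ), IsB r f ∧ IsLaurent r f a ∧ ∀ k : S, v k = a k}

end Run7.h331
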