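import Mathlib

/-!
Functionals on `C(K, ℂ)` and sequences at which their norm is almost attained.
-/

open Filter Topology Complex

set_option maxHeartbeats 400000

namespace Run7.h331

variable {K : Type*} [TopologicalSpace K] [CompactSpace K]

lemma exists_phase (w : ℂ) : ∃ u : ℂ, ‖u‖ = 1 ∧ u * w = (‖w‖ : ℂ) := by
  by_cases h : w = 0
  · exact ⟨1, by simp, by simp [h]⟩
  · refine ⟨(starRingEnd ℂ) w / ‖w‖, ?_, ?_⟩
    · rw [norm_div, Complex.norm_conj, Complex.norm_real, norm_norm, div_self (norm_ne_zero_iff.2 h)]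
    · have h1 : (‖w‖ : ℂ) ≠ 0 := by exact_mod_cast norm_ne_zero_iff.2 h
      rw [div_mul_eq_mul_div, mul_comm, Complex.mul_conj, Complex.normSq_eq_norm_sq]
      field_simp
      push_cast
      ring

lemma re_le (Λ : C(K, ℂ) →L[ℂ] ℂ) {M : ℝ} (hΛ : ‖Λ‖ ≤ M) {x : C(K, ℂ)} {B : ℝ} (hx : ‖x‖ ≤ B) :
    (Λ x).re ≤ M * B := by
  have h1 := Λ.le_opNorm x
  have h2 := Complex.re_le_norm (Λ x)
  have h3 : 0 ≤ ‖Λ‖ := norm_nonneg _
  have h4 : 0 ≤ ‖x‖ := norm_nonneg _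
  nlinarith

lemma cauchy_aux (Λ : C(K, ℂ) →L[ℂ] ℂ) {M : ℝ} (hΛ : ‖Λ‖ ≤ M) {g g' : C(K, ℂ)} (hg : ‖g‖ ≤ 1)
    (hg' : ‖g'‖ ≤ 1) {ε : ℝ} (h : M - ε ≤ (Λ g).re) (h' : M - ε ≤ (Λ g').re) {t : ℝ}
    (ht : 0 < t) (φ : C(K, ℂ)) (hφ : ‖φ‖ ≤ 1) :
    ‖Λ ((g - g') * φ)‖ ≤ 2 * (ε / t + M * t / 2) := by
  have hM : 0 ≤ M := (norm_nonneg _).trans hΛ
  set w := Λ ((1 / 2 : ℂ) • ((g - g') * φ)) with hw
  obtain ⟨u, hu, huw⟩ := exists_phase w
  set x : C(K, ℂ) := (1 / 2 : ℂ) • (g + g') + ((t : ℂ) * u) • ((1 / 2 : ℂ) • ((g - g') * φ)) with hx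
  have hxn : ‖x‖ ≤ 1 + t ^ 2 / 2 := by
    rw [ContinuousMap.norm_le _ (by positivity)]
    intro p
    have e1 : x p = (1 / 2 : ℂ) * (g p + g' p) + ((t : ℂ) * u) * ((1 / 2 : ℂ) * ((g p - g' p) * φ p)) := by
      simp only [hx, ContinuousMap.add_apply, ContinuousMap.smul_apply, ContinuousMap.mul_apply,
        ContinuousMap.sub_apply, smul_eq_mul]
    rw [e1]
    have h1 : ‖g p‖ ≤ 1 := (g.norm_coe_le_norm p).trans hg
    have h2 : ‖g' p‖ ≤ 1 := (g'.norm_coe_le_norm p).trans hg'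
    have h3 : ‖φ p‖ ≤ 1 := (φ.norm_coe_le_norm p).trans hφ
    have hpar := parallelogram_law_with_norm ℝ (g p) (g' p)
    set a := ‖g p + g' p‖ with ha
    set b := ‖g p - g' p‖ with hb
    have ha0 : 0 ≤ a := norm_nonneg _
    have hb0 : 0 ≤ b := norm_nonneg _
    have hab : a ^ 2 + b ^ 2 ≤ 4 := by nlinarith [norm_nonneg (g p), norm_nonneg (g' p)]
    refine (norm_add_le _ _).trans ?_
    rw [norm_mul, norm_mul, norm_mul, norm_mul, norm_mul, hu, Complex.norm_real,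
      Real.norm_of_nonneg ht.le]
    have e2 : ‖(1 / 2 : ℂ)‖ = 1 / 2 := by norm_num
    rw [e2, ← ha, ← hb]
    have h4 : b * ‖φ p‖ ≤ b := mul_le_of_le_one_right hb0 h3
    have h5 : t * (b * ‖φ p‖) ≤ t * b := mul_le_mul_of_nonneg_left h4 ht.le
    nlinarith [sq_nonneg (t - b / 2), sq_nonneg (1 - a / 2)]
  have h1 := re_le Λ hΛ hxn
  have h2 : (Λ x).re = ((Λ g).re + (Λ g').re) / 2 + t * ‖w‖ := by
    have e1 : Λ x = (1 / 2 : ℂ) * (Λ g + Λ g') + (t : ℂ) * (u * w) := by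
      simp only [hx, hw, map_add, map_smul, smul_eq_mul]
      ring
    rw [e1, huw]
    simp
    ring
  have h3 : t * ‖w‖ ≤ ε + M * t ^ 2 / 2 := by
    rw [h2] at h1
    nlinarith
  have h4 : ‖w‖ ≤ ε / t + M * t / 2 := by
    have : ‖w‖ ≤ (ε + M * t ^ 2 / 2) / t := by
      rw [le_div_iff₀ ht]; linarith
    refine this.trans (le_of_eq ?_)
    field_simp
  have h5 : Λ ((g - g') * φ) = 2 * w := by
    rw [hw, map_smul, smul_eq_mul]
    ring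
  rw [h5, norm_mul]
  have : ‖(2 : ℂ)‖ = 2 := by norm_num
  rw [this]
  linarith

lemma sq_aux (Λ : C(K, ℂ) →L[ℂ] ℂ) {M : ℝ} (hΛ : ‖Λ‖ ≤ M) {g : C(K, ℂ)} (hg : ‖g‖ ≤ 1)
    {ε : ℝ} (h : M - ε ≤ (Λ g).re) (φ : C(K, ℂ)) (hφ : ‖φ‖ ≤ 1) :
    ‖Λ ((1 - g * star g) * φ)‖ ≤ 2 * ε := by
  set w := Λ ((1 - g * star g) * φ) with hw
  obtain ⟨u, hu, huw⟩ := exists_phase w
  set x : C(K, ℂ) := g + ((1 / 2 : ℂ) * u) • ((1 - g * star g) * φ) with hx
  have hxn : ‖x‖ ≤ 1 := by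
    rw [ContinuousMap.norm_le _ zero_le_one]
    intro p
    have h1 : ‖g p‖ ≤ 1 := (g.norm_coe_le_norm p).trans hg
    have h3 : ‖φ p‖ ≤ 1 := (φ.norm_coe_le_norm p).trans hφ
    have e1 : x p = g p + ((1 / 2 : ℂ) * u) * (((1 - ‖g p‖ ^ 2 : ℝ) : ℂ) * φ p) := by
      simp only [hx, ContinuousMap.add_apply, ContinuousMap.smul_apply, ContinuousMap.mul_apply,
        ContinuousMap.sub_apply, ContinuousMap.one_apply, ContinuousMap.star_apply, smul_eq_mul]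
      have : g p * star (g p) = ((‖g p‖ ^ 2 : ℝ) : ℂ) := by
        rw [Complex.star_def, Complex.mul_conj, Complex.normSq_eq_norm_sq]
      rw [this]
      push_cast
      ring
    rw [e1]
    refine (norm_add_le _ _).trans ?_
    have h4 : 0 ≤ 1 - ‖g p‖ ^ 2 := by nlinarith [norm_nonneg (g p)]
    rw [norm_mul, norm_mul, norm_mul, hu, Complex.norm_real, Real.norm_of_nonneg h4]
    have e2 : ‖(1 / 2 : ℂ)‖ = 1 / 2 := by norm_num
    rw [e2]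
    have h5 : (1 - ‖g p‖ ^ 2) * ‖φ p‖ ≤ 1 - ‖g p‖ ^ 2 := mul_le_of_le_one_right h4 h3
    nlinarith [norm_nonneg (g p), sq_nonneg (1 - ‖g p‖)]
  have h1 := re_le Λ hΛ hxn
  have h2 : (Λ x).re = (Λ g).re + ‖w‖ / 2 := by
    have e1 : Λ x = Λ g + (1 / 2 : ℂ) * (u * w) := by
      simp only [hx, hw, map_add, map_smul, smul_eq_mul]
      ring
    rw [e1, huw]
    simp
    ring
  rw [h2] at h1
  linarith

/-- positivity -/
lemma pos_aux (Λ : C(K, ℂ) →L[ℂ] ℂ) {M : ℝ} (hΛ : ‖Λ‖ ≤ M) {g : C(K, ℂ)} (hg : ‖g‖ ≤ 1)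
    {ε : ℝ} (h : M - ε ≤ (Λ g).re) (φ : C(K, ℂ)) (hφ : ∀ p, ‖1 - φ p‖ ≤ 1) :
    -ε ≤ (Λ (g * φ)).re := by
  have hn : ‖g * (1 - φ)‖ ≤ 1 := by
    rw [ContinuousMap.norm_le _ zero_le_one]
    intro p
    have h1 : ‖g p‖ ≤ 1 := (g.norm_coe_le_norm p).trans hg
    have h2 := hφ p
    simp only [ContinuousMap.mul_apply, ContinuousMap.sub_apply, ContinuousMap.one_apply]
    rw [norm_mul]
    nlinarith [norm_nonneg (g p), norm_nonneg (1 - φ p)]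
  have h1 := re_le Λ hΛ hn
  have e : g * (1 - φ) = g - g * φ := by ring
  rw [e, map_sub, Complex.sub_re] at h1
  linarith

/-- reality -/
lemma real_aux (Λ : C(K, ℂ) →L[ℂ] ℂ) {M : ℝ} (hΛ : ‖Λ‖ ≤ M) {g : C(K, ℂ)} (hg : ‖g‖ ≤ 1)
    {ε : ℝ} (h : M - ε ≤ (Λ g).re) (φ : C(K, ℂ)) (hφ : ∀ p, (φ p).im = 0 ∧ |(φ p).re| ≤ 1) {t : ℝ}
    (ht : 0 < t) : |(Λ (g * φ)).im| ≤ ε / t + M * t / 2 := by
  have hM : 0 ≤ M := (norm_nonneg _).trans hΛ
  have key : ∀ s : ℝ, -(s * (Λ (g * φ)).im) ≤ ε + M * s ^ 2 / 2 := by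
    intro s
    have hn : ‖g * (1 + ((s : ℂ) * I) • φ)‖ ≤ 1 + s ^ 2 / 2 := by
      rw [ContinuousMap.norm_le _ (by positivity)]
      intro p
      have h1 : ‖g p‖ ≤ 1 := (g.norm_coe_le_norm p).trans hg
      obtain ⟨h2, h3⟩ := hφ p
      simp only [ContinuousMap.mul_apply, ContinuousMap.add_apply, ContinuousMap.one_apply,
        ContinuousMap.smul_apply, smul_eq_mul]
      rw [norm_mul]
      have h4 : ‖1 + (s : ℂ) * I * φ p‖ ≤ 1 + s ^ 2 / 2 := by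
        have h5 : (‖1 + (s : ℂ) * I * φ p‖) ^ 2 ≤ (1 + s ^ 2 / 2) ^ 2 := by
          rw [← Complex.normSq_eq_norm_sq, Complex.normSq_apply]
          simp [h2]
          have h6 : (φ p).re ^ 2 ≤ 1 := by
            rw [← sq_abs]; nlinarith [abs_nonneg (φ p).re]
          nlinarith [sq_nonneg s, sq_nonneg (s ^ 2), mul_nonneg (sq_nonneg s) (sub_nonneg.2 h6)]
        exact abs_le_of_sq_le_sq' h5 (by positivity) |>.2
      nlinarith [norm_nonneg (g p), norm_nonneg (1 + (s : ℂ) * I * φ p)]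
    have h1 := re_le Λ hΛ hn
    have e : g * (1 + ((s : ℂ) * I) • φ) = g + ((s : ℂ) * I) • (g * φ) := by
      rw [mul_add, mul_one, mul_smul_comm]
    rw [e, map_add, map_smul, Complex.add_re, smul_eq_mul] at h1
    have e2 : ((s : ℂ) * I * Λ (g * φ)).re = -(s * (Λ (g * φ)).im) := by simp
    rw [e2] at h1
    nlinarith
  have h1 := key t
  have h2 := key (-t)
  have e3 : ε / t + M * t / 2 = (ε + M * t ^ 2 / 2) / t := by field_simp
  rw [e3, le_div_iff₀ ht]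
  rcases abs_cases (Λ (g * φ)).im with ⟨h4, _⟩ | ⟨h4, _⟩
  · rw [h4]; nlinarith
  · rw [h4]; nlinarith

lemma exists_small {M δ : ℝ} (hM : 0 ≤ M) (hδ : 0 < δ) :
    ∃ t ε : ℝ, 0 < t ∧ 0 < ε ∧ 2 * (ε / t + M * t / 2) < δ := by
  refine ⟨δ / (4 * (M + 1)), (δ / (4 * (M + 1))) * (δ / 8), by positivity, by positivity, ?_⟩
  have h1 : (δ / (4 * (M + 1))) * (δ / 8) / (δ / (4 * (M + 1))) = δ / 8 := by field_simp
  rw [h1]
  have h2 : M * (δ / (4 * (M + 1))) ≤ δ / 4 := by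
    rw [mul_div_assoc', div_le_div_iff₀ (by positivity) (by positivity)]
    nlinarith
  linarith

/-- multiplication followed by `Λ` -/
noncomputable def mulF (Λ : C(K, ℂ) →L[ℂ] ℂ) (g : C(K, ℂ)) : C(K, ℂ) →L[ℂ] ℂ :=
  Λ.comp (ContinuousLinearMap.mul ℂ C(K, ℂ) g)

lemma mulF_apply (Λ : C(K, ℂ) →L[ℂ] ℂ) (g φ : C(K, ℂ)) : mulF Λ g φ = Λ (g * φ) := rfl

lemma mulF_sub_norm (Λ : C(K, ℂ) →L[ℂ] ℂ) {M : ℝ} (hΛ : ‖Λ‖ ≤ M) {g g' : C(K, ℂ)} (hg : ‖g‖ ≤ 1)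
    (hg' : ‖g'‖ ≤ 1) {ε : ℝ} (hε : 0 ≤ ε) (h : M - ε ≤ (Λ g).re) (h' : M - ε ≤ (Λ g').re) {t : ℝ}
    (ht : 0 < t) : ‖mulF Λ g - mulF Λ g'‖ ≤ 2 * (ε / t + M * t / 2) := by
  have hM : 0 ≤ M := (norm_nonneg _).trans hΛ
  refine ContinuousLinearMap.opNorm_le_of_unit_norm (𝕜 := ℂ) (by positivity) (fun φ hφ => ?_)
  have e : (mulF Λ g - mulF Λ g') φ = Λ ((g - g') * φ) := by
    rw [ContinuousLinearMap.sub_apply, mulF_apply, mulF_apply, ← map_sub, sub_mul]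
  rw [e]
  exact cauchy_aux Λ hΛ hg hg' h h' ht φ hφ.le

/-- two almost norming sequences are asymptotically equal -/
lemma mulF_dist (Λ : C(K, ℂ) →L[ℂ] ℂ) {M : ℝ} (hΛ : ‖Λ‖ ≤ M) {g g' : ℕ → C(K, ℂ)}
    (hg : ∀ n, ‖g n‖ ≤ 1) (hg' : ∀ n, ‖g' n‖ ≤ 1)
    (hlim : Tendsto (fun n => (Λ (g n)).re) atTop (𝓝 M))
    (hlim' : Tendsto (fun n => (Λ (g' n)).re) atTop (𝓝 M)) {δ : ℝ} (hδ : 0 < δ) :
    ∃ N, ∀ m ≥ N, ∀ n ≥ N, ‖mulF Λ (g m) - mulF Λ (g' n)‖ < δ := by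
  have hM : 0 ≤ M := (norm_nonneg _).trans hΛ
  obtain ⟨t, ε, ht, hε, hlt⟩ := exists_small hM hδ
  have h1 := hlim.eventually (eventually_ge_nhds (show M - ε < M by linarith))
  have h2 := hlim'.eventually (eventually_ge_nhds (show M - ε < M by linarith))
  obtain ⟨N1, hN1⟩ := eventually_atTop.1 h1
  obtain ⟨N2, hN2⟩ := eventually_atTop.1 h2
  refine ⟨max N1 N2, fun m hm n hn => ?_⟩
  exact (mulF_sub_norm Λ hΛ (hg m) (hg' n) hε.le (hN1 m (le_of_max_le_left hm))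
    (hN2 n (le_of_max_le_right hn)) ht).trans_lt hlt

/-- the limit functional `ν = g Λ` -/
theorem exists_limit (Λ : C(K, ℂ) →L[ℂ] ℂ) {M : ℝ} (hΛ : ‖Λ‖ ≤ M) {g : ℕ → C(K, ℂ)}
    (hg : ∀ n, ‖g n‖ ≤ 1) (hlim : Tendsto (fun n => (Λ (g n)).re) atTop (𝓝 M)) :
    ∃ ν : C(K, ℂ) →L[ℂ] ℂ, Tendsto (fun n => mulF Λ (g n)) atTop (𝓝 ν) := by
  apply cauchySeq_tendsto_of_complete
  rw [Metric.cauchySeq_iff]
  intro δ hδ
  obtain ⟨N, hN⟩ := mulF_dist Λ hΛ hg hg hlim hlim hδ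
  refine ⟨N, fun m hm n hn => ?_⟩
  rw [dist_eq_norm]
  exact hN m hm n hn

/-- the limit functional does not depend on the sequence -/
theorem limit_unique (Λ : C(K, ℂ) →L[ℂ] ℂ) {M : ℝ} (hΛ : ‖Λ‖ ≤ M) {g g' : ℕ → C(K, ℂ)}
    (hg : ∀ n, ‖g n‖ ≤ 1) (hg' : ∀ n, ‖g' n‖ ≤ 1)
    (hlim : Tendsto (fun n => (Λ (g n)).re) atTop (𝓝 M))
    (hlim' : Tendsto (fun n => (Λ (g' n)).re) atTop (𝓝 M)) {ν : C(K, ℂ) →L[ℂ] ℂ}
    (hν : Tendsto (fun n => mulF Λ (g n)) atTop (𝓝 ν)) :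
    Tendsto (fun n => mulF Λ (g' n)) atTop (𝓝 ν) := by
  rw [Metric.tendsto_atTop] at hν ⊢
  intro δ hδ
  obtain ⟨N, hN⟩ := mulF_dist Λ hΛ hg' hg hlim' hlim (half_pos hδ)
  obtain ⟨N', hN'⟩ := hν (δ / 2) (half_pos hδ)
  refine ⟨max N N', fun n hn => ?_⟩
  have h1 := hN n (le_of_max_le_left hn) n (le_of_max_le_left hn)
  have h2 := hN' n (le_of_max_le_right hn)
  rw [← dist_eq_norm] at h1
  calc dist (mulF Λ (g' n)) ν ≤ dist (mulF Λ (g' n)) (mulF Λ (g n)) + dist (mulF Λ (g n)) ν :=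
        dist_triangle _ _ _
    _ < δ := by linarith

section
variable {Λ : C(K, ℂ) →L[ℂ] ℂ} {M : ℝ} {g : ℕ → C(K, ℂ)} {ν : C(K, ℂ) →L[ℂ] ℂ}

lemma lim_apply (hν : Tendsto (fun n => mulF Λ (g n)) atTop (𝓝 ν)) (φ : C(K, ℂ)) :
    Tendsto (fun n => Λ (g n * φ)) atTop (𝓝 (ν φ)) :=
  ((ContinuousLinearMap.apply ℂ ℂ φ).continuous.tendsto ν).comp hν

lemma lim_one (hΛ : ‖Λ‖ ≤ M) (hg : ∀ n, ‖g n‖ ≤ 1)
    (hlim : Tendsto (fun n => (Λ (g n)).re) atTop (𝓝 M))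
    (hν : Tendsto (fun n => mulF Λ (g n)) atTop (𝓝 ν)) : ν 1 = (M : ℂ) := by
  have h1 := lim_apply hν 1
  simp only [mul_one] at h1
  have h2 : (ν 1).re = M := tendsto_nhds_unique ((Complex.continuous_re.tendsto _).comp h1) hlim
  have h3 : ‖ν 1‖ ≤ M := by
    refine le_of_tendsto h1.norm (Eventually.of_forall fun n => ?_)
    refine (Λ.le_opNorm _).trans ?_
    have := hg n
    nlinarith [norm_nonneg Λ, norm_nonneg (g n)]
  have hM : 0 ≤ M := (norm_nonneg _).trans hΛ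
  apply Complex.ext
  · simpa using h2
  · have h4 : ‖ν 1‖ ^ 2 ≤ M ^ 2 := pow_le_pow_left₀ (norm_nonneg _) h3 2
    rw [← Complex.normSq_eq_norm_sq, Complex.normSq_apply, h2] at h4
    have : (ν 1).im * (ν 1).im ≤ 0 := by nlinarith
    have h5 : (ν 1).im = 0 := by nlinarith [mul_self_nonneg (ν 1).im, mul_self_eq_zero.1 (le_antisymm this (mul_self_nonneg _))]
    simpa using h5

lemma lim_nonneg (hΛ : ‖Λ‖ ≤ M) (hg : ∀ n, ‖g n‖ ≤ 1)
    (hlim : Tendsto (fun n => (Λ (g n)).re) atTop (𝓝 M))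
    (hν : Tendsto (fun n => mulF Λ (g n)) atTop (𝓝 ν)) (φ : C(K, ℂ))
    (hφ : ∀ p, (φ p).im = 0 ∧ 0 ≤ (φ p).re) : 0 ≤ (ν φ).re := by
  set c : ℝ := ‖φ‖ + 1 with hc
  have hc0 : 0 < c := by positivity
  have key : 0 ≤ (ν (((c⁻¹ : ℝ) : ℂ) • φ)).re := by
    have h1 := (Complex.continuous_re.tendsto _).comp (lim_apply hν (((c⁻¹ : ℝ) : ℂ) • φ))
    refine le_of_forall_pos_le_add (fun ε hε => ?_)
    have h2 : -ε ≤ (ν (((c⁻¹ : ℝ) : ℂ) • φ)).re := by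
      refine ge_of_tendsto h1 ?_
      filter_upwards [hlim.eventually (eventually_ge_nhds (show M - ε < M by linarith))] with n hn
      refine pos_aux Λ hΛ (hg n) hn _ (fun p => ?_)
      obtain ⟨h3, h4⟩ := hφ p
      have h5 : (φ p).re ≤ c := by
        have h6 := (Complex.re_le_norm (φ p)).trans (φ.norm_coe_le_norm p)
        linarith
      have e : (1 : ℂ) - (((c⁻¹ : ℝ) : ℂ) • φ) p = ((1 - c⁻¹ * (φ p).re : ℝ) : ℂ) := by
        rw [ContinuousMap.smul_apply, smul_eq_mul]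
        apply Complex.ext
        · simp
        · simp [h3]
      rw [e, Complex.norm_real, Real.norm_eq_abs, abs_le]
      have h7 : c⁻¹ * (φ p).re ≤ 1 := by
        rw [inv_mul_le_iff₀ hc0]; linarith
      have h8 : 0 ≤ c⁻¹ * (φ p).re := by positivity
      constructor <;> linarith
    linarith
  rw [map_smul, smul_eq_mul, Complex.re_ofReal_mul] at key
  exact (mul_nonneg_iff_of_pos_left (inv_pos.2 hc0)).1 key

lemma lim_real (hΛ : ‖Λ‖ ≤ M) (hg : ∀ n, ‖g n‖ ≤ 1)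
    (hlim : Tendsto (fun n => (Λ (g n)).re) atTop (𝓝 M))
    (hν : Tendsto (fun n => mulF Λ (g n)) atTop (𝓝 ν)) (φ : C(K, ℂ))
    (hφ : ∀ p, (φ p).im = 0) : (ν φ).im = 0 := by
  have hM : 0 ≤ M := (norm_nonneg _).trans hΛ
  set c : ℝ := ‖φ‖ + 1 with hc
  have hc0 : 0 < c := by positivity
  have key : (ν (((c⁻¹ : ℝ) : ℂ) • φ)).im = 0 := by
    have h1 := (Complex.continuous_im.tendsto _).comp (lim_apply hν (((c⁻¹ : ℝ) : ℂ) • φ))
    have h0 : |(ν (((c⁻¹ : ℝ) : ℂ) • φ)).im| ≤ 0 := by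
      refine le_of_forall_pos_le_add (fun δ hδ => ?_)
      obtain ⟨t, ε, ht, hε, hlt⟩ := exists_small hM hδ
      rw [zero_add]
      refine le_of_tendsto h1.abs ?_
      filter_upwards [hlim.eventually (eventually_ge_nhds (show M - ε < M by linarith))] with n hn
      have h5 := real_aux Λ hΛ (hg n) hn (((c⁻¹ : ℝ) : ℂ) • φ) (fun p => ?_) ht
      · refine h5.trans ?_
        have : 0 ≤ ε / t + M * t / 2 := by positivity
        linarith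
      · rw [ContinuousMap.smul_apply, smul_eq_mul]
        constructor
        · simp [hφ p]
        · rw [Complex.re_ofReal_mul, abs_mul, abs_of_pos (inv_pos.2 hc0), inv_mul_le_iff₀ hc0]
          have h6 := (Complex.abs_re_le_norm (φ p)).trans (φ.norm_coe_le_norm p)
          linarith
    exact abs_eq_zero.1 (le_antisymm h0 (abs_nonneg _))
  rw [map_smul, smul_eq_mul, Complex.im_ofReal_mul] at key
  rcases mul_eq_zero.1 key with h | h
  · exact absurd h (inv_pos.2 hc0).ne'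
  · exact h

lemma lim_star (hΛ : ‖Λ‖ ≤ M) (hg : ∀ n, ‖g n‖ ≤ 1)
    (hlim : Tendsto (fun n => (Λ (g n)).re) atTop (𝓝 M))
    (hν : Tendsto (fun n => mulF Λ (g n)) atTop (𝓝 ν)) (φ : C(K, ℂ)) :
    ν (star φ) = (starRingEnd ℂ) (ν φ) := by
  have h1 := lim_real hΛ hg hlim hν (φ + star φ) (fun p => by simp)
  have h2 := lim_real hΛ hg hlim hν (I • (φ - star φ)) (fun p => by simp)
  rw [map_add, Complex.add_im] at h1
  rw [map_smul, map_sub, smul_eq_mul, Complex.I_mul_im, Complex.sub_re] at h2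
  apply Complex.ext
  · rw [Complex.conj_re]; linarith
  · rw [Complex.conj_im]; linarith

lemma lim_rec (hΛ : ‖Λ‖ ≤ M) (hg : ∀ n, ‖g n‖ ≤ 1)
    (hlim : Tendsto (fun n => (Λ (g n)).re) atTop (𝓝 M))
    (hν : Tendsto (fun n => mulF Λ (g n)) atTop (𝓝 ν)) (φ : C(K, ℂ)) :
    Tendsto (fun n => ν (g n * φ)) atTop (𝓝 ((starRingEnd ℂ) (Λ (star φ)))) := by
  have hM : 0 ≤ M := (norm_nonneg _).trans hΛ
  -- reduce to `ν (star g * ψ) → Λ ψ`
  have key : ∀ ψ : C(K, ℂ), Tendsto (fun n => ν (star (g n) * ψ)) atTop (𝓝 (Λ ψ)) := by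
    intro ψ
    have h1 : Tendsto (fun n => Λ ((1 - g n * star (g n)) * ψ)) atTop (𝓝 0) := by
      set c : ℝ := ‖ψ‖ + 1 with hc
      have hc0 : 0 < c := by positivity
      rw [Metric.tendsto_atTop]
      intro δ hδ
      have hε : 0 < δ / (4 * c) := by positivity
      obtain ⟨N, hN⟩ := eventually_atTop.1
        (hlim.eventually (eventually_ge_nhds (show M - δ / (4 * c) < M by linarith)))
      refine ⟨N, fun n hn => ?_⟩
      have h3 : ‖((c⁻¹ : ℝ) : ℂ) • ψ‖ ≤ 1 := by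
        rw [norm_smul, Complex.norm_real, Real.norm_of_nonneg (inv_pos.2 hc0).le,
          inv_mul_le_iff₀ hc0]
        linarith
      have h4 := sq_aux Λ hΛ (hg n) (hN n hn) (((c⁻¹ : ℝ) : ℂ) • ψ) h3
      rw [mul_smul_comm, map_smul, norm_smul, Complex.norm_real,
        Real.norm_of_nonneg (inv_pos.2 hc0).le, inv_mul_le_iff₀ hc0] at h4
      rw [dist_zero_right]
      refine h4.trans_lt ?_
      have : c * (2 * (δ / (4 * c))) = δ / 2 := by field_simp; ring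
      rw [this]
      linarith
    have h2 : Tendsto (fun n => (ν - mulF Λ (g n)) (star (g n) * ψ)) atTop (𝓝 0) := by
      have h3 : Tendsto (fun n => ‖ν - mulF Λ (g n)‖ * ‖ψ‖) atTop (𝓝 0) := by
        have h4 := ((tendsto_const_nhds (x := ν)).sub hν).norm.mul_const ‖ψ‖
        simpa using h4
      refine squeeze_zero_norm (fun n => ?_) h3
      refine ((ν - mulF Λ (g n)).le_opNorm _).trans ?_
      refine mul_le_mul_of_nonneg_left ?_ (norm_nonneg _)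
      refine (norm_mul_le _ _).trans ?_
      rw [norm_star]
      exact mul_le_of_le_one_left (norm_nonneg _) (hg n)
    have h3 : ∀ n, ν (star (g n) * ψ) = (ν - mulF Λ (g n)) (star (g n) * ψ) +
        (Λ ψ - Λ ((1 - g n * star (g n)) * ψ)) := by
      intro n
      rw [ContinuousLinearMap.sub_apply, mulF_apply, ← map_sub Λ]
      have : ψ - (1 - g n * star (g n)) * ψ = g n * (star (g n) * ψ) := by ring
      rw [this]
      ring
    simp only [h3]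
    have h4 := h2.add ((tendsto_const_nhds (x := Λ ψ)).sub h1)
    simpa using h4
  have h1 := (Complex.continuous_conj.tendsto _).comp (key (star φ))
  refine h1.congr (fun n => ?_)
  simp only [Function.comp]
  rw [← lim_star hΛ hg hlim hν]
  congr 1
  rw [star_mul, star_star, star_star, mul_comm]

end

end Run7.h331
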