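import Pool.Agent.Run7.h331.Semi

/-!
The curve `(x(μ), y(μ))` built from the complete elliptic integrals, and its transcendence.
-/

open Filter Topology Set

set_option maxHeartbeats 400000

namespace Run7.h331

/-- binomial coefficients of `(1+w)^{1/2}` -/
noncomputable def bA (n : ℕ) : ℝ := Ring.choose (1 / 2 : ℝ) n
/-- binomial coefficients of `(1+w)^{-1/2}` -/
noncomputable def bB (n : ℕ) : ℝ := Ring.choose (-1 / 2 : ℝ) n

lemma choose_rec (a : ℝ) (n : ℕ) :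
    ((n : ℝ) + 1) * Ring.choose a (n + 1) = Ring.choose a n * (a - n) := by
  have h1 := Ring.descPochhammer_eq_factorial_smul_choose a (n + 1)
  have h0 := Ring.descPochhammer_eq_factorial_smul_choose a n
  rw [descPochhammer_succ_right, Polynomial.smeval_mul, h0, Nat.factorial_succ] at h1
  simp only [Polynomial.smeval_sub, Polynomial.smeval_X, pow_one, Polynomial.smeval_natCast,
    nsmul_eq_mul, mul_one, Nat.cast_mul, Nat.cast_add, Nat.cast_one, pow_zero] at h1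
  have hn : (n.factorial : ℝ) ≠ 0 := by exact_mod_cast n.factorial_ne_zero
  have : (n.factorial : ℝ) * (((n : ℝ) + 1) * Ring.choose a (n + 1)) =
      (n.factorial : ℝ) * (Ring.choose a n * (a - n)) := by
    linarith
  exact mul_left_cancel₀ hn this

lemma bA_zero : bA 0 = 1 := by simp [bA]
lemma bB_zero : bB 0 = 1 := by simp [bB]

lemma bA_rec (n : ℕ) : ((n : ℝ) + 1) * bA (n + 1) = bA n * (1 / 2 - n) := choose_rec _ n
lemma bB_rec (n : ℕ) : ((n : ℝ) + 1) * bB (n + 1) = bB n * (-1 / 2 - n) := choose_rec _ n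

lemma bB_eq (n : ℕ) : bB n = (1 - 2 * n) * bA n := by
  induction n with
  | zero => simp [bA_zero, bB_zero]
  | succ n ih =>
    have h1 := bA_rec n
    have h2 := bB_rec n
    have hn : ((n : ℝ) + 1) ≠ 0 := by positivity
    apply mul_left_cancel₀ hn
    rw [h2, ih]
    push_cast
    linear_combination (1 + 2 * (n:ℝ)) * h1

/-- `e_n = binom(1/2,n)^2` -/
noncomputable def eE (n : ℕ) : ℝ := bA n ^ 2

lemma eE_nonneg (n : ℕ) : 0 ≤ eE n := sq_nonneg _

lemma eE_rec (n : ℕ) : ((n : ℝ) + 1) ^ 2 * eE (n + 1) = eE n * ((n : ℝ) - 1 / 2) ^ 2 := by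
  unfold eE
  have h := bA_rec n
  calc ((n : ℝ) + 1) ^ 2 * bA (n + 1) ^ 2 = (((n : ℝ) + 1) * bA (n + 1)) ^ 2 := by ring
    _ = (bA n * (1 / 2 - n)) ^ 2 := by rw [h]
    _ = _ := by ring

lemma eE_one : eE 1 = 1 / 4 := by
  have h := eE_rec 0
  have h0 : eE 0 = 1 := by simp [eE, bA_zero]
  rw [h0] at h
  norm_num at h
  linarith

lemma eE_upper (n : ℕ) : eE (n + 1) ≤ 1 / (4 * ((n : ℝ) + 1) ^ 2 * (2 * n + 1)) := by
  induction n with
  | zero => rw [zero_add, eE_one]; norm_num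
  | succ n ih =>
    have h := eE_rec (n + 1)
    push_cast at h ⊢
    have hn : (0:ℝ) ≤ n := Nat.cast_nonneg n
    have h1 : eE (n + 1 + 1) = eE (n + 1) * ((n : ℝ) + 1 - 1 / 2) ^ 2 / ((n : ℝ) + 1 + 1) ^ 2 := by
      rw [eq_div_iff (by positivity)]
      linarith
    rw [h1]
    have h2 : eE (n + 1) * ((n : ℝ) + 1 - 1 / 2) ^ 2 ≤
        1 / (4 * ((n : ℝ) + 1) ^ 2 * (2 * n + 1)) * ((n : ℝ) + 1 - 1 / 2) ^ 2 :=
      mul_le_mul_of_nonneg_right ih (sq_nonneg _)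
    have h3 : 1 / (4 * ((n : ℝ) + 1) ^ 2 * (2 * n + 1)) * ((n : ℝ) + 1 - 1 / 2) ^ 2 ≤
        1 / (4 * (2 * (n + 1) + 1)) := by
      rw [div_mul_eq_mul_div, div_le_div_iff₀ (by positivity) (by positivity)]
      nlinarith
    calc eE (n + 1) * ((n : ℝ) + 1 - 1 / 2) ^ 2 / ((n : ℝ) + 1 + 1) ^ 2
        ≤ (1 / (4 * (2 * (n + 1) + 1))) / ((n : ℝ) + 1 + 1) ^ 2 := by
          apply div_le_div_of_nonneg_right (h2.trans h3) (by positivity)
      _ = 1 / (4 * ((n : ℝ) + 1 + 1) ^ 2 * (2 * (n + 1) + 1)) := by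
          field_simp

lemma eE_lower (n : ℕ) : 1 / (16 * ((n : ℝ) + 2) ^ 2 * (n + 1)) ≤ eE (n + 2) := by
  induction n with
  | zero =>
    have h := eE_rec 1
    rw [eE_one] at h
    norm_num at h ⊢
    linarith
  | succ n ih =>
    have h := eE_rec (n + 2)
    push_cast at h ⊢
    have hn : (0:ℝ) ≤ n := Nat.cast_nonneg n
    have h1 : eE (n + 1 + 2) = eE (n + 2) * ((n : ℝ) + 2 - 1 / 2) ^ 2 / ((n : ℝ) + 2 + 1) ^ 2 := by
      rw [eq_div_iff (by positivity)]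
      have : n + 1 + 2 = n + 2 + 1 := by ring
      rw [this]
      linarith
    rw [h1]
    have h2 : 1 / (16 * ((n : ℝ) + 2) ^ 2 * (n + 1)) * ((n : ℝ) + 2 - 1 / 2) ^ 2 ≤
        eE (n + 2) * ((n : ℝ) + 2 - 1 / 2) ^ 2 :=
      mul_le_mul_of_nonneg_right ih (sq_nonneg _)
    have h3 : 1 / (16 * ((n : ℝ) + 2)) ≤
        1 / (16 * ((n : ℝ) + 2) ^ 2 * (n + 1)) * ((n : ℝ) + 2 - 1 / 2) ^ 2 := by
      rw [div_mul_eq_mul_div, div_le_div_iff₀ (by positivity) (by positivity)]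
      nlinarith
    calc 1 / (16 * ((n : ℝ) + 1 + 2) ^ 2 * (n + 1 + 1))
        = (1 / (16 * ((n : ℝ) + 2))) / ((n : ℝ) + 2 + 1) ^ 2 := by
          field_simp
          ring
      _ ≤ _ := by
          apply div_le_div_of_nonneg_right (h3.trans h2) (by positivity)

/-- coefficients of `y(μ) = ∑ yc n μ^{2n+1}` -/
noncomputable def yc (n : ℕ) : ℝ := 2 * ((n : ℝ) + 1) * eE (n + 1)
/-- coefficients of `x(μ) = ∑ xc n μ^{2n}` -/
noncomputable def xc (n : ℕ) : ℝ := (1 - 2 * (n : ℝ)) * eE n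

lemma yc_nonneg (n : ℕ) : 0 ≤ yc n := by
  unfold yc
  have := eE_nonneg (n + 1)
  positivity

lemma yc_upper (n : ℕ) : yc n ≤ 1 / (2 * ((n : ℝ) + 1) * (2 * n + 1)) := by
  have h := eE_upper n
  unfold yc
  have hn : (0:ℝ) ≤ n := Nat.cast_nonneg n
  calc 2 * ((n : ℝ) + 1) * eE (n + 1) ≤
      2 * ((n : ℝ) + 1) * (1 / (4 * ((n : ℝ) + 1) ^ 2 * (2 * n + 1))) :=
        mul_le_mul_of_nonneg_left h (by positivity)
    _ = _ := by field_simp; ring

lemma yc_lower (n : ℕ) : 1 / (4 * ((n : ℝ) + 2)) ≤ yc (n + 1) * (2 * (n + 1) + 1) := by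
  have h := eE_lower n
  unfold yc
  have hn : (0:ℝ) ≤ n := Nat.cast_nonneg n
  push_cast
  have e : n + 1 + 1 = n + 2 := rfl
  rw [e]
  calc 1 / (4 * ((n : ℝ) + 2)) ≤
      2 * ((n : ℝ) + 1 + 1) * (1 / (16 * ((n : ℝ) + 2) ^ 2 * (n + 1))) * (2 * (n + 1) + 1) := by
        rw [mul_one_div, div_mul_eq_mul_div, div_le_div_iff₀ (by positivity) (by positivity)]
        nlinarith [mul_nonneg hn hn, mul_nonneg (mul_nonneg hn hn) hn]
    _ ≤ _ := by
        apply mul_le_mul_of_nonneg_right _ (by positivity)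
        exact mul_le_mul_of_nonneg_left h (by positivity)

lemma yc_zero_eq : yc 0 = 1 / 2 := by
  unfold yc; rw [zero_add, eE_one]; norm_num

lemma summable_sq_inv : Summable fun n : ℕ => 1 / ((n : ℝ) + 1) ^ 2 := by
  have := (summable_nat_add_iff 1).2 (Real.summable_one_div_nat_pow.2 (one_lt_two))
  simpa using this

lemma yc_summable : Summable yc := by
  refine Summable.of_nonneg_of_le yc_nonneg (fun n => ?_) summable_sq_inv
  refine (yc_upper n).trans ?_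
  have hn : (0:ℝ) ≤ n := Nat.cast_nonneg n
  apply one_div_le_one_div_of_le (by positivity)
  nlinarith

lemma xc_abs (n : ℕ) : |xc (n + 1)| ≤ yc n := by
  unfold xc yc
  have h := eE_nonneg (n + 1)
  have hn : (0:ℝ) ≤ n := Nat.cast_nonneg n
  push_cast
  rw [abs_mul, abs_of_nonneg h]
  apply mul_le_mul_of_nonneg_right _ h
  rw [abs_le]
  constructor <;> nlinarith

lemma xc_summable : Summable fun n => |xc n| := by
  rw [← summable_nat_add_iff 1]
  exact Summable.of_nonneg_of_le (fun n => abs_nonneg _) xc_abs yc_summable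

/-- the two coordinate functions -/
noncomputable def xF (μ : ℝ) : ℝ := ∑' n, xc n * μ ^ (2 * n)
noncomputable def yF (μ : ℝ) : ℝ := ∑' n, yc n * μ ^ (2 * n + 1)
/-- the support function -/
noncomputable def HF (μ : ℝ) : ℝ := ∑' n, eE n * μ ^ (2 * n)

lemma eE_summable : Summable eE := by
  rw [← summable_nat_add_iff 1]
  refine Summable.of_nonneg_of_le (fun n => eE_nonneg _) (fun n => ?_) yc_summable
  unfold yc
  have h := eE_nonneg (n + 1)
  have hn : (0:ℝ) ≤ n := Nat.cast_nonneg n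
  nlinarith

lemma pow_abs_le_one {μ : ℝ} (h : |μ| ≤ 1) (m : ℕ) : |μ ^ m| ≤ 1 := by
  rw [abs_pow]
  exact pow_le_one₀ (abs_nonneg _) h

lemma summable_y {μ : ℝ} (h : |μ| ≤ 1) : Summable fun n => yc n * μ ^ (2 * n + 1) := by
  refine Summable.of_norm_bounded yc_summable (fun n => ?_)
  rw [Real.norm_eq_abs, abs_mul, abs_of_nonneg (yc_nonneg n)]
  exact mul_le_of_le_one_right (yc_nonneg n) (pow_abs_le_one h _)

lemma summable_x {μ : ℝ} (h : |μ| ≤ 1) : Summable fun n => xc n * μ ^ (2 * n) := by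
  refine Summable.of_norm_bounded xc_summable (fun n => ?_)
  rw [Real.norm_eq_abs, abs_mul]
  exact mul_le_of_le_one_right (abs_nonneg _) (pow_abs_le_one h _)

lemma summable_H {μ : ℝ} (h : |μ| ≤ 1) : Summable fun n => eE n * μ ^ (2 * n) := by
  refine Summable.of_norm_bounded eE_summable (fun n => ?_)
  rw [Real.norm_eq_abs, abs_mul, abs_of_nonneg (eE_nonneg n)]
  exact mul_le_of_le_one_right (eE_nonneg n) (pow_abs_le_one h _)

lemma x_add_y {μ : ℝ} (h : |μ| ≤ 1) : xF μ + μ * yF μ = HF μ := by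
  unfold xF yF HF
  rw [← tsum_mul_left, (summable_x h).tsum_eq_zero_add, (summable_H h).tsum_eq_zero_add]
  have h1 : Summable fun n => xc (n + 1) * μ ^ (2 * (n + 1)) :=
    (summable_nat_add_iff 1).2 (summable_x h)
  rw [add_assoc, ← h1.tsum_add ((summable_y h).mul_left μ)]
  congr 1
  · simp [xc]
  · refine tsum_congr (fun n => ?_)
    unfold xc yc
    push_cast
    ring

/-- `Y(μ) = y(1) - y(μ)` -/
noncomputable def bY (μ : ℝ) : ℝ := yF 1 - yF μ
/-- `V(μ)` -/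
noncomputable def bV (μ : ℝ) : ℝ := bY μ - (xF μ - xF 1)

lemma hasSum_Y {μ : ℝ} (h : |μ| ≤ 1) : HasSum (fun n => yc n * (1 - μ ^ (2 * n + 1))) (bY μ) := by
  have h1 := (summable_y (μ := 1) (by simp)).hasSum.sub (summable_y h).hasSum
  refine h1.congr_fun (fun n => ?_)
  simp
  ring

lemma hasSum_V {μ : ℝ} (h : |μ| ≤ 1) :
    HasSum (fun n => eE (n + 1) * (1 - 2 * (n + 1) * μ ^ (2 * n + 1) +
      (2 * n + 1) * μ ^ (2 * n + 2))) (bV μ) := by
  have h1 := (summable_x h).hasSum.sub (summable_x (μ := 1) (by simp)).hasSum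
  have h2 : HasSum (fun n => xc (n + 1) * (μ ^ (2 * (n + 1)) - 1)) (xF μ - xF 1) := by
    have h3 := (hasSum_nat_add_iff' 1).2 h1
    have e0 : ∑ i ∈ Finset.range 1, (xc i * μ ^ (2 * i) - xc i * 1 ^ (2 * i)) = 0 := by simp
    rw [e0, sub_zero] at h3
    refine h3.congr_fun (fun n => ?_)
    simp
    ring
  have h4 := (hasSum_Y h).sub h2
  refine h4.congr_fun (fun n => ?_)
  unfold yc xc
  push_cast
  ring

lemma V_term_nonneg {μ : ℝ} (h0 : 0 ≤ μ) (n : ℕ) :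
    0 ≤ 1 - 2 * ((n:ℝ) + 1) * μ ^ (2 * n + 1) + (2 * n + 1) * μ ^ (2 * n + 2) := by
  induction n with
  | zero => simp; nlinarith [sq_nonneg (1 - μ)]
  | succ n ih =>
    push_cast
    have h1 : 1 - 2 * ((n:ℝ) + 1 + 1) * μ ^ (2 * (n + 1) + 1) +
        (2 * (n + 1) + 1) * μ ^ (2 * (n + 1) + 2) =
        (1 - 2 * ((n:ℝ) + 1) * μ ^ (2 * n + 1) + (2 * n + 1) * μ ^ (2 * n + 2)) +
        μ ^ (2 * n + 1) * ((1 - μ) ^ 2 * (2 * ((n:ℝ) + 1) + (2 * n + 3) * μ)) := by ring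
    rw [h1]
    positivity

lemma V_lower {μ : ℝ} (h0 : 0 ≤ μ) (h1 : μ ≤ 1) : (1 - μ) ^ 2 / 4 ≤ bV μ := by
  have h := hasSum_V (μ := μ) (by rw [abs_of_nonneg h0]; exact h1)
  have h2 := le_hasSum h 0 (fun n _ => mul_nonneg (eE_nonneg _) (V_term_nonneg h0 n))
  refine le_trans (le_of_eq ?_) h2
  simp [eE_one]
  ring

lemma V_le {μ : ℝ} (h0 : 0 ≤ μ) (h1 : μ ≤ 1) : bV μ ≤ (1 - μ) * bY μ := by
  have ha : |μ| ≤ 1 := by rw [abs_of_nonneg h0]; exact h1
  refine hasSum_le (fun n => ?_) (hasSum_V ha) ((hasSum_Y ha).mul_left (1 - μ))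
  unfold yc
  have h3 : 1 - 2 * ((n:ℝ) + 1) * μ ^ (2 * n + 1) + (2 * n + 1) * μ ^ (2 * n + 2) ≤
      (1 - μ) * (2 * ((n:ℝ) + 1) * (1 - μ ^ (2 * n + 1))) := by
    have h4 : 2 * ((n:ℝ) + 1) * μ ≤ (2 * n + 1) + μ ^ (2 * n + 2) := by
      have := one_add_mul_le_pow (a := μ - 1) (by linarith) (2 * n + 2)
      push_cast at this
      have h5 : (1 + (μ - 1)) = μ := by ring
      rw [h5] at this
      nlinarith
    have h5 : μ ^ (2 * n + 2) = μ * μ ^ (2 * n + 1) := by ring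
    nlinarith
  have := mul_le_mul_of_nonneg_left h3 (eE_nonneg (n + 1))
  linarith

lemma Y_pos {μ : ℝ} (h0 : 0 ≤ μ) (h1 : μ < 1) : 0 < bY μ := by
  have h2 := V_lower h0 h1.le
  have h3 := V_le h0 h1.le
  have h4 : 0 < (1 - μ) ^ 2 / 4 := by
    have : 0 < 1 - μ := by linarith
    positivity
  have h5 : 0 < (1 - μ) * bY μ := by linarith
  have h6 : 0 < 1 - μ := by linarith
  exact (mul_pos_iff_of_pos_left h6).1 h5

end Run7.h331
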