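import Pool.Agent.Run7.h331.Ell

/-!
Asymptotics at `μ → 1` and transcendence of the curve.
-/

open Filter Topology Set

set_option maxHeartbeats 400000

namespace Run7.h331

lemma one_sub_pow_le {μ : ℝ} (h0 : 0 ≤ μ) (m : ℕ) : 1 - μ ^ m ≤ m * (1 - μ) := by
  have := one_add_mul_le_pow (a := μ - 1) (by linarith) m
  have h5 : (1 + (μ - 1)) = μ := by ring
  rw [h5] at this
  linarith

lemma min_le_rpow {t s : ℝ} (ht : 0 ≤ t) (hs : 0 ≤ s) (hs1 : s ≤ 1) {u : ℝ} (h1 : u ≤ 1)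
    (h2 : u ≤ t) : u ≤ t ^ s := by
  rcases eq_or_lt_of_le ht with h | h
  · have : u ≤ 0 := by rw [h]; exact h2
    exact this.trans (Real.rpow_nonneg ht s)
  · rcases le_total t 1 with h3 | h3
    · have := Real.rpow_le_rpow_of_exponent_ge h h3 hs1
      rw [Real.rpow_one] at this
      exact h2.trans this
    · exact h1.trans (Real.one_le_rpow h3 hs)

lemma Y_le_rpow {δ : ℝ} (h0 : 0 < δ) (h1 : δ < 1) :
    ∃ C, 0 ≤ C ∧ ∀ μ, 0 ≤ μ → μ < 1 → bY μ ≤ C * (1 - μ) ^ (1 - δ) := by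
  have hs : Summable fun n : ℕ => yc n * (2 * (n:ℝ) + 1) ^ (1 - δ) := by
    have h2 : Summable fun n : ℕ => 1 / ((n : ℝ) + 1) ^ (1 + δ) := by
      have := (summable_nat_add_iff 1).2 (Real.summable_one_div_nat_rpow.2
        (by linarith : 1 < 1 + δ))
      simpa using this
    refine Summable.of_nonneg_of_le (fun n => ?_) (fun n => ?_) h2
    · have := yc_nonneg n
      positivity
    · have hn : (0:ℝ) ≤ n := Nat.cast_nonneg n
      have h3 := yc_upper n
      have h4 : (2 * (n:ℝ) + 1) ^ (1 - δ) = (2 * (n:ℝ) + 1) / (2 * (n:ℝ) + 1) ^ δ := by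
        rw [Real.rpow_sub (by positivity), Real.rpow_one]
      have h5 : ((n:ℝ) + 1) ^ (1 + δ) = ((n:ℝ) + 1) * ((n:ℝ) + 1) ^ δ := by
        rw [Real.rpow_add (by positivity), Real.rpow_one]
      have h6 : ((n:ℝ) + 1) ^ δ ≤ (2 * (n:ℝ) + 1) ^ δ :=
        Real.rpow_le_rpow (by positivity) (by linarith) h0.le
      have h7 : 0 < ((n:ℝ) + 1) ^ δ := by positivity
      have h8 : 0 < (2 * (n:ℝ) + 1) ^ δ := by positivity
      calc yc n * (2 * (n:ℝ) + 1) ^ (1 - δ)
          ≤ 1 / (2 * ((n : ℝ) + 1) * (2 * n + 1)) * ((2 * (n:ℝ) + 1) / (2 * (n:ℝ) + 1) ^ δ) := by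
            rw [h4]
            exact mul_le_mul_of_nonneg_right h3 (by positivity)
        _ = 1 / (2 * ((n : ℝ) + 1) * (2 * (n:ℝ) + 1) ^ δ) := by
            field_simp
        _ ≤ 1 / ((n : ℝ) + 1) ^ (1 + δ) := by
            rw [h5]
            apply one_div_le_one_div_of_le (by positivity)
            nlinarith
  refine ⟨∑' n : ℕ, yc n * (2 * (n:ℝ) + 1) ^ (1 - δ), ?_, ?_⟩
  · refine tsum_nonneg (fun n => ?_)
    have := yc_nonneg n
    positivity
  · intro μ hμ hμ1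
    have ha : |μ| ≤ 1 := by rw [abs_of_nonneg hμ]; exact hμ1.le
    refine hasSum_le (fun n => ?_) (hasSum_Y ha) (hs.hasSum.mul_right _)
    have hn : (0:ℝ) ≤ n := Nat.cast_nonneg n
    have h2 : 1 - μ ^ (2 * n + 1) ≤ ((2 * (n:ℝ) + 1) * (1 - μ)) ^ (1 - δ) := by
      refine min_le_rpow ?_ (by linarith) (by linarith) ?_ ?_
      · have : 0 ≤ 1 - μ := by linarith
        positivity
      · have := pow_nonneg hμ (2 * n + 1)
        linarith
      · have := one_sub_pow_le hμ (2 * n + 1)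
        push_cast at this
        exact this
    rw [Real.mul_rpow (by positivity) (by linarith)] at h2
    have := mul_le_mul_of_nonneg_left h2 (yc_nonneg n)
    linarith

lemma sum_yc_unbounded (K : ℝ) : ∃ M : ℕ, K < ∑ n ∈ Finset.range M, yc n * (2 * n + 1) := by
  by_contra hcon
  push Not at hcon
  have hs : Summable fun n : ℕ => yc n * (2 * (n:ℝ) + 1) := by
    refine summable_of_sum_range_le (c := K) (fun n => ?_) hcon
    have := yc_nonneg n
    positivity
  have hs1 := (summable_nat_add_iff 1).2 hs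
  have h2 : Summable fun n : ℕ => 1 / (4 * ((n : ℝ) + 2)) := by
    refine Summable.of_nonneg_of_le (fun n => by positivity) (fun n => ?_) hs1
    have := yc_lower n
    push_cast
    linarith
  have h3 : Summable fun n : ℕ => 1 / ((n + 2 : ℕ) : ℝ) := by
    refine (h2.mul_left 4).congr (fun n => ?_)
    push_cast
    field_simp
  exact Real.not_summable_one_div_natCast ((summable_nat_add_iff 2).1 h3)

lemma Y_div_tendsto : Tendsto (fun μ => bY μ / (1 - μ)) (𝓝[<] (1:ℝ)) atTop := by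
  rw [tendsto_atTop]
  intro K
  obtain ⟨M, hM⟩ := sum_yc_unbounded K
  have hc : Tendsto (fun μ : ℝ => ∑ n ∈ Finset.range M, yc n * ((2 * n + 1) * μ ^ (2 * n)))
      (𝓝 1) (𝓝 (∑ n ∈ Finset.range M, yc n * ((2 * n + 1) * 1 ^ (2 * n)))) := by
    refine tendsto_finsetSum _ (fun n _ => ?_)
    refine Tendsto.const_mul _ (Tendsto.const_mul _ ?_)
    exact (continuous_pow (2 * n)).tendsto 1
  simp only [one_pow, mul_one] at hc
  have h1 := (hc.mono_left (nhdsWithin_le_nhds : 𝓝[<] (1:ℝ) ≤ 𝓝 1)).eventually_const_lt hM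
  have h2 : Ioo (0:ℝ) 1 ∈ 𝓝[<] (1:ℝ) := Ioo_mem_nhdsLT one_pos
  filter_upwards [h1, h2] with μ h3 h4
  have hμ : 0 < 1 - μ := by linarith [h4.2]
  rw [le_div_iff₀ hμ]
  have ha : |μ| ≤ 1 := by rw [abs_of_pos h4.1]; exact h4.2.le
  have h5 : ∑ n ∈ Finset.range M, yc n * (1 - μ ^ (2 * n + 1)) ≤ bY μ := by
    refine sum_le_hasSum _ (fun n _ => ?_) (hasSum_Y ha)
    refine mul_nonneg (yc_nonneg n) ?_
    have := pow_le_one₀ (n := 2 * n + 1) h4.1.le h4.2.le
    linarith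
  refine le_trans ?_ h5
  have h6 : K * (1 - μ) ≤
      (∑ n ∈ Finset.range M, yc n * ((2 * n + 1) * μ ^ (2 * n))) * (1 - μ) :=
    mul_le_mul_of_nonneg_right h3.le hμ.le
  refine h6.trans ?_
  rw [Finset.sum_mul]
  refine Finset.sum_le_sum (fun n _ => ?_)
  rw [mul_assoc]
  refine mul_le_mul_of_nonneg_left ?_ (yc_nonneg n)
  -- (2n+1) μ^{2n} (1-μ) ≤ 1 - μ^{2n+1}
  have h7 : (1 - μ ^ (2 * n + 1)) = (∑ i ∈ Finset.range (2 * n + 1), μ ^ i) * (1 - μ) := by
    have := geom_sum_mul μ (2 * n + 1)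
    linarith
  rw [h7]
  refine mul_le_mul_of_nonneg_right ?_ hμ.le
  have h8 : ∑ i ∈ Finset.range (2 * n + 1), μ ^ (2 * n) ≤ ∑ i ∈ Finset.range (2 * n + 1), μ ^ i := by
    refine Finset.sum_le_sum (fun i hi => ?_)
    have hi' := Finset.mem_range.1 hi
    exact pow_le_pow_of_le_one h4.1.le h4.2.le (by omega)
  rw [Finset.sum_const, Finset.card_range, nsmul_eq_mul] at h8
  push_cast at h8
  exact h8

lemma eventually_Ioo : ∀ᶠ μ in 𝓝[<] (1:ℝ), 0 < μ ∧ μ < 1 := by
  have h2 : Ioo (0:ℝ) 1 ∈ 𝓝[<] (1:ℝ) := Ioo_mem_nhdsLT one_pos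
  filter_upwards [h2] with μ h using h

lemma tendsto_eps_rpow {s : ℝ} (hs : 0 < s) :
    Tendsto (fun μ : ℝ => (1 - μ) ^ s) (𝓝[<] (1:ℝ)) (𝓝 0) := by
  have h1 : Tendsto (fun μ : ℝ => (1 - μ) ^ s) (𝓝 1) (𝓝 ((1 - 1) ^ s)) := by
    have h2 : Tendsto (fun μ : ℝ => 1 - μ) (𝓝 1) (𝓝 (1 - 1)) :=
      (continuous_const.sub continuous_id).tendsto 1
    exact h2.rpow_const (Or.inr hs.le)
  rw [sub_self, Real.zero_rpow hs.ne'] at h1
  exact h1.mono_left nhdsWithin_le_nhds

lemma tendsto_Y : Tendsto bY (𝓝[<] (1:ℝ)) (𝓝 0) := by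
  obtain ⟨C, hC, h⟩ := Y_le_rpow (δ := 1 / 2) (by norm_num) (by norm_num)
  have h1 := (tendsto_eps_rpow (s := 1 - 1 / 2) (by norm_num)).const_mul C
  rw [mul_zero] at h1
  refine tendsto_of_tendsto_of_tendsto_of_le_of_le' tendsto_const_nhds h1 ?_ ?_
  · filter_upwards [eventually_Ioo] with μ hμ using (Y_pos hμ.1.le hμ.2).le
  · filter_upwards [eventually_Ioo] with μ hμ using h μ hμ.1.le hμ.2

lemma tendsto_w : Tendsto (fun μ => bV μ / bY μ ^ 2) (𝓝[<] (1:ℝ)) (𝓝 0) := by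
  have h1 := Y_div_tendsto.inv_tendsto_atTop
  refine tendsto_of_tendsto_of_tendsto_of_le_of_le' tendsto_const_nhds h1 ?_ ?_
  · filter_upwards [eventually_Ioo] with μ hμ
    have h2 := V_lower hμ.1.le hμ.2.le
    have h3 : 0 ≤ (1 - μ) ^ 2 / 4 := by positivity
    have h4 := Y_pos hμ.1.le hμ.2
    have h5 : 0 ≤ bV μ := by linarith
    positivity
  · filter_upwards [eventually_Ioo] with μ hμ
    have h4 := Y_pos hμ.1.le hμ.2
    have h5 := V_le hμ.1.le hμ.2.le
    have h6 : 0 < 1 - μ := by linarith [hμ.2]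
    simp only [Pi.inv_apply]
    rw [inv_div, div_le_div_iff₀ (by positivity) h4]
    calc bV μ * bY μ ≤ ((1 - μ) * bY μ) * bY μ := mul_le_mul_of_nonneg_right h5 h4.le
      _ = _ := by ring

lemma tendsto_j (j : ℕ) :
    Tendsto (fun μ => bY μ / (bV μ / bY μ ^ 2) ^ j) (𝓝[<] (1:ℝ)) (𝓝 0) := by
  set δ : ℝ := 1 / (2 * (2 * j + 1)) with hδ
  have hj : (0:ℝ) ≤ j := Nat.cast_nonneg j
  have hδ0 : 0 < δ := by positivity
  have hδ1 : δ < 1 := by
    rw [hδ, div_lt_one (by positivity)]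
    linarith
  obtain ⟨C, hC, h⟩ := Y_le_rpow hδ0 hδ1
  have h1 := (tendsto_eps_rpow (s := 1 / 2) (by norm_num)).const_mul (4 ^ j * C ^ (2 * j + 1))
  rw [mul_zero] at h1
  refine tendsto_of_tendsto_of_tendsto_of_le_of_le' tendsto_const_nhds h1 ?_ ?_
  · filter_upwards [eventually_Ioo] with μ hμ
    have h2 := V_lower hμ.1.le hμ.2.le
    have h3 : 0 ≤ (1 - μ) ^ 2 / 4 := by positivity
    have h4 := Y_pos hμ.1.le hμ.2
    have h5 : 0 ≤ bV μ := by linarith
    positivity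
  · filter_upwards [eventually_Ioo] with μ hμ
    have hε : 0 < 1 - μ := by linarith [hμ.2]
    have h2 := V_lower hμ.1.le hμ.2.le
    have h3 : 0 < (1 - μ) ^ 2 / 4 := by positivity
    have h4 := Y_pos hμ.1.le hμ.2
    have h5 : 0 < bV μ := by linarith
    have h6 : bY μ / (bV μ / bY μ ^ 2) ^ j ≤ bY μ / ((1 - μ) ^ 2 / 4 / bY μ ^ 2) ^ j := by
      apply div_le_div_of_nonneg_left h4.le (by positivity)
      apply pow_le_pow_left₀ (by positivity)
      exact div_le_div_of_nonneg_right h2 (by positivity)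
    refine h6.trans ?_
    have h7 : bY μ / ((1 - μ) ^ 2 / 4 / bY μ ^ 2) ^ j =
        4 ^ j * bY μ ^ (2 * j + 1) / (1 - μ) ^ (2 * j) := by
      rw [div_pow, div_pow, ← pow_mul, ← pow_mul]
      field_simp
      ring
    rw [h7]
    have h8 : bY μ ^ (2 * j + 1) ≤ C ^ (2 * j + 1) * ((1 - μ) ^ (2 * j) * (1 - μ) ^ (1 / 2 : ℝ)) := by
      have h9 := pow_le_pow_left₀ h4.le (h μ hμ.1.le hμ.2) (2 * j + 1)
      refine h9.trans (le_of_eq ?_)
      rw [mul_pow]
      congr 1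
      rw [← Real.rpow_natCast ((1 - μ) ^ (1 - δ)), ← Real.rpow_mul hε.le,
        ← Real.rpow_natCast (1 - μ) (2 * j), ← Real.rpow_add hε]
      congr 1
      push_cast
      rw [hδ]
      field_simp
      ring
    rw [div_le_iff₀ (by positivity)]
    calc 4 ^ j * bY μ ^ (2 * j + 1) ≤
        4 ^ j * (C ^ (2 * j + 1) * ((1 - μ) ^ (2 * j) * (1 - μ) ^ (1 / 2 : ℝ))) :=
          mul_le_mul_of_nonneg_left h8 (by positivity)
      _ = _ := by ring

/-- complexified functions -/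
noncomputable def xC (z : ℂ) : ℂ := ∑' n, (xc n : ℂ) * z ^ (2 * n)
noncomputable def yC (z : ℂ) : ℂ := ∑' n, (yc n : ℂ) * z ^ (2 * n + 1)

lemma xC_real (μ : ℝ) : xC (μ : ℂ) = (xF μ : ℂ) := by
  unfold xC xF
  rw [Complex.ofReal_tsum]
  refine tsum_congr (fun n => ?_)
  push_cast
  ring

lemma yC_real (μ : ℝ) : yC (μ : ℂ) = (yF μ : ℂ) := by
  unfold yC yF
  rw [Complex.ofReal_tsum]
  refine tsum_congr (fun n => ?_)
  push_cast
  ring

lemma xC_diff : DifferentiableOn ℂ xC (Metric.ball 0 1) := by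
  refine Complex.differentiableOn_tsum_of_summable_norm xc_summable (fun n => ?_)
    Metric.isOpen_ball (fun n w hw => ?_)
  · exact ((differentiable_pow (2 * n)).const_mul _).differentiableOn
  · rw [norm_mul, Complex.norm_real, norm_pow, Real.norm_eq_abs]
    have : ‖w‖ < 1 := by simpa using hw
    exact mul_le_of_le_one_right (abs_nonneg _) (pow_le_one₀ (norm_nonneg _) this.le)

lemma yC_diff : DifferentiableOn ℂ yC (Metric.ball 0 1) := by
  refine Complex.differentiableOn_tsum_of_summable_norm yc_summable (fun n => ?_)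
    Metric.isOpen_ball (fun n w hw => ?_)
  · exact ((differentiable_pow (2 * n + 1)).const_mul _).differentiableOn
  · rw [norm_mul, Complex.norm_real, norm_pow, Real.norm_eq_abs, abs_of_nonneg (yc_nonneg n)]
    have : ‖w‖ < 1 := by simpa using hw
    exact mul_le_of_le_one_right (yc_nonneg n) (pow_le_one₀ (norm_nonneg _) this.le)

/-- a relation on a small interval extends to `(0,1)` -/
lemma relation_extends {μ0 : ℝ} (h0 : 0 < μ0) {P : MvPolynomial (Fin 2) ℝ}
    (h : ∀ μ, 0 < μ → μ < μ0 → MvPolynomial.eval ![xF μ, yF μ] P = 0) :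
    ∀ μ, 0 < μ → μ < 1 → MvPolynomial.eval ![xF μ, yF μ] P = 0 := by
  set G : ℂ → ℂ := fun z => ∑ d ∈ P.support, ((MvPolynomial.coeff d P : ℝ) : ℂ) * (xC z ^ d 0 * yC z ^ d 1) with hG
  have hreal : ∀ μ : ℝ, G (μ : ℂ) = ((MvPolynomial.eval ![xF μ, yF μ] P : ℝ) : ℂ) := by
    intro μ
    rw [hG, MvPolynomial.eval_eq']
    simp only [xC_real, yC_real, Fin.prod_univ_two, Matrix.cons_val_zero, Matrix.cons_val_one]
    push_cast
    rfl
  have hd : DifferentiableOn ℂ G (Metric.ball 0 1) := by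
    refine DifferentiableOn.fun_sum (fun d _ => ?_)
    exact ((xC_diff.pow _).mul (yC_diff.pow _)).const_mul _
  have han : AnalyticOnNhd ℂ G (Metric.ball 0 1) := hd.analyticOnNhd Metric.isOpen_ball
  set μ1 : ℝ := min μ0 1 / 2 with hμ1
  have hm : 0 < min μ0 1 := lt_min h0 one_pos
  have h1 : 0 < μ1 := by positivity
  have h2 : μ1 < μ0 := by
    have := min_le_left μ0 1
    linarith
  have h3 : μ1 < 1 := by
    have := min_le_right μ0 1
    linarith
  have hmem : (μ1 : ℂ) ∈ Metric.ball (0:ℂ) 1 := by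
    simp only [Metric.mem_ball, dist_zero_right, Complex.norm_real, Real.norm_eq_abs]
    rw [abs_of_pos h1]; exact h3
  have hfreq : ∃ᶠ z in 𝓝[≠] (μ1 : ℂ), G z = 0 := by
    have ht : Tendsto (fun t : ℝ => (t : ℂ)) (𝓝[≠] μ1) (𝓝[≠] (μ1 : ℂ)) := by
      refine tendsto_nhdsWithin_iff.2 ⟨?_, ?_⟩
      · exact (Complex.continuous_ofReal.tendsto μ1).mono_left nhdsWithin_le_nhds
      · filter_upwards [self_mem_nhdsWithin] with t ht
        simpa using ht
    refine ht.frequently ?_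
    have hev : ∀ᶠ t : ℝ in 𝓝[≠] μ1, G (t : ℂ) = 0 := by
      have : Ioo 0 μ0 ∈ 𝓝 μ1 := Ioo_mem_nhds h1 h2
      filter_upwards [mem_nhdsWithin_of_mem_nhds this] with t ht
      rw [hreal, h t ht.1 ht.2, Complex.ofReal_zero]
    exact hev.frequently
  have heq := han.eqOn_zero_of_preconnected_of_frequently_eq_zero
    (Metric.isConnected_ball (by norm_num)).isPreconnected hmem hfreq
  intro μ hμ hμ'
  have hmem' : (μ : ℂ) ∈ Metric.ball (0:ℂ) 1 := by
    simp only [Metric.mem_ball, dist_zero_right, Complex.norm_real, Real.norm_eq_abs]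
    rw [abs_of_pos hμ]; exact hμ'
  have := heq hmem'
  rw [hreal] at this
  simpa using this

/-- The curve `(x(μ), y(μ))` satisfies no polynomial relation. -/
theorem transcendental_curve {μ0 : ℝ} (h0 : 0 < μ0) {P : MvPolynomial (Fin 2) ℝ}
    (h : ∀ μ, 0 < μ → μ < μ0 → MvPolynomial.eval ![xF μ, yF μ] P = 0) : P = 0 := by
  by_contra hP
  have hall := relation_extends h0 h
  set F : Fin 2 → MvPolynomial (Fin 2) ℝ :=
    ![MvPolynomial.C (xF 1) + MvPolynomial.X 0 - MvPolynomial.X 1,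
      MvPolynomial.C (yF 1) - MvPolynomial.X 0] with hF
  set R : MvPolynomial (Fin 2) ℝ := MvPolynomial.bind₁ F P with hR
  have hev : ∀ v : Fin 2 → ℝ, MvPolynomial.eval v R =
      MvPolynomial.eval ![xF 1 + v 0 - v 1, yF 1 - v 0] P := by
    intro v
    have h1 : MvPolynomial.eval (fun k => MvPolynomial.eval v (F k)) P =
        MvPolynomial.eval v (MvPolynomial.bind₁ F P) :=
      (MvPolynomial.eval₂Hom_bind₁ (RingHom.id ℝ) v F P).symm
    rw [hR, ← h1]
    congr 2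
    funext k
    fin_cases k <;> simp [hF]
  have hR0 : R ≠ 0 := by
    intro h1
    apply hP
    apply MvPolynomial.funext
    intro v
    have h2 := hev ![yF 1 - v 1, xF 1 + yF 1 - v 0 - v 1]
    rw [h1, map_zero] at h2
    rw [map_zero, h2]
    congr 2
    funext k
    fin_cases k
    · simp; ring
    · simp
  have hne := no_relation (l := 𝓝[<] (1:ℝ)) (Y := bY) (V := bV)
    (by filter_upwards [eventually_Ioo] with μ hμ using Y_pos hμ.1.le hμ.2)
    (by
      filter_upwards [eventually_Ioo] with μ hμ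
      have h2 := V_lower hμ.1.le hμ.2.le
      have h3 : 0 < 1 - μ := by linarith [hμ.2]
      have h4 : 0 < (1 - μ) ^ 2 / 4 := by positivity
      linarith) tendsto_Y tendsto_w tendsto_j hR0
  obtain ⟨μ, hμ1, hμ2⟩ := (hne.and eventually_Ioo).exists
  apply hμ1
  rw [hev, ← hall μ hμ2.1 hμ2.2]
  congr 2
  funext k
  fin_cases k
  · simp only [bV, bY]
    simp
    ring
  · simp only [bV, bY]
    simp

/-- No semialgebraic subset of the plane has the curve as a (radial) boundary curve. -/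
theorem not_semialg {μ0 : ℝ} (h0 : 0 < μ0) {T : Set (Fin 2 → ℝ)}
    (hin : ∀ μ, 0 < μ → μ < μ0 → ![xF μ, yF μ] ∈ T)
    (hout : ∀ μ, 0 < μ → μ < μ0 → ∀ t : ℝ, 1 < t → t • ![xF μ, yF μ] ∉ T) :
    ¬ IsSemialg T := by
  intro hT
  obtain ⟨P, hP, hloc⟩ := hT.locConst
  apply hP
  apply transcendental_curve h0
  intro μ h1 h2
  by_contra hne
  have h3 := hloc _ hne
  have h4 : Tendsto (fun t : ℝ => t • ![xF μ, yF μ]) (𝓝[>] 1) (𝓝 ((1:ℝ) • ![xF μ, yF μ])) :=
    ((continuous_id.smul continuous_const).tendsto 1).mono_left nhdsWithin_le_nhds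
  rw [one_smul] at h4
  have h5 := (h4.eventually h3).and (self_mem_nhdsWithin : Ioi (1:ℝ) ∈ 𝓝[>] 1)
  obtain ⟨t, ht, ht1⟩ := h5.exists
  exact hout μ h1 h2 t ht1 (ht.2 (hin μ h1 h2))

end Run7.h331
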