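import Pool.Agent.Run7.h331.AlgO

/-!
The characterisation of the extremal functions for the coefficient bodies `V_N(r)`.
-/

open Filter Topology Complex Set MeasureTheory Polynomial

set_option maxHeartbeats 400000

namespace Run7.h331

/-- the index set `{-N, …, N}` -/
noncomputable def idx (N : ℕ) : Finset ℤ := Finset.Icc (-(N : ℤ)) N

/-- the polynomial attached to a functional -/
noncomputable def pol (N : ℕ) (c : ℤ → ℂ) : ℂ[X] :=
  ∑ k ∈ idx N, monomial ((N : ℤ) - k).toNat (c k)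

lemma pol_deg (N : ℕ) (c : ℤ → ℂ) : (pol N c).natDegree ≤ 2 * N := by
  unfold pol
  refine natDegree_sum_le_of_forall_le _ _ (fun k hk => ?_)
  refine (natDegree_monomial_le _).trans ?_
  rw [idx, Finset.mem_Icc] at hk
  omega

lemma pol_ne {N : ℕ} {c : ℤ → ℂ} (hc : ∃ k ∈ idx N, c k ≠ 0) : pol N c ≠ 0 := by
  obtain ⟨k0, hk0, hck⟩ := hc
  intro h
  have h1 : (pol N c).coeff ((N : ℤ) - k0).toNat = c k0 := by
    unfold pol
    rw [finset_sum_coeff, Finset.sum_eq_single k0]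
    · rw [coeff_monomial, if_pos rfl]
    · intro k hk hne
      rw [coeff_monomial, if_neg]
      intro h2
      apply hne
      rw [idx, Finset.mem_Icc] at hk hk0
      omega
    · intro h2; exact absurd hk0 h2
  rw [h, coeff_zero] at h1
  exact hck h1.symm

lemma pol_eval (N : ℕ) (c : ℤ → ℂ) {z : ℂ} (hz : z ≠ 0) :
    (pol N c).eval z = z ^ N * QL (idx N) c z := by
  unfold pol QL
  rw [eval_finset_sum, Finset.mul_sum]
  refine Finset.sum_congr rfl (fun k hk => ?_)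
  rw [idx, Finset.mem_Icc] at hk
  rw [eval_monomial, ← zpow_natCast z N, ← zpow_natCast z]
  have : ((((N : ℤ) - k).toNat : ℕ) : ℤ) = N + -k := by
    rw [Int.toNat_of_nonneg (by omega)]; ring
  rw [this, zpow_add₀ hz]
  ring

lemma pol_eval_conj (N : ℕ) (c : ℤ → ℂ) {z : ℂ} (hz : z ≠ 0) :
    z ^ (2 * N) * (starRingEnd ℂ) ((pol N c).eval ((starRingEnd ℂ) z)⁻¹) =
      z ^ N * QS (idx N) c z := by
  have hz' : ((starRingEnd ℂ) z)⁻¹ ≠ 0 := inv_ne_zero ((_root_.map_ne_zero _).2 hz)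
  rw [pol_eval N c hz']
  unfold QL QS
  rw [map_mul, map_pow, map_inv₀, Complex.conj_conj, map_sum, ← mul_assoc, inv_pow,
    two_mul, pow_add, mul_assoc (z ^ N), mul_inv_cancel₀ (pow_ne_zero N hz), mul_one]
  congr 1
  refine Finset.sum_congr rfl (fun k _ => ?_)
  rw [map_mul, map_zpow₀, map_inv₀, Complex.conj_conj, zpow_neg, inv_zpow, inv_inv]

/-- the outer algebraic type -/
def TypeO (r : ℝ) (N : ℕ) (f : ℂ → ℂ) : Prop :=
  ∃ c : ℤ → ℂ, (∃ k ∈ idx N, c k ≠ 0) ∧ ∀ z ∈ annulus r, f z ^ 2 * QL (idx N) c z = QS (idx N) c z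

/-- the inner algebraic type -/
def TypeI (r : ℝ) (N : ℕ) (f : ℂ → ℂ) : Prop :=
  ∃ c : ℤ → ℂ, (∃ k ∈ idx N, c k ≠ 0) ∧
    ∀ z ∈ annulus r, f z ^ 2 * QL (idx N) c z = QR r (idx N) c z

lemma isMax_of_typeO {r : ℝ} (hr : 0 < r) (hr1 : r < 1) {N : ℕ} {f : ℂ → ℂ} {a : ℤ → ℂ}
    (hf : IsB r f) (hL : IsLaurent r f a) (h : TypeO r N f) :
    ∃ c : ℤ → ℂ, (∃ k ∈ idx N, c k ≠ 0) ∧ IsMax r (idx N) c a := by
  obtain ⟨c, hc, hrel⟩ := h
  have hE : EP r f (2 * N) (pol N c) 1 := by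
    refine ⟨pol_ne hc, pol_deg N c, norm_one, fun z hz => ?_⟩
    have hz0 := ne_zero_of_mem hr hz
    rw [one_mul, pol_eval_conj N c hz0, pol_eval N c hz0, ← hrel z hz]
    ring
  obtain ⟨D', q, κ', hD, hE', hq⟩ := EP.reduce hr (pol N c).natDegree rfl hE
  exact isMax_of_EP hr hr1 hf hL hE' hq hD

lemma sum_neg_idx {M : Type*} [AddCommMonoid M] (N : ℕ) (g : ℤ → M) :
    ∑ k ∈ idx N, g (-k) = ∑ k ∈ idx N, g k := by
  refine Finset.sum_nbij' (fun k => -k) (fun k => -k) ?_ ?_ ?_ ?_ ?_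
  · intro k hk
    rw [idx, Finset.mem_Icc] at hk ⊢
    omega
  · intro k hk
    rw [idx, Finset.mem_Icc] at hk ⊢
    omega
  · intro k _; exact neg_neg k
  · intro k _; exact neg_neg k
  · intro k _; rfl

lemma isMax_of_typeI {r : ℝ} (hr : 0 < r) (hr1 : r < 1) {N : ℕ} {f : ℂ → ℂ} {a : ℤ → ℂ}
    (hf : IsB r f) (hL : IsLaurent r f a) (h : TypeI r N f) :
    ∃ c : ℤ → ℂ, (∃ k ∈ idx N, c k ≠ 0) ∧ IsMax r (idx N) c a := by
  obtain ⟨c, ⟨k0, hk0, hck⟩, hrel⟩ := h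
  have hrc : (r : ℂ) ≠ 0 := by exact_mod_cast hr.ne'
  have hO : TypeO r N (fun z => f (r / z)) := by
    refine ⟨fun k => c (-k) * (r : ℂ) ^ k, ⟨-k0, ?_, ?_⟩, fun z hz => ?_⟩
    · rw [idx, Finset.mem_Icc] at hk0 ⊢
      omega
    · simp only [neg_neg]
      exact mul_ne_zero hck (zpow_ne_zero _ hrc)
    · have hz0 := ne_zero_of_mem hr hz
      have h1 := hrel _ (inv_mem hr hz)
      have h2 : QL (idx N) (fun k => c (-k) * (r : ℂ) ^ k) z = QL (idx N) c (r / z) := by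
        unfold QL
        rw [← sum_neg_idx]
        refine Finset.sum_congr rfl (fun k _ => ?_)
        simp only [neg_neg]
        rw [div_zpow, zpow_neg z, div_inv_eq_mul, mul_assoc]
      have h3 : QS (idx N) (fun k => c (-k) * (r : ℂ) ^ k) z = QR r (idx N) c (r / z) := by
        unfold QS QR
        rw [← sum_neg_idx]
        refine Finset.sum_congr rfl (fun k _ => ?_)
        simp only [neg_neg]
        rw [map_mul, map_zpow₀, Complex.conj_ofReal, div_zpow, zpow_neg z]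
        have h4 : (r : ℂ) ^ (-2 * k) = (r : ℂ) ^ (-k) * (r : ℂ) ^ (-k) := by
          rw [← zpow_add₀ hrc]; congr 1; ring
        have h5 : (r : ℂ) ^ (-k) * (r : ℂ) ^ k = 1 := by
          rw [← zpow_add₀ hrc]; simp
        rw [h4, div_eq_mul_inv]
        linear_combination -(starRingEnd ℂ) (c k) * (r : ℂ) ^ (-k) * (z ^ k)⁻¹ * h5
      rw [h2, h3]
      exact h1
  obtain ⟨c2, ⟨k1, hk1, hck1⟩, hmax⟩ := isMax_of_typeO hr hr1 (isB_inv hr hf)
    (isLaurent_inv hr hL) hO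
  have hLc : ∀ b : ℤ → ℂ, Lc (idx N) (fun k => c2 (-k) * (r : ℂ) ^ k) b =
      Lc (idx N) c2 (fun l => b (-l) * ((r ^ (-l) : ℝ) : ℂ)) := by
    intro b
    unfold Lc
    rw [← sum_neg_idx]
    refine Finset.sum_congr rfl (fun k _ => ?_)
    simp only [neg_neg]
    push_cast
    ring
  refine ⟨fun k => c2 (-k) * (r : ℂ) ^ k, ⟨-k1, ?_, ?_⟩, fun g b hg hb => ?_⟩
  · rw [idx, Finset.mem_Icc] at hk1 ⊢
    omega
  · simp only [neg_neg]
    exact mul_ne_zero hck1 (zpow_ne_zero _ hrc)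
  · rw [hLc, hLc]
    exact hmax _ _ (isB_inv hr hg) (isLaurent_inv hr hb)

/-- **The extremal functions.** -/
theorem extremal_iff {r : ℝ} (hr : 0 < r) (hr1 : r < 1) (N : ℕ) {f : ℂ → ℂ} {a : ℤ → ℂ}
    (hf : IsB r f) (hL : IsLaurent r f a) :
    (fun k : idx N => a k) ∈ frontier (body r (idx N)) ↔
      TypeO r N f ∨ TypeI r N f ∨
        ∃ c : ℤ → ℂ, (∃ k ∈ idx N, c k ≠ 0) ∧ TypeT r (idx N) c f := by
  rw [frontier_iff hr hr1 (idx N) hf hL]
  constructor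
  · rintro ⟨c, hc, hmax⟩
    rcases max_types hr hr1 (idx N) c hf hL hmax with h | h | h
    · exact Or.inl ⟨c, hc, h⟩
    · exact Or.inr (Or.inl ⟨c, hc, h⟩)
    · exact Or.inr (Or.inr ⟨c, hc, h⟩)
  · rintro (h | h | ⟨c, hc, h⟩)
    · exact isMax_of_typeO hr hr1 hf hL h
    · exact isMax_of_typeI hr hr1 hf hL h
    · exact ⟨c, hc, isMax_of_typeT hr hr1 _ c hf hL h⟩

/-- **Uniqueness.** -/
theorem extremal_unique {r : ℝ} (hr : 0 < r) (hr1 : r < 1) (S : Finset ℤ) {v : S → ℂ}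
    (hv : v ∈ frontier (body r S)) :
    ∃ (f : ℂ → ℂ) (a : ℤ → ℂ), IsB r f ∧ IsLaurent r f a ∧ (∀ k : S, v k = a k) ∧
      ∀ (g : ℂ → ℂ) (b : ℤ → ℂ), IsB r g → IsLaurent r g b → (∀ k : S, v k = b k) →
        ∀ z ∈ annulus r, g z = f z := by
  have hcl : IsClosed (body r S) := (body_isCompact hr hr1 S).isClosed
  obtain ⟨f, a, hf, hL, hva⟩ := hcl.frontier_subset hv
  refine ⟨f, a, hf, hL, hva, fun g b hg hb hvb z hz => ?_⟩
  have hv1 : v = fun k : S => a k := funext hva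
  have hv2 : v = fun k : S => b k := funext hvb
  rw [hv1] at hv
  obtain ⟨c, hc, hmax⟩ := (frontier_iff hr hr1 S hf hL).1 hv
  have hLc : Lc S c b = Lc S c a := by
    unfold Lc
    refine Finset.sum_congr rfl (fun k hk => ?_)
    have := congrFun (hv1.symm.trans hv2) ⟨k, hk⟩
    simp only at this
    rw [this]
  refine (max_unique hr hr1 hc hf hL hmax hg hb (fun g' b' hg' hb' => ?_) hz).symm
  rw [hLc]
  exact hmax g' b' hg' hb'

end Run7.h331
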