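import Pool.Agent.Run7.h331.Blaschke2
import Pool.Agent.Run7.h331.Extremal

/-!
The explicit form of the two-sided type.
-/

open Filter Topology Complex Set MeasureTheory

set_option maxHeartbeats 400000

namespace Run7.h331

/-- functions analytic near the closed annulus have Laurent expansions on a larger ring -/
lemma exists_ring {r : ℝ} (hr : 0 < r) (hr1 : r < 1) {u : ℂ → ℂ}
    (hu : AnalyticOnNhd ℂ u (closedAnn r)) :
    ∃ r₁ R₁ : ℝ, 0 < r₁ ∧ r₁ < r ∧ 1 < R₁ ∧ DifferentiableOn ℂ u (ring r₁ R₁) := by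
  have hopen : IsOpen {z | AnalyticAt ℂ u z} := isOpen_analyticAt ℂ u
  have hsub : closedAnn r ⊆ {z | AnalyticAt ℂ u z} := hu
  obtain ⟨δ, hδ, hδs⟩ := (closedAnn_isCompact r).exists_thickening_subset_open hopen hsub
  set ε := min (δ / 2) (r / 2) with hε
  have hε0 : 0 < ε := by positivity
  have hε1 : ε < δ := lt_of_le_of_lt (min_le_left _ _) (by linarith)
  have hε2 : ε < r := lt_of_le_of_lt (min_le_right _ _) (by linarith)
  refine ⟨r - ε, 1 + ε, by linarith, by linarith, by linarith, fun z hz => ?_⟩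
  have hz0 : 0 < ‖z‖ := lt_trans (by linarith) hz.1
  have hmem : z ∈ Metric.thickening δ (closedAnn r) := by
    rw [Metric.mem_thickening_iff]
    obtain ⟨θ, hθ⟩ := exists_circ z
    -- project to the closed annulus
    set ρ := max r (min ‖z‖ 1) with hρ
    have hρ1 : r ≤ ρ := le_max_left _ _
    have hρ2 : ρ ≤ 1 := max_le hr1.le (min_le_right _ _)
    refine ⟨(ρ : ℂ) * ex 1 θ, circ_mem_closedAnn hr.le hρ1 hρ2 θ, ?_⟩
    have hd : dist z ((ρ : ℂ) * ex 1 θ) = |‖z‖ - ρ| := by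
      have e : dist z ((ρ : ℂ) * ex 1 θ) =
          dist ((‖z‖ : ℂ) * ex 1 θ) ((ρ : ℂ) * ex 1 θ) := by rw [← hθ]
      rw [e, dist_eq_norm, ← sub_mul, norm_mul, norm_ex, mul_one, ← Complex.ofReal_sub,
        Complex.norm_real, Real.norm_eq_abs]
    rw [hd, abs_lt]
    rcases le_total ‖z‖ 1 with h1 | h1
    · rw [hρ, min_eq_left h1]
      rcases le_total r ‖z‖ with h2 | h2
      · rw [max_eq_right h2]; constructor <;> linarith
      · rw [max_eq_left h2]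
        have := hz.1
        constructor <;> linarith
    · rw [hρ, min_eq_right h1, max_eq_right hr1.le]
      have := hz.2
      constructor <;> linarith
  have hA : AnalyticAt ℂ u z := hδs hmem
  exact hA.differentiableAt.differentiableWithinAt

/-- the coefficients of the first part of the splitting -/
noncomputable def hco (r : ℝ) (c d : ℤ → ℂ) (η : ℂ) (k : ℤ) : ℂ :=
  if k = 0 then η else
    ((starRingEnd ℂ) (d (-k)) - (r : ℂ) ^ (2 * k) * c (-k)) / (1 - (r : ℂ) ^ (2 * k))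

lemma one_sub_ne {r : ℝ} (hr : 0 < r) (hr1 : r < 1) {k : ℤ} (hk : k ≠ 0) :
    (1 : ℂ) - (r : ℂ) ^ (2 * k) ≠ 0 := by
  intro h
  have h1 : ((r ^ (2 * k) : ℝ) : ℂ) = ((1 : ℝ) : ℂ) := by
    push_cast
    linear_combination -h
  have h2 : r ^ (2 * k) = r ^ (0 : ℤ) := by
    rw [zpow_zero]; exact_mod_cast h1
  have h3 := zpow_right_injective₀ hr hr1.ne h2
  omega

/-- boundary relation between Laurent coefficients -/
lemma conj_coef' {r : ℝ} (hr : 0 < r) (hr1 : r < 1) {u v : ℂ → ℂ} {β α : ℤ → ℂ}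
    (hu : AnalyticOnNhd ℂ u (closedAnn r)) (hv : AnalyticOnNhd ℂ v (closedAnn r))
    (hβ : HasL r 1 u β) (hα : HasL r 1 v α) {ρ0 : ℝ}
    (h1 : r ≤ ρ0) (h2 : ρ0 ≤ 1) (huv : ∀ z, ‖z‖ = ρ0 → v z = (starRingEnd ℂ) (u z)) (k : ℤ) :
    α k = ((ρ0 ^ (-2 * k) : ℝ) : ℂ) * (starRingEnd ℂ) (β (-k)) := by
  have hρ0 : 0 < ρ0 := hr.trans_le h1
  have e1 := coef_boundary hr hr1 hv hα h1 h2 k
  have e2 := congrArg (starRingEnd ℂ) (coef_boundary hr hr1 hu hβ h1 h2 (-k))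
  rw [int_conj] at e2
  have h3 : (∫ θ in (0:ℝ)..2 * Real.pi, v ((ρ0 : ℂ) * ex 1 θ) * ((ρ0 : ℂ) * ex 1 θ) ^ (-k)) =
      ((ρ0 ^ (-2 * k) : ℝ) : ℂ) * ∫ θ in (0:ℝ)..2 * Real.pi,
        (starRingEnd ℂ) (u ((ρ0 : ℂ) * ex 1 θ) * ((ρ0 : ℂ) * ex 1 θ) ^ (- -k)) := by
    rw [← intervalIntegral.integral_const_mul]
    refine intervalIntegral.integral_congr (fun θ _ => ?_)
    have hz : ‖(ρ0 : ℂ) * ex 1 θ‖ = ρ0 := norm_circ hρ0.le θ
    beta_reduce
    generalize (ρ0 : ℂ) * ex 1 θ = z at hz ⊢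
    have hz0 : z ≠ 0 := by rw [← norm_pos_iff, hz]; exact hρ0
    rw [huv z hz, map_mul, map_zpow₀, conj_inv_of_norm hz hρ0, neg_neg, mul_zpow, inv_zpow,
      zpow_neg z]
    have h4 : ((ρ0 ^ (-2 * k) : ℝ) : ℂ) * (((ρ0 ^ 2 : ℝ) : ℂ)) ^ k = 1 := by
      rw [← Complex.ofReal_zpow, ← Complex.ofReal_mul, ← zpow_natCast ρ0 2, ← zpow_mul,
        ← zpow_add₀ hρ0.ne']
      push_cast
      have : -2 * k + 2 * k = 0 := by ring
      rw [this, zpow_zero]
    linear_combination -(starRingEnd ℂ) (u z) * (z ^ k)⁻¹ * h4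
  rw [h3, e2] at e1
  have h5 : (starRingEnd ℂ) (2 * Real.pi * β (-k)) = 2 * Real.pi * (starRingEnd ℂ) (β (-k)) := by
    rw [map_mul]
    congr 1
    have : (2 * Real.pi : ℂ) = ((2 * Real.pi : ℝ) : ℂ) := by push_cast; ring
    rw [this, Complex.conj_ofReal]
  rw [h5] at e1
  refine mul_left_cancel₀ two_pi_ne ?_
  rw [← e1]
  ring

lemma sq_conj {F h : ℂ} (hF : ‖F‖ = 1) (hh : F * h = (‖h‖ : ℂ)) :
    F ^ 2 * h = (starRingEnd ℂ) h := by
  have h1 : F * (starRingEnd ℂ) F = 1 := by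
    rw [Complex.mul_conj, Complex.normSq_eq_norm_sq, hF]; simp
  have h2 := congrArg (starRingEnd ℂ) hh
  rw [map_mul, Complex.conj_ofReal, ← hh] at h2
  calc F ^ 2 * h = F * (F * h) := by ring
    _ = F * ((starRingEnd ℂ) F * (starRingEnd ℂ) h) := by rw [h2]
    _ = (F * (starRingEnd ℂ) F) * (starRingEnd ℂ) h := by ring
    _ = _ := by rw [h1, one_mul]

/-- the coefficients of the Laurent polynomial, cut off -/
noncomputable def cut (S : Finset ℤ) (c : ℤ → ℂ) (k : ℤ) : ℂ := if k ∈ S then c k else 0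

lemma QL_hasL (s t : ℝ) (S : Finset ℤ) (c : ℤ → ℂ) :
    HasL s t (QL S c) (fun k => cut S c (-k)) := fun z _ => Pack.hasSum_QL S c z

/-- the formula for the Laurent coefficients of the first part -/
lemma hco_eq {r : ℝ} (hr : 0 < r) (hr1 : r < 1) {S : Finset ℤ} {c : ℤ → ℂ} {F h₁ h₂ : ℂ → ℂ}
    (hF : AnalyticOnNhd ℂ F (closedAnn r)) (hh₁ : AnalyticOnNhd ℂ h₁ (closedAnn r))
    (hh₂ : AnalyticOnNhd ℂ h₂ (closedAnn r))
    (hQ : ∀ z ∈ closedAnn r, h₁ z + h₂ z = QL S c z)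
    (hout : ∀ z, ‖z‖ = 1 → ‖F z‖ = 1 ∧ F z * h₁ z = (‖h₁ z‖ : ℂ))
    (hin : ∀ z, ‖z‖ = r → ‖F z‖ = 1 ∧ F z * h₂ z = (‖h₂ z‖ : ℂ))
    {β d : ℤ → ℂ} (hβ : HasL r 1 h₁ β) (hd : HasL r 1 (fun z => F z ^ 2 * QL S c z) d) (k : ℤ) :
    β k = hco r (cut S c) d (β 0) k := by
  have hsub : ring r 1 ⊆ closedAnn r := fun z hz => ⟨hz.1.le, hz.2.le⟩
  have hA₁ : AnalyticOnNhd ℂ (fun z => F z ^ 2 * h₁ z) (closedAnn r) :=
    fun z hz => ((hF z hz).pow 2).mul (hh₁ z hz)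
  have hA₂ : AnalyticOnNhd ℂ (fun z => F z ^ 2 * h₂ z) (closedAnn r) :=
    fun z hz => ((hF z hz).pow 2).mul (hh₂ z hz)
  obtain ⟨α, hα⟩ := exists_hasL hr hr1
    (f := fun z => F z ^ 2 * h₁ z) (fun z hz => (hA₁ z (hsub hz)).differentiableAt.differentiableWithinAt)
  obtain ⟨γ, hγ⟩ := exists_hasL hr hr1
    (f := fun z => F z ^ 2 * h₂ z) (fun z hz => (hA₂ z (hsub hz)).differentiableAt.differentiableWithinAt)
  -- coefficients of `h₂`
  have hβ₂ : HasL r 1 h₂ (fun k => cut S c (-k) - β k) := by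
    intro z hz
    have h1 := (QL_hasL r 1 S c z hz).sub (hβ z hz)
    have h2 : QL S c z - h₁ z = h₂ z := by rw [← hQ z (hsub hz)]; ring
    rw [h2] at h1
    refine h1.congr_fun (fun j => ?_)
    ring
  have e1 : ∀ k, α k = (starRingEnd ℂ) (β (-k)) := by
    intro k
    have := conj_coef' hr hr1 hh₁ hA₁ hβ hα hr1.le le_rfl
      (fun z hz => sq_conj (hout z hz).1 (hout z hz).2) k
    rw [one_zpow, Complex.ofReal_one, one_mul] at this
    exact this
  have e2 : ∀ k, γ k = ((r ^ (-2 * k) : ℝ) : ℂ) * (starRingEnd ℂ) (cut S c k - β (-k)) := by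
    intro k
    have := conj_coef' hr hr1 hh₂ hA₂ hβ₂ hγ le_rfl hr1.le
      (fun z hz => sq_conj (hin z hz).1 (hin z hz).2) k
    simp only [neg_neg] at this
    exact this
  have e3 : d = fun k => α k + γ k := by
    refine HasL.unique hr.le hr1 hd (hα.add hγ) (fun z hz => ?_)
    rw [← hQ z (hsub hz)]
    ring
  unfold hco
  split_ifs with hk
  · rw [hk]
  · have h1 := one_sub_ne hr hr1 hk
    rw [eq_div_iff h1]
    have h2 : d (-k) = (starRingEnd ℂ) (β k) +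
        ((r ^ (2 * k) : ℝ) : ℂ) * (starRingEnd ℂ) (cut S c (-k) - β k) := by
      rw [e3]
      simp only
      rw [e1, e2, neg_neg]
      have : -2 * -k = 2 * k := by ring
      rw [this]
    rw [h2, map_add, map_mul, Complex.conj_conj, Complex.conj_conj, Complex.conj_ofReal]
    push_cast
    ring

/-- a Laurent series on a ring around the closed annulus -/
lemma analytic_of_hasL {r r₁ R₁ : ℝ} (h0 : 0 ≤ r₁) (h1 : r₁ < r) (h2 : 1 < R₁) {u : ℂ → ℂ}
    {β : ℤ → ℂ} (h : HasL r₁ R₁ u β) : AnalyticOnNhd ℂ u (closedAnn r) :=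
  (h.analytic h0).mono (fun _ hz => ⟨lt_of_lt_of_le h1 hz.1, lt_of_le_of_lt hz.2 h2⟩)

end Run7.h331
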