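import Pool.Agent.Run7.h331.Expl

/-!
The explicit form of the two-sided type, continued.
-/

open Filter Topology Complex Set MeasureTheory

set_option maxHeartbeats 400000

namespace Run7.h331

lemma natAbs_pos_eq {s : ℝ} {k : ℤ} (hk : 0 ≤ k) : s ^ k.natAbs = s ^ k := by
  have : (k.natAbs : ℤ) = k := by omega
  rw [← zpow_natCast s k.natAbs, this]

lemma natAbs_neg_eq {s : ℝ} {k : ℤ} (hk : k ≤ 0) : s ^ k.natAbs = s ^ (-k) := by
  have : (k.natAbs : ℤ) = -k := by omega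
  rw [← zpow_natCast s k.natAbs, this]

lemma hasL_of_bound {s C : ℝ} (hs : 0 < s) {u : ℤ → ℂ}
    (h : ∀ k, ‖u k‖ ≤ C * s ^ k.natAbs) : HasL s s⁻¹ (LS u) u := by
  have hC : 0 ≤ C := by
    have := h 0
    simp only [Int.natAbs_zero, pow_zero, mul_one] at this
    exact (norm_nonneg _).trans this
  refine Dec.hasL hs (fun s' h1 _ => ⟨C, hC, fun k => (h k).trans ?_⟩)
  exact mul_le_mul_of_nonneg_left (pow_le_pow_left₀ hs.le h1.le _) hC

/-- decay of the coefficients -/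
lemma hco_bound {r s r₁ R₁ : ℝ} (hr : 0 < r) (hr1 : r < 1) (hs0 : 0 < s) (hsr : s < r)
    (h1 : r₁ < s) (h2 : r ^ 2 ≤ s) (h3 : 1 < R₁) {S : Finset ℤ} {c d : ℤ → ℂ}
    (hc : ∀ k ∉ S, c k = 0) {u : ℂ → ℂ} (hd : HasL r₁ R₁ u d) (η : ℂ) :
    ∃ C : ℝ, ∀ k, ‖hco r c d η k‖ ≤ C * s ^ k.natAbs := by
  have hs1 : s < 1 := hsr.trans hr1
  obtain ⟨C₁, hC₁, hb₁⟩ := hd.bound hs0.le h1 (hs1.trans h3)
  obtain ⟨C₂, hC₂, hb₂⟩ := hd.bound zero_le_one (h1.trans hs1) h3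
  -- bound for `c`
  obtain ⟨B, hB, hcB⟩ : ∃ B : ℝ, 0 ≤ B ∧ ∀ k, ‖c k‖ ≤ B * s ^ k.natAbs := by
    refine ⟨∑ k ∈ S, ‖c k‖ * (s ^ k.natAbs)⁻¹,
      Finset.sum_nonneg (fun k _ => by positivity), fun k => ?_⟩
    have hsk : 0 < s ^ k.natAbs := by positivity
    by_cases hk : k ∈ S
    · have h4 := Finset.single_le_sum (f := fun k : ℤ => ‖c k‖ * (s ^ k.natAbs)⁻¹)
        (fun i _ => by positivity) hk
      have h5 := mul_le_mul_of_nonneg_right h4 hsk.le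
      rwa [mul_assoc, inv_mul_cancel₀ hsk.ne', mul_one] at h5
    · rw [hc k hk, norm_zero]
      have : 0 ≤ ∑ k ∈ S, ‖c k‖ * (s ^ k.natAbs)⁻¹ := Finset.sum_nonneg (fun k _ => by positivity)
      positivity
  have hδ : 0 < 1 - r ^ 2 := by nlinarith
  refine ⟨‖η‖ + (C₁ + C₂ + B) / (1 - r ^ 2), fun k => ?_⟩
  have hsk : 0 < s ^ k.natAbs := by positivity
  have hηp : 0 ≤ ‖η‖ * s ^ k.natAbs := by positivity
  have hfin : ∀ x : ℝ, x ≤ (C₁ + C₂ + B) / (1 - r ^ 2) * s ^ k.natAbs →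
      x ≤ (‖η‖ + (C₁ + C₂ + B) / (1 - r ^ 2)) * s ^ k.natAbs := by
    intro x hx
    rw [add_mul]
    linarith
  unfold hco
  split_ifs with hk
  · rw [hk]
    simp only [Int.natAbs_zero, pow_zero, mul_one]
    have : 0 ≤ (C₁ + C₂ + B) / (1 - r ^ 2) := by positivity
    linarith
  · apply hfin
    rw [norm_div]
    have hck := hcB (-k)
    rw [Int.natAbs_neg] at hck
    have hr2k : ‖(r : ℂ) ^ (2 * k)‖ = r ^ (2 * k) := by
      rw [norm_zpow, Complex.norm_real, Real.norm_of_nonneg hr.le]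
    have hnum : ‖(starRingEnd ℂ) (d (-k)) - (r : ℂ) ^ (2 * k) * c (-k)‖ ≤
        ‖d (-k)‖ + r ^ (2 * k) * (B * s ^ k.natAbs) := by
      refine (norm_sub_le _ _).trans ?_
      rw [RCLike.norm_conj, norm_mul, hr2k]
      exact add_le_add le_rfl (mul_le_mul_of_nonneg_left hck (zpow_nonneg hr.le _))
    have hr2pos : 0 < r ^ (2 * k) := zpow_pos hr _
    rcases lt_or_gt_of_ne hk with hneg | hpos
    · -- negative index
      have hden : r ^ (2 * k) * (1 - r ^ 2) ≤ ‖(1 : ℂ) - (r : ℂ) ^ (2 * k)‖ := by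
        have e1 : ‖(1 : ℂ) - (r : ℂ) ^ (2 * k)‖ = r ^ (2 * k) - 1 := by
          have h5 : (1 : ℂ) - (r : ℂ) ^ (2 * k) = ((1 - r ^ (2 * k) : ℝ) : ℂ) := by push_cast; ring
          have h6 : (1:ℝ) ≤ r ^ (2 * k) := by
            have h7 : r ^ (0 : ℤ) ≤ r ^ (2 * k) :=
              zpow_le_zpow_right_of_le_one₀ hr hr1.le (by omega)
            rwa [zpow_zero] at h7
          rw [h5, Complex.norm_real, Real.norm_eq_abs, abs_sub_comm, abs_of_nonneg (by linarith)]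
        rw [e1]
        have h7 : r ^ (2 * k) * r ^ 2 ≥ 1 := by
          have h8 : r ^ (2 * k) * r ^ 2 = r ^ (2 * k + 2) := by
            rw [zpow_add₀ hr.ne']; norm_cast
          rw [h8]
          have h9 : r ^ (0 : ℤ) ≤ r ^ (2 * k + 2) :=
            zpow_le_zpow_right_of_le_one₀ hr hr1.le (by omega)
          rwa [zpow_zero] at h9
        nlinarith
      have hdk : ‖d (-k)‖ ≤ C₂ := by
        have := hb₂ (-k)
        rwa [one_zpow, mul_one] at this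
      have hrs : 1 ≤ r ^ (2 * k) * s ^ k.natAbs := by
        have h5 : r ^ (2 * k) * (r ^ 2) ^ k.natAbs = 1 := by
          rw [natAbs_neg_eq hneg.le, ← zpow_natCast r 2, ← zpow_mul, ← zpow_add₀ hr.ne']
          have : 2 * k + (2 : ℕ) * -k = 0 := by push_cast; ring
          rw [this, zpow_zero]
        have h6 : (r ^ 2) ^ k.natAbs ≤ s ^ k.natAbs := pow_le_pow_left₀ (by positivity) h2 _
        nlinarith
      have hdpos : 0 < ‖(1 : ℂ) - (r : ℂ) ^ (2 * k)‖ := lt_of_lt_of_le (by positivity) hden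
      rw [div_le_iff₀ hdpos]
      have h8 : ‖d (-k)‖ + r ^ (2 * k) * (B * s ^ k.natAbs) ≤
          (C₁ + C₂ + B) * (r ^ (2 * k) * s ^ k.natAbs) := by
        have : C₂ ≤ C₂ * (r ^ (2 * k) * s ^ k.natAbs) := le_mul_of_one_le_right hC₂ hrs
        have h9 : 0 ≤ C₁ * (r ^ (2 * k) * s ^ k.natAbs) := by positivity
        nlinarith
      calc _ ≤ (C₁ + C₂ + B) * (r ^ (2 * k) * s ^ k.natAbs) := hnum.trans h8
        _ = (C₁ + C₂ + B) / (1 - r ^ 2) * s ^ k.natAbs * (r ^ (2 * k) * (1 - r ^ 2)) := by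
            field_simp
        _ ≤ _ := by
            refine mul_le_mul_of_nonneg_left hden ?_
            positivity
    · -- positive index
      have hden : 1 - r ^ 2 ≤ ‖(1 : ℂ) - (r : ℂ) ^ (2 * k)‖ := by
        have h5 : (1 : ℂ) - (r : ℂ) ^ (2 * k) = ((1 - r ^ (2 * k) : ℝ) : ℂ) := by push_cast; ring
        have h6 : r ^ (2 * k) ≤ r ^ 2 := by
          have h7 : r ^ (2 * k) ≤ r ^ (2 : ℤ) :=
            zpow_le_zpow_right_of_le_one₀ hr hr1.le (by omega)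
          exact_mod_cast h7
        rw [h5, Complex.norm_real, Real.norm_eq_abs]
        exact (by linarith : 1 - r ^ 2 ≤ 1 - r ^ (2 * k)).trans (le_abs_self _)
      have hdk : ‖d (-k)‖ ≤ C₁ * s ^ k.natAbs := by
        have h5 := hb₁ (-k)
        have h6 : s ^ (-k) * s ^ k.natAbs = 1 := by
          rw [natAbs_pos_eq hpos.le, ← zpow_add₀ hs0.ne']; simp
        have h7 := mul_le_mul_of_nonneg_right h5 hsk.le
        rwa [mul_assoc, h6, mul_one] at h7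
      have hr2le : r ^ (2 * k) ≤ 1 := by
        have h7 : r ^ (2 * k) ≤ r ^ (0 : ℤ) :=
          zpow_le_zpow_right_of_le_one₀ hr hr1.le (by omega)
        rwa [zpow_zero] at h7
      have hdpos : 0 < ‖(1 : ℂ) - (r : ℂ) ^ (2 * k)‖ := lt_of_lt_of_le hδ hden
      rw [div_le_iff₀ hdpos]
      have h8 : ‖d (-k)‖ + r ^ (2 * k) * (B * s ^ k.natAbs) ≤ (C₁ + C₂ + B) * s ^ k.natAbs := by
        have h9 : r ^ (2 * k) * (B * s ^ k.natAbs) ≤ 1 * (B * s ^ k.natAbs) :=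
          mul_le_mul_of_nonneg_right hr2le (by positivity)
        have h10 : 0 ≤ C₂ * s ^ k.natAbs := by positivity
        nlinarith
      calc _ ≤ (C₁ + C₂ + B) * s ^ k.natAbs := hnum.trans h8
        _ = (C₁ + C₂ + B) / (1 - r ^ 2) * s ^ k.natAbs * (1 - r ^ 2) := by
            field_simp
        _ ≤ _ := by
            refine mul_le_mul_of_nonneg_left hden ?_
            positivity

/-- the explicit two-sided type -/
def TypeE (r : ℝ) (N : ℕ) (f : ℂ → ℂ) : Prop :=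
  ∃ (κ : ℂ) (p : ℤ) (n : ℕ) (a : Fin n → ℂ) (c d : ℤ → ℂ) (η : ℂ),
    ‖κ‖ = 1 ∧ (∀ j, a j ∈ annulus r) ∧ ∏ j, ‖a j‖ = r ^ p ∧
    (∀ z ∈ annulus r, f z = aprod r κ p a z) ∧
    (∃ k ∈ idx N, c k ≠ 0) ∧ (∀ k ∉ idx N, c k = 0) ∧
    IsLaurent r (fun z => f z ^ 2 * QL (idx N) c z) d ∧
    (∀ z, ‖z‖ = 1 → aprod r κ p a z * LS (hco r c d η) z = (‖LS (hco r c d η) z‖ : ℂ)) ∧
    (∀ z, ‖z‖ = r → aprod r κ p a z * (QL (idx N) c z - LS (hco r c d η) z) =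
      (‖QL (idx N) c z - LS (hco r c d η) z‖ : ℂ))

lemma typeE_of_typeT {r : ℝ} (hr : 0 < r) (hr1 : r < 1) {N : ℕ} {f : ℂ → ℂ} {c : ℤ → ℂ}
    (hc : ∃ k ∈ idx N, c k ≠ 0) (h : TypeT r (idx N) c f) : TypeE r N f := by
  obtain ⟨F, h₁, h₂, hF, hh₁, hh₂, hFf, hQ, hout, hin⟩ := h
  obtain ⟨κ, p, n, a, hκ, ha, hp, hFa⟩ := exists_aprod hr hr1 hF (fun z hz => (hout z hz).1)
    (fun z hz => (hin z hz).1)
  have hsub : ring r 1 ⊆ closedAnn r := fun z hz => ⟨hz.1.le, hz.2.le⟩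
  have hFQ : AnalyticOnNhd ℂ (fun z => F z ^ 2 * QL (idx N) c z) (closedAnn r) := by
    intro z hz
    exact ((hF z hz).pow 2).mul (QL_analyticAt _ _ (norm_pos_iff.1 (hr.trans_le hz.1)))
  obtain ⟨d, hd⟩ := exists_hasL hr hr1 (f := fun z => F z ^ 2 * QL (idx N) c z)
    (fun z hz => (hFQ z (hsub hz)).differentiableAt.differentiableWithinAt)
  obtain ⟨r₁, R₁, hr₁, hr₁r, hR₁, hdiff⟩ := exists_ring hr hr1 hh₁
  obtain ⟨β, hβ⟩ := exists_hasL hr₁ (hr₁r.trans (hr1.trans hR₁)) hdiff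
  have hβ' : HasL r 1 h₁ β := hβ.mono hr₁r.le hR₁.le
  have hβe := hco_eq hr hr1 hF hh₁ hh₂ hQ hout hin hβ' hd
  have hLS : ∀ z ∈ closedAnn r, LS (hco r (cut (idx N) c) d (β 0)) z = h₁ z := by
    intro z hz
    have h3 := hβ z ⟨lt_of_lt_of_le hr₁r hz.1, lt_of_le_of_lt hz.2 hR₁⟩
    rw [← h3.tsum_eq]
    unfold LS
    exact tsum_congr (fun k => by rw [← hβe k])
  have hcutQ : ∀ z, QL (idx N) (cut (idx N) c) z = QL (idx N) c z := by
    intro z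
    unfold QL cut
    exact Finset.sum_congr rfl (fun k hk => by rw [if_pos hk])
  refine ⟨κ, p, n, a, cut (idx N) c, d, β 0, hκ, ha, hp, ?_, ?_, ?_, ?_, ?_, ?_⟩
  · intro z hz
    rw [← hFf z hz, hFa z (hsub hz)]
  · obtain ⟨k, hk, hck⟩ := hc
    exact ⟨k, hk, by unfold cut; rw [if_pos hk]; exact hck⟩
  · intro k hk
    unfold cut
    rw [if_neg hk]
  · intro z hz
    have h3 := hd z hz
    beta_reduce at h3 ⊢
    rw [hFf z hz] at h3
    rw [hcutQ]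
    exact h3
  · intro z hz
    have hzc : z ∈ closedAnn r := ⟨by rw [hz]; exact hr1.le, hz.le⟩
    rw [hLS z hzc, ← hFa z hzc]
    exact (hout z hz).2
  · intro z hz
    have hzc : z ∈ closedAnn r := ⟨hz.ge, by rw [hz]; exact hr1.le⟩
    have h3 : QL (idx N) c z - h₁ z = h₂ z := by rw [← hQ z hzc]; ring
    rw [hcutQ, hLS z hzc, ← hFa z hzc, h3]
    exact (hin z hz).2

lemma typeT_of_typeE {r : ℝ} (hr : 0 < r) (hr1 : r < 1) {N : ℕ} {f : ℂ → ℂ}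
    (h : TypeE r N f) : ∃ c : ℤ → ℂ, (∃ k ∈ idx N, c k ≠ 0) ∧ TypeT r (idx N) c f := by
  obtain ⟨κ, p, n, a, c, d, η, hκ, ha, hp, hfa, hc, hc0, hd, hout, hin⟩ := h
  obtain ⟨hA, hA1, hAr⟩ := aprod_unimodular hr hr1 hκ ha hp
  have hsub : ring r 1 ⊆ closedAnn r := fun z hz => ⟨hz.1.le, hz.2.le⟩
  have hFQ : AnalyticOnNhd ℂ (fun z => aprod r κ p a z ^ 2 * QL (idx N) c z) (closedAnn r) := by
    intro z hz
    exact ((hA z hz).pow 2).mul (QL_analyticAt _ _ (norm_pos_iff.1 (hr.trans_le hz.1)))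
  obtain ⟨r₁, R₁, hr₁, hr₁r, hR₁, hdiff⟩ := exists_ring hr hr1 hFQ
  obtain ⟨d', hd'⟩ := exists_hasL hr₁ (hr₁r.trans (hr1.trans hR₁)) hdiff
  have hdd : d' = d := by
    refine HasL.unique hr.le hr1 (hd'.mono hr₁r.le hR₁.le) hd (fun z hz => ?_)
    rw [hfa z hz]
  rw [hdd] at hd'
  have hr2 : r ^ 2 < r := by nlinarith
  obtain ⟨s, hs1, hs2⟩ := exists_between (max_lt hr₁r hr2)
  have hs0 : 0 < s := lt_of_le_of_lt (hr₁.le.trans (le_max_left _ _)) hs1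
  obtain ⟨C, hC⟩ := hco_bound hr hr1 hs0 hs2 (lt_of_le_of_lt (le_max_left _ _) hs1)
    ((le_max_right _ _).trans hs1.le) hR₁ hc0 hd' η
  have hL := hasL_of_bound hs0 hC
  have hs1' : 1 < s⁻¹ := (one_lt_inv₀ hs0).2 (hs2.trans hr1)
  have hLa : AnalyticOnNhd ℂ (LS (hco r c d η)) (closedAnn r) :=
    analytic_of_hasL hs0.le hs2 hs1' hL
  refine ⟨c, hc, aprod r κ p a, LS (hco r c d η),
    fun z => QL (idx N) c z - LS (hco r c d η) z, hA, hLa, ?_, ?_, ?_, ?_, ?_⟩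
  · intro z hz
    exact (QL_analyticAt _ _ (norm_pos_iff.1 (hr.trans_le hz.1))).sub (hLa z hz)
  · intro z hz
    exact (hfa z hz).symm
  · intro z _
    ring
  · intro z hz
    exact ⟨hA1 z hz, hout z hz⟩
  · intro z hz
    exact ⟨hAr z hz, hin z hz⟩

end Run7.h331
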