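import Pool.Agent.Run7.h331.Defs

/-!
Definitions for the description of the extremal functions of the coefficient bodies `V_N(r)`.
-/

namespace Run7.h331.Ext

open Run7.h331

/-- The index set `{-N, …, N}`. -/
noncomputable def I (N : ℕ) : Finset ℤ := Finset.Icc (-(N : ℤ)) N

/-- The Laurent polynomial `Q(z) = ∑_{|k| ≤ N} c_k z^{-k}`. -/
noncomputable def Q (N : ℕ) (c : ℤ → ℂ) (z : ℂ) : ℂ := ∑ k ∈ I N, c k * z ^ (-k)

/-- Its reflection in `|z| = 1`, the Laurent polynomial `∑_{|k| ≤ N} conj(c_k) z^k`. -/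
noncomputable def Qout (N : ℕ) (c : ℤ → ℂ) (z : ℂ) : ℂ :=
  ∑ k ∈ I N, (starRingEnd ℂ) (c k) * z ^ k

/-- Its reflection in `|z| = r`, the Laurent polynomial `∑_{|k| ≤ N} conj(c_k) r^{-2k} z^k`. -/
noncomputable def Qin (r : ℝ) (N : ℕ) (c : ℤ → ℂ) (z : ℂ) : ℂ :=
  ∑ k ∈ I N, (starRingEnd ℂ) (c k) * (r : ℂ) ^ (-2 * k) * z ^ k

/-- Outer type: `f² Q = Qout` on the annulus for some nonzero Laurent polynomial `Q`. -/
def OuterType (r : ℝ) (N : ℕ) (f : ℂ → ℂ) : Prop :=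
  ∃ c : ℤ → ℂ, (∃ k ∈ I N, c k ≠ 0) ∧ ∀ z ∈ annulus r, f z ^ 2 * Q N c z = Qout N c z

/-- Inner type: `f² Q = Qin` on the annulus for some nonzero Laurent polynomial `Q`. -/
def InnerType (r : ℝ) (N : ℕ) (f : ℂ → ℂ) : Prop :=
  ∃ c : ℤ → ℂ, (∃ k ∈ I N, c k ≠ 0) ∧ ∀ z ∈ annulus r, f z ^ 2 * Q N c z = Qin r N c z

/-- The product `(w; q) = ∏_{n ≥ 0} (1 - q^n w)`. -/
noncomputable def poch (q : ℝ) (w : ℂ) : ℂ := ∏' n : ℕ, (1 - (q : ℂ) ^ n * w)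

/-- The theta function `(w; q) (q/w; q)`. -/
noncomputable def theta (q : ℝ) (w : ℂ) : ℂ := poch q w * poch q (q / w)

/-- The elementary factor with a simple zero at `a`. -/
noncomputable def factor (r : ℝ) (a z : ℂ) : ℂ :=
  theta (r ^ 2) (z / a) / theta (r ^ 2) ((starRingEnd ℂ) a * z)

/-- The finite product `κ (r/z)^p ∏_j factor(a_j, z)`. -/
noncomputable def aprod (r : ℝ) (κ : ℂ) (p : ℤ) {n : ℕ} (a : Fin n → ℂ) (z : ℂ) : ℂ :=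
  κ * (r / z) ^ p * ∏ j, factor r (a j) z

/-- The numbers `h_0 = η`, `h_k = (conj(d_{-k}) - r^{2k} c_{-k}) / (1 - r^{2k})` for `k ≠ 0`. -/
noncomputable def hcoef (r : ℝ) (c d : ℤ → ℂ) (η : ℂ) (k : ℤ) : ℂ :=
  if k = 0 then η else
    ((starRingEnd ℂ) (d (-k)) - (r : ℂ) ^ (2 * k) * c (-k)) / (1 - (r : ℂ) ^ (2 * k))

/-- The series `h(z) = ∑_k h_k z^k`. -/
noncomputable def h (r : ℝ) (c d : ℤ → ℂ) (η : ℂ) (z : ℂ) : ℂ :=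
  ∑' k : ℤ, hcoef r c d η k * z ^ k

/-- Two-sided type: `f(z) = κ (r/z)^p ∏_j factor(a_j, z)` with `|κ| = 1`, zeros `a_j` in the
annulus and `∏ |a_j| = r^p`, and for some nonzero `Q` and some `η`, with `d` the Laurent
coefficients of `f² Q`, one has `f h ≥ 0` on `|z| = 1` and `f (Q - h) ≥ 0` on `|z| = r`. -/
def TwoSidedType (r : ℝ) (N : ℕ) (f : ℂ → ℂ) : Prop :=
  ∃ (κ : ℂ) (p : ℤ) (n : ℕ) (a : Fin n → ℂ) (c d : ℤ → ℂ) (η : ℂ),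
    ‖κ‖ = 1 ∧ (∀ j, a j ∈ annulus r) ∧ ∏ j, ‖a j‖ = r ^ p ∧
    (∀ z ∈ annulus r, f z = aprod r κ p a z) ∧
    (∃ k ∈ I N, c k ≠ 0) ∧ (∀ k ∉ I N, c k = 0) ∧
    IsLaurent r (fun z => f z ^ 2 * Q N c z) d ∧
    (∀ z, ‖z‖ = 1 → aprod r κ p a z * h r c d η z = (‖h r c d η z‖ : ℂ)) ∧
    (∀ z, ‖z‖ = r → aprod r κ p a z * (Q N c z - h r c d η z) = (‖Q N c z - h r c d η z‖ : ℂ))

end Run7.h331.Ext
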