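import Pool.Agent.Run7.h331.ClassB
import Pool.Agent.Run7.h331.Ell2

/-!
The extremal functions `z^k (1+μ z^{-d})^{1/2} (1+μ z^d)^{-1/2}`.
-/

open Filter Topology Set Complex

set_option maxHeartbeats 400000

namespace Run7.h331

noncomputable def sq (w : ℂ) : ℂ := (1 + w) ^ (1 / 2 : ℂ)
noncomputable def isq (w : ℂ) : ℂ := (1 + w) ^ (-1 / 2 : ℂ)

lemma hasSum_binom (a : ℂ) {w : ℂ} (hw : ‖w‖ < 1) :
    HasSum (fun n : ℕ => Ring.choose a n * w ^ n) ((1 + w) ^ a) := by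
  have h := (Complex.one_add_cpow_hasFPowerSeriesOnBall_zero (a := a)).hasSum (y := w) (by
    rw [← ENNReal.ofReal_one, Metric.eball_ofReal]; simpa using hw)
  simp only [zero_add] at h
  refine h.congr_fun (fun n => ?_)
  simp [binomialSeries, mul_comm]

lemma hasSum_sq {w : ℂ} (hw : ‖w‖ < 1) : HasSum (fun n : ℕ => (bA n : ℂ) * w ^ n) (sq w) := by
  refine (hasSum_binom (1 / 2) hw).congr_fun (fun n => ?_)
  unfold bA
  rw [Complex.ofReal_choose]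
  push_cast
  rfl

lemma hasSum_isq {w : ℂ} (hw : ‖w‖ < 1) : HasSum (fun n : ℕ => (bB n : ℂ) * w ^ n) (isq w) := by
  refine (hasSum_binom (-1 / 2) hw).congr_fun (fun n => ?_)
  unfold bB
  rw [Complex.ofReal_choose]
  push_cast
  rfl

lemma one_add_ne {w : ℂ} (hw : ‖w‖ < 1) : 1 + w ≠ 0 := by
  intro h
  have : w = -1 := by linear_combination h
  rw [this] at hw
  simp at hw

lemma sq_mul_sq {w : ℂ} (hw : ‖w‖ < 1) : sq w * sq w = 1 + w := by
  unfold sq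
  rw [← Complex.cpow_add _ _ (one_add_ne hw)]
  norm_num

lemma sq_mul_isq {w : ℂ} (hw : ‖w‖ < 1) : sq w * isq w = 1 := by
  unfold sq isq
  rw [← Complex.cpow_add _ _ (one_add_ne hw)]
  norm_num

lemma norm_sq_sq {w : ℂ} (hw : ‖w‖ < 1) : ‖sq w‖ ^ 2 = ‖1 + w‖ := by
  rw [pow_two, ← norm_mul, sq_mul_sq hw]

lemma norm_isq_sq {w : ℂ} (hw : ‖w‖ < 1) : ‖isq w‖ ^ 2 * ‖1 + w‖ = 1 := by
  rw [← norm_sq_sq hw, ← mul_pow, ← norm_mul, mul_comm, sq_mul_isq hw]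
  simp

lemma sq_diff : DifferentiableOn ℂ sq (Metric.ball 0 1) := by
  intro w hw
  have hw' : ‖w‖ < 1 := by simpa using hw
  unfold sq
  refine DifferentiableAt.differentiableWithinAt ?_
  refine DifferentiableAt.cpow (by fun_prop) (by fun_prop) ?_
  exact Complex.mem_slitPlane_of_norm_lt_one hw'

lemma isq_diff : DifferentiableOn ℂ isq (Metric.ball 0 1) := by
  intro w hw
  have hw' : ‖w‖ < 1 := by simpa using hw
  unfold isq
  refine DifferentiableAt.differentiableWithinAt ?_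
  refine DifferentiableAt.cpow (by fun_prop) (by fun_prop) ?_
  exact Complex.mem_slitPlane_of_norm_lt_one hw'

/-- the extremal function -/
noncomputable def fmu (k : ℤ) (d : ℕ) (μ : ℝ) (z : ℂ) : ℂ :=
  z ^ k * (sq (μ * z ^ (-(d : ℤ))) * isq (μ * z ^ (d : ℤ)))

/-- the exponent map -/
def kap (k : ℤ) (d : ℕ) (p : ℕ × ℕ) : ℤ := k - d * p.1 + d * p.2

/-- the Laurent coefficients -/
noncomputable def amu (k : ℤ) (d : ℕ) (μ : ℝ) (l : ℤ) : ℂ :=
  ∑' p : (kap k d ⁻¹' {l}), (bA p.1.1 : ℂ) * bB p.1.2 * (μ : ℂ) ^ (p.1.1 + p.1.2)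

lemma hasSum_fmu (k : ℤ) (d : ℕ) (μ : ℝ) {z : ℂ} (hz : z ≠ 0)
    (h1 : ‖(μ : ℂ) * z ^ (-(d : ℤ))‖ < 1) (h2 : ‖(μ : ℂ) * z ^ (d : ℤ)‖ < 1) :
    HasSum (fun l : ℤ => amu k d μ l * z ^ l) (fmu k d μ z) := by
  have s1 := hasSum_sq h1
  have s2 := hasSum_isq h2
  have s3 := HasSum.mul (f := fun n : ℕ => (bA n : ℂ) * ((μ : ℂ) * z ^ (-(d : ℤ))) ^ n)
    (g := fun n : ℕ => (bB n : ℂ) * ((μ : ℂ) * z ^ (d : ℤ)) ^ n) s1 s2
    (summable_mul_of_summable_norm (f := fun n : ℕ => (bA n : ℂ) * ((μ : ℂ) * z ^ (-(d : ℤ))) ^ n)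
    (g := fun n : ℕ => (bB n : ℂ) * ((μ : ℂ) * z ^ (d : ℤ)) ^ n) s1.summable.norm s2.summable.norm)
  have s4 := s3.mul_left (z ^ k)
  have s5 : HasSum (fun p : ℕ × ℕ => (bA p.1 : ℂ) * bB p.2 * (μ : ℂ) ^ (p.1 + p.2) *
      z ^ (kap k d p)) (fmu k d μ z) := by
    refine s4.congr_fun (fun p => ?_)
    unfold kap
    rw [mul_pow, mul_pow, zpow_add₀ hz, zpow_sub₀ hz, pow_add, ← zpow_natCast (z ^ (-(d : ℤ))),
      ← zpow_natCast (z ^ (d : ℤ)), ← zpow_mul, ← zpow_mul, neg_mul, zpow_neg]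
    ring
  have s6 := s5.tsum_fiberwise (kap k d)
  refine s6.congr_fun (fun l => ?_)
  unfold amu
  rw [← tsum_mul_right]
  refine tsum_congr (fun p => ?_)
  have : kap k d p.1 = l := p.2
  rw [this]

lemma amu_zero {k : ℤ} {d : ℕ} (μ : ℝ) {l : ℤ} (h : ¬ (d : ℤ) ∣ (l - k)) : amu k d μ l = 0 := by
  unfold amu
  have : IsEmpty (kap k d ⁻¹' {l}) := by
    constructor
    rintro ⟨p, hp⟩
    apply h
    have hp' : kap k d p = l := hp
    unfold kap at hp'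
    exact ⟨(p.2 : ℤ) - p.1, by rw [← hp']; ring⟩
  exact tsum_empty

lemma amu_k (k : ℤ) {d : ℕ} (hd : 1 ≤ d) (μ : ℝ) : amu k d μ k = (xF μ : ℂ) := by
  unfold amu xF
  let e : ℕ ≃ (kap k d ⁻¹' {k}) :=
    { toFun := fun n => ⟨(n, n), by
        change kap k d (n, n) = k
        unfold kap; ring⟩
      invFun := fun p => p.1.1
      left_inv := fun n => rfl
      right_inv := fun p => by
        obtain ⟨⟨a, b⟩, hp⟩ := p
        have hp' : kap k d (a, b) = k := hp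
        unfold kap at hp'
        simp only at hp'
        have h1 : (d : ℤ) * a = d * b := by linarith
        have h2 : (a : ℤ) = b := mul_left_cancel₀ (by exact_mod_cast (by omega : d ≠ 0)) h1
        have h3 : a = b := by exact_mod_cast h2
        subst h3
        rfl }
  rw [← e.tsum_eq, Complex.ofReal_tsum]
  refine tsum_congr (fun n => ?_)
  change (bA n : ℂ) * bB n * (μ : ℂ) ^ (n + n) = _
  rw [bB_eq]
  unfold xc eE
  push_cast
  ring

lemma amu_kd (k : ℤ) {d : ℕ} (hd : 1 ≤ d) (μ : ℝ) : amu k d μ (k - d) = (yF μ : ℂ) := by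
  unfold amu yF
  let e : ℕ ≃ (kap k d ⁻¹' {k - (d : ℤ)}) :=
    { toFun := fun n => ⟨(n + 1, n), by
        change kap k d (n + 1, n) = k - d
        unfold kap; push_cast; ring⟩
      invFun := fun p => p.1.2
      left_inv := fun n => rfl
      right_inv := fun p => by
        obtain ⟨⟨a, b⟩, hp⟩ := p
        have hp' : kap k d (a, b) = k - d := hp
        unfold kap at hp'
        simp only at hp'
        have h1 : (d : ℤ) * a = d * (b + 1) := by linarith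
        have h2 : (a : ℤ) = b + 1 := mul_left_cancel₀ (by exact_mod_cast (by omega : d ≠ 0)) h1
        have h3 : a = b + 1 := by exact_mod_cast h2
        subst h3
        rfl }
  rw [← e.tsum_eq, Complex.ofReal_tsum]
  refine tsum_congr (fun n => ?_)
  change (bA (n + 1) : ℂ) * bB n * (μ : ℂ) ^ (n + 1 + n) = _
  have h := bA_rec n
  have h2 : bA (n + 1) * bB n = yc n := by
    rw [bB_eq]
    unfold yc eE
    linear_combination (-2 * bA (n + 1)) * h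
  rw [← h2]
  push_cast
  ring

/-- the inequality behind `|f| ≤ 1` -/
lemma fmu_ineq {r t μ : ℝ} {d : ℕ} (hr : 0 < r) (h1 : r < t) (h2 : t < 1) (h0 : 0 < μ)
    (hμ : μ * (1 + d * r ^ (-(d : ℤ))) ≤ 1) {k : ℤ} (hk : 1 ≤ k) {z : ℂ} (hz : ‖z‖ = t) :
    (t ^ k) ^ 2 * ‖1 + (μ : ℂ) * z ^ (-(d : ℤ))‖ ≤ ‖1 + (μ : ℂ) * z ^ (d : ℤ)‖ := by
  have ht0 : 0 < t := hr.trans h1
  have hz0 : z ≠ 0 := by
    intro h; rw [h, norm_zero] at hz; linarith
  set D := ‖1 + (μ : ℂ) * z ^ (d : ℤ)‖ with hD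
  have htd : t ^ (d : ℤ) ≤ 1 := by
    rw [zpow_natCast]; exact pow_le_one₀ ht0.le h2.le
  have hμ1 : μ ≤ 1 := by
    have : 0 ≤ μ * (d * r ^ (-(d : ℤ))) := by positivity
    nlinarith
  have hDlow : 1 - μ ≤ D := by
    have h3 : ‖(1 : ℂ)‖ - ‖-((μ : ℂ) * z ^ (d : ℤ))‖ ≤ ‖1 - -((μ : ℂ) * z ^ (d : ℤ))‖ :=
      norm_sub_norm_le _ _
    rw [norm_one, norm_neg, sub_neg_eq_add, norm_mul, norm_zpow, hz, Complex.norm_real,
      Real.norm_of_nonneg h0.le] at h3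
    have : μ * t ^ (d : ℤ) ≤ μ := mul_le_of_le_one_right h0.le htd
    linarith
  -- compare with the reflected point
  have hE : ‖1 + (μ : ℂ) * z ^ (-(d : ℤ))‖ ≤ D + μ * (t ^ (-(d : ℤ)) - t ^ (d : ℤ)) := by
    have h4 : D = ‖1 + (μ : ℂ) * (starRingEnd ℂ) z ^ (d : ℤ)‖ := by
      rw [hD, ← Complex.norm_conj]
      simp
    have h5 : (starRingEnd ℂ) z = ((t ^ 2 : ℝ) : ℂ) * z⁻¹ := by
      have h6 : (starRingEnd ℂ) z * z = ((t ^ 2 : ℝ) : ℂ) := by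
        rw [mul_comm, Complex.mul_conj, Complex.normSq_eq_norm_sq, hz]
      rw [← h6, mul_assoc, mul_inv_cancel₀ hz0, mul_one]
    have h7 : (1 : ℂ) + (μ : ℂ) * z ^ (-(d : ℤ)) =
        (1 + (μ : ℂ) * (starRingEnd ℂ) z ^ (d : ℤ)) +
        (μ : ℂ) * ((1 - t ^ (2 * (d : ℤ)) : ℝ) : ℂ) * z ^ (-(d : ℤ)) := by
      rw [h5, mul_zpow, inv_zpow, zpow_neg]
      have h8 : (((t ^ 2 : ℝ) : ℂ)) ^ (d : ℤ) = ((t ^ (2 * (d : ℤ)) : ℝ) : ℂ) := by
        rw [zpow_mul]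
        push_cast
        rfl
      rw [h8]
      push_cast
      ring
    rw [h7, h4]
    refine (norm_add_le _ _).trans ?_
    have h9 : 0 ≤ 1 - t ^ (2 * (d : ℤ)) := by
      rw [zpow_mul]
      have : (t ^ (2:ℤ)) ^ (d:ℤ) ≤ 1 := by
        rw [zpow_natCast]
        apply pow_le_one₀ (by positivity)
        have : t ^ (2:ℤ) = t ^ 2 := by norm_cast
        rw [this]
        exact pow_le_one₀ ht0.le h2.le
      linarith
    rw [norm_mul, norm_mul, norm_zpow, hz, Complex.norm_real, Complex.norm_real,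
      Real.norm_of_nonneg h0.le, Real.norm_of_nonneg h9]
    have h10 : (1 - t ^ (2 * (d : ℤ))) * t ^ (-(d : ℤ)) = t ^ (-(d : ℤ)) - t ^ (d : ℤ) := by
      rw [sub_mul, one_mul, ← zpow_add₀ ht0.ne']
      congr 2
      ring
    rw [mul_assoc, h10]
  have hE2 : t ^ (-(d : ℤ)) - t ^ (d : ℤ) ≤ r ^ (-(d : ℤ)) * (d * (1 - t ^ 2)) := by
    have h11 : t ^ (-(d : ℤ)) - t ^ (d : ℤ) = t ^ (-(d : ℤ)) * (1 - (t ^ 2) ^ d) := by
      rw [mul_sub, mul_one, ← pow_mul, ← zpow_natCast t (2 * d), ← zpow_add₀ ht0.ne']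
      congr 2
      push_cast
      ring
    rw [h11]
    have h12 : 1 - (t ^ 2) ^ d ≤ d * (1 - t ^ 2) := one_sub_pow_le (by positivity) d
    have h13 : t ^ (-(d : ℤ)) ≤ r ^ (-(d : ℤ)) := by
      rw [zpow_neg, zpow_neg, zpow_natCast, zpow_natCast]
      exact inv_anti₀ (by positivity) (pow_le_pow_left₀ hr.le h1.le d)
    have h14 : 0 ≤ 1 - (t ^ 2) ^ d := by
      have : (t ^ 2) ^ d ≤ 1 := pow_le_one₀ (by positivity) (pow_le_one₀ ht0.le h2.le)
      linarith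
    calc t ^ (-(d : ℤ)) * (1 - (t ^ 2) ^ d) ≤ r ^ (-(d : ℤ)) * (1 - (t ^ 2) ^ d) :=
          mul_le_mul_of_nonneg_right h13 h14
      _ ≤ _ := mul_le_mul_of_nonneg_left h12 (by positivity)
  have htk : (t ^ k) ^ 2 ≤ t ^ 2 := by
    have : t ^ k ≤ t := by
      calc t ^ k ≤ t ^ (1:ℤ) := zpow_le_zpow_right_of_le_one₀ ht0 h2.le hk
        _ = t := zpow_one t
    exact pow_le_pow_left₀ (by positivity) this 2
  have ht2 : t ^ 2 ≤ 1 := pow_le_one₀ ht0.le h2.le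
  have hDpos : 0 ≤ D := norm_nonneg _
  set Z := μ * (t ^ (-(d : ℤ)) - t ^ (d : ℤ)) with hZ
  have hZle : Z ≤ (1 - μ) * (1 - t ^ 2) := by
    have h15 : Z ≤ μ * (r ^ (-(d : ℤ)) * (d * (1 - t ^ 2))) :=
      mul_le_mul_of_nonneg_left hE2 h0.le
    have h16 : μ * (d * r ^ (-(d : ℤ))) ≤ 1 - μ := by linarith
    have h17 : 0 ≤ 1 - t ^ 2 := by linarith
    nlinarith
  have hZ0 : 0 ≤ Z := by
    have : t ^ (d : ℤ) ≤ t ^ (-(d : ℤ)) := by
      rw [zpow_neg, zpow_natCast]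
      have h18 : t ^ d ≤ 1 := pow_le_one₀ ht0.le h2.le
      have h19 : 1 ≤ (t ^ d)⁻¹ := (one_le_inv₀ (by positivity)).2 h18
      linarith
    have : 0 ≤ t ^ (-(d : ℤ)) - t ^ (d : ℤ) := by linarith
    positivity
  calc (t ^ k) ^ 2 * ‖1 + (μ : ℂ) * z ^ (-(d : ℤ))‖ ≤ (t ^ k) ^ 2 * (D + Z) :=
        mul_le_mul_of_nonneg_left hE (by positivity)
    _ ≤ t ^ 2 * (D + Z) := mul_le_mul_of_nonneg_right htk (by positivity)
    _ ≤ t ^ 2 * D + Z := by nlinarith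
    _ ≤ D := by nlinarith

/-- the threshold -/
noncomputable def mu0 (r : ℝ) (d : ℕ) : ℝ := (1 + d * r ^ (-(d : ℤ)))⁻¹

lemma mu0_pos {r : ℝ} (hr : 0 < r) (d : ℕ) : 0 < mu0 r d := by
  unfold mu0; positivity

lemma mu0_mul {r μ : ℝ} (hr : 0 < r) {d : ℕ} (h : μ < mu0 r d) :
    μ * (1 + d * r ^ (-(d : ℤ))) ≤ 1 := by
  have h1 : 0 < 1 + d * r ^ (-(d : ℤ)) := by positivity
  have h2 : μ * (1 + d * r ^ (-(d : ℤ))) ≤ mu0 r d * (1 + d * r ^ (-(d : ℤ))) :=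
    mul_le_mul_of_nonneg_right h.le h1.le
  refine h2.trans (le_of_eq ?_)
  unfold mu0
  exact inv_mul_cancel₀ h1.ne'

lemma small_in {r μ : ℝ} (hr : 0 < r) {d : ℕ} (hd : 1 ≤ d) (h0 : 0 < μ)
    (h : μ * (1 + d * r ^ (-(d : ℤ))) ≤ 1) {z : ℂ} (hz : z ∈ annulus r) :
    ‖(μ : ℂ) * z ^ (-(d : ℤ))‖ < 1 ∧ ‖(μ : ℂ) * z ^ (d : ℤ)‖ < 1 := by
  have hz1 : r < ‖z‖ := hz.1
  have hz2 : ‖z‖ < 1 := hz.2
  have hz0 : 0 < ‖z‖ := hr.trans hz1
  have hrd : 0 < r ^ (-(d : ℤ)) := zpow_pos hr _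
  have hd' : (1:ℝ) ≤ d := by exact_mod_cast hd
  have hd0 : d ≠ 0 := by omega
  constructor
  · rw [norm_mul, norm_zpow, Complex.norm_real, Real.norm_of_nonneg h0.le]
    have h3 : ‖z‖ ^ (-(d : ℤ)) < r ^ (-(d : ℤ)) := by
      rw [zpow_neg, zpow_neg, zpow_natCast, zpow_natCast]
      exact inv_strictAnti₀ (by positivity) (pow_lt_pow_left₀ hz1 hr.le hd0)
    have h4 : μ * ‖z‖ ^ (-(d : ℤ)) < μ * r ^ (-(d : ℤ)) := mul_lt_mul_of_pos_left h3 h0
    have h5 : μ * r ^ (-(d : ℤ)) ≤ μ * (d * r ^ (-(d : ℤ))) := by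
      apply mul_le_mul_of_nonneg_left _ h0.le
      nlinarith
    nlinarith
  · rw [norm_mul, norm_zpow, Complex.norm_real, Real.norm_of_nonneg h0.le]
    have h3 : ‖z‖ ^ (d : ℤ) < 1 := by
      rw [zpow_natCast]; exact pow_lt_one₀ hz0.le hz2 hd0
    have h4 : μ ≤ 1 := by nlinarith [mul_pos h0 hrd]
    nlinarith

/-- `f_μ` belongs to the class -/
lemma fmu_isB {r μ : ℝ} (hr : 0 < r) {d : ℕ} (hd : 1 ≤ d) (h0 : 0 < μ)
    (h : μ * (1 + d * r ^ (-(d : ℤ))) ≤ 1) {k : ℤ} (hk : 1 ≤ k) : IsB r (fmu k d μ) := by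
  have hne : ∀ z ∈ annulus r, z ≠ 0 := by
    intro z hz h
    have := hz.1
    rw [h, norm_zero] at this
    linarith
  constructor
  · have hz : ∀ m : ℤ, DifferentiableOn ℂ (fun z : ℂ => z ^ m) (annulus r) := by
      intro m z hz
      exact (differentiableAt_zpow.2 (Or.inl (hne z hz))).differentiableWithinAt
    have h1 : DifferentiableOn ℂ (fun z : ℂ => sq (μ * z ^ (-(d : ℤ)))) (annulus r) := by
      refine sq_diff.comp ((hz _).const_mul _) (fun z hz => ?_)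
      simpa using (small_in hr hd h0 h hz).1
    have h2 : DifferentiableOn ℂ (fun z : ℂ => isq (μ * z ^ (d : ℤ))) (annulus r) := by
      refine isq_diff.comp ((hz _).const_mul _) (fun z hz => ?_)
      simpa using (small_in hr hd h0 h hz).2
    exact (hz k).mul (h1.mul h2)
  · intro z hz
    obtain ⟨h1, h2⟩ := small_in hr hd h0 h hz
    have h3 := fmu_ineq hr hz.1 hz.2 h0 h hk (z := z) rfl
    have h4 : ‖fmu k d μ z‖ ^ 2 ≤ 1 := by
      unfold fmu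
      rw [norm_mul, norm_mul, norm_zpow, mul_pow, mul_pow, norm_sq_sq h1]
      have h5 := norm_isq_sq h2
      have h6 : 0 ≤ ‖isq (↑μ * z ^ (d : ℤ))‖ ^ 2 := by positivity
      calc (‖z‖ ^ k) ^ 2 * (‖1 + (μ : ℂ) * z ^ (-(d : ℤ))‖ * ‖isq (↑μ * z ^ (d : ℤ))‖ ^ 2)
          = ((‖z‖ ^ k) ^ 2 * ‖1 + (μ : ℂ) * z ^ (-(d : ℤ))‖) * ‖isq (↑μ * z ^ (d : ℤ))‖ ^ 2 := by
            ring
        _ ≤ ‖1 + (μ : ℂ) * z ^ (d : ℤ)‖ * ‖isq (↑μ * z ^ (d : ℤ))‖ ^ 2 :=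
            mul_le_mul_of_nonneg_right h3 h6
        _ = 1 := by rw [mul_comm]; exact h5
    exact (sq_le_one_iff₀ (norm_nonneg _)).1 h4

lemma fmu_isLaurent {r μ : ℝ} (hr : 0 < r) {d : ℕ} (hd : 1 ≤ d) (h0 : 0 < μ)
    (h : μ * (1 + d * r ^ (-(d : ℤ))) ≤ 1) (k : ℤ) : IsLaurent r (fmu k d μ) (amu k d μ) := by
  intro z hz
  obtain ⟨h1, h2⟩ := small_in hr hd h0 h hz
  refine hasSum_fmu k d μ ?_ h1 h2
  intro h
  have := hz.1
  rw [h, norm_zero] at this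
  linarith

/-- termwise integration -/
lemma int_gen {a : ℕ → ℂ} (ha : Summable fun k => ‖a k‖) (κ : ℕ → ℤ) {g : ℝ → ℂ}
    (hg : Continuous g) :
    HasSum (fun k => a k * ∫ θ in (0:ℝ)..2 * Real.pi, ex (κ k) θ * g θ)
      (∫ θ in (0:ℝ)..2 * Real.pi, (∑' k, a k * ex (κ k) θ) * g θ) := by
  obtain ⟨C, hC⟩ : ∃ C, ∀ θ ∈ uIcc (0:ℝ) (2 * Real.pi), ‖g θ‖ ≤ C :=
    (isCompact_uIcc.exists_bound_of_continuousOn hg.continuousOn)
  have key : HasSum (fun k => ∫ θ in (0:ℝ)..2 * Real.pi, a k * ex (κ k) θ * g θ)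
      (∫ θ in (0:ℝ)..2 * Real.pi, (∑' k, a k * ex (κ k) θ) * g θ) := by
    refine intervalIntegral.hasSum_integral_of_dominated_convergence
      (fun k _ => ‖a k‖ * C) (fun k => ?_) (fun k => ?_) ?_ ?_ ?_
    · exact (Continuous.mul (continuous_const.mul (ex_continuous _)) hg).aestronglyMeasurable
    · refine Eventually.of_forall (fun θ hθ => ?_)
      rw [norm_mul, norm_mul, norm_ex, mul_one]
      exact mul_le_mul_of_nonneg_left (hC θ (uIoc_subset_uIcc hθ)) (norm_nonneg _)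
    · exact Eventually.of_forall (fun θ _ => ha.mul_right C)
    · exact intervalIntegrable_const
    · refine Eventually.of_forall (fun θ _ => ?_)
      have hs : Summable fun k => a k * ex (κ k) θ := by
        refine Summable.of_norm ?_
        simpa [norm_ex] using ha
      exact hs.hasSum.mul_right (g θ)
  refine key.congr_fun (fun k => ?_)
  rw [← intervalIntegral.integral_const_mul]
  refine intervalIntegral.integral_congr (fun θ _ => ?_)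
  ring

lemma bA_summable_pow {μ : ℝ} (h0 : 0 ≤ μ) (h1 : μ < 1) :
    Summable fun n : ℕ => ‖(bA n : ℂ) * (μ : ℂ) ^ n‖ := by
  refine (hasSum_sq (w := μ) ?_).summable.norm
  rw [Complex.norm_real, Real.norm_of_nonneg h0]
  exact h1

lemma HF_integral {μ : ℝ} (h0 : 0 ≤ μ) (h1 : μ < 1) {d : ℕ} (hd : 1 ≤ d) :
    (2 * Real.pi)⁻¹ * ∫ θ in (0:ℝ)..2 * Real.pi, ‖1 + (μ : ℂ) * ex d θ‖ = HF μ := by
  set a : ℕ → ℂ := fun n => (bA n : ℂ) * (μ : ℂ) ^ n with ha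
  have hs : Summable fun n => ‖a n‖ := bA_summable_pow h0 h1
  set S : ℝ → ℂ := fun θ => ∑' n, a n * ex (d * n) θ with hS
  set S' : ℝ → ℂ := fun θ => ∑' n, a n * ex (-(d * n)) θ with hS'
  have hw : ∀ θ, ‖(μ : ℂ) * ex d θ‖ < 1 := by
    intro θ
    rw [norm_mul, norm_ex, mul_one, Complex.norm_real, Real.norm_of_nonneg h0]
    exact h1
  have hexpow : ∀ (n : ℕ) θ, ex d θ ^ n = ex (d * n) θ := by
    intro n θ
    unfold ex
    rw [← zpow_natCast, ← zpow_mul]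
  have hSsq : ∀ θ, S θ = sq ((μ : ℂ) * ex d θ) := by
    intro θ
    rw [← (hasSum_sq (hw θ)).tsum_eq]
    refine tsum_congr (fun n => ?_)
    rw [ha, mul_pow, hexpow]
    ring
  have hS'conj : ∀ θ, S' θ = (starRingEnd ℂ) (S θ) := by
    intro θ
    rw [hS, hS', Complex.conj_tsum]
    refine tsum_congr (fun n => ?_)
    rw [map_mul, ex_conj]
    congr 1
    simp [ha]
  have hcont : Continuous S' := by
    refine continuous_tsum (fun k => continuous_const.mul (ex_continuous _)) hs (fun k θ => ?_)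
    simp [norm_ex]
  have hnorm : ∀ θ, ((‖1 + (μ : ℂ) * ex d θ‖ : ℝ) : ℂ) = S θ * S' θ := by
    intro θ
    rw [hS'conj, Complex.mul_conj, Complex.normSq_eq_norm_sq, hSsq, norm_sq_sq (hw θ)]
  have hinner : ∀ k : ℕ, (∫ θ in (0:ℝ)..2 * Real.pi, ex (d * k) θ * S' θ) = 2 * Real.pi * a k := by
    intro k
    have h2 := int_gen hs (fun n : ℕ => -((d:ℤ) * n)) (g := ex (d * k)) (ex_continuous _)
    have h3 : (∫ θ in (0:ℝ)..2 * Real.pi, ex (d * k) θ * S' θ) =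
        ∫ θ in (0:ℝ)..2 * Real.pi, (∑' n, a n * ex (-((d:ℤ) * n)) θ) * ex (d * k) θ := by
      refine intervalIntegral.integral_congr (fun θ _ => ?_)
      simp only [hS']
      ring
    rw [h3, ← h2.tsum_eq, tsum_eq_single k]
    · simp only [ex_mul]
      rw [int_ex, if_pos (by ring)]
      ring
    · intro n hn
      simp only [ex_mul]
      rw [int_ex, if_neg, mul_zero]
      intro h4
      apply hn
      have h5 : (d : ℤ) * n = d * k := by linarith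
      have h6 : (n : ℤ) = k := mul_left_cancel₀ (by exact_mod_cast (by omega : d ≠ 0)) h5
      exact_mod_cast h6
  have h4 := int_gen hs (fun n : ℕ => ((d:ℤ) * n)) hcont
  simp only [hinner] at h4
  have h5 : (∫ θ in (0:ℝ)..2 * Real.pi, ((‖1 + (μ : ℂ) * ex d θ‖ : ℝ) : ℂ)) =
      2 * Real.pi * (HF μ : ℂ) := by
    have h6 : (∫ θ in (0:ℝ)..2 * Real.pi, ((‖1 + (μ : ℂ) * ex d θ‖ : ℝ) : ℂ)) =
        ∫ θ in (0:ℝ)..2 * Real.pi, (∑' k, a k * ex ((d:ℤ) * k) θ) * S' θ := by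
      refine intervalIntegral.integral_congr (fun θ _ => ?_)
      exact hnorm θ
    rw [h6, ← h4.tsum_eq]
    unfold HF
    rw [Complex.ofReal_tsum, ← tsum_mul_left]
    refine tsum_congr (fun n => ?_)
    simp only [ha]
    unfold eE
    push_cast
    ring
  rw [intervalIntegral.integral_ofReal] at h5
  have h7 : (∫ θ in (0:ℝ)..2 * Real.pi, ‖1 + (μ : ℂ) * ex d θ‖) = 2 * Real.pi * HF μ := by
    exact_mod_cast h5
  rw [h7]
  have hp : (2 * Real.pi) ≠ 0 := by positivity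
  field_simp

lemma HF_pos {μ : ℝ} (h : |μ| ≤ 1) : 0 < HF μ := by
  unfold HF
  refine (summable_H h).tsum_pos (fun n => ?_) 0 ?_
  · have : 0 ≤ μ ^ (2 * n) := by rw [pow_mul]; positivity
    exact mul_nonneg (eE_nonneg n) this
  · simp [eE, bA_zero]

end Run7.h331
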