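import Pool.Agent.Run7.h331.Expl2
import Pool.Agent.Run7.h331.ExtDefs

/-!
The final form of the theorem on extremal functions.
-/

open Filter Topology Complex Set MeasureTheory

set_option maxHeartbeats 400000

namespace Run7.h331

lemma outer_iff (r : ℝ) (N : ℕ) (f : ℂ → ℂ) : Ext.OuterType r N f ↔ TypeO r N f := Iff.rfl

lemma inner_iff (r : ℝ) (N : ℕ) (f : ℂ → ℂ) : Ext.InnerType r N f ↔ TypeI r N f := Iff.rfl

lemma two_iff (r : ℝ) (N : ℕ) (f : ℂ → ℂ) : Ext.TwoSidedType r N f ↔ TypeE r N f := Iff.rfl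

theorem extremal_iff' {r : ℝ} (hr : 0 < r) (hr1 : r < 1) (N : ℕ) {f : ℂ → ℂ} {a : ℤ → ℂ}
    (hf : IsB r f) (hL : IsLaurent r f a) :
    (fun k : Ext.I N => a k) ∈ frontier (body r (Ext.I N)) ↔
      Ext.OuterType r N f ∨ Ext.InnerType r N f ∨ Ext.TwoSidedType r N f := by
  rw [outer_iff, inner_iff, two_iff]
  have h := extremal_iff hr hr1 N hf hL
  constructor
  · intro h1
    rcases h.1 h1 with h2 | h2 | ⟨c, hc, h2⟩
    · exact Or.inl h2
    · exact Or.inr (Or.inl h2)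
    · exact Or.inr (Or.inr (typeE_of_typeT hr hr1 hc h2))
  · rintro (h2 | h2 | h2)
    · exact h.2 (Or.inl h2)
    · exact h.2 (Or.inr (Or.inl h2))
    · exact h.2 (Or.inr (Or.inr (typeT_of_typeE hr hr1 h2)))

/-- a compact convex body with zero in the interior is the cone over its frontier -/
lemma exists_scale {E : Type*} [NormedAddCommGroup E] [NormedSpace ℝ E] {K : Set E}
    (hK : IsCompact K) (h0 : (0 : E) ∈ interior K) {v : E} (hv : v ∈ K) (hv0 : v ≠ 0) :
    ∃ s : ℝ, 1 ≤ s ∧ s • v ∈ frontier K := by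
  set T : Set ℝ := {s | 0 ≤ s ∧ s • v ∈ K} with hT
  have hcl : IsClosed T := by
    refine (isClosed_Ici).inter ?_
    exact hK.isClosed.preimage (continuous_id.smul continuous_const)
  obtain ⟨C, hC⟩ := hK.isBounded.exists_norm_le
  have hvn : 0 < ‖v‖ := norm_pos_iff.2 hv0
  have hbdd : BddAbove T := by
    refine ⟨C / ‖v‖, fun s hs => ?_⟩
    have h1 := hC _ hs.2
    rw [norm_smul, Real.norm_of_nonneg hs.1] at h1
    rw [le_div_iff₀ hvn]
    exact h1
  have hne : T.Nonempty := ⟨1, zero_le_one, by rwa [one_smul]⟩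
  have hmem : sSup T ∈ T := hcl.csSup_mem hne hbdd
  have h1le : 1 ≤ sSup T := le_csSup hbdd ⟨zero_le_one, by rwa [one_smul]⟩
  refine ⟨sSup T, h1le, ?_⟩
  rw [hK.isClosed.frontier_eq]
  refine ⟨hmem.2, fun hint => ?_⟩
  rw [mem_interior_iff_mem_nhds] at hint
  have hc : Continuous fun s : ℝ => s • v := continuous_id.smul continuous_const
  have h2 : (fun s : ℝ => s • v) ⁻¹' K ∈ 𝓝 (sSup T) := hc.continuousAt.preimage_mem_nhds hint
  have h3 : ∀ᶠ s in 𝓝[>] (sSup T), s • v ∈ K := nhdsWithin_le_nhds h2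
  obtain ⟨s, hs, hs2⟩ := (h3.and self_mem_nhdsWithin).exists
  have h4 : s ∈ T := ⟨by have : sSup T < s := hs2; linarith, hs⟩
  have h5 := le_csSup hbdd h4
  have : sSup T < s := hs2
  linarith

/-- the coefficient body as a cone over the extremal functions -/
theorem body_iff {r : ℝ} (hr : 0 < r) (hr1 : r < 1) (N : ℕ) (v : Ext.I N → ℂ) :
    v ∈ body r (Ext.I N) ↔ ∃ t : ℝ, 0 ≤ t ∧ t ≤ 1 ∧ ∃ (f : ℂ → ℂ) (a : ℤ → ℂ), IsB r f ∧
      IsLaurent r f a ∧ (Ext.OuterType r N f ∨ Ext.InnerType r N f ∨ Ext.TwoSidedType r N f) ∧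
      ∀ k : Ext.I N, v k = t * a k := by
  have hK := body_isCompact hr hr1 (Ext.I N)
  have h0 := zero_mem_interior hr (Ext.I N)
  have h0N : (0 : ℤ) ∈ Ext.I N := by
    unfold Ext.I
    rw [Finset.mem_Icc]
    omega
  constructor
  · intro hv
    by_cases hv0 : v = 0
    · -- use some frontier point
      have hone : (Pi.single ⟨0, h0N⟩ 1 : Ext.I N → ℂ) ≠ 0 := by
        intro h
        have := congrFun h ⟨0, h0N⟩
        simp at this
      obtain ⟨w, hw, hw0⟩ : ∃ w ∈ body r (Ext.I N), w ≠ 0 := by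
        rw [mem_interior_iff_mem_nhds] at h0
        have hcont : Continuous fun ε : ℝ => (ε • (Pi.single ⟨0, h0N⟩ 1 : Ext.I N → ℂ)) :=
          continuous_id.smul continuous_const
        have h1 : (fun ε : ℝ => (ε • (Pi.single ⟨0, h0N⟩ 1 : Ext.I N → ℂ))) ⁻¹'
            (body r (Ext.I N)) ∈ 𝓝 (0:ℝ) := by
          refine hcont.continuousAt.preimage_mem_nhds ?_
          rw [zero_smul]; exact h0
        have h2 : ∀ᶠ ε : ℝ in 𝓝[>] 0, (ε • (Pi.single ⟨0, h0N⟩ 1 : Ext.I N → ℂ)) ∈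
            body r (Ext.I N) := nhdsWithin_le_nhds h1
        obtain ⟨ε, hε, hε0⟩ := (h2.and self_mem_nhdsWithin).exists
        exact ⟨_, hε, smul_ne_zero (ne_of_gt hε0) hone⟩
      obtain ⟨s, -, hs⟩ := exists_scale hK h0 hw hw0
      obtain ⟨f, a, hf, hL, ha, -⟩ := extremal_unique hr hr1 _ hs
      have hfr : (fun k : Ext.I N => a k) ∈ frontier (body r (Ext.I N)) := by
        rw [← funext ha]; exact hs
      refine ⟨0, le_rfl, zero_le_one, f, a, hf, hL, (extremal_iff' hr hr1 N hf hL).1 hfr,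
        fun k => ?_⟩
      rw [hv0]
      simp
    · obtain ⟨s, hs1, hs⟩ := exists_scale hK h0 hv hv0
      obtain ⟨f, a, hf, hL, ha, -⟩ := extremal_unique hr hr1 _ hs
      have hfr : (fun k : Ext.I N => a k) ∈ frontier (body r (Ext.I N)) := by
        rw [← funext ha]; exact hs
      have hs0 : 0 < s := by linarith
      refine ⟨s⁻¹, by positivity, inv_le_one_of_one_le₀ hs1, f, a, hf, hL,
        (extremal_iff' hr hr1 N hf hL).1 hfr, fun k => ?_⟩
      rw [← ha k, Pi.smul_apply, Complex.real_smul, ← mul_assoc, ← Complex.ofReal_mul,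
        inv_mul_cancel₀ hs0.ne', Complex.ofReal_one, one_mul]
  · rintro ⟨t, ht0, ht1, f, a, hf, hL, -, hv⟩
    have h1 : (fun k : Ext.I N => a k) ∈ body r (Ext.I N) := ⟨f, a, hf, hL, fun k => rfl⟩
    have h2 := (body_convex (r := r) (Ext.I N)) h1 (interior_subset h0) ht0
      (by linarith : (0:ℝ) ≤ 1 - t) (by ring)
    have h3 : t • (fun k : Ext.I N => a k) + (1 - t) • (0 : Ext.I N → ℂ) = v := by
      funext k
      rw [smul_zero, add_zero, Pi.smul_apply, hv k, Complex.real_smul]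
    rwa [h3] at h2

end Run7.h331
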