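import Pool.Agent.Run7.h331.FMu

/-!
The coefficient body for a finite set `S` of indices is semialgebraic iff `|S| ≤ 1`.
-/

open Filter Topology Set Complex

set_option maxHeartbeats 400000

namespace Run7.h331

lemma ne_zero_of_mem {r : ℝ} (hr : 0 < r) {z : ℂ} (hz : z ∈ annulus r) : z ≠ 0 := by
  intro h
  have := hz.1
  rw [h, norm_zero] at this
  linarith

/-- inversion `z ↦ r/z` -/
lemma isB_inv {r : ℝ} (hr : 0 < r) {f : ℂ → ℂ} (hf : IsB r f) : IsB r (fun z => f (r / z)) := by
  have hmap : ∀ z ∈ annulus r, (r : ℂ) / z ∈ annulus r := by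
    intro z hz
    have h0 : 0 < ‖z‖ := hr.trans hz.1
    have h1 : ‖(r : ℂ) / z‖ = r / ‖z‖ := by
      rw [norm_div, Complex.norm_real, Real.norm_of_nonneg hr.le]
    refine ⟨?_, ?_⟩
    · rw [h1, lt_div_iff₀ h0]
      have : ‖z‖ < 1 := hz.2
      nlinarith
    · rw [h1, div_lt_one h0]
      exact hz.1
  refine ⟨?_, fun z hz => hf.2 _ (hmap z hz)⟩
  refine hf.1.comp ?_ hmap
  intro z hz
  exact ((differentiableAt_const _).div differentiableAt_id
    (ne_zero_of_mem hr hz)).differentiableWithinAt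

lemma isLaurent_inv {r : ℝ} (hr : 0 < r) {f : ℂ → ℂ} {a : ℤ → ℂ} (h : IsLaurent r f a) :
    IsLaurent r (fun z => f (r / z)) (fun l => a (-l) * ((r ^ (-l) : ℝ) : ℂ)) := by
  intro z hz
  have h0 : 0 < ‖z‖ := hr.trans hz.1
  have hz0 := ne_zero_of_mem hr hz
  have h1 : ‖(r : ℂ) / z‖ = r / ‖z‖ := by
    rw [norm_div, Complex.norm_real, Real.norm_of_nonneg hr.le]
  have hmem : (r : ℂ) / z ∈ annulus r := by
    refine ⟨?_, ?_⟩
    · rw [h1, lt_div_iff₀ h0]
      have : ‖z‖ < 1 := hz.2
      nlinarith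
    · rw [h1, div_lt_one h0]
      exact hz.1
  have h2 := (Equiv.neg ℤ).hasSum_iff.2 (h _ hmem)
  refine h2.congr_fun (fun l => ?_)
  simp only [Function.comp, Equiv.neg_apply]
  rw [div_zpow, zpow_neg z]
  push_cast
  field_simp

/-- the plane embedded in `ℂ^S` -/
def vec (S : Finset ℤ) (k j : ℤ) (α β : ℝ) (x : Fin 2 → ℝ) : S → ℂ :=
  fun l => ((((if (l : ℤ) = k then α * x 0 else 0) +
    (if (l : ℤ) = j then β * x 1 else 0) : ℝ)) : ℂ)

lemma semialg_plane {S : Finset ℤ} (V : Set (S → ℂ)) (h : IsSemialg (realForm V)) (k j : ℤ)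
    (α β : ℝ) : IsSemialg {x : Fin 2 → ℝ | vec S k j α β x ∈ V} := by
  have h1 := h.preimage (ι := Fin 2) (fun p : S × Bool =>
    if p.2 = true then 0 else
      ((if (p.1 : ℤ) = k then MvPolynomial.C α * MvPolynomial.X 0 else 0) +
      (if (p.1 : ℤ) = j then MvPolynomial.C β * MvPolynomial.X 1 else 0)))
  convert h1 using 1
  ext x
  change vec S k j α β x ∈ V ↔ (fun l : S => (⟨_, _⟩ : ℂ)) ∈ V
  have : vec S k j α β x = (fun l : S => (⟨MvPolynomial.eval x
      (if (false = true) then 0 else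
      ((if (l : ℤ) = k then MvPolynomial.C α * MvPolynomial.X 0 else 0) +
      (if (l : ℤ) = j then MvPolynomial.C β * MvPolynomial.X 1 else 0))),
      MvPolynomial.eval x (if (true = true) then 0 else
      ((if (l : ℤ) = k then MvPolynomial.C α * MvPolynomial.X 0 else 0) +
      (if (l : ℤ) = j then MvPolynomial.C β * MvPolynomial.X 1 else 0)))⟩ : ℂ)) := by
    funext l
    apply Complex.ext
    · simp only [vec, Complex.ofReal_re]
      simp only [Bool.false_eq_true, if_false, map_add]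
      congr 1
      · split_ifs <;> simp
      · split_ifs <;> simp
    · simp [vec]
  rw [this]

lemma sum_two {S : Finset ℤ} {k j : ℤ} (hk : k ∈ S) (hj : j ∈ S) (u : ℂ) (g : ℤ → ℂ) :
    ∑ l ∈ S, ((if l = k then 1 else 0) + (if l = j then u else 0)) * g l = g k + u * g j := by
  simp only [add_mul, Finset.sum_add_distrib, ite_mul, one_mul, zero_mul]
  rw [Finset.sum_ite_eq' S k, Finset.sum_ite_eq' S j, if_pos hk, if_pos hj]

lemma norm_ex_add (k j : ℤ) (μ : ℝ) (θ : ℝ) :
    ‖ex (-k) θ + (μ : ℂ) * ex (-j) θ‖ = ‖1 + (μ : ℂ) * ex (k - j) θ‖ := by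
  have : ex (-k) θ + (μ : ℂ) * ex (-j) θ = ex (-k) θ * (1 + (μ : ℂ) * ex (k - j) θ) := by
    rw [mul_add, mul_one, mul_left_comm, ex_mul]
    congr 3
    ring
  rw [this, norm_mul, norm_ex, one_mul]

lemma HF_eq {μ : ℝ} (h0 : 0 ≤ μ) (h1 : μ < 1) {k j : ℤ} (hkj : j < k) :
    (2 * Real.pi)⁻¹ * ∫ θ in (0:ℝ)..2 * Real.pi, ‖ex (-k) θ + (μ : ℂ) * ex (-j) θ‖ = HF μ := by
  obtain ⟨d, hd⟩ : ∃ d : ℕ, k - j = d := Int.eq_ofNat_of_zero_le (by omega)
  rw [← HF_integral h0 h1 (d := d) (by omega)]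
  congr 1
  refine intervalIntegral.integral_congr (fun θ _ => ?_)
  simp only [norm_ex_add, hd]

lemma HF_eq' {μ : ℝ} (h0 : 0 ≤ μ) (h1 : μ < 1) {k j : ℤ} (hkj : j < k) :
    (2 * Real.pi)⁻¹ * ∫ θ in (0:ℝ)..2 * Real.pi, ‖ex (-j) θ + (μ : ℂ) * ex (-k) θ‖ = HF μ := by
  rw [← HF_eq h0 h1 (k := -j) (j := -k) (by omega)]
  congr 1
  refine intervalIntegral.integral_congr (fun θ _ => ?_)
  change ‖ex (-j) θ + (μ : ℂ) * ex (-k) θ‖ = ‖ex (- -j) θ + (μ : ℂ) * ex (- -k) θ‖
  rw [← Complex.norm_conj]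
  simp only [map_add, map_mul, ex_conj, Complex.conj_ofReal]

/-- the hard direction -/
theorem not_semialg_body {r : ℝ} (hr : 0 < r) (hr1 : r < 1) {S : Finset ℤ} (hS : 2 ≤ S.card) :
    ¬ IsSemialg (realForm (body r S)) := by
  intro hsem
  have hne : S.Nonempty := Finset.card_pos.1 (by omega)
  set k := S.max' hne with hk
  set j := S.min' hne with hj
  have hkS : k ∈ S := S.max'_mem hne
  have hjS : j ∈ S := S.min'_mem hne
  have hjk : j < k := by
    obtain ⟨a, ha, b, hb, hab⟩ := Finset.one_lt_card.1 (by omega : 1 < S.card)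
    have h1 := S.min'_le a ha
    have h2 := S.le_max' a ha
    have h3 := S.min'_le b hb
    have h4 := S.le_max' b hb
    rcases lt_or_gt_of_ne hab with h | h <;> omega
  obtain ⟨d, hd⟩ : ∃ d : ℕ, k - j = d := Int.eq_ofNat_of_zero_le (by omega)
  have hd1 : 1 ≤ d := by omega
  have hμ1 : ∀ μ, 0 < μ → μ < mu0 r d → μ < 1 := by
    intro μ h0 h
    have h1 := mu0_mul hr h
    have h2 : 0 < μ * (d * r ^ (-(d : ℤ))) := by
      have : (0:ℝ) < d := by exact_mod_cast hd1
      positivity
    nlinarith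
  rcases le_or_gt 1 k with hk1 | hk1
  · -- outer circle
    have hT := semialg_plane (body r S) hsem k j 1 1
    refine not_semialg (mu0_pos hr d) ?_ ?_ hT
    · intro μ h0 h
      have h1 := mu0_mul hr h
      refine ⟨fmu k d μ, amu k d μ, fmu_isB hr hd1 h0 h1 hk1, fmu_isLaurent hr hd1 h0 h1 k, ?_⟩
      intro l
      simp only [vec, Matrix.cons_val_zero, Matrix.cons_val_one, one_mul]
      by_cases hlk : (l : ℤ) = k
      · rw [if_pos hlk, if_neg (by omega), hlk, amu_k k hd1, add_zero]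
      · by_cases hlj : (l : ℤ) = j
        · have : (l : ℤ) = k - d := by omega
          rw [if_neg hlk, if_pos hlj, this, amu_kd k hd1, zero_add]
        · rw [if_neg hlk, if_neg hlj, amu_zero]
          · simp
          · intro hdvd
            have h2 := S.min'_le l l.2
            have h3 := S.le_max' l l.2
            have h4 : (0:ℤ) < k - l := by omega
            have h5 : (d : ℤ) ∣ (k - l) := by
              have := (dvd_neg.2 hdvd)
              rwa [neg_sub] at this
            have h6 := Int.le_of_dvd h4 h5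
            omega
    · intro μ h0 h t ht hmem
      obtain ⟨f, a, hB, hL, hv⟩ := hmem
      have hak : a k = ((t * xF μ : ℝ) : ℂ) := by
        rw [← hv ⟨k, hkS⟩]
        simp [vec, hjk.ne']
      have haj : a j = ((t * yF μ : ℝ) : ℂ) := by
        rw [← hv ⟨j, hjS⟩]
        simp [vec, hjk.ne]
      have hb := pair_outer hr.le hr1 hB hL S
        (fun l => (if l = k then 1 else 0) + (if l = j then (μ : ℂ) else 0))
      rw [sum_two hkS hjS] at hb
      have htp : ∀ θ, tp S (fun l => (if l = k then 1 else 0) + (if l = j then (μ : ℂ) else 0)) θ =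
          ex (-k) θ + (μ : ℂ) * ex (-j) θ := by
        intro θ
        unfold tp
        exact sum_two hkS hjS (μ : ℂ) (fun l => ex (-l) θ)
      simp only [htp] at hb
      rw [HF_eq h0.le (hμ1 μ h0 h) hjk, hak, haj] at hb
      have hc : ((t * xF μ : ℝ) : ℂ) + (μ : ℂ) * ((t * yF μ : ℝ) : ℂ) =
          ((t * (xF μ + μ * yF μ) : ℝ) : ℂ) := by
        push_cast; ring
      have ha : |μ| ≤ 1 := by rw [abs_of_pos h0]; exact (hμ1 μ h0 h).le
      rw [hc, x_add_y ha, Complex.norm_real, Real.norm_of_nonneg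
        (mul_nonneg (by linarith) (HF_pos ha).le)] at hb
      have := HF_pos ha
      nlinarith
  · -- inner circle
    have hT := semialg_plane (body r S) hsem j k (r ^ (-j)) (r ^ (-k))
    refine not_semialg (mu0_pos hr d) ?_ ?_ hT
    · intro μ h0 h
      have h1 := mu0_mul hr h
      refine ⟨_, _, isB_inv hr (fmu_isB (k := -j) hr hd1 h0 h1 (by omega)),
        isLaurent_inv hr (fmu_isLaurent hr hd1 h0 h1 (-j)), ?_⟩
      intro l
      simp only [vec, Matrix.cons_val_zero, Matrix.cons_val_one]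
      by_cases hlj : (l : ℤ) = j
      · rw [if_pos hlj, if_neg (by omega), hlj, amu_k (-j) hd1, add_zero]
        push_cast
        ring
      · by_cases hlk : (l : ℤ) = k
        · have : -(l : ℤ) = -j - d := by omega
          rw [if_neg hlj, if_pos hlk, this, amu_kd (-j) hd1, zero_add]
          have h2 : -j - (d : ℤ) = -k := by omega
          rw [h2]
          push_cast
          ring
        · rw [if_neg hlj, if_neg hlk, amu_zero]
          · simp
          · intro hdvd
            have h2 := S.min'_le l l.2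
            have h3 := S.le_max' l l.2
            have h4 : (0:ℤ) < l - j := by omega
            have h5 : (d : ℤ) ∣ (l - j) := by
              have := (dvd_neg.2 hdvd)
              have e : -(-(l:ℤ) - -j) = l - j := by ring
              rwa [e] at this
            have h6 := Int.le_of_dvd h4 h5
            omega
    · intro μ h0 h t ht hmem
      obtain ⟨f, a, hB, hL, hv⟩ := hmem
      have haj : a j = ((r ^ (-j) * (t * xF μ) : ℝ) : ℂ) := by
        rw [← hv ⟨j, hjS⟩]
        simp [vec, hjk.ne]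
      have hak : a k = ((r ^ (-k) * (t * yF μ) : ℝ) : ℂ) := by
        rw [← hv ⟨k, hkS⟩]
        simp [vec, hjk.ne']
      have hb := pair_inner hr hr1 hB hL S
        (fun l => (if l = j then 1 else 0) + (if l = k then (μ : ℂ) else 0))
      rw [sum_two hjS hkS] at hb
      have htp : ∀ θ, tp S (fun l => (if l = j then 1 else 0) + (if l = k then (μ : ℂ) else 0)) θ =
          ex (-j) θ + (μ : ℂ) * ex (-k) θ := by
        intro θ
        unfold tp
        exact sum_two hjS hkS (μ : ℂ) (fun l => ex (-l) θ)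
      simp only [htp] at hb
      have hrj : r ^ (-j) * r ^ j = 1 := by
        rw [← zpow_add₀ hr.ne']; simp
      have hrk : r ^ (-k) * r ^ k = 1 := by
        rw [← zpow_add₀ hr.ne']; simp
      rw [HF_eq' h0.le (hμ1 μ h0 h) hjk, hak, haj] at hb
      have hc : ((r ^ (-j) * (t * xF μ) : ℝ) : ℂ) * ((r ^ j : ℝ) : ℂ) +
          (μ : ℂ) * (((r ^ (-k) * (t * yF μ) : ℝ) : ℂ) * ((r ^ k : ℝ) : ℂ)) =
          ((t * (xF μ + μ * yF μ) : ℝ) : ℂ) := by
        have e1 : (r ^ (-j) * (t * xF μ)) * r ^ j + μ * ((r ^ (-k) * (t * yF μ)) * r ^ k) =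
            t * (xF μ + μ * yF μ) := by
          linear_combination (t * xF μ) * hrj + (μ * (t * yF μ)) * hrk
        exact_mod_cast e1
      have ha : |μ| ≤ 1 := by rw [abs_of_pos h0]; exact (hμ1 μ h0 h).le
      rw [hc, x_add_y ha, Complex.norm_real, Real.norm_of_nonneg
        (mul_nonneg (by linarith) (HF_pos ha).le)] at hb
      have := HF_pos ha
      nlinarith

/-- monomials -/
lemma monomial_mem {r : ℝ} (hr : 0 < r) (k : ℤ) (c : ℂ) (h1 : ‖c‖ ≤ 1)
    (h2 : ‖c‖ * r ^ k ≤ 1) : IsB r (fun z => c * z ^ k) ∧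
      IsLaurent r (fun z => c * z ^ k) (fun l => if l = k then c else 0) := by
  refine ⟨⟨?_, ?_⟩, ?_⟩
  · intro z hz
    exact ((differentiableAt_zpow.2 (Or.inl (ne_zero_of_mem hr hz))).const_mul
      c).differentiableWithinAt
  · intro z hz
    have hz0 : 0 < ‖z‖ := hr.trans hz.1
    rw [norm_mul, norm_zpow]
    rcases le_total 0 k with hk | hk
    · have : ‖z‖ ^ k ≤ 1 := zpow_le_one₀ hz0 hz.2.le hk
      nlinarith [norm_nonneg c, zpow_nonneg hz0.le k]
    · have : ‖z‖ ^ k ≤ r ^ k := by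
        obtain ⟨m, rfl⟩ : ∃ m : ℤ, k = -m := ⟨-k, by ring⟩
        rw [zpow_neg, zpow_neg]
        exact inv_anti₀ (zpow_pos hr m) (zpow_le_zpow_left₀ (by omega) hr.le hz.1.le)
      nlinarith [norm_nonneg c, zpow_nonneg hz0.le k]
  · intro z hz
    have := hasSum_single (f := fun l : ℤ => (if l = k then c else 0) * z ^ l) k (by
      intro b hb
      simp [hb])
    simpa using this

theorem semialg_card_le_one {r : ℝ} (hr : 0 < r) (hr1 : r < 1) {S : Finset ℤ}
    (hS : S.card ≤ 1) : IsSemialg (realForm (body r S)) := by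
  rcases Nat.lt_or_ge S.card 1 with h | h
  · have hS0 : S = ∅ := Finset.card_eq_zero.1 (by omega)
    subst hS0
    have : realForm (body r (∅ : Finset ℤ)) = Set.univ := by
      refine Set.eq_univ_of_forall (fun x => ?_)
      refine ⟨fun _ => 0, fun _ => 0, ⟨differentiableOn_const _, fun z _ => by simp⟩, ?_, ?_⟩
      · intro z _
        simp
      · intro k
        exact absurd k.2 (Finset.notMem_empty _)
    rw [this]
    exact IsSemialg.univ
  · obtain ⟨k, rfl⟩ := Finset.card_eq_one.1 (by omega : S.card = 1)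
    let K : ({k} : Finset ℤ) := ⟨k, by simp⟩
    have : realForm (body r ({k} : Finset ℤ)) =
        {x | 0 < MvPolynomial.eval x (MvPolynomial.X (K, false) ^ 2 +
          MvPolynomial.X (K, true) ^ 2 - 1 : MvPolynomial (({k} : Finset ℤ) × Bool) ℝ)}ᶜ ∩
        {x | 0 < MvPolynomial.eval x (MvPolynomial.C ((r ^ k) ^ 2) *
          (MvPolynomial.X (K, false) ^ 2 +
          MvPolynomial.X (K, true) ^ 2) - 1 : MvPolynomial (({k} : Finset ℤ) × Bool) ℝ)}ᶜ := by
      ext x
      have hnorm : ‖(⟨x (K, false), x (K, true)⟩ : ℂ)‖ ^ 2 = x (K, false) ^ 2 + x (K, true) ^ 2 := by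
        rw [← Complex.normSq_eq_norm_sq, Complex.normSq_mk]
        ring
      have hrk : 0 < r ^ k := zpow_pos hr k
      have hR : (x ∈ {x | 0 < MvPolynomial.eval x (MvPolynomial.X (K, false) ^ 2 +
          MvPolynomial.X (K, true) ^ 2 - 1 : MvPolynomial (({k} : Finset ℤ) × Bool) ℝ)}ᶜ ∩
        {x | 0 < MvPolynomial.eval x (MvPolynomial.C ((r ^ k) ^ 2) *
          (MvPolynomial.X (K, false) ^ 2 +
          MvPolynomial.X (K, true) ^ 2) - 1 : MvPolynomial (({k} : Finset ℤ) × Bool) ℝ)}ᶜ) ↔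
          (‖(⟨x (K, false), x (K, true)⟩ : ℂ)‖ ≤ 1 ∧
            ‖(⟨x (K, false), x (K, true)⟩ : ℂ)‖ * r ^ k ≤ 1) := by
        change (¬ (0 < MvPolynomial.eval x _) ∧ ¬ (0 < MvPolynomial.eval x _)) ↔ _
        simp only [map_sub, map_add, map_pow, map_mul, MvPolynomial.eval_X, MvPolynomial.eval_C,
          map_one, not_lt, ← hnorm]
        set N := ‖(⟨x (K, false), x (K, true)⟩ : ℂ)‖ with hN
        have hN0 : 0 ≤ N := norm_nonneg _
        constructor
        · rintro ⟨h1, h2⟩
          refine ⟨by nlinarith, ?_⟩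
          have h3 : (N * r ^ k) ^ 2 ≤ 1 := by
            rw [mul_pow]; linarith
          exact (sq_le_one_iff₀ (by positivity)).1 h3
        · rintro ⟨h1, h2⟩
          refine ⟨by nlinarith, ?_⟩
          have h3 : (N * r ^ k) ^ 2 ≤ 1 := (sq_le_one_iff₀ (by positivity)).2 h2
          rw [mul_pow] at h3
          linarith
      rw [hR]
      constructor
      · rintro ⟨f, a, hB, hL, hv⟩
        have := hv K
        change (⟨x (K, false), x (K, true)⟩ : ℂ) = a k at this
        rw [this]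
        exact ⟨coef_le_one hr.le hr1 hB hL k, coef_le_inner hr hr1 hB hL k⟩
      · rintro ⟨h1, h2⟩
        obtain ⟨h3, h4⟩ := monomial_mem hr k _ h1 h2
        refine ⟨_, _, h3, h4, ?_⟩
        intro l
        have hl : l = K := Subtype.ext (Finset.mem_singleton.1 l.2)
        subst hl
        simp [K]
    rw [this]
    exact IsSemialg.inter (IsSemialg.compl (IsSemialg.pos _)) (IsSemialg.compl (IsSemialg.pos _))

theorem semialg_iff {r : ℝ} (hr : 0 < r) (hr1 : r < 1) (S : Finset ℤ) :
    IsSemialg (realForm (body r S)) ↔ S.card ≤ 1 := by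
  constructor
  · intro h
    by_contra hc
    exact not_semialg_body hr hr1 (by omega) h
  · exact semialg_card_le_one hr hr1

end Run7.h331
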