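import Pool.Agent.Run7.h331.OneSide
import Pool.Agent.Run7.h331.SemiMain

/-!
The coefficient body is a compact convex set with interior; its frontier is described by
supporting functionals.
-/

open Filter Topology Complex Set

set_option maxHeartbeats 400000

namespace Run7.h331

/-- coefficient sequences of the class -/
def KB (r : ℝ) : Set (ℤ → ℂ) :=
  {a | CB r a ∧ ∀ z ∈ annulus r, ‖LS a z‖ ≤ 1}

lemma CB.hasL {r : ℝ} (hr : 0 < r) {a : ℤ → ℂ} (h : CB r a) : HasL r 1 (LS a) a := by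
  have h1 := m_hasL hr (m := fun k => a (-k)) zero_le_one (fun k => ⟨h.one _, by
    have h2 := h.inner (-k)
    have h3 : r ^ (-k) * r ^ k = 1 := by rw [← zpow_add₀ hr.ne']; simp
    have h4 : 0 < r ^ k := zpow_pos hr k
    have h5 := mul_le_mul_of_nonneg_right h2 h4.le
    rwa [mul_assoc, h3, mul_one] at h5⟩)
  simpa only [neg_neg] using h1

lemma mem_body_iff {r : ℝ} (hr : 0 < r) (hr1 : r < 1) (S : Finset ℤ) (v : S → ℂ) :
    v ∈ body r S ↔ ∃ a ∈ KB r, ∀ k : S, v k = a k := by
  constructor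
  · rintro ⟨f, a, hf, hL, hv⟩
    refine ⟨a, ⟨cb_of hr hr1 hf hL, fun z hz => ?_⟩, hv⟩
    have : LS a z = f z := (hL z hz).tsum_eq
    rw [this]
    exact hf.2 z hz
  · rintro ⟨a, ⟨h1, h2⟩, hv⟩
    exact ⟨LS a, a, ⟨(h1.hasL hr).differentiableOn hr.le, h2⟩, h1.hasL hr, hv⟩

/-- the box containing the coefficient sequences -/
def box (r : ℝ) : Set (ℤ → ℂ) := Set.pi univ fun k => Metric.closedBall 0 (min 1 (r ^ (-k)))

lemma mem_box {r : ℝ} (hr : 0 < r) (a : ℤ → ℂ) : a ∈ box r ↔ CB r a := by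
  unfold box
  simp only [Set.mem_pi, mem_univ, forall_const, Metric.mem_closedBall, dist_zero_right, le_min_iff]
  have h3 : ∀ k : ℤ, r ^ (-k) * r ^ k = 1 := fun k => by rw [← zpow_add₀ hr.ne']; simp
  constructor
  · intro h
    refine ⟨fun k => (h k).1, fun k => ?_⟩
    have := mul_le_mul_of_nonneg_right (h k).2 (zpow_pos hr k).le
    rwa [h3] at this
  · intro h k
    refine ⟨h.one k, ?_⟩
    have h4 := h.inner k
    have h5 := mul_le_mul_of_nonneg_right h4 (zpow_pos hr (-k)).le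
    rw [mul_assoc, mul_comm (r ^ k), h3, mul_one, one_mul] at h5
    exact h5

lemma box_isCompact (r : ℝ) : IsCompact (box r) :=
  isCompact_univ_pi fun _ => isCompact_closedBall _ _

lemma LS_continuousOn {r : ℝ} (hr : 0 < r) {z : ℂ} (hz : z ∈ annulus r) :
    ContinuousOn (fun a : ℤ → ℂ => LS a z) (box r) := by
  have hz0 : 0 < ‖z‖ := hr.trans hz.1
  have hq2 : r * ‖z‖⁻¹ < 1 := by
    have := mul_lt_mul_of_pos_right hz.1 (inv_pos.2 hz0)
    rwa [mul_inv_cancel₀ hz0.ne'] at this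
  set q := max ‖z‖ (r * ‖z‖⁻¹) with hq
  have hq0 : 0 ≤ q := le_trans (by positivity) (le_max_left _ _)
  have hqlt : q < 1 := max_lt hz.2 hq2
  refine continuousOn_tsum (u := fun k : ℤ => q ^ k.natAbs) (fun k => ?_)
    (summable_natAbs hq0 hqlt) (fun k a ha => ?_)
  · exact ((continuous_apply k).mul continuous_const).continuousOn
  · rw [mem_box hr] at ha
    rw [norm_mul, norm_zpow]
    rcases le_total 0 k with hk | hk
    · have e : ‖z‖ ^ k = ‖z‖ ^ k.natAbs := by
        have : (k.natAbs : ℤ) = k := by omega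
        rw [← zpow_natCast ‖z‖ k.natAbs, this]
      rw [e]
      calc ‖a k‖ * ‖z‖ ^ k.natAbs ≤ 1 * q ^ k.natAbs :=
            mul_le_mul (ha.one k) (pow_le_pow_left₀ hz0.le (le_max_left _ _) _)
              (by positivity) zero_le_one
        _ = q ^ k.natAbs := one_mul _
    · have e : ‖z‖ ^ k = ‖z‖⁻¹ ^ k.natAbs := by
        have : (k.natAbs : ℤ) = -k := by omega
        rw [← zpow_natCast ‖z‖⁻¹ k.natAbs, this, zpow_neg, inv_zpow, inv_inv]
      calc ‖a k‖ * ‖z‖ ^ k ≤ r ^ k.natAbs * ‖z‖ ^ k :=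
            mul_le_mul_of_nonneg_right (ha.neg hr hk) (zpow_nonneg hz0.le k)
        _ = (r * ‖z‖⁻¹) ^ k.natAbs := by rw [e, ← mul_pow]
        _ ≤ q ^ k.natAbs := pow_le_pow_left₀ (by positivity) (le_max_right _ _) _

lemma KB_isCompact {r : ℝ} (hr : 0 < r) : IsCompact (KB r) := by
  have hcl : IsClosed (box r) := (box_isCompact r).isClosed
  have h1 : KB r = box r ∩ ⋂ z ∈ annulus r, (box r ∩ (fun a => LS a z) ⁻¹' Metric.closedBall 0 1) := by
    ext a
    simp only [KB, Set.mem_ofPred_eq, mem_inter_iff, mem_iInter, mem_preimage,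
      Metric.mem_closedBall, dist_zero_right, mem_box hr]
    constructor
    · rintro ⟨h, h'⟩
      exact ⟨h, fun z hz => ⟨h, h' z hz⟩⟩
    · rintro ⟨h, h'⟩
      exact ⟨h, fun z hz => (h' z hz).2⟩
  rw [h1]
  refine IsCompact.of_isClosed_subset (box_isCompact r) ?_ inter_subset_left
  refine hcl.inter (isClosed_biInter fun z hz => ?_)
  exact (LS_continuousOn hr hz).preimage_isClosed_of_isClosed hcl Metric.isClosed_closedBall

lemma body_isCompact {r : ℝ} (hr : 0 < r) (hr1 : r < 1) (S : Finset ℤ) :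
    IsCompact (body r S) := by
  have h1 : body r S = (fun a : ℤ → ℂ => fun k : S => a k) '' KB r := by
    ext v
    rw [mem_body_iff hr hr1]
    constructor
    · rintro ⟨a, ha, h⟩
      exact ⟨a, ha, (funext h).symm⟩
    · rintro ⟨a, ha, rfl⟩
      exact ⟨a, ha, fun k => rfl⟩
  rw [h1]
  refine (KB_isCompact hr).image ?_
  exact continuous_pi fun k => continuous_apply _

lemma body_convex {r : ℝ} (S : Finset ℤ) : Convex ℝ (body r S) := by
  rintro v ⟨f, a, hf, hL, hv⟩ w ⟨g, b, hg, hL', hw⟩ s t hs ht hst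
  refine ⟨fun z => (s : ℂ) * f z + (t : ℂ) * g z, fun k => (s : ℂ) * a k + (t : ℂ) * b k,
    ⟨?_, fun z hz => ?_⟩, ?_, fun k => ?_⟩
  · exact (hf.1.const_mul _).add (hg.1.const_mul _)
  · calc ‖(s : ℂ) * f z + (t : ℂ) * g z‖ ≤ ‖(s : ℂ) * f z‖ + ‖(t : ℂ) * g z‖ := norm_add_le _ _
      _ = s * ‖f z‖ + t * ‖g z‖ := by
          rw [norm_mul, norm_mul, Complex.norm_real, Complex.norm_real, Real.norm_of_nonneg hs,
            Real.norm_of_nonneg ht]
      _ ≤ s * 1 + t * 1 := add_le_add (mul_le_mul_of_nonneg_left (hf.2 z hz) hs)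
          (mul_le_mul_of_nonneg_left (hg.2 z hz) ht)
      _ = 1 := by linarith
  · exact HasL.add (HasL.const_mul _ hL) (HasL.const_mul _ hL')
  · rw [Pi.add_apply, Pi.smul_apply, Pi.smul_apply, hv, hw]
    simp

/-- small vectors belong to the body -/
lemma small_mem {r : ℝ} (hr : 0 < r) (S : Finset ℤ) (v : S → ℂ)
    (hv : ∑ k : S, ‖v k‖ * (1 + r ^ (k : ℤ)) ≤ 1) : v ∈ body r S := by
  classical
  set a : ℤ → ℂ := fun k => if h : k ∈ S then v ⟨k, h⟩ else 0 with ha
  have ha' : ∀ k : S, a k = v k := fun k => by simp [ha]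
  have hL : ∀ z, HasSum (fun k : ℤ => a k * z ^ k) (∑ k ∈ S, a k * z ^ k) := by
    intro z
    refine hasSum_sum_of_ne_finset_zero (fun k hk => ?_)
    simp only [ha, dif_neg hk, zero_mul]
  refine ⟨fun z => ∑ k ∈ S, a k * z ^ k, a, ⟨?_, fun z hz => ?_⟩, fun z _ => hL z,
    fun k => (ha' k).symm⟩
  · refine DifferentiableOn.fun_sum (fun k _ => DifferentiableOn.const_mul ?_ _)
    intro z hz
    exact (differentiableAt_zpow.2 (Or.inl (ne_zero_of_mem hr hz))).differentiableWithinAt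
  · have hz0 : 0 < ‖z‖ := hr.trans hz.1
    have h1 : ∀ k : ℤ, ‖z‖ ^ k ≤ 1 + r ^ k := by
      intro k
      rcases le_total 0 k with hk | hk
      · have : ‖z‖ ^ k ≤ 1 := by
          have := zpow_le_zpow_left₀ hk hz0.le hz.2.le
          rwa [one_zpow] at this
        have h2 := zpow_pos hr k
        linarith
      · have : ‖z‖ ^ k ≤ r ^ k := by
          obtain ⟨m, rfl⟩ : ∃ m : ℤ, k = -m := ⟨-k, by ring⟩
          rw [zpow_neg, zpow_neg]
          exact inv_anti₀ (zpow_pos hr m) (zpow_le_zpow_left₀ (by omega) hr.le hz.1.le)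
        linarith
    calc ‖∑ k ∈ S, a k * z ^ k‖ ≤ ∑ k ∈ S, ‖a k * z ^ k‖ := norm_sum_le _ _
      _ ≤ ∑ k ∈ S, ‖a k‖ * (1 + r ^ k) := by
          refine Finset.sum_le_sum (fun k _ => ?_)
          rw [norm_mul, norm_zpow]
          exact mul_le_mul_of_nonneg_left (h1 k) (norm_nonneg _)
      _ = ∑ k : S, ‖v k‖ * (1 + r ^ (k : ℤ)) := by
          rw [← Finset.sum_coe_sort]
          refine Finset.sum_congr rfl (fun k _ => ?_)
          rw [ha']
      _ ≤ 1 := hv

lemma zero_mem_interior {r : ℝ} (hr : 0 < r) (S : Finset ℤ) :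
    (0 : S → ℂ) ∈ interior (body r S) := by
  rw [mem_interior_iff_mem_nhds]
  have hc : Continuous fun v : S → ℂ => ∑ k : S, ‖v k‖ * (1 + r ^ (k : ℤ)) := by
    refine continuous_finsetSum _ (fun k _ => ?_)
    exact (continuous_apply k).norm.mul continuous_const
  have h0 : (∑ k : S, ‖(0 : S → ℂ) k‖ * (1 + r ^ (k : ℤ))) < 1 := by simp
  have h1 := hc.continuousAt.eventually (gt_mem_nhds h0)
  filter_upwards [h1] with v hv
  exact small_mem hr S v hv.le

/-- the value of the functional -/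
noncomputable def Lc (S : Finset ℤ) (c : ℤ → ℂ) (a : ℤ → ℂ) : ℂ := ∑ k ∈ S, c k * a k

/-- `f` maximises the functional `c` -/
def IsMax (r : ℝ) (S : Finset ℤ) (c a : ℤ → ℂ) : Prop :=
  ∀ (g : ℂ → ℂ) (b : ℤ → ℂ), IsB r g → IsLaurent r g b → (Lc S c b).re ≤ (Lc S c a).re

/-- frontier points are the maximisers of nonzero functionals -/
lemma frontier_iff {r : ℝ} (hr : 0 < r) (hr1 : r < 1) (S : Finset ℤ) {f : ℂ → ℂ} {a : ℤ → ℂ}
    (hf : IsB r f) (hL : IsLaurent r f a) :
    (fun k : S => a k) ∈ frontier (body r S) ↔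
      ∃ c : ℤ → ℂ, (∃ k ∈ S, c k ≠ 0) ∧ IsMax r S c a := by
  classical
  have hmem : (fun k : S => a k) ∈ body r S := ⟨f, a, hf, hL, fun k => rfl⟩
  have hcl : IsClosed (body r S) := (body_isCompact hr hr1 S).isClosed
  rw [hcl.frontier_eq, mem_diff]
  constructor
  · rintro ⟨-, hni⟩
    obtain ⟨φ, hφ⟩ := geometric_hahn_banach_open_point (body_convex S).interior isOpen_interior hni
    have h0 : 0 < φ (fun k : S => a k) := by
      have := hφ 0 (zero_mem_interior hr S)
      rwa [map_zero] at this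
    have hle : ∀ w ∈ body r S, φ w ≤ φ (fun k : S => a k) := by
      intro w hw
      have h1 : w ∈ closure (interior (body r S)) := by
        rw [(body_convex S).closure_interior_eq_closure_of_nonempty_interior
          ⟨0, zero_mem_interior hr S⟩]
        exact subset_closure hw
      have h2 : closure (interior (body r S)) ⊆ {w | φ w ≤ φ (fun k : S => a k)} := by
        refine closure_minimal (fun w hw => (hφ w hw).le) ?_
        exact isClosed_le φ.continuous continuous_const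
      exact h2 h1
    -- the coefficients
    set c : ℤ → ℂ := fun k => if h : k ∈ S then
      ((φ (Pi.single (⟨k, h⟩ : S) 1) : ℝ) : ℂ) - ((φ (Pi.single (⟨k, h⟩ : S) I) : ℝ) : ℂ) * I
      else 0 with hc
    have hrep : ∀ b : ℤ → ℂ, φ (fun k : S => b k) = (Lc S c b).re := by
      intro b
      have h1 : (fun k : S => b k) = ∑ k : S, ((b k).re • (Pi.single k (1 : ℂ) : S → ℂ) +
          (b k).im • (Pi.single k I : S → ℂ)) := by
        ext j
        rw [Finset.sum_apply, Finset.sum_eq_single j]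
        · simp
        · intro i _ hij
          simp [Pi.single_apply, hij.symm]
        · intro h; exact absurd (Finset.mem_univ j) h
      rw [h1, map_sum]
      unfold Lc
      rw [Complex.re_sum, ← Finset.sum_coe_sort S]
      refine Finset.sum_congr rfl (fun k _ => ?_)
      rw [map_add, map_smul, map_smul]
      have hk : c k = ((φ (Pi.single k 1) : ℝ) : ℂ) - ((φ (Pi.single k I) : ℝ) : ℂ) * I := by
        simp [hc]
      rw [hk]
      simp [Complex.mul_re]
      ring
    refine ⟨c, ?_, ?_⟩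
    · by_contra hcon
      push Not at hcon
      rw [hrep a] at h0
      have : Lc S c a = 0 := by
        unfold Lc
        exact Finset.sum_eq_zero (fun k hk => by rw [hcon k hk, zero_mul])
      rw [this] at h0
      simp at h0
    · intro g b hg hb
      rw [← hrep, ← hrep]
      exact hle _ ⟨g, b, hg, hb, fun k => rfl⟩
  · rintro ⟨c, ⟨k0, hk0, hck⟩, hmax⟩
    refine ⟨hmem, fun hint => ?_⟩
    rw [mem_interior_iff_mem_nhds] at hint
    have hcont : Continuous fun ε : ℝ => (fun k : S => a k + (ε : ℂ) * (starRingEnd ℂ) (c k)) :=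
      continuous_pi fun k => continuous_const.add
        (Complex.continuous_ofReal.mul continuous_const)
    have h1 : (fun ε : ℝ => (fun k : S => a k + (ε : ℂ) * (starRingEnd ℂ) (c k))) ⁻¹' (body r S)
        ∈ 𝓝 (0:ℝ) := by
      refine hcont.continuousAt.preimage_mem_nhds ?_
      simpa using hint
    have h2 : ∀ᶠ ε : ℝ in 𝓝[>] 0, (fun k : S => a k + (ε : ℂ) * (starRingEnd ℂ) (c k)) ∈ body r S :=
      nhdsWithin_le_nhds h1
    obtain ⟨ε, hε, hε0⟩ := (h2.and self_mem_nhdsWithin).exists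
    obtain ⟨g, b, hg, hb, hgb⟩ := hε
    have h3 := hmax g b hg hb
    have h4 : Lc S c b = Lc S c a + (ε : ℂ) * ((∑ k ∈ S, ‖c k‖ ^ 2 : ℝ) : ℂ) := by
      unfold Lc
      push_cast
      rw [Finset.mul_sum, ← Finset.sum_add_distrib]
      refine Finset.sum_congr rfl (fun k hk => ?_)
      have h5 : b k = a k + (ε : ℂ) * (starRingEnd ℂ) (c k) := (hgb ⟨k, hk⟩).symm
      rw [h5]
      have h6 : c k * (starRingEnd ℂ) (c k) = (‖c k‖ : ℂ) ^ 2 := Complex.mul_conj' (c k)
      linear_combination (ε : ℂ) * h6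
    rw [h4, ← Complex.ofReal_mul, Complex.add_re, Complex.ofReal_re] at h3
    have h5 : 0 < ∑ k ∈ S, ‖c k‖ ^ 2 := by
      refine Finset.sum_pos' (fun k _ => by positivity) ⟨k0, hk0, ?_⟩
      have := norm_pos_iff.2 hck
      positivity
    have h6 : 0 < ε * ∑ k ∈ S, ‖c k‖ ^ 2 := mul_pos hε0 h5
    linarith

end Run7.h331
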