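import Pool.Agent.Run7.h331.Base

/-!
Laurent series on a ring `s < |z| < t`.
-/

open Complex MeasureTheory Filter Topology Set Metric

set_option maxHeartbeats 400000

namespace Run7.h331

/-- The open ring. -/
def ring (s t : ℝ) : Set ℂ := {z | s < ‖z‖ ∧ ‖z‖ < t}

/-- `a` is a Laurent expansion of `f` on the ring `s < |z| < t`. -/
def HasL (s t : ℝ) (f : ℂ → ℂ) (a : ℤ → ℂ) : Prop :=
  ∀ z ∈ ring s t, HasSum (fun k : ℤ => a k * z ^ k) (f z)

lemma isLaurent_iff {r : ℝ} {f : ℂ → ℂ} {a : ℤ → ℂ} : IsLaurent r f a ↔ HasL r 1 f a := Iff.rfl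

lemma ring_isOpen (s t : ℝ) : IsOpen (ring s t) :=
  (isOpen_lt continuous_const continuous_norm).inter (isOpen_lt continuous_norm continuous_const)

lemma annulus_isOpen (r : ℝ) : IsOpen (annulus r) := ring_isOpen r 1

lemma ring_mono {s t s' t' : ℝ} (h : s' ≤ s) (h' : t ≤ t') : ring s t ⊆ ring s' t' :=
  fun _ hz => ⟨lt_of_le_of_lt h hz.1, lt_of_lt_of_le hz.2 h'⟩

lemma HasL.mono {s t s' t' : ℝ} {f : ℂ → ℂ} {a : ℤ → ℂ} (h : HasL s' t' f a) (h1 : s' ≤ s)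
    (h2 : t ≤ t') : HasL s t f a := fun z hz => h z (ring_mono h1 h2 hz)

lemma norm_circ {ρ : ℝ} (h : 0 ≤ ρ) (θ : ℝ) : ‖(ρ : ℂ) * ex 1 θ‖ = ρ := by
  rw [norm_mul, norm_ex, mul_one, Complex.norm_real, Real.norm_of_nonneg h]

lemma circ_mem {s t ρ : ℝ} (h : 0 ≤ ρ) (h1 : s < ρ) (h2 : ρ < t) (θ : ℝ) :
    (ρ : ℂ) * ex 1 θ ∈ ring s t := by
  refine ⟨?_, ?_⟩ <;> rw [norm_circ h] <;> assumption

lemma circ_zpow (ρ : ℝ) (θ : ℝ) (k : ℤ) :
    ((ρ : ℂ) * ex 1 θ) ^ k = ((ρ ^ k : ℝ) : ℂ) * ex k θ := by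
  rw [mul_zpow]
  unfold ex
  simp

/-- polar form -/
lemma exists_circ (z : ℂ) : ∃ θ : ℝ, z = (‖z‖ : ℂ) * ex 1 θ := by
  refine ⟨z.arg, ?_⟩
  unfold ex
  rw [zpow_one]
  exact (Complex.norm_mul_exp_arg_mul_I z).symm

lemma HasL.summable {s t ρ : ℝ} {f : ℂ → ℂ} {a : ℤ → ℂ} (h : HasL s t f a) (h0 : 0 ≤ ρ)
    (h1 : s < ρ) (h2 : ρ < t) : Summable fun k => ‖a k‖ * ρ ^ k := by
  have h3 := (h _ (circ_mem h0 h1 h2 0)).summable.norm
  refine h3.congr (fun k => ?_)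
  rw [circ_zpow, norm_mul, norm_mul, norm_ex, mul_one, Complex.norm_real,
    Real.norm_of_nonneg (zpow_nonneg h0 k)]

lemma HasL.summable' {s t ρ : ℝ} {f : ℂ → ℂ} {a : ℤ → ℂ} (h : HasL s t f a) (h0 : 0 ≤ ρ)
    (h1 : s < ρ) (h2 : ρ < t) : Summable fun k => ‖a k * ((ρ ^ k : ℝ) : ℂ)‖ := by
  refine (h.summable h0 h1 h2).congr (fun k => ?_)
  rw [norm_mul, Complex.norm_real, Real.norm_of_nonneg (zpow_nonneg h0 k)]

lemma HasL.circle {s t ρ : ℝ} {f : ℂ → ℂ} {a : ℤ → ℂ} (h : HasL s t f a) (h0 : 0 ≤ ρ)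
    (h1 : s < ρ) (h2 : ρ < t) (θ : ℝ) :
    f ((ρ : ℂ) * ex 1 θ) = ts (fun k => a k * ((ρ ^ k : ℝ) : ℂ)) θ := by
  rw [← (h _ (circ_mem h0 h1 h2 θ)).tsum_eq]
  unfold ts
  refine tsum_congr (fun k => ?_)
  rw [circ_zpow]
  ring

lemma HasL.integral {s t ρ : ℝ} {f : ℂ → ℂ} {a : ℤ → ℂ} (h : HasL s t f a) (h0 : 0 ≤ ρ)
    (h1 : s < ρ) (h2 : ρ < t) (n : ℤ) :
    (∫ θ in (0:ℝ)..2 * Real.pi, f ((ρ : ℂ) * ex 1 θ) * ex (-n) θ) =
      2 * Real.pi * (a n * ((ρ ^ n : ℝ) : ℂ)) := by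
  rw [← int_ts_ex (h.summable' h0 h1 h2) n]
  refine intervalIntegral.integral_congr (fun θ _ => ?_)
  simp only [h.circle h0 h1 h2]

lemma two_pi_ne : (2 * Real.pi : ℂ) ≠ 0 := by
  simp [Real.pi_ne_zero]

/-- uniqueness of the coefficients -/
lemma HasL.unique {s t : ℝ} (hs : 0 ≤ s) (hst : s < t) {f g : ℂ → ℂ} {a b : ℤ → ℂ}
    (h : HasL s t f a) (h' : HasL s t g b) (hfg : ∀ z ∈ ring s t, f z = g z) : a = b := by
  obtain ⟨ρ, h1, h2⟩ := exists_between hst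
  have h0 : 0 < ρ := lt_of_le_of_lt hs h1
  funext n
  have e1 := h.integral h0.le h1 h2 n
  have e2 := h'.integral h0.le h1 h2 n
  have e3 : (∫ θ in (0:ℝ)..2 * Real.pi, f ((ρ : ℂ) * ex 1 θ) * ex (-n) θ) =
      ∫ θ in (0:ℝ)..2 * Real.pi, g ((ρ : ℂ) * ex 1 θ) * ex (-n) θ := by
    refine intervalIntegral.integral_congr (fun θ _ => ?_)
    simp only [hfg _ (circ_mem h0.le h1 h2 θ)]
  rw [e1, e2] at e3
  have e4 := mul_left_cancel₀ two_pi_ne e3
  have h5 : ((ρ ^ n : ℝ) : ℂ) ≠ 0 := by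
    exact_mod_cast (zpow_pos h0 n).ne'
  exact mul_right_cancel₀ h5 e4

/-- coefficient bound -/
lemma HasL.norm_le {s t ρ M : ℝ} {f : ℂ → ℂ} {a : ℤ → ℂ} (h : HasL s t f a) (h0 : 0 ≤ ρ)
    (h1 : s < ρ) (h2 : ρ < t) (hM : ∀ z, ‖z‖ = ρ → ‖f z‖ ≤ M) (n : ℤ) :
    ‖a n‖ * ρ ^ n ≤ M := by
  have e1 := h.integral h0 h1 h2 n
  have e2 : ‖∫ θ in (0:ℝ)..2 * Real.pi, f ((ρ : ℂ) * ex 1 θ) * ex (-n) θ‖ ≤
      M * |2 * Real.pi - 0| := by
    refine intervalIntegral.norm_integral_le_of_norm_le_const (fun θ _ => ?_)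
    rw [norm_mul, norm_ex, mul_one]
    exact hM _ (norm_circ h0 θ)
  have hp : 0 < 2 * Real.pi := by positivity
  have h3 : (2 * Real.pi : ℂ) = ((2 * Real.pi : ℝ) : ℂ) := by push_cast; ring
  rw [e1, h3, norm_mul, norm_mul, Complex.norm_real, Complex.norm_real,
    Real.norm_of_nonneg (zpow_nonneg h0 n), Real.norm_of_nonneg hp.le,
    sub_zero, abs_of_pos hp] at e2
  have : 2 * Real.pi * (‖a n‖ * ρ ^ n) ≤ 2 * Real.pi * M := by linarith
  exact le_of_mul_le_mul_left this hp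

/-- sums of Laurent series are holomorphic -/
lemma HasL.differentiableOn {s t : ℝ} (hs : 0 ≤ s) {f : ℂ → ℂ} {a : ℤ → ℂ}
    (h : HasL s t f a) : DifferentiableOn ℂ f (ring s t) := by
  intro z hz
  obtain ⟨s', h1, h1'⟩ := exists_between hz.1
  obtain ⟨t', h2, h2'⟩ := exists_between hz.2
  have hs' : 0 < s' := lt_of_le_of_lt hs h1
  have ht' : 0 < t' := hs'.trans (h1'.trans h2)
  have hd : DifferentiableOn ℂ (fun z => ∑' k : ℤ, a k * z ^ k) (ring s' t') := by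
    refine differentiableOn_tsum_of_summable_norm
      (u := fun k => ‖a k‖ * s' ^ k + ‖a k‖ * t' ^ k) ?_ ?_ (ring_isOpen s' t') ?_
    · exact (h.summable hs'.le h1 (h1'.trans (h2.trans h2'))).add
        (h.summable ht'.le (h1.trans (h1'.trans h2)) h2')
    · intro k
      refine DifferentiableOn.const_mul ?_ _
      intro w hw
      have hw0 : w ≠ 0 := by
        intro h
        have := hw.1
        rw [h, norm_zero] at this
        linarith
      exact (differentiableAt_zpow.2 (Or.inl hw0)).differentiableWithinAt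
    · intro k w hw
      rw [norm_mul, norm_zpow, ← mul_add]
      refine mul_le_mul_of_nonneg_left ?_ (norm_nonneg _)
      have hw0 : 0 < ‖w‖ := hs'.trans hw.1
      rcases le_total 0 k with hk | hk
      · have : ‖w‖ ^ k ≤ t' ^ k := zpow_le_zpow_left₀ hk hw0.le hw.2.le
        have := zpow_nonneg hs'.le k
        linarith
      · have : ‖w‖ ^ k ≤ s' ^ k := by
          obtain ⟨m, rfl⟩ : ∃ m : ℤ, k = -m := ⟨-k, by ring⟩
          rw [zpow_neg, zpow_neg]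
          exact inv_anti₀ (zpow_pos hs' m) (zpow_le_zpow_left₀ (by omega) hs'.le hw.1.le)
        have := zpow_nonneg ht'.le k
        linarith
  have hz' : z ∈ ring s' t' := ⟨h1', h2⟩
  have hev : f =ᶠ[𝓝 z] fun z => ∑' k : ℤ, a k * z ^ k := by
    filter_upwards [(ring_isOpen s' t').mem_nhds hz'] with w hw
    exact (h w (ring_mono h1.le h2'.le hw)).tsum_eq.symm
  exact ((hd.differentiableAt ((ring_isOpen s' t').mem_nhds hz')).congr_of_eventuallyEq
    hev).differentiableWithinAt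

/-- the convolution of two coefficient sequences -/
noncomputable def conv (a b : ℤ → ℂ) (n : ℤ) : ℂ := ∑' j, a j * b (n - j)

/-- product of absolutely convergent two-sided series -/
lemma hasSum_conv {a b : ℤ → ℂ} {z : ℂ} (hz : z ≠ 0) (ha : Summable fun k : ℤ => a k * z ^ k)
    (hb : Summable fun k : ℤ => b k * z ^ k) :
    HasSum (fun n => conv a b n * z ^ n) ((∑' k : ℤ, a k * z ^ k) * ∑' k : ℤ, b k * z ^ k) := by
  have h0 : Summable (fun p : ℤ × ℤ => (a p.1 * z ^ p.1) * (b p.2 * z ^ p.2)) :=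
    summable_mul_of_summable_norm (f := fun k : ℤ => a k * z ^ k)
      (g := fun k : ℤ => b k * z ^ k) ha.norm hb.norm
  have h1 : HasSum (fun p : ℤ × ℤ => (a p.1 * z ^ p.1) * (b p.2 * z ^ p.2))
      ((∑' k : ℤ, a k * z ^ k) * ∑' k : ℤ, b k * z ^ k) :=
    HasSum.mul (f := fun k : ℤ => a k * z ^ k) (g := fun k : ℤ => b k * z ^ k)
      ha.hasSum hb.hasSum h0
  let e : ℤ × ℤ ≃ ℤ × ℤ :=
    { toFun := fun p => (p.2, p.1 - p.2)
      invFun := fun p => (p.1 + p.2, p.1)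
      left_inv := fun p => by ext <;> simp
      right_inv := fun p => by ext <;> simp }
  have h2 := (e.hasSum_iff).2 h1
  have h3 := h2.prod_fiberwise (g := fun n => conv a b n * z ^ n) ?_
  · exact h3
  · intro n
    have h4 : Summable fun j => ((fun p : ℤ × ℤ => (a p.1 * z ^ p.1) * (b p.2 * z ^ p.2)) ∘ e)
        (n, j) := h2.summable.prod_factor n
    have h5 : ∀ j, ((fun p : ℤ × ℤ => (a p.1 * z ^ p.1) * (b p.2 * z ^ p.2)) ∘ e)
        (n, j) = (a j * b (n - j)) * z ^ n := by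
      intro j
      simp only [e, Function.comp, Equiv.coe_fn_mk]
      have : z ^ n = z ^ j * z ^ (n - j) := by
        rw [← zpow_add₀ hz]; congr 1; ring
      rw [this]; ring
    simp only [h5] at h4 ⊢
    have hzn : z ^ n ≠ 0 := zpow_ne_zero n hz
    have h6 : Summable fun j => a j * b (n - j) := by
      refine (h4.mul_right (z ^ n)⁻¹).congr (fun j => ?_)
      rw [mul_assoc, mul_inv_cancel₀ hzn, mul_one]
    exact h6.hasSum.mul_right _

lemma HasL.mul {s t : ℝ} (hs : 0 ≤ s) {f g : ℂ → ℂ} {a b : ℤ → ℂ} (hf : HasL s t f a)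
    (hg : HasL s t g b) : HasL s t (fun z => f z * g z) (conv a b) := by
  intro z hz
  have hz0 : z ≠ 0 := by
    intro h
    have := hz.1
    rw [h, norm_zero] at this
    linarith
  have := hasSum_conv hz0 (hf z hz).summable (hg z hz).summable
  rwa [(hf z hz).tsum_eq, (hg z hz).tsum_eq] at this

lemma HasL.add {s t : ℝ} {f g : ℂ → ℂ} {a b : ℤ → ℂ} (hf : HasL s t f a)
    (hg : HasL s t g b) : HasL s t (fun z => f z + g z) (fun k => a k + b k) := by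
  intro z hz
  refine ((hf z hz).add (hg z hz)).congr_fun ?_
  intro k
  ring

lemma HasL.const_mul {s t : ℝ} {f : ℂ → ℂ} {a : ℤ → ℂ} (c : ℂ) (hf : HasL s t f a) :
    HasL s t (fun z => c * f z) (fun k => c * a k) := by
  intro z hz
  refine ((hf z hz).mul_left c).congr_fun ?_
  intro k
  ring

end Run7.h331
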