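import Pool.Agent.Run7.h331.Count

/-!
Extremal functions of `V_1(r)` with many zeros: preparations.
-/

open Filter Topology Complex Set MeasureTheory

set_option maxHeartbeats 400000

namespace Run7.h331

/-- a criterion for maximisers: extension to the outer circle with positive product -/
lemma isMax_outer {r r' : ℝ} (hr : 0 < r) (hrr' : r < r') (hr1 : r' < 1) {S : Finset ℤ}
    {c : ℤ → ℂ} {f : ℂ → ℂ} {a : ℤ → ℂ} (hf : IsB r f) (hL : IsLaurent r f a) {F : ℂ → ℂ}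
    (hF : AnalyticOnNhd ℂ F (closedAnn r')) (hFf : ∀ z ∈ annulus r', F z = f z)
    (hpos : ∀ z, ‖z‖ = 1 → F z * QL S c z = (‖QL S c z‖ : ℂ)) : IsMax r S c a := by
  have hr' : 0 < r' := hr.trans hrr'
  have hsub : annulus r' ⊆ annulus r := fun z hz => ⟨hrr'.trans hz.1, hz.2⟩
  have hf' : IsB r' f := ⟨hf.1.mono hsub, fun z hz => hf.2 z (hsub hz)⟩
  have hL' : IsLaurent r' f a := fun z hz => hL z (hsub hz)
  have hQ : AnalyticOnNhd ℂ (QL S c) (closedAnn r') := fun z hz =>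
    QL_analyticAt S c (norm_pos_iff.1 (hr'.trans_le hz.1))
  obtain ⟨A, hA, -, -, hA2⟩ := exists_mean hr' hr1 hf' hL' hQ
  obtain ⟨ρ, h1, h2⟩ := exists_between hr1
  have e1 := hA ρ ⟨h1, h2⟩
  rw [Lc_integral hr' S c hL' ⟨h1, h2⟩] at e1
  have e2 := (hA2 F hF hFf).1
  have e3 : (∫ θ in (0:ℝ)..2 * Real.pi, F (((1:ℝ) : ℂ) * ex 1 θ) * QL S c (((1:ℝ) : ℂ) * ex 1 θ)) =
      ((∫ θ in (0:ℝ)..2 * Real.pi, ‖tp S c θ‖ : ℝ) : ℂ) := by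
    rw [← intervalIntegral.integral_ofReal]
    refine intervalIntegral.integral_congr (fun θ _ => ?_)
    beta_reduce
    rw [hpos _ (norm_circ zero_le_one θ)]
    congr 2
    unfold tp QL
    refine Finset.sum_congr rfl (fun k _ => ?_)
    rw [circ_zpow, one_zpow, Complex.ofReal_one, one_mul]
  rw [e3, ← e1] at e2
  have hval : (Lc S c a).re = (2 * Real.pi)⁻¹ * ∫ θ in (0:ℝ)..2 * Real.pi, ‖tp S c θ‖ := by
    have h3 : (2 * Real.pi * Lc S c a : ℂ) = ((2 * Real.pi : ℝ) : ℂ) * Lc S c a := by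
      push_cast; ring
    have h4 := congrArg Complex.re e2
    rw [h3, Complex.re_ofReal_mul, Complex.ofReal_re] at h4
    rw [← h4]
    field_simp
  intro g b hg hb
  rw [hval]
  exact (Complex.re_le_norm _).trans (pair_outer hr.le (hrr'.trans hr1) hg hb S c)

lemma sq_analyticAt {w : ℂ} (hw : ‖w‖ < 1) : AnalyticAt ℂ sq w :=
  (sq_diff.analyticOnNhd Metric.isOpen_ball) w (by simpa using hw)

lemma isq_analyticAt {w : ℂ} (hw : ‖w‖ < 1) : AnalyticAt ℂ isq w :=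
  (isq_diff.analyticOnNhd Metric.isOpen_ball) w (by simpa using hw)

lemma sq_conj' {w : ℂ} (hw : ‖w‖ < 1) : sq ((starRingEnd ℂ) w) = (starRingEnd ℂ) (sq w) := by
  unfold sq
  have h1 : (1 + (starRingEnd ℂ) w) = (starRingEnd ℂ) (1 + w) := by rw [map_add, map_one]
  have harg : (1 + w).arg ≠ Real.pi :=
    Complex.slitPlane_arg_ne_pi (Complex.mem_slitPlane_of_norm_lt_one hw)
  have h2 : (starRingEnd ℂ) (1 / 2 : ℂ) = 1 / 2 := by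
    have : (1 / 2 : ℂ) = ((1 / 2 : ℝ) : ℂ) := by push_cast; ring
    rw [this, Complex.conj_ofReal]
  rw [h1, Complex.conj_cpow _ _ harg, h2]

/-- the limiting extremal function `z (1 + r² z^{-2})^{1/2} (1 + r² z²)^{-1/2}` -/
noncomputable def g0 (r : ℝ) (z : ℂ) : ℂ :=
  z * (sq (((r ^ 2 : ℝ) : ℂ) * (z ^ 2)⁻¹) * isq (((r ^ 2 : ℝ) : ℂ) * z ^ 2))

lemma g0_arg1 {r : ℝ} (hr : 0 < r) {z : ℂ} (hz : r < ‖z‖) :
    ‖((r ^ 2 : ℝ) : ℂ) * (z ^ 2)⁻¹‖ < 1 := by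
  have hz0 : 0 < ‖z‖ := hr.trans hz
  rw [norm_mul, norm_inv, norm_pow, Complex.norm_real, Real.norm_of_nonneg (by positivity),
    ← div_eq_mul_inv, div_lt_one (by positivity)]
  exact pow_lt_pow_left₀ hz hr.le two_ne_zero

lemma g0_arg2 {r : ℝ} (hr : 0 < r) (hr1 : r < 1) {z : ℂ} (hz : ‖z‖ ≤ 1) :
    ‖((r ^ 2 : ℝ) : ℂ) * z ^ 2‖ < 1 := by
  rw [norm_mul, norm_pow, Complex.norm_real, Real.norm_of_nonneg (by positivity)]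
  have h1 : r ^ 2 < 1 := by nlinarith
  have h2 : ‖z‖ ^ 2 ≤ 1 := pow_le_one₀ (norm_nonneg _) hz
  have h3 : 0 < r ^ 2 := by positivity
  nlinarith

lemma g0_analytic {r r' : ℝ} (hr : 0 < r) (hr1 : r < 1) (hrr' : r < r') :
    AnalyticOnNhd ℂ (g0 r) (closedAnn r') := by
  intro z hz
  have hz0 : z ≠ 0 := norm_pos_iff.1 ((hr.trans hrr').trans_le hz.1)
  unfold g0
  refine analyticAt_id.mul (AnalyticAt.mul ?_ ?_)
  · refine AnalyticAt.comp' (sq_analyticAt (g0_arg1 hr (lt_of_lt_of_le hrr' hz.1))) ?_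
    exact analyticAt_const.mul ((analyticAt_id.pow 2).fun_inv (pow_ne_zero 2 hz0))
  · refine AnalyticAt.comp' (isq_analyticAt (g0_arg2 hr hr1 hz.2)) ?_
    exact analyticAt_const.mul (analyticAt_id.pow 2)

lemma g0_sq {r : ℝ} (hr : 0 < r) (hr1 : r < 1) {z : ℂ} (hz : z ∈ annulus r) :
    g0 r z ^ 2 * (1 + ((r ^ 2 : ℝ) : ℂ) * z ^ 2) = z ^ 2 + ((r ^ 2 : ℝ) : ℂ) := by
  have hz0 := ne_zero_of_mem hr hz
  have h1 := sq_mul_sq (g0_arg1 hr hz.1)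
  have h2 := sq_mul_sq (g0_arg2 hr hr1 hz.2.le)
  have h3 := sq_mul_isq (g0_arg2 hr hr1 hz.2.le)
  unfold g0
  set s1 := sq (((r ^ 2 : ℝ) : ℂ) * (z ^ 2)⁻¹)
  set s2 := sq (((r ^ 2 : ℝ) : ℂ) * z ^ 2)
  set i2 := isq (((r ^ 2 : ℝ) : ℂ) * z ^ 2)
  have h4 : (z ^ 2)⁻¹ * z ^ 2 = 1 := inv_mul_cancel₀ (pow_ne_zero 2 hz0)
  calc (z * (s1 * i2)) ^ 2 * (1 + ((r ^ 2 : ℝ) : ℂ) * z ^ 2)
      = z ^ 2 * (s1 * s1) * (i2 ^ 2 * (1 + ((r ^ 2 : ℝ) : ℂ) * z ^ 2)) := by ring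
    _ = z ^ 2 * (1 + ((r ^ 2 : ℝ) : ℂ) * (z ^ 2)⁻¹) * (i2 ^ 2 * (s2 * s2)) := by rw [h1, h2]
    _ = (z ^ 2 + ((r ^ 2 : ℝ) : ℂ) * ((z ^ 2)⁻¹ * z ^ 2)) * (s2 * i2) ^ 2 := by ring
    _ = z ^ 2 + ((r ^ 2 : ℝ) : ℂ) := by rw [h3, h4]; ring

lemma norm_id (s : ℝ) (w : ℂ) :
    ‖1 + (s : ℂ) * w‖ ^ 2 - ‖w + (s : ℂ)‖ ^ 2 = (1 - s ^ 2) * (1 - ‖w‖ ^ 2) := by
  simp only [← Complex.normSq_eq_norm_sq, Complex.normSq_apply]
  simp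
  ring

lemma g0_bound {r : ℝ} (hr : 0 < r) (hr1 : r < 1) {z : ℂ} (hz : z ∈ annulus r) :
    ‖g0 r z‖ ^ 4 ≤ 1 - (1 - r ^ 2) * (1 - ‖z‖ ^ 4) / (1 + r ^ 2) := by
  have h1 := congrArg norm (g0_sq hr hr1 hz)
  rw [norm_mul, norm_pow] at h1
  have h2 := norm_id (r ^ 2) (z ^ 2)
  rw [← h1] at h2
  have h3 : ‖(1 : ℂ) + ((r ^ 2 : ℝ) : ℂ) * z ^ 2‖ ≤ 1 + r ^ 2 := by
    refine (norm_add_le _ _).trans ?_
    rw [norm_one, norm_mul, norm_pow, Complex.norm_real, Real.norm_of_nonneg (by positivity)]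
    have h4 : ‖z‖ ^ 2 ≤ 1 := pow_le_one₀ (norm_nonneg _) hz.2.le
    have h5 : 0 < r ^ 2 := by positivity
    nlinarith
  have h4 : 0 < ‖(1 : ℂ) + ((r ^ 2 : ℝ) : ℂ) * z ^ 2‖ :=
    norm_pos_iff.2 (one_add_ne (g0_arg2 hr hr1 hz.2.le))
  set D := ‖(1 : ℂ) + ((r ^ 2 : ℝ) : ℂ) * z ^ 2‖
  have h5 : ‖z ^ 2‖ ^ 2 = ‖z‖ ^ 4 := by rw [norm_pow]; ring
  rw [h5] at h2
  have hz4 : ‖z‖ ^ 4 ≤ 1 := pow_le_one₀ (norm_nonneg _) hz.2.le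
  have hr2 : r ^ 2 < 1 := by nlinarith
  have h6 : D ^ 2 * (1 - ‖g0 r z‖ ^ 4) = (1 - (r ^ 2) ^ 2) * (1 - ‖z‖ ^ 4) := by
    rw [← h2]; ring
  have h7 : D ^ 2 ≤ (1 + r ^ 2) ^ 2 := pow_le_pow_left₀ h4.le h3 2
  have h8 : 0 ≤ 1 - ‖g0 r z‖ ^ 4 := by
    have h9 : 0 ≤ D ^ 2 * (1 - ‖g0 r z‖ ^ 4) := by
      rw [h6]
      refine mul_nonneg ?_ (by linarith)
      nlinarith
    exact nonneg_of_mul_nonneg_right h9 (by positivity)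
  have h10 : (1 - (r ^ 2) ^ 2) * (1 - ‖z‖ ^ 4) ≤ (1 + r ^ 2) ^ 2 * (1 - ‖g0 r z‖ ^ 4) := by
    rw [← h6]
    exact mul_le_mul_of_nonneg_right h7 h8
  have h11 : (1 - r ^ 2) * (1 - ‖z‖ ^ 4) / (1 + r ^ 2) ≤ 1 - ‖g0 r z‖ ^ 4 := by
    rw [div_le_iff₀ (by positivity)]
    have h12 : 0 < 1 + r ^ 2 := by positivity
    have h13 : (1 + r ^ 2) * ((1 - r ^ 2) * (1 - ‖z‖ ^ 4)) ≤
        (1 + r ^ 2) * ((1 - ‖g0 r z‖ ^ 4) * (1 + r ^ 2)) := by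
      calc _ = (1 - (r ^ 2) ^ 2) * (1 - ‖z‖ ^ 4) := by ring
        _ ≤ _ := h10
        _ = _ := by ring
    exact le_of_mul_le_mul_left h13 h12
  linarith

lemma g0_isB {r : ℝ} (hr : 0 < r) (hr1 : r < 1) : IsB r (g0 r) := by
  refine ⟨fun z hz => ?_, fun z hz => ?_⟩
  · have := g0_analytic (r' := ‖z‖) hr hr1 hz.1 z ⟨le_rfl, hz.2.le⟩
    exact this.differentiableAt.differentiableWithinAt
  · have h1 := g0_bound hr hr1 hz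
    have hz4 : ‖z‖ ^ 4 ≤ 1 := pow_le_one₀ (norm_nonneg _) hz.2.le
    have h2 : 0 ≤ (1 - r ^ 2) * (1 - ‖z‖ ^ 4) / (1 + r ^ 2) := by
      refine div_nonneg (mul_nonneg ?_ (by linarith)) (by positivity)
      nlinarith
    have h3 : ‖g0 r z‖ ^ 4 ≤ 1 := by linarith
    by_contra hcon
    rw [not_le] at hcon
    have := one_lt_pow₀ hcon (n := 4) (by norm_num)
    linarith

/-- the functional `a_1 + μ a_{-1}` -/
noncomputable def c0 (μ : ℝ) (k : ℤ) : ℂ := if k = 1 then 1 else if k = -1 then (μ : ℂ) else 0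

lemma sum_c0 {N : ℕ} (hN : 1 ≤ N) (μ : ℝ) (F : ℤ → ℂ → ℂ) (hF : ∀ k, F k 0 = 0) :
    ∑ k ∈ idx N, F k (c0 μ k) = F 1 1 + F (-1) μ := by
  have h1 : (1 : ℤ) ∈ idx N := by rw [idx, Finset.mem_Icc]; omega
  have h2 : (-1 : ℤ) ∈ idx N := by rw [idx, Finset.mem_Icc]; omega
  have hsub : ({1, -1} : Finset ℤ) ⊆ idx N := by
    intro k hk
    rw [Finset.mem_insert, Finset.mem_singleton] at hk
    rcases hk with rfl | rfl <;> assumption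
  rw [← Finset.sum_subset hsub]
  · rw [Finset.sum_pair (by norm_num)]
    simp [c0]
  · intro k _ hk
    rw [Finset.mem_insert, Finset.mem_singleton] at hk
    push Not at hk
    unfold c0
    rw [if_neg hk.1, if_neg hk.2, hF]

lemma QL_c0 {N : ℕ} (hN : 1 ≤ N) (μ : ℝ) (z : ℂ) :
    QL (idx N) (c0 μ) z = z⁻¹ + μ * z := by
  unfold QL
  rw [sum_c0 hN μ (fun k x => x * z ^ (-k)) (fun k => zero_mul _)]
  simp

lemma QS_c0 {N : ℕ} (hN : 1 ≤ N) (μ : ℝ) (z : ℂ) :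
    QS (idx N) (c0 μ) z = z + μ * z⁻¹ := by
  unfold QS
  rw [sum_c0 hN μ (fun k x => (starRingEnd ℂ) x * z ^ k) (fun k => by simp)]
  simp

lemma QR_c0 {N : ℕ} (hN : 1 ≤ N) {r : ℝ} (μ : ℝ) (z : ℂ) :
    QR r (idx N) (c0 μ) z = ((r : ℂ) ^ 2)⁻¹ * z + μ * (r : ℂ) ^ 2 * z⁻¹ := by
  unfold QR
  rw [sum_c0 hN μ (fun k x => (starRingEnd ℂ) x * (r : ℂ) ^ (-2 * k) * z ^ k)
    (fun k => by simp)]
  have h1 : (r : ℂ) ^ (-2 * 1 : ℤ) = ((r : ℂ) ^ 2)⁻¹ := by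
    rw [mul_one, zpow_neg]; norm_cast
  have h2 : (r : ℂ) ^ (-2 * -1 : ℤ) = (r : ℂ) ^ 2 := by
    norm_num
  rw [h1, h2]
  simp

lemma Lc_c0 {N : ℕ} (hN : 1 ≤ N) (μ : ℝ) (a : ℤ → ℂ) :
    Lc (idx N) (c0 μ) a = a 1 + μ * a (-1) := by
  unfold Lc
  rw [sum_c0 hN μ (fun k x => x * a k) (fun k => zero_mul _)]
  simp

/-- `g0` is the maximiser for `μ = r²` -/
lemma g0_isMax {r : ℝ} (hr : 0 < r) (hr1 : r < 1) {N : ℕ} (hN : 1 ≤ N) {a : ℤ → ℂ}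
    (hL : IsLaurent r (g0 r) a) : IsMax r (idx N) (c0 (r ^ 2)) a := by
  obtain ⟨r', h1, h2⟩ := exists_between hr1
  refine isMax_outer hr h1 h2 (g0_isB hr hr1) hL (g0_analytic hr hr1 h1) (fun z _ => rfl)
    (fun z hz => ?_)
  have hz0 : z ≠ 0 := by rw [← norm_pos_iff, hz]; exact one_pos
  rw [QL_c0 hN]
  have hw2 := g0_arg2 hr hr1 hz.le
  have e1 := sq_mul_sq hw2
  have e2 := sq_mul_isq hw2
  have hconj : ((r ^ 2 : ℝ) : ℂ) * (z ^ 2)⁻¹ = (starRingEnd ℂ) (((r ^ 2 : ℝ) : ℂ) * z ^ 2) := by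
    rw [map_mul, map_pow, Complex.conj_ofReal, conj_inv_of_norm hz one_pos]
    simp
  unfold g0
  rw [hconj, sq_conj' hw2]
  set w := ((r ^ 2 : ℝ) : ℂ) * z ^ 2 with hw
  have e3 : z⁻¹ + ((r ^ 2 : ℝ) : ℂ) * z = z⁻¹ * (1 + w) := by
    rw [hw]; field_simp
  rw [e3, norm_mul, norm_inv, hz, inv_one, one_mul, ← norm_sq_sq hw2]
  push_cast
  have e4 : z * z⁻¹ = 1 := mul_inv_cancel₀ hz0
  have e5 : (starRingEnd ℂ) (sq w) * sq w = (‖sq w‖ : ℂ) ^ 2 := by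
    rw [mul_comm]; exact Complex.mul_conj' _
  calc z * ((starRingEnd ℂ) (sq w) * isq w) * (z⁻¹ * (1 + w))
      = (z * z⁻¹) * ((starRingEnd ℂ) (sq w) * (isq w * (1 + w))) := by ring
    _ = (starRingEnd ℂ) (sq w) * (isq w * (sq w * sq w)) := by rw [e4, one_mul, e1]
    _ = (starRingEnd ℂ) (sq w) * sq w * (sq w * isq w) := by ring
    _ = _ := by rw [e2, mul_one, e5]

end Run7.h331
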