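import Pool.Agent.Run7.h331.Many

/-!
Extremal functions of `V_1(r)` with many zeros.
-/

open Filter Topology Complex Set MeasureTheory

set_option maxHeartbeats 400000

namespace Run7.h331

/-- the maximiser is not of outer type for `r² < μ < 1` -/
lemma not_outer {r μ : ℝ} (hr : 0 < r) (h1 : r ^ 2 < μ) (h2 : μ < 1) {N : ℕ} (hN : 1 ≤ N)
    {f : ℂ → ℂ} (hf : IsB r f)
    (h : ∀ z ∈ annulus r, f z ^ 2 * QL (idx N) (c0 μ) z = QS (idx N) (c0 μ) z) : False := by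
  have hμ : 0 < μ := lt_trans (by positivity) h1
  set t := Real.sqrt μ with ht
  have ht2 : t ^ 2 = μ := Real.sq_sqrt hμ.le
  have ht0 : 0 < t := Real.sqrt_pos.2 hμ
  have hrt : r < t := by
    by_contra hcon
    rw [not_lt] at hcon
    have := pow_le_pow_left₀ ht0.le hcon 2
    linarith
  have ht1 : t < 1 := by
    by_contra hcon
    rw [not_lt] at hcon
    nlinarith
  set z0 : ℂ := (t : ℂ) * I with hz0
  have hn : ‖z0‖ = t := by
    rw [hz0, norm_mul, Complex.norm_I, mul_one, Complex.norm_real, Real.norm_of_nonneg ht0.le]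
  have hmem : z0 ∈ annulus r := ⟨by rw [hn]; exact hrt, by rw [hn]; exact ht1⟩
  have hz0ne := ne_zero_of_mem hr hmem
  have hz0sq : z0 ^ 2 = -(μ : ℂ) := by
    rw [hz0, mul_pow, Complex.I_sq, ← ht2]; push_cast; ring
  -- polynomial form
  have hrel : ∀ z ∈ annulus r, f z ^ 2 * (1 + μ * z ^ 2) = z ^ 2 + μ := by
    intro z hz
    have hz0 := ne_zero_of_mem hr hz
    have h3 := h z hz
    rw [QL_c0 hN, QS_c0 hN] at h3
    have h4 : z * z⁻¹ = 1 := mul_inv_cancel₀ hz0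
    calc f z ^ 2 * (1 + μ * z ^ 2) = z * (f z ^ 2 * (z⁻¹ + μ * z)) + f z ^ 2 * (1 - z * z⁻¹) := by
          ring
      _ = z * (z + μ * z⁻¹) := by rw [h3, h4]; ring
      _ = z ^ 2 + μ * (z * z⁻¹) := by ring
      _ = _ := by rw [h4, mul_one]
  have hfz0 : f z0 = 0 := by
    have h3 := hrel z0 hmem
    rw [hz0sq] at h3
    have h4 : (1 : ℂ) + μ * -(μ : ℂ) ≠ 0 := by
      intro h5
      have h6 : ((1 - μ ^ 2 : ℝ) : ℂ) = 0 := by push_cast; linear_combination h5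
      have h7 : 1 - μ ^ 2 = 0 := by exact_mod_cast h6
      nlinarith
    have h5 : f z0 ^ 2 * (1 + μ * -(μ : ℂ)) = 0 := by rw [h3]; ring
    exact pow_eq_zero_iff (two_ne_zero) |>.1 ((mul_eq_zero.1 h5).resolve_right h4)
  have hfd : HasDerivAt f (deriv f z0) z0 :=
    (hf.1.differentiableAt ((annulus_isOpen r).mem_nhds hmem)).hasDerivAt
  have hd1 : HasDerivAt (fun z => f z ^ 2 * (1 + μ * z ^ 2)) 0 z0 := by
    have h2 : HasDerivAt (fun z : ℂ => z ^ 2) (2 * z0) z0 := by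
      simpa using hasDerivAt_pow 2 z0
    have h3 : HasDerivAt (fun z : ℂ => 1 + (μ : ℂ) * z ^ 2) ((μ : ℂ) * (2 * z0)) z0 :=
      (h2.const_mul (μ : ℂ)).const_add 1
    have h4 : HasDerivAt (fun z : ℂ => f z ^ 2) (2 * f z0 * deriv f z0) z0 := by
      have := hfd.mul hfd
      have e : (fun z : ℂ => f z ^ 2) = fun z => f z * f z := funext fun z => pow_two _
      rw [e]
      exact this.congr_deriv (by ring)
    exact (h4.mul h3).congr_deriv (by rw [hfz0]; ring)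
  have hd2 : HasDerivAt (fun z : ℂ => z ^ 2 + (μ : ℂ)) (2 * z0) z0 := by
    have h2 : HasDerivAt (fun z : ℂ => z ^ 2) (2 * z0) z0 := by
      simpa using hasDerivAt_pow 2 z0
    exact h2.add_const (μ : ℂ)
  have hev : (fun z => f z ^ 2 * (1 + μ * z ^ 2)) =ᶠ[𝓝 z0] fun z : ℂ => z ^ 2 + (μ : ℂ) := by
    filter_upwards [(annulus_isOpen r).mem_nhds hmem] with z hz
    exact hrel z hz
  have h5 := (hd1.congr_of_eventuallyEq hev.symm).unique hd2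
  have h6 : z0 = 0 := by
    have := h5.symm
    simpa using this
  exact hz0ne h6

/-- the maximiser is not of inner type for `μ < 1` -/
lemma not_inner {r μ : ℝ} (hr : 0 < r) (hr1 : r < 1) (h1 : 0 < μ) (h2 : μ < 1) {N : ℕ}
    (hN : 1 ≤ N) {f : ℂ → ℂ} (hf : IsB r f)
    (h : ∀ z ∈ annulus r, f z ^ 2 * QL (idx N) (c0 μ) z = QR r (idx N) (c0 μ) z) : False := by
  have key : ∀ t ∈ Ioo r 1, (r ^ 2)⁻¹ * t + μ * r ^ 2 * t⁻¹ ≤ t⁻¹ + μ * t := by
    intro t ht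
    have ht0 : 0 < t := hr.trans ht.1
    have hn : ‖(t : ℂ)‖ = t := by rw [Complex.norm_real, Real.norm_of_nonneg ht0.le]
    have hmem : (t : ℂ) ∈ annulus r := ⟨by rw [hn]; exact ht.1, by rw [hn]; exact ht.2⟩
    have h3 := h _ hmem
    rw [QL_c0 hN, QR_c0 hN] at h3
    have h4 := congrArg norm h3
    have e1 : ((t : ℂ)⁻¹ + μ * t) = ((t⁻¹ + μ * t : ℝ) : ℂ) := by push_cast; ring
    have e2 : (((r : ℂ) ^ 2)⁻¹ * t + μ * (r : ℂ) ^ 2 * (t : ℂ)⁻¹) =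
        (((r ^ 2)⁻¹ * t + μ * r ^ 2 * t⁻¹ : ℝ) : ℂ) := by push_cast; ring
    rw [e1, e2, norm_mul, norm_pow, Complex.norm_real, Complex.norm_real,
      Real.norm_of_nonneg (by positivity), Real.norm_of_nonneg (by positivity)] at h4
    rw [← h4]
    have h5 : ‖f t‖ ^ 2 ≤ 1 := pow_le_one₀ (norm_nonneg _) (hf.2 _ hmem)
    exact mul_le_of_le_one_left (by positivity) h5
  have hlim1 : Tendsto (fun t : ℝ => (r ^ 2)⁻¹ * t + μ * r ^ 2 * t⁻¹) (𝓝[Ioo r 1] 1)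
      (𝓝 ((r ^ 2)⁻¹ * 1 + μ * r ^ 2 * 1⁻¹)) := by
    refine Tendsto.mono_left ?_ nhdsWithin_le_nhds
    exact (tendsto_id.const_mul _).add ((tendsto_id.inv₀ one_ne_zero).const_mul _)
  have hlim2 : Tendsto (fun t : ℝ => t⁻¹ + μ * t) (𝓝[Ioo r 1] 1) (𝓝 (1⁻¹ + μ * 1)) := by
    refine Tendsto.mono_left ?_ nhdsWithin_le_nhds
    exact (tendsto_id.inv₀ one_ne_zero).add (tendsto_id.const_mul _)
  have hNB := Ioo_neBot_right hr1
  have h3 : (r ^ 2)⁻¹ * 1 + μ * r ^ 2 * 1⁻¹ ≤ 1⁻¹ + μ * 1 := by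
    refine le_of_tendsto_of_tendsto hlim1 hlim2 ?_
    filter_upwards [self_mem_nhdsWithin] with t ht
    exact key t ht
  rw [inv_one, mul_one, mul_one, mul_one] at h3
  have hr2 : r ^ 2 < 1 := by nlinarith
  have hr2p : 0 < r ^ 2 := by positivity
  have h4 : (r ^ 2)⁻¹ * r ^ 2 = 1 := inv_mul_cancel₀ hr2p.ne'
  have h5 : 1 < (r ^ 2)⁻¹ := (one_lt_inv₀ hr2p).2 hr2
  -- (r⁻² - 1) = r⁻² (1 - r²) > 1 - r² ≥ μ (1 - r²)
  nlinarith [mul_pos (sub_pos.2 h2) (sub_pos.2 hr2), mul_pos (sub_pos.2 h5) (sub_pos.2 hr2)]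

/-- existence of maximisers as coefficient sequences -/
lemma exists_maxK {r : ℝ} (hr : 0 < r) (hr1 : r < 1) (S : Finset ℤ) (c : ℤ → ℂ) :
    ∃ a ∈ KB r, ∀ b ∈ KB r, (Lc S c b).re ≤ (Lc S c a).re := by
  have hne : (KB r).Nonempty := by
    obtain ⟨a, ha, -⟩ := (mem_body_iff hr hr1 S 0).1 (interior_subset (zero_mem_interior hr S))
    exact ⟨a, ha⟩
  have hc : Continuous fun a : ℤ → ℂ => (Lc S c a).re := by
    unfold Lc
    refine Complex.continuous_re.comp ?_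
    exact continuous_finsetSum _ (fun k _ => continuous_const.mul (continuous_apply k))
  obtain ⟨a, ha, hmax⟩ := (KB_isCompact hr).exists_isMaxOn hne hc.continuousOn
  exact ⟨a, ha, fun b hb => hmax hb⟩

lemma KB.isB {r : ℝ} (hr : 0 < r) {a : ℤ → ℂ} (ha : a ∈ KB r) : IsB r (LS a) :=
  ⟨(ha.1.hasL hr).differentiableOn hr.le, ha.2⟩

lemma KB.isLaurent {r : ℝ} (hr : 0 < r) {a : ℤ → ℂ} (ha : a ∈ KB r) : IsLaurent r (LS a) a :=
  ha.1.hasL hr

lemma mem_KB {r : ℝ} (hr : 0 < r) (hr1 : r < 1) {f : ℂ → ℂ} {a : ℤ → ℂ} (hf : IsB r f)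
    (hL : IsLaurent r f a) : a ∈ KB r := by
  refine ⟨cb_of hr hr1 hf hL, fun z hz => ?_⟩
  have : LS a z = f z := (hL z hz).tsum_eq
  rw [this]
  exact hf.2 z hz

lemma isMax_of_K {r : ℝ} (hr : 0 < r) (hr1 : r < 1) {S : Finset ℤ} {c a : ℤ → ℂ}
    (h : ∀ b ∈ KB r, (Lc S c b).re ≤ (Lc S c a).re) : IsMax r S c a :=
  fun _ b hg hb => h b (mem_KB hr hr1 hg hb)

/-- convergence of coefficients gives uniform convergence on circles -/
lemma uniform_on_circle {r : ℝ} (hr : 0 < r) {a : ℕ → ℤ → ℂ} {a' : ℤ → ℂ}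
    (ha : ∀ n, CB r (a n)) (ha' : CB r a') (hlim : Tendsto a atTop (𝓝 a')) {ρ : ℝ}
    (h1 : r < ρ) (h2 : ρ < 1) {ε : ℝ} (hε : 0 < ε) :
    ∀ᶠ n in atTop, ∀ z : ℂ, ‖z‖ = ρ → ‖LS (a n) z‖ ≤ ‖LS a' z‖ + ε := by
  have hρ0 : 0 < ρ := hr.trans h1
  set q := max ρ (r * ρ⁻¹) with hq
  have hq2 : r * ρ⁻¹ < 1 := by
    rw [← div_eq_mul_inv, div_lt_one hρ0]; exact h1
  have hq0 : 0 ≤ q := le_trans hρ0.le (le_max_left _ _)
  have hqlt : q < 1 := max_lt h2 hq2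
  have hbd : ∀ b : ℤ → ℂ, CB r b → ∀ k : ℤ, ‖b k‖ * ρ ^ k ≤ q ^ k.natAbs := by
    intro b hb k
    rcases le_total 0 k with hk | hk
    · rw [← natAbs_pos_eq hk]
      calc ‖b k‖ * ρ ^ k.natAbs ≤ 1 * q ^ k.natAbs :=
            mul_le_mul (hb.one k) (pow_le_pow_left₀ hρ0.le (le_max_left _ _) _)
              (by positivity) zero_le_one
        _ = q ^ k.natAbs := one_mul _
    · have e : ρ ^ k = ρ⁻¹ ^ k.natAbs := by
        rw [natAbs_neg_eq hk, inv_zpow, zpow_neg, inv_inv]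
      calc ‖b k‖ * ρ ^ k ≤ r ^ k.natAbs * ρ ^ k :=
            mul_le_mul_of_nonneg_right (hb.neg hr hk) (zpow_nonneg hρ0.le k)
        _ = (r * ρ⁻¹) ^ k.natAbs := by rw [e, ← mul_pow]
        _ ≤ q ^ k.natAbs := pow_le_pow_left₀ (by positivity) (le_max_right _ _) _
  have hsum := (summable_natAbs hq0 hqlt).mul_left 2
  have hbd2 : ∀ n (k : ℤ), ‖a n k - a' k‖ * ρ ^ k ≤ 2 * q ^ k.natAbs := by
    intro n k
    have e1 := hbd (a n) (ha n) k
    have e2 := hbd a' ha' k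
    have e3 := mul_le_mul_of_nonneg_right (norm_sub_le (a n k) (a' k)) (zpow_nonneg hρ0.le k)
    linarith
  have hnn : ∀ n (k : ℤ), 0 ≤ ‖a n k - a' k‖ * ρ ^ k :=
    fun n k => mul_nonneg (norm_nonneg _) (zpow_nonneg hρ0.le k)
  have hsn : ∀ n, Summable fun k : ℤ => ‖a n k - a' k‖ * ρ ^ k :=
    fun n => Summable.of_nonneg_of_le (hnn n) (hbd2 n) hsum
  have hT : Tendsto (fun n => ∑' k : ℤ, ‖a n k - a' k‖ * ρ ^ k) atTop (𝓝 0) := by
    have h3 : Tendsto (fun n => ∑' k : ℤ, ‖a n k - a' k‖ * ρ ^ k) atTop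
        (𝓝 (∑' _k : ℤ, (0:ℝ))) := by
      refine tendsto_tsum_of_dominated_convergence hsum (fun k => ?_)
        (Eventually.of_forall (fun n k => ?_))
      · have h4 : Tendsto (fun n => a n k) atTop (𝓝 (a' k)) :=
          (continuous_apply k).continuousAt.tendsto.comp hlim
        have h5 := ((h4.sub_const (a' k)).norm).mul_const (ρ ^ k)
        rw [sub_self, norm_zero, zero_mul] at h5
        exact h5
      · rw [Real.norm_of_nonneg (hnn n k)]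
        exact hbd2 n k
    rwa [tsum_zero] at h3
  filter_upwards [hT.eventually (gt_mem_nhds hε)] with n hn z hz
  have hzm : z ∈ ring r 1 := ⟨by rw [hz]; exact h1, by rw [hz]; exact h2⟩
  have e1 := (ha n).hasL hr z hzm
  have e2 := ha'.hasL hr z hzm
  have e3 := e1.sub e2
  have e4 : ‖LS (a n) z - LS a' z‖ ≤ ∑' k : ℤ, ‖a n k - a' k‖ * ρ ^ k := by
    refine e3.tsum_eq ▸ (tsum_of_norm_bounded (hsn n).hasSum (fun k => ?_))
    rw [← sub_mul, norm_mul, norm_zpow, hz]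
  have e5 : ‖LS (a n) z‖ ≤ ‖LS a' z‖ + ‖LS (a n) z - LS a' z‖ := by
    have := norm_add_le (LS a' z) (LS (a n) z - LS a' z)
    simpa using this
  linarith

/-- limits of maximisers -/
lemma exists_limit_max {r : ℝ} (hr : 0 < r) (hr1 : r < 1) {N : ℕ} (hN : 1 ≤ N) {a : ℕ → ℤ → ℂ}
    {μ : ℕ → ℝ} (hμ : Tendsto μ atTop (𝓝 (r ^ 2))) (ha : ∀ n, a n ∈ KB r)
    (hmax : ∀ n, ∀ b ∈ KB r, (Lc (idx N) (c0 (μ n)) b).re ≤ (Lc (idx N) (c0 (μ n)) (a n)).re) :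
    ∃ (φ : ℕ → ℕ) (a' : ℤ → ℂ), StrictMono φ ∧ a' ∈ KB r ∧ Tendsto (a ∘ φ) atTop (𝓝 a') ∧
      ∀ z ∈ annulus r, LS a' z = g0 r z := by
  obtain ⟨a', ha', φ, hφ, hlim⟩ := (KB_isCompact hr).tendsto_subseq ha
  refine ⟨φ, a', hφ, ha', hlim, fun z hz => ?_⟩
  have hμφ : Tendsto (μ ∘ φ) atTop (𝓝 (r ^ 2)) := hμ.comp hφ.tendsto_atTop
  have hmax' : ∀ b ∈ KB r, (Lc (idx N) (c0 (r ^ 2)) b).re ≤ (Lc (idx N) (c0 (r ^ 2)) a').re := by
    intro b hb
    simp only [Lc_c0 hN] at hmax ⊢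
    have hk : ∀ k, Tendsto (fun n => (a ∘ φ) n k) atTop (𝓝 (a' k)) := fun k =>
      (continuous_apply k).continuousAt.tendsto.comp hlim
    have hμc : Tendsto (fun n => ((μ (φ n) : ℝ) : ℂ)) atTop (𝓝 ((r ^ 2 : ℝ) : ℂ)) :=
      (Complex.continuous_ofReal.tendsto _).comp hμφ
    have l1 : Tendsto (fun n => (b 1 + (μ (φ n) : ℂ) * b (-1)).re) atTop
        (𝓝 (b 1 + ((r ^ 2 : ℝ) : ℂ) * b (-1)).re) :=
      (Complex.continuous_re.tendsto _).comp (tendsto_const_nhds.add (hμc.mul_const _))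
    have l2 : Tendsto (fun n => (a (φ n) 1 + (μ (φ n) : ℂ) * a (φ n) (-1)).re) atTop
        (𝓝 (a' 1 + ((r ^ 2 : ℝ) : ℂ) * a' (-1)).re) :=
      (Complex.continuous_re.tendsto _).comp ((hk 1).add (hμc.mul (hk (-1))))
    exact le_of_tendsto_of_tendsto' l1 l2 (fun n => hmax (φ n) b hb)
  obtain ⟨ag, hag⟩ := exists_hasL hr hr1 (g0_isB hr hr1).1
  have hc : ∃ k ∈ idx N, c0 (r ^ 2) k ≠ 0 := by
    refine ⟨1, ?_, ?_⟩
    · rw [idx, Finset.mem_Icc]; omega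
    · unfold c0; rw [if_pos rfl]; exact one_ne_zero
  exact max_unique hr hr1 hc (KB.isB hr ha') (KB.isLaurent hr ha')
    (isMax_of_K hr hr1 hmax') (g0_isB hr hr1) hag (g0_isMax hr hr1 hN hag) hz

end Run7.h331
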