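import Pool.Agent.Run7.h331.Many2

/-!
Extremal functions of `V_N(r)` with many zeros: the theorem.
-/

open Filter Topology Complex Set MeasureTheory

set_option maxHeartbeats 400000

namespace Run7.h331

lemma exists_zeros {r : ℝ} (hr : 0 < r) (hr1 : r < 1) {F : ℂ → ℂ}
    (hF : AnalyticOnNhd ℂ F (closedAnn r)) (h1 : ∀ z, ‖z‖ = 1 → ‖F z‖ = 1)
    (h2 : ∀ z, ‖z‖ = r → ‖F z‖ = 1) :
    ∃ (n : ℕ) (a : Fin n → ℂ) (g : ℂ → ℂ), (∀ j, a j ∈ annulus r) ∧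
      AnalyticOnNhd ℂ g (closedAnn r) ∧ (∀ z ∈ closedAnn r, g z ≠ 0) ∧
      ∀ z ∈ closedAnn r, F z = (∏ j, (z - a j)) * g z := by
  obtain ⟨Z, m, g, hZ, hg, hgne, hFg⟩ := extract_zeros hr hr1 hF
    (fun z hz h => by have := h1 z hz; rw [h, norm_zero] at this; exact zero_ne_one this)
    (fun z hz h => by have := h2 z hz; rw [h, norm_zero] at this; exact zero_ne_one this)
  obtain ⟨l, hl1, hl2, -⟩ := list_exists Z m
  refine ⟨l.length, fun j => l[j.1], g, fun j => hZ _ (hl1 _ (List.getElem_mem _)), hg, hgne,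
    fun z hz => ?_⟩
  rw [hFg z hz, Fin.prod_univ_fun_getElem l (fun a => z - a), hl2]

theorem many_zeros {r : ℝ} (hr : 0 < r) (hr1 : r < 1) {N : ℕ} (hN : 1 ≤ N) (K : ℕ) :
    ∃ (f : ℂ → ℂ) (a : ℤ → ℂ), IsB r f ∧ IsLaurent r f a ∧
      (fun k : idx N => a k) ∈ frontier (body r (idx N)) ∧
      ∃ (n : ℕ) (s : Fin n → ℂ) (g : ℂ → ℂ), K < n ∧ (∀ j, s j ∈ annulus r) ∧
        AnalyticOnNhd ℂ g (closedAnn r) ∧ (∀ z ∈ closedAnn r, g z ≠ 0) ∧
        (∀ z ∈ annulus r, f z = (∏ j, (z - s j)) * g z) ∧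
        ∀ z, ‖z‖ = 1 ∨ ‖z‖ = r → ‖(∏ j, (z - s j)) * g z‖ = 1 := by
  -- constants
  set ρ0 : ℝ := (1 + r) / 2 with hρ0
  have hρ01 : ρ0 < 1 := by rw [hρ0]; linarith
  have hrρ0 : r < ρ0 := by rw [hρ0]; linarith
  have hρ0p : 0 < ρ0 := hr.trans hrρ0
  have hr2 : r ^ 2 < 1 := by nlinarith
  have hρ04 : ρ0 ^ 4 < 1 := pow_lt_one₀ hρ0p.le hρ01 (by norm_num)
  set δ : ℝ := (1 - r ^ 2) * (1 - ρ0 ^ 4) / (1 + r ^ 2) with hδ
  have hδ0 : 0 < δ := by
    rw [hδ]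
    refine div_pos (mul_pos (by linarith) (by linarith)) (by positivity)
  have hδ1 : δ ≤ 1 := by
    rw [hδ, div_le_one (by positivity)]
    have : 0 < ρ0 ^ 4 := by positivity
    have h3 : 0 < r ^ 2 := by positivity
    nlinarith
  have hκ1 : 1 - δ ≤ (1 - δ / 4) ^ 4 := by
    have h3 := one_add_mul_le_pow (show (-2 : ℝ) ≤ -(δ / 4) by linarith) 4
    have e1 : (1 : ℝ) + ((4 : ℕ) : ℝ) * (-(δ / 4)) = 1 - δ := by push_cast; ring
    have e2 : (1 : ℝ) + -(δ / 4) = 1 - δ / 4 := by ring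
    rw [e1, e2] at h3
    exact h3
  set κ : ℝ := 1 - δ / 8 with hκ
  have hκ0 : 0 ≤ κ := by rw [hκ]; linarith
  have hκlt : κ < 1 := by rw [hκ]; linarith
  -- the radius
  obtain ⟨ρ, hρr, hρρ0, hρK⟩ : ∃ ρ, r < ρ ∧ ρ < ρ0 ∧ κ * (ρ / r) ^ K < 1 := by
    have hc : Tendsto (fun ρ : ℝ => κ * (ρ / r) ^ K) (𝓝[>] r) (𝓝 (κ * (r / r) ^ K)) := by
      refine Tendsto.mono_left ?_ nhdsWithin_le_nhds
      exact ((tendsto_id.div_const r).pow K).const_mul κ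
    rw [div_self hr.ne', one_pow, mul_one] at hc
    have h3 := hc.eventually (gt_mem_nhds hκlt)
    have h4 : Ioo r ρ0 ∈ 𝓝[>] r := Ioo_mem_nhdsGT hrρ0
    obtain ⟨ρ, h5, h6⟩ := (h3.and h4).exists
    exact ⟨ρ, h6.1, h6.2, h5⟩
  have hρ1 : ρ < 1 := hρρ0.trans hρ01
  have hρp : 0 < ρ := hr.trans hρr
  -- the bound for `g0`
  have hg0 : ∀ z : ℂ, ‖z‖ = ρ → ‖g0 r z‖ ≤ 1 - δ / 4 := by
    intro z hz
    have hmem : z ∈ annulus r := ⟨by rw [hz]; exact hρr, by rw [hz]; exact hρ1⟩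
    have h3 := g0_bound hr hr1 hmem
    rw [hz] at h3
    have h4 : ρ ^ 4 ≤ ρ0 ^ 4 := pow_le_pow_left₀ hρp.le hρρ0.le 4
    have h5 : δ ≤ (1 - r ^ 2) * (1 - ρ ^ 4) / (1 + r ^ 2) := by
      rw [hδ]
      refine div_le_div_of_nonneg_right ?_ (by positivity)
      exact mul_le_mul_of_nonneg_left (by linarith) (by linarith)
    have h6 : ‖g0 r z‖ ^ 4 ≤ (1 - δ / 4) ^ 4 := by linarith
    exact le_of_pow_le_pow_left₀ (by norm_num) (by linarith) h6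
  -- the sequence of maximisers
  set μ : ℕ → ℝ := fun n => r ^ 2 + (1 - r ^ 2) / (n + 2) with hμ
  have hμ1 : ∀ n, r ^ 2 < μ n := by
    intro n
    have : 0 < (1 - r ^ 2) / ((n : ℝ) + 2) := div_pos (by linarith) (by positivity)
    simp only [hμ]
    linarith
  have hμ2 : ∀ n, μ n < 1 := by
    intro n
    have h3 : (0:ℝ) < (n : ℝ) + 2 := by positivity
    have h4 : (1 - r ^ 2) / ((n : ℝ) + 2) < 1 - r ^ 2 := by
      rw [div_lt_iff₀ h3]
      have : (0:ℝ) ≤ n := Nat.cast_nonneg n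
      nlinarith
    simp only [hμ]
    linarith
  have hμlim : Tendsto μ atTop (𝓝 (r ^ 2)) := by
    have h3 : Tendsto (fun n : ℕ => (1 - r ^ 2) / ((n : ℝ) + 2)) atTop (𝓝 0) := by
      refine Tendsto.div_atTop tendsto_const_nhds ?_
      exact tendsto_atTop_add_const_right _ _ tendsto_natCast_atTop_atTop
    have h4 := h3.const_add (r ^ 2)
    rwa [add_zero] at h4
  choose a ha hmax using fun n => exists_maxK hr hr1 (idx N) (c0 (μ n))
  obtain ⟨φ, a', hφ, ha', hlim, hg⟩ := exists_limit_max hr hr1 hN hμlim ha hmax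
  have hev := uniform_on_circle hr (fun n => (ha (φ n)).1) ha'.1 hlim hρr hρ1
    (show 0 < δ / 8 by linarith)
  obtain ⟨n0, hn0⟩ := hev.exists
  set A := a (φ n0) with hA
  have hAK : A ∈ KB r := ha (φ n0)
  have hf := KB.isB hr hAK
  have hL := KB.isLaurent hr hAK
  have hM : IsMax r (idx N) (c0 (μ (φ n0))) A := isMax_of_K hr hr1 (hmax (φ n0))
  have hc : ∃ k ∈ idx N, c0 (μ (φ n0)) k ≠ 0 := by
    refine ⟨1, ?_, ?_⟩
    · rw [idx, Finset.mem_Icc]; omega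
    · unfold c0; rw [if_pos rfl]; exact one_ne_zero
  have hfr : (fun k : idx N => A k) ∈ frontier (body r (idx N)) :=
    (frontier_iff hr hr1 (idx N) hf hL).2 ⟨_, hc, hM⟩
  have hbd : ∀ z : ℂ, ‖z‖ = ρ → ‖LS A z‖ ≤ κ := by
    intro z hz
    have hmem : z ∈ annulus r := ⟨by rw [hz]; exact hρr, by rw [hz]; exact hρ1⟩
    have h3 := hn0 z hz
    rw [hg z hmem] at h3
    have h4 := hg0 z hz
    have h5 : ‖LS A z‖ ≤ ‖g0 r z‖ + δ / 8 := h3
    rw [hκ]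
    linarith
  have hT : TypeT r (idx N) (c0 (μ (φ n0))) (LS A) := by
    have hμp : 0 < μ (φ n0) := lt_trans (by positivity) (hμ1 _)
    rcases max_types hr hr1 (idx N) _ hf hL hM with h | h | h
    · exact (not_outer hr (hμ1 _) (hμ2 _) hN hf h).elim
    · exact (not_inner hr hr1 hμp (hμ2 _) hN hf h).elim
    · exact h
  obtain ⟨F, h₁, h₂, hF, -, -, hFf, -, hout, hin⟩ := hT
  obtain ⟨n, s, g, hs, hgan, hgne, hFg⟩ := exists_zeros hr hr1 hF (fun z hz => (hout z hz).1)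
    (fun z hz => (hin z hz).1)
  have hsub : annulus r ⊆ closedAnn r := fun z hz => ⟨hz.1.le, hz.2.le⟩
  have hunim : ∀ z, ‖z‖ = 1 ∨ ‖z‖ = r → ‖(∏ j, (z - s j)) * g z‖ = 1 := by
    intro z hz
    rcases hz with hz | hz
    · have hzc : z ∈ closedAnn r := ⟨by rw [hz]; exact hr1.le, hz.le⟩
      rw [← hFg z hzc]
      exact (hout z hz).1
    · have hzc : z ∈ closedAnn r := ⟨hz.ge, by rw [hz]; exact hr1.le⟩
      rw [← hFg z hzc]
      exact (hin z hz).1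
  have hrep : ∀ z ∈ annulus r, LS A z = (∏ j, (z - s j)) * g z := fun z hz => by
    rw [← hFf z hz, hFg z (hsub hz)]
  refine ⟨LS A, A, hf, hL, hfr, n, s, g, ?_, hs, hgan, hgne, hrep, hunim⟩
  have h3 := zeros_lower hr hr1 hs hgan hgne hunim hρr hρ1 hκ0 (fun z hz => by
    have hmem : z ∈ annulus r := ⟨by rw [hz]; exact hρr, by rw [hz]; exact hρ1⟩
    rw [← hrep z hmem]
    exact hbd z hz)
  by_contra hcon
  rw [not_lt] at hcon
  have h4 : 1 ≤ ρ / r := by rw [one_le_div hr]; exact hρr.le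
  have h5 : (ρ / r) ^ n ≤ (ρ / r) ^ K := pow_le_pow_right₀ h4 hcon
  have h6 := mul_le_mul_of_nonneg_left h5 hκ0
  linarith

end Run7.h331
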