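import Pool.Agent.Run7.h331.Data
import Pool.Agent.Run7.h331.LExist

/-!
One-sided analysis of the data of an extremal function.
-/

open Filter Topology Complex Set

set_option maxHeartbeats 400000

namespace Run7.h331

/-- geometric decay -/
def Dec (r : ℝ) (u : ℤ → ℂ) : Prop :=
  ∀ s, r < s → s < 1 → ∃ C : ℝ, 0 ≤ C ∧ ∀ k, ‖u k‖ ≤ C * s ^ k.natAbs

/-- Laurent series as a function -/
noncomputable def LS (u : ℤ → ℂ) (z : ℂ) : ℂ := ∑' k : ℤ, u k * z ^ k

lemma Dec.neg {r : ℝ} {u : ℤ → ℂ} (h : Dec r u) : Dec r (fun k => u (-k)) := by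
  intro s h1 h2
  obtain ⟨C, hC, hb⟩ := h s h1 h2
  refine ⟨C, hC, fun k => ?_⟩
  have := hb (-k)
  rwa [Int.natAbs_neg] at this

lemma Dec.conj {r : ℝ} {u : ℤ → ℂ} (h : Dec r u) : Dec r (fun k => (starRingEnd ℂ) (u k)) := by
  intro s h1 h2
  obtain ⟨C, hC, hb⟩ := h s h1 h2
  refine ⟨C, hC, fun k => ?_⟩
  rw [RCLike.norm_conj]
  exact hb k

lemma Dec.hasL {r : ℝ} (hr : 0 < r) {u : ℤ → ℂ} (h : Dec r u) :
    HasL r r⁻¹ (LS u) u := by
  intro z hz
  by_cases hr1 : r < 1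
  swap
  · exfalso
    have h1 := hz.1.trans hz.2
    rw [not_lt] at hr1
    have : r⁻¹ ≤ 1 := inv_le_one_of_one_le₀ hr1
    linarith
  have hz0 : 0 < ‖z‖ := hr.trans hz.1
  have hz1 : r < ‖z‖⁻¹ := by
    rw [lt_inv_comm₀ hr hz0]; exact hz.2
  obtain ⟨s, h1, h2⟩ := exists_between (lt_min (lt_min hz.1 hz1) hr1)
  rw [lt_min_iff, lt_min_iff] at h2
  obtain ⟨C, hC, hb⟩ := h s h1 h2.2
  have hs : 0 < s := hr.trans h1
  have hq1 : s * ‖z‖ < 1 := by
    have := mul_lt_mul_of_pos_right h2.1.2 hz0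
    rwa [inv_mul_cancel₀ hz0.ne'] at this
  have hq2 : s * ‖z‖⁻¹ < 1 := by
    have := mul_lt_mul_of_pos_right h2.1.1 (inv_pos.2 hz0)
    rwa [mul_inv_cancel₀ hz0.ne'] at this
  set q := max (s * ‖z‖) (s * ‖z‖⁻¹) with hq
  have hq0 : 0 ≤ q := le_trans (by positivity) (le_max_left _ _)
  have hqlt : q < 1 := max_lt hq1 hq2
  have hsum : Summable fun k : ℤ => u k * z ^ k := by
    refine Summable.of_norm_bounded ((summable_natAbs hq0 hqlt).mul_left C) (fun k => ?_)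
    rw [norm_mul, norm_zpow]
    have h3 : s ^ k.natAbs * ‖z‖ ^ k ≤ q ^ k.natAbs := by
      rcases le_total 0 k with hk | hk
      · have e : ‖z‖ ^ k = ‖z‖ ^ k.natAbs := by
          have : (k.natAbs : ℤ) = k := by omega
          rw [← zpow_natCast ‖z‖ k.natAbs, this]
        rw [e, ← mul_pow]
        exact pow_le_pow_left₀ (by positivity) (le_max_left _ _) _
      · have e : ‖z‖ ^ k = ‖z‖⁻¹ ^ k.natAbs := by
          have : (k.natAbs : ℤ) = -k := by omega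
          rw [← zpow_natCast ‖z‖⁻¹ k.natAbs, this, zpow_neg, inv_zpow, inv_inv]
        rw [e, ← mul_pow]
        exact pow_le_pow_left₀ (by positivity) (le_max_right _ _) _
    calc ‖u k‖ * ‖z‖ ^ k ≤ C * s ^ k.natAbs * ‖z‖ ^ k :=
          mul_le_mul_of_nonneg_right (hb k) (zpow_nonneg hz0.le k)
      _ = C * (s ^ k.natAbs * ‖z‖ ^ k) := by ring
      _ ≤ C * q ^ k.natAbs := mul_le_mul_of_nonneg_left h3 hC
  exact hsum.hasSum

lemma HasL.bound {s t ρ : ℝ} {f : ℂ → ℂ} {a : ℤ → ℂ} (h : HasL s t f a) (h0 : 0 ≤ ρ)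
    (h1 : s < ρ) (h2 : ρ < t) : ∃ C : ℝ, 0 ≤ C ∧ ∀ k, ‖a k‖ * ρ ^ k ≤ C := by
  have hs := h.summable h0 h1 h2
  have hnn : ∀ k : ℤ, 0 ≤ ‖a k‖ * ρ ^ k :=
    fun k => mul_nonneg (norm_nonneg _) (zpow_nonneg h0 k)
  refine ⟨∑' k, ‖a k‖ * ρ ^ k, tsum_nonneg hnn, fun k => ?_⟩
  exact hs.le_tsum k (fun j _ => hnn j)

lemma LS_conv {s t : ℝ} (hs : 0 ≤ s) {f : ℂ → ℂ} {a b c : ℤ → ℂ} (hf : HasL s t f a)
    (hb : HasL s t (LS b) b) (hc : ∀ k, ∑' j, a j * b (k - j) = c k) :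
    HasL s t (fun z => f z * LS b z) c ∧ ∀ z ∈ ring s t, f z * LS b z = LS c z := by
  have h1 := hf.mul hs hb
  have h2 : conv a b = c := by
    funext k
    exact hc k
  rw [h2] at h1
  exact ⟨h1, fun z hz => (h1 z hz).tsum_eq.symm⟩

/-- the hypotheses of the one-sided analysis -/
structure OS (r : ℝ) (f : ℂ → ℂ) (a m n : ℤ → ℂ) : Prop where
  hr : 0 < r
  hr1 : r < 1
  hf : HasL r 1 f a
  cb : CB r a
  side : Side r m n
  rel : Rel r a m n

lemma m_hasL {r : ℝ} (hr : 0 < r) {m : ℤ → ℂ} {B : ℝ} (hB : 0 ≤ B)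
    (hm : ∀ k, ‖m k‖ ≤ B ∧ ‖m k‖ ≤ B * r ^ k) :
    HasL r 1 (LS fun k => m (-k)) (fun k => m (-k)) := by
  intro z hz
  have hz0 : 0 < ‖z‖ := hr.trans hz.1
  have hq2 : r * ‖z‖⁻¹ < 1 := by
    have := mul_lt_mul_of_pos_right hz.1 (inv_pos.2 hz0)
    rwa [mul_inv_cancel₀ hz0.ne'] at this
  set q := max ‖z‖ (r * ‖z‖⁻¹) with hq
  have hq0 : 0 ≤ q := le_trans (by positivity) (le_max_left _ _)
  have hqlt : q < 1 := max_lt hz.2 hq2
  have hsum : Summable fun k : ℤ => m (-k) * z ^ k := by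
    refine Summable.of_norm_bounded ((summable_natAbs hq0 hqlt).mul_left B) (fun k => ?_)
    rw [norm_mul, norm_zpow]
    rcases le_total 0 k with hk | hk
    · have e : ‖z‖ ^ k = ‖z‖ ^ k.natAbs := by
        have : (k.natAbs : ℤ) = k := by omega
        rw [← zpow_natCast ‖z‖ k.natAbs, this]
      rw [e]
      exact mul_le_mul (hm (-k)).1 (pow_le_pow_left₀ hz0.le (le_max_left _ _) _)
        (by positivity) hB
    · have e : ‖z‖ ^ k = ‖z‖⁻¹ ^ k.natAbs := by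
        have : (k.natAbs : ℤ) = -k := by omega
        rw [← zpow_natCast ‖z‖⁻¹ k.natAbs, this, zpow_neg, inv_zpow, inv_inv]
      have e2 : r ^ (-k) = r ^ k.natAbs := by
        have : (k.natAbs : ℤ) = -k := by omega
        rw [← zpow_natCast r k.natAbs, this]
      calc ‖m (-k)‖ * ‖z‖ ^ k ≤ B * r ^ (-k) * ‖z‖ ^ k :=
            mul_le_mul_of_nonneg_right (hm (-k)).2 (zpow_nonneg hz0.le k)
        _ = B * (r * ‖z‖⁻¹) ^ k.natAbs := by rw [e2, e, mul_assoc, ← mul_pow]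
        _ ≤ B * q ^ k.natAbs := by
            refine mul_le_mul_of_nonneg_left ?_ hB
            exact pow_le_pow_left₀ (by positivity) (le_max_right _ _) _
  exact hsum.hasSum

namespace OS

variable {r : ℝ} {f : ℂ → ℂ} {a m n : ℤ → ℂ}

/-- first relation on the annulus -/
lemma rel1 (H : OS r f a m n) : HasL r 1 (fun z => f z * LS (fun k => m (-k)) z)
      (fun k => n (-k)) ∧
    ∀ z ∈ ring r 1, f z * LS (fun k => m (-k)) z = LS (fun k => n (-k)) z := by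
  obtain ⟨B, hB, hm⟩ := H.side.mb
  refine LS_conv H.hr.le H.hf (m_hasL H.hr hB hm) (fun k => ?_)
  rw [H.rel.conv]
  refine tsum_congr (fun j => ?_)
  congr 2
  ring

lemma n_dec (H : OS r f a m n) : Dec r n := by
  intro s h1 h2
  have hs : 0 < s := H.hr.trans h1
  obtain ⟨C, hC, hb⟩ := H.rel1.1.bound hs.le h1 h2
  refine ⟨C, hC, ?_⟩
  have key : ∀ k : ℤ, 0 ≤ k → ‖n k‖ ≤ C * s ^ k.natAbs := by
    intro k hk
    have h3 := hb (-k)
    rw [neg_neg] at h3
    have h4 : s ^ (-k) * s ^ k.natAbs = 1 := by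
      have : (k.natAbs : ℤ) = k := by omega
      rw [← zpow_natCast s k.natAbs, this, ← zpow_add₀ hs.ne']
      simp
    have h5 : 0 ≤ s ^ k.natAbs := by positivity
    have := mul_le_mul_of_nonneg_right h3 h5
    rwa [mul_assoc, h4, mul_one] at this
  intro k
  rcases le_total 0 k with hk | hk
  · exact key k hk
  · have h3 := key (-k) (by omega)
    rw [H.side.herm, RCLike.norm_conj, Int.natAbs_neg] at h3
    exact h3

lemma P_hasL (H : OS r f a m n) : HasL r r⁻¹ (LS fun k => n (-k)) (fun k => n (-k)) :=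
  H.n_dec.neg.hasL H.hr

lemma one_lt_inv (H : OS r f a m n) : 1 < r⁻¹ := (one_lt_inv₀ H.hr).2 H.hr1

/-- the reconstruction formula -/
lemma recon (H : OS r f a m n) (k : ℤ) :
    (starRingEnd ℂ) (m k) = ∑' j, a j * n (j - k) := by
  obtain ⟨s, h1, h2⟩ := exists_between H.hr1
  have hs : 0 < s := H.hr.trans h1
  obtain ⟨C, hC, hb⟩ := H.n_dec s h1 h2
  have hsum : Summable fun j => ‖a j * n (j - k)‖ := by
    have h3 : Summable fun j : ℤ => C * s ^ (j - k).natAbs :=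
      ((Equiv.subRight k).summable_iff.2 (summable_natAbs hs.le h2)).mul_left C
    refine Summable.of_nonneg_of_le (fun _ => norm_nonneg _) (fun j => ?_) h3
    rw [norm_mul]
    calc ‖a j‖ * ‖n (j - k)‖ ≤ 1 * ‖n (j - k)‖ :=
          mul_le_mul_of_nonneg_right (H.cb.one j) (norm_nonneg _)
      _ ≤ C * s ^ (j - k).natAbs := by rw [one_mul]; exact hb _
  exact tendsto_nhds_unique (H.rel.recon k)
    ((abel_limit hsum).comp (rho_tendsto H.hr1))

/-- second relation on the annulus -/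
lemma rel2 (H : OS r f a m n) : HasL r 1 (fun z => f z * LS (fun k => n (-k)) z)
      (fun k => (starRingEnd ℂ) (m k)) ∧
    ∀ z ∈ ring r 1, f z * LS (fun k => n (-k)) z = LS (fun k => (starRingEnd ℂ) (m k)) z := by
  refine LS_conv H.hr.le H.hf (H.P_hasL.mono le_rfl H.one_lt_inv.le) (fun k => ?_)
  rw [H.recon]
  refine tsum_congr (fun j => ?_)
  congr 2
  ring

lemma m_dec (H : OS r f a m n) : Dec r m := by
  intro s h1 h2
  have hs : 0 < s := H.hr.trans h1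
  obtain ⟨C, hC, hb⟩ := H.rel2.1.bound hs.le h1 h2
  obtain ⟨B, hB, hm⟩ := H.side.mb
  refine ⟨C + B, add_nonneg hC hB, fun k => ?_⟩
  have hsk : 0 < s ^ k.natAbs := by positivity
  rcases le_total 0 k with hk | hk
  · have h3 := (hm k).2
    have e2 : r ^ k = r ^ k.natAbs := by
      have : (k.natAbs : ℤ) = k := by omega
      rw [← zpow_natCast r k.natAbs, this]
    have h4 : r ^ k.natAbs ≤ s ^ k.natAbs := pow_le_pow_left₀ H.hr.le h1.le _
    rw [e2] at h3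
    nlinarith
  · have h3 := hb k
    rw [RCLike.norm_conj] at h3
    have h4 : s ^ k * s ^ k.natAbs = 1 := by
      have : (k.natAbs : ℤ) = -k := by omega
      rw [← zpow_natCast s k.natAbs, this, ← zpow_add₀ hs.ne']
      simp
    have := mul_le_mul_of_nonneg_right h3 hsk.le
    rw [mul_assoc, h4, mul_one] at this
    nlinarith

lemma h_hasL (H : OS r f a m n) : HasL r r⁻¹ (LS fun k => m (-k)) (fun k => m (-k)) :=
  H.m_dec.neg.hasL H.hr

lemma G_hasL (H : OS r f a m n) :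
    HasL r r⁻¹ (LS fun k => (starRingEnd ℂ) (m k)) (fun k => (starRingEnd ℂ) (m k)) :=
  H.m_dec.conj.hasL H.hr

/-- the product relation -/
lemma hG (H : OS r f a m n) {z : ℂ} (hz : z ∈ ring r r⁻¹) :
    LS (fun k => m (-k)) z * LS (fun k => (starRingEnd ℂ) (m k)) z =
      LS (fun k => n (-k)) z * LS (fun k => n (-k)) z := by
  have h1 := H.h_hasL.mul H.hr.le H.G_hasL
  have h2 := H.P_hasL.mul H.hr.le H.P_hasL
  have h3 : conv (fun k => m (-k)) (fun k => (starRingEnd ℂ) (m k)) =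
      conv (fun k => n (-k)) (fun k => n (-k)) := by
    refine HasL.unique H.hr.le H.hr1 (h1.mono le_rfl H.one_lt_inv.le)
      (h2.mono le_rfl H.one_lt_inv.le) (fun z hz => ?_)
    rw [← H.rel2.2 z hz]
    have := H.rel1.2 z hz
    linear_combination (LS (fun k => n (-k)) z) * this
  have h4 := h1 z hz
  rw [h3] at h4
  exact h4.unique (h2 z hz)

lemma circle_mem (H : OS r f a m n) {z : ℂ} (hz : ‖z‖ = 1) : z ∈ ring r r⁻¹ :=
  ⟨by rw [hz]; exact H.hr1, by rw [hz]; exact H.one_lt_inv⟩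

lemma LS_conj {u : ℤ → ℂ} {z : ℂ} (hz : ‖z‖ = 1) :
    (starRingEnd ℂ) (LS u z) = LS (fun k => (starRingEnd ℂ) (u (-k))) z := by
  unfold LS
  have hc : (starRingEnd ℂ) z = z⁻¹ := by
    rw [Complex.inv_def, Complex.normSq_eq_norm_sq, hz]
    simp
  rw [← tsum_neg_int, Complex.conj_tsum]
  refine tsum_congr (fun k => ?_)
  rw [map_mul, map_zpow₀, hc, inv_zpow, zpow_neg, inv_inv]

lemma P_real (H : OS r f a m n) {z : ℂ} (hz : ‖z‖ = 1) :
    (starRingEnd ℂ) (LS (fun k => n (-k)) z) = LS (fun k => n (-k)) z := by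
  rw [LS_conj hz]
  congr 1
  funext k
  rw [neg_neg, H.side.herm]

lemma h_conj {z : ℂ} (hz : ‖z‖ = 1) :
    (starRingEnd ℂ) (LS (fun k => m (-k)) z) = LS (fun k => (starRingEnd ℂ) (m k)) z := by
  rw [LS_conj hz]
  congr 1
  funext k
  rw [neg_neg]

lemma P_im (H : OS r f a m n) {z : ℂ} (hz : ‖z‖ = 1) :
    (LS (fun k => n (-k)) z).im = 0 := by
  exact Complex.conj_eq_iff_im.1 (H.P_real hz)

lemma n_summable (H : OS r f a m n) : Summable fun k => ‖n k‖ := by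
  obtain ⟨s, h1, h2⟩ := exists_between H.hr1
  obtain ⟨C, hC, hb⟩ := H.n_dec s h1 h2
  exact Summable.of_nonneg_of_le (fun _ => norm_nonneg _) hb
    ((summable_natAbs (H.hr.trans h1).le h2).mul_left C)

lemma P_circle (θ : ℝ) : LS (fun k => n (-k)) (ex 1 θ) = ∑' k : ℤ, ex k (-θ) * n k := by
  unfold LS
  rw [← tsum_neg_int]
  refine tsum_congr (fun k => ?_)
  simp only [neg_neg]
  rw [mul_comm]
  congr 1
  unfold ex
  rw [zpow_one, zpow_neg, Complex.ofReal_neg, neg_mul, Complex.exp_neg, inv_zpow]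

lemma exists_ex {z : ℂ} (hz : ‖z‖ = 1) : ∃ θ : ℝ, z = ex 1 θ := by
  obtain ⟨θ, h⟩ := exists_circ z
  rw [hz, Complex.ofReal_one, one_mul] at h
  exact ⟨θ, h⟩

lemma P_nonneg (H : OS r f a m n) {z : ℂ} (hz : ‖z‖ = 1) :
    0 ≤ (LS (fun k => n (-k)) z).re := by
  obtain ⟨θ, rfl⟩ := exists_ex hz
  rw [P_circle]
  have hs : Summable fun k : ℤ => ‖ex k (-θ) * n k‖ := by
    refine H.n_summable.congr (fun k => ?_)
    rw [norm_mul, norm_ex, one_mul]
  have h1 := (Complex.continuous_re.tendsto _).comp (abel_limit hs)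
  refine ge_of_tendsto h1 ?_
  have : Ioo (0:ℝ) 1 ∈ 𝓝[<] (1:ℝ) := Ioo_mem_nhdsLT one_pos
  filter_upwards [this] with ρ hρ
  exact H.side.pos ρ (-θ) hρ.1.le hρ.2

/-- moduli on the unit circle -/
lemma h_norm (H : OS r f a m n) {z : ℂ} (hz : ‖z‖ = 1) :
    LS (fun k => n (-k)) z = ((‖LS (fun k => m (-k)) z‖ : ℝ) : ℂ) := by
  have h1 := H.hG (H.circle_mem hz)
  rw [← h_conj hz, Complex.mul_conj, Complex.normSq_eq_norm_sq] at h1
  have h2 : LS (fun k => n (-k)) z = (((LS (fun k => n (-k)) z).re : ℝ) : ℂ) :=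
    Complex.ext (by simp) (by simp [H.P_im hz])
  have h3 := H.P_nonneg hz
  rw [h2] at h1
  have h4 : ‖LS (fun k => m (-k)) z‖ ^ 2 = (LS (fun k => n (-k)) z).re ^ 2 := by
    have h5 : (((‖LS (fun k => m (-k)) z‖ ^ 2 : ℝ)) : ℂ) =
      (((LS (fun k => n (-k)) z).re ^ 2 : ℝ) : ℂ) := by
        rw [h1, sq, Complex.ofReal_mul]
    exact_mod_cast h5
  have h5 : ‖LS (fun k => m (-k)) z‖ = (LS (fun k => n (-k)) z).re :=
    (pow_left_inj₀ (norm_nonneg _) h3 two_ne_zero).1 h4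
  rw [h5]
  exact h2

/-- if `n 0` vanishes then everything vanishes -/
lemma n_zero (H : OS r f a m n) (h0 : n 0 = 0) (k : ℤ) : n k = 0 := by
  have h1 := H.P_hasL.integral zero_le_one H.hr1 H.one_lt_inv (-k)
  have h2 := H.P_hasL.integral zero_le_one H.hr1 H.one_lt_inv 0
  simp only [neg_neg, one_zpow, neg_zero, Complex.ofReal_one, one_mul, mul_one, h0, mul_zero,
    ex_zero] at h1 h2
  have hpi : (0:ℝ) ≤ 2 * Real.pi := by positivity
  have hcont : Continuous fun θ : ℝ => LS (fun k => n (-k)) (ex 1 θ) := by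
    have h3 : ∀ θ, LS (fun k => n (-k)) (ex 1 θ) = ts (fun k => n (-k)) θ := by
      intro θ
      unfold LS ts
      refine tsum_congr (fun j => ?_)
      congr 1
      unfold ex
      rw [zpow_one]
    simp only [h3]
    refine ts_continuous ?_
    exact (Equiv.neg ℤ).summable_iff.2 H.n_summable
  have h4 : (∫ θ in (0:ℝ)..2 * Real.pi, ‖LS (fun k => n (-k)) (ex 1 θ)‖) = 0 := by
    have h5 : ∀ θ, LS (fun k => n (-k)) (ex 1 θ) =
        ((‖LS (fun k => n (-k)) (ex 1 θ)‖ : ℝ) : ℂ) := by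
      intro θ
      have h6 := H.h_norm (z := ex 1 θ) (norm_ex 1 θ)
      rw [h6, Complex.norm_real, norm_norm]
    have h7 : (∫ θ in (0:ℝ)..2 * Real.pi, LS (fun k => n (-k)) (ex 1 θ)) =
        ∫ θ in (0:ℝ)..2 * Real.pi, ((‖LS (fun k => n (-k)) (ex 1 θ)‖ : ℝ) : ℂ) := by
      refine intervalIntegral.integral_congr (fun θ _ => ?_)
      exact h5 θ
    rw [h7, intervalIntegral.integral_ofReal] at h2
    exact_mod_cast h2
  have h8 : ‖(2 * Real.pi : ℂ) * n k‖ ≤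
      ∫ θ in (0:ℝ)..2 * Real.pi, ‖LS (fun k => n (-k)) (ex 1 θ)‖ := by
    rw [← h1]
    refine (intervalIntegral.norm_integral_le_integral_norm hpi).trans (le_of_eq ?_)
    refine intervalIntegral.integral_congr (fun θ _ => ?_)
    simp only [norm_mul, norm_ex, mul_one]
  rw [h4] at h8
  have h9 := norm_le_zero_iff.1 h8
  exact (mul_eq_zero.1 h9).resolve_left two_pi_ne

lemma m_zero (H : OS r f a m n) (h0 : n 0 = 0) (k : ℤ) : m k = 0 := by
  have h1 := H.recon k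
  simp only [H.n_zero h0, mul_zero, tsum_zero] at h1
  exact (map_eq_zero _).1 h1

end OS

lemma ring_isPreconnected {s t : ℝ} (hs : 0 ≤ s) : IsPreconnected (ring s t) := by
  have h1 : IsPreconnected ((Ioo s t) ×ˢ (univ : Set ℝ)) :=
    isPreconnected_Ioo.prod isPreconnected_univ
  have h2 : ring s t = (fun p : ℝ × ℝ => (p.1 : ℂ) * ex 1 p.2) '' ((Ioo s t) ×ˢ univ) := by
    ext z
    constructor
    · intro hz
      obtain ⟨θ, hθ⟩ := exists_circ z
      exact ⟨(‖z‖, θ), ⟨hz, mem_univ _⟩, hθ.symm⟩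
    · rintro ⟨⟨ρ, θ⟩, ⟨h, -⟩, rfl⟩
      exact circ_mem (hs.trans h.1.le) h.1 h.2 θ
  rw [h2]
  refine h1.image _ (Continuous.continuousOn ?_)
  exact (Complex.continuous_ofReal.comp continuous_fst).mul ((ex_continuous 1).comp continuous_snd)

lemma HasL.analytic {s t : ℝ} (hs : 0 ≤ s) {f : ℂ → ℂ} {a : ℤ → ℂ}
    (h : HasL s t f a) : AnalyticOnNhd ℂ f (ring s t) :=
  (h.differentiableOn hs).analyticOnNhd (ring_isOpen s t)

/-- punctured neighbourhoods along the circle -/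
lemma circle_tendsto {z : ℂ} (hz : ‖z‖ = 1) :
    Tendsto (fun θ : ℝ => z * ex 1 θ) (𝓝[≠] 0) (𝓝[≠] z) := by
  have hz0 : z ≠ 0 := by
    intro h; rw [h, norm_zero] at hz; exact zero_ne_one hz
  have h1 : HasDerivAt (fun θ : ℝ => z * ex 1 θ) (z * I) 0 := by
    unfold ex
    simp only [zpow_one]
    have h2 : HasDerivAt (fun θ : ℝ => Complex.exp ((θ : ℂ) * I)) (Complex.exp ((0:ℝ) * I) * (1 * I)) 0 := by
      refine HasDerivAt.cexp ?_
      exact (Complex.ofRealCLM.hasDerivAt (x := (0:ℝ))).mul_const I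
    have h3 := h2.const_mul z
    simpa using h3
  have h2 : z * ex 1 (0:ℝ) = z := by
    unfold ex; simp
  have h3 := h1.tendsto_nhdsNE (mul_ne_zero hz0 Complex.I_ne_zero)
  rwa [h2] at h3

/-- extension of a quotient across the unit circle -/
lemma ext_quot {r : ℝ} (hr : 0 < r) (hr1 : r < 1) {f P G : ℂ → ℂ}
    (hf : DifferentiableOn ℂ f (ring r 1)) (hP : AnalyticOnNhd ℂ P (ring r r⁻¹))
    (hG : AnalyticOnNhd ℂ G (ring r r⁻¹)) (hfP : ∀ z ∈ ring r 1, f z * P z = G z)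
    (hn : ∀ z, ‖z‖ = 1 → ‖G z‖ = ‖P z‖) (h0 : ∃ z ∈ ring r r⁻¹, P z ≠ 0) :
    ∃ F : ℂ → ℂ, AnalyticOnNhd ℂ F {z | r < ‖z‖ ∧ ‖z‖ ≤ 1} ∧ (∀ z ∈ ring r 1, F z = f z) ∧
      (∀ z, ‖z‖ = 1 → ‖F z‖ = 1) ∧ ∀ z, ‖z‖ = 1 → F z * P z = G z := by
  have hinv : 1 < r⁻¹ := (one_lt_inv₀ hr).2 hr1
  have hpre : IsPreconnected (ring r r⁻¹) := ring_isPreconnected hr.le
  have hne : ∀ z ∈ ring r r⁻¹, ∀ᶠ w in 𝓝[≠] z, P w ≠ 0 := by
    intro z hz
    rcases (hP z hz).eventually_eq_zero_or_eventually_ne_zero with h | h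
    · exfalso
      obtain ⟨w, hw, hw0⟩ := h0
      have := hP.eqOn_zero_of_preconnected_of_eventuallyEq_zero hpre hz h
      exact hw0 (this hw)
    · exact h
  have hq : MeromorphicOn (fun z => G z / P z) (ring r r⁻¹) := fun z hz =>
    (hG z hz).meromorphicAt.fun_div (hP z hz).meromorphicAt
  set F := toMeromorphicNFOn (fun z => G z / P z) (ring r r⁻¹) with hF
  have hNF : MeromorphicNFOn F (ring r r⁻¹) := meromorphicNFOn_toMeromorphicNFOn _ _
  have hFq : ∀ z ∈ ring r r⁻¹, (fun z => G z / P z) =ᶠ[𝓝[≠] z] F := fun z hz =>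
    (hq.toMeromorphicNFOn_eq_self_on_nhdsNE hz).symm
  have hin : ∀ z ∈ ring r 1, F =ᶠ[𝓝 z] f := by
    intro z hz
    have hz' : z ∈ ring r r⁻¹ := ring_mono le_rfl hinv.le hz
    have hfa : AnalyticAt ℂ f z :=
      (hf.analyticOnNhd (ring_isOpen r 1)) z hz
    refine ((hNF hz').eventuallyEq_nhdsNE_iff_eventuallyEq_nhds hfa.meromorphicNFAt).1 ?_
    have h1 : ∀ᶠ w in 𝓝[≠] z, w ∈ ring r 1 :=
      nhdsWithin_le_nhds ((ring_isOpen r 1).mem_nhds hz)
    filter_upwards [hFq z hz', hne z hz', h1] with w hw1 hw2 hw3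
    rw [← hw1, ← hfP w hw3, mul_div_assoc, div_self hw2, mul_one]
  have hcirc : ∀ z, ‖z‖ = 1 → z ∈ ring r r⁻¹ := fun z hz =>
    ⟨by rw [hz]; exact hr1, by rw [hz]; exact hinv⟩
  have hon : ∀ z, ‖z‖ = 1 → ∀ᶠ θ : ℝ in 𝓝[≠] 0, ‖F (z * ex 1 θ)‖ = 1 := by
    intro z hz
    have h1 := (circle_tendsto hz).eventually (hFq z (hcirc z hz))
    have h2 := (circle_tendsto hz).eventually (hne z (hcirc z hz))
    filter_upwards [h1, h2] with θ h3 h4
    rw [← h3, norm_div, hn _ (by rw [norm_mul, hz, norm_ex, one_mul]), div_self]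
    exact norm_ne_zero_iff.2 h4
  have hana : ∀ z, ‖z‖ = 1 → AnalyticAt ℂ F z := by
    intro z hz
    rw [← (hNF (hcirc z hz)).meromorphicOrderAt_nonneg_iff_analyticAt]
    by_contra hneg
    rw [not_le] at hneg
    have h1 := tendsto_cobounded_of_meromorphicOrderAt_neg hneg
    have h2 := (tendsto_norm_cobounded_atTop.comp h1).comp (circle_tendsto hz)
    have h3 := h2.eventually (eventually_gt_atTop 1)
    obtain ⟨θ, h4, h5⟩ := (h3.and (hon z hz)).exists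
    simp only [Function.comp] at h4
    linarith
  refine ⟨F, ?_, fun z hz => (hin z hz).eq_of_nhds, ?_, ?_⟩
  · intro z hz
    rcases lt_or_eq_of_le hz.2 with h | h
    · have hz' : z ∈ ring r 1 := ⟨hz.1, h⟩
      exact ((hf.analyticOnNhd (ring_isOpen r 1)) z hz').congr (hin z hz').symm
    · exact hana z h
  · intro z hz
    have h1 := ((hana z hz).continuousAt.norm.mono_left nhdsWithin_le_nhds :
      Tendsto (fun w => ‖F w‖) (𝓝[≠] z) (𝓝 ‖F z‖))
    have h2 := h1.comp (circle_tendsto hz)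
    refine tendsto_nhds_unique h2 ?_
    refine tendsto_const_nhds.congr' ?_
    filter_upwards [hon z hz] with θ h3
    exact h3.symm
  · intro z hz
    have hz' := hcirc z hz
    have h1 : Tendsto (fun w => F w * P w) (𝓝[≠] z) (𝓝 (F z * P z)) :=
      ((hana z hz).continuousAt.mul (hP z hz').continuousAt).mono_left nhdsWithin_le_nhds
    have h2 : Tendsto G (𝓝[≠] z) (𝓝 (G z)) := (hG z hz').continuousAt.mono_left nhdsWithin_le_nhds
    refine tendsto_nhds_unique h1 (h2.congr' ?_)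
    filter_upwards [hFq z hz', hne z hz'] with w hw1 hw2
    rw [← hw1, div_mul_cancel₀ _ hw2]

namespace OS

variable {r : ℝ} {f : ℂ → ℂ} {a m n : ℤ → ℂ}

/-- an extremal function extends across the unit circle -/
lemma ext (H : OS r f a m n) (hn : n 0 ≠ 0) :
    ∃ F : ℂ → ℂ, AnalyticOnNhd ℂ F {z | r < ‖z‖ ∧ ‖z‖ ≤ 1} ∧ (∀ z ∈ ring r 1, F z = f z) ∧
      (∀ z, ‖z‖ = 1 → ‖F z‖ = 1) ∧
      ∀ z, ‖z‖ = 1 → F z * LS (fun k => m (-k)) z = ((‖LS (fun k => m (-k)) z‖ : ℝ) : ℂ) := by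
  have hP := H.P_hasL.analytic H.hr.le
  have hG := H.G_hasL.analytic H.hr.le
  have h0 : ∃ z ∈ ring r r⁻¹, LS (fun k => n (-k)) z ≠ 0 := by
    by_contra hcon
    push Not at hcon
    apply hn
    have h1 := H.P_hasL.integral zero_le_one H.hr1 H.one_lt_inv 0
    have h2 : (∫ θ in (0:ℝ)..2 * Real.pi,
        LS (fun k => n (-k)) (((1:ℝ) : ℂ) * ex 1 θ) * ex (-0) θ) = 0 := by
      have : ∀ θ : ℝ, LS (fun k => n (-k)) (((1:ℝ) : ℂ) * ex 1 θ) * ex (-0) θ = 0 := by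
        intro θ
        rw [hcon _ (circ_mem zero_le_one H.hr1 H.one_lt_inv θ), zero_mul]
      simp only [this, intervalIntegral.integral_zero]
    rw [h2] at h1
    have h3 := (mul_eq_zero.1 h1.symm).resolve_left two_pi_ne
    simpa using h3
  have hnorm : ∀ z, ‖z‖ = 1 → ‖LS (fun k => (starRingEnd ℂ) (m k)) z‖ =
      ‖LS (fun k => n (-k)) z‖ := by
    intro z hz
    rw [← h_conj hz, RCLike.norm_conj, H.h_norm hz, Complex.norm_real, norm_norm]
  obtain ⟨F, hF1, hF2, hF3, hF4⟩ := ext_quot H.hr H.hr1 (H.hf.differentiableOn H.hr.le) hP hG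
    H.rel2.2 hnorm h0
  refine ⟨F, hF1, hF2, hF3, fun z hz => ?_⟩
  have h1 := hF4 z hz
  have h2 := H.h_norm hz
  rw [← h_conj hz, h2] at h1
  -- F * |h| = conj h
  have h3 := congrArg (starRingEnd ℂ) h1
  rw [map_mul, Complex.conj_conj, Complex.conj_ofReal] at h3
  have h4 : F z * (starRingEnd ℂ) (F z) = 1 := by
    rw [Complex.mul_conj, Complex.normSq_eq_norm_sq, hF3 z hz]; simp
  calc F z * LS (fun k => m (-k)) z
      = F z * ((starRingEnd ℂ) (F z) * ((‖LS (fun k => m (-k)) z‖ : ℝ) : ℂ)) := by rw [h3]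
    _ = ((‖LS (fun k => m (-k)) z‖ : ℝ) : ℂ) := by rw [← mul_assoc, h4, one_mul]

end OS

end Run7.h331
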