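import Pool.Agent.Run7.h331.SemiDefs

open Filter Topology Set

set_option maxHeartbeats 400000

namespace Run7.h331

lemma IsSemialg.univ {ι : Type} : IsSemialg (Set.univ : Set (ι → ℝ)) := by
  have h : (Set.univ : Set (ι → ℝ)) = {x | 0 < MvPolynomial.eval x (1 : MvPolynomial ι ℝ)} := by
    ext x; simp
  rw [h]
  exact IsSemialg.pos 1

/-- polynomial preimages -/
lemma IsSemialg.preimage {ι κ : Type} {s : Set (κ → ℝ)} (h : IsSemialg s)
    (F : κ → MvPolynomial ι ℝ) : IsSemialg {x : ι → ℝ | (fun k => MvPolynomial.eval x (F k)) ∈ s} := by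
  induction h with
  | pos p =>
    have : {x : ι → ℝ | (fun k => MvPolynomial.eval x (F k)) ∈ {y | 0 < MvPolynomial.eval y p}} =
        {x | 0 < MvPolynomial.eval x (MvPolynomial.bind₁ F p)} := by
      ext x
      have h1 : MvPolynomial.eval (fun k => MvPolynomial.eval x (F k)) p =
          MvPolynomial.eval x (MvPolynomial.bind₁ F p) :=
        (MvPolynomial.eval₂Hom_bind₁ (RingHom.id ℝ) x F p).symm
      change 0 < MvPolynomial.eval (fun k => MvPolynomial.eval x (F k)) p ↔
        0 < MvPolynomial.eval x (MvPolynomial.bind₁ F p)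
      rw [h1]
    rw [this]
    exact IsSemialg.pos _
  | compl _ ih => exact IsSemialg.compl ih
  | inter _ _ ih1 ih2 => exact IsSemialg.inter ih1 ih2

/-- Off the zero set of a nonzero polynomial, membership is locally constant. -/
lemma IsSemialg.locConst {ι : Type} [Finite ι] {s : Set (ι → ℝ)} (h : IsSemialg s) :
    ∃ P : MvPolynomial ι ℝ, P ≠ 0 ∧
      ∀ x, MvPolynomial.eval x P ≠ 0 → ∀ᶠ y in 𝓝 x, (y ∈ s ↔ x ∈ s) := by
  induction h with
  | pos p =>
    by_cases hp : p = 0
    · refine ⟨1, one_ne_zero, fun x _ => Eventually.of_forall fun y => ?_⟩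
      simp [hp]
    · refine ⟨p, hp, fun x hx => ?_⟩
      have hc : Tendsto (fun y => MvPolynomial.eval y p) (𝓝 x) (𝓝 (MvPolynomial.eval x p)) :=
        (MvPolynomial.continuous_eval p).tendsto x
      rcases lt_or_gt_of_ne hx with h | h
      · filter_upwards [hc.eventually_lt_const h] with y hy
        change 0 < MvPolynomial.eval y p ↔ 0 < MvPolynomial.eval x p
        constructor <;> intro h' <;> linarith
      · filter_upwards [hc.eventually_const_lt h] with y hy
        exact ⟨fun _ => h, fun _ => hy⟩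
  | compl _ ih =>
    obtain ⟨P, hP, h⟩ := ih
    refine ⟨P, hP, fun x hx => ?_⟩
    filter_upwards [h x hx] with y hy
    simp only [mem_compl_iff, hy]
  | inter _ _ ih1 ih2 =>
    obtain ⟨P, hP, h⟩ := ih1
    obtain ⟨Q, hQ, h'⟩ := ih2
    refine ⟨P * Q, mul_ne_zero hP hQ, fun x hx => ?_⟩
    rw [map_mul] at hx
    filter_upwards [h x (left_ne_zero_of_mul hx), h' x (right_ne_zero_of_mul hx)] with y hy hy'
    simp only [mem_inter_iff, hy, hy']

/-- A polynomial relation cannot hold between `Y` and `V` if `V = Y² w`, `w → 0` and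
`Y` is smaller than every power of `w`. -/
lemma no_relation {β : Type} {l : Filter β} [l.NeBot] {Y V : β → ℝ}
    (hY : ∀ᶠ b in l, 0 < Y b) (hV : ∀ᶠ b in l, 0 < V b)
    (hY0 : Tendsto Y l (𝓝 0)) (hw : Tendsto (fun b => V b / Y b ^ 2) l (𝓝 0))
    (hj : ∀ j : ℕ, Tendsto (fun b => Y b / (V b / Y b ^ 2) ^ j) l (𝓝 0))
    {R : MvPolynomial (Fin 2) ℝ} (hR : R ≠ 0) :
    ∀ᶠ b in l, MvPolynomial.eval ![Y b, V b] R ≠ 0 := by
  have hne : R.support.Nonempty := by
    rw [Finset.nonempty_iff_ne_empty]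
    intro h
    exact hR (MvPolynomial.support_eq_empty.1 h)
  obtain ⟨d0, hd0, hmin⟩ := Finset.exists_min_image R.support
    (fun d : Fin 2 →₀ ℕ => (toLex (d 0 + 2 * d 1, d 1) : ℕ ×ₗ ℕ)) hne
  set w : β → ℝ := fun b => V b / Y b ^ 2 with hwdef
  have hmono : ∀ d : Fin 2 →₀ ℕ, d ∈ R.support → d ≠ d0 →
      Tendsto (fun b => (Y b ^ d 0 * V b ^ d 1) / (Y b ^ d0 0 * V b ^ d0 1)) l (𝓝 0) := by
    intro d hd hdd
    have h1 := hmin d hd
    have h2 : (d0 0 + 2 * d0 1 < d 0 + 2 * d 1) ∨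
        (d0 0 + 2 * d0 1 = d 0 + 2 * d 1 ∧ d0 1 < d 1) := by
      rw [Prod.Lex.le_iff] at h1
      simp only [ofLex_toLex] at h1
      rcases h1 with h1 | ⟨h1, h1'⟩
      · exact Or.inl h1
      · refine Or.inr ⟨h1, lt_of_le_of_ne h1' ?_⟩
        intro h3
        apply hdd
        ext i
        fin_cases i
        · simp only [Fin.zero_eta, Fin.isValue]
          omega
        · simp only [Fin.mk_one, Fin.isValue]
          omega
    have hrw : ∀ (i j : ℕ), ∀ᶠ b in l, Y b ^ i * V b ^ j = Y b ^ (i + 2 * j) * w b ^ j := by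
      intro i j
      filter_upwards [hY] with b hb
      have : V b = w b * Y b ^ 2 := by
        simp only [hwdef]
        field_simp
      rw [this]
      ring
    have hwpos : ∀ᶠ b in l, 0 < w b := by
      filter_upwards [hY, hV] with b hb hb'
      exact div_pos hb' (pow_pos hb 2)
    rcases h2 with h2 | ⟨h2, h2'⟩
    · obtain ⟨m, hm⟩ : ∃ m, d 0 + 2 * d 1 = (d0 0 + 2 * d0 1) + (m + 1) :=
        ⟨d 0 + 2 * d 1 - (d0 0 + 2 * d0 1) - 1, by omega⟩
      have h3 : Tendsto (fun b => (Y b / w b ^ d0 1) * (Y b ^ m * w b ^ d 1)) l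
          (𝓝 (0 * (0 ^ m * 0 ^ d 1))) :=
        (hj (d0 1)).mul ((hY0.pow m).mul (hw.pow (d 1)))
      rw [zero_mul] at h3
      refine h3.congr' ?_
      filter_upwards [hrw (d 0) (d 1), hrw (d0 0) (d0 1), hY, hwpos] with b h4 h5 h6 h7
      rw [h4, h5, hm]
      field_simp
      ring
    · obtain ⟨m, hm⟩ : ∃ m, d 1 = d0 1 + (m + 1) := ⟨d 1 - d0 1 - 1, by omega⟩
      have h3 : Tendsto (fun b => w b ^ (m + 1)) l (𝓝 (0 ^ (m + 1))) := hw.pow (m + 1)
      rw [zero_pow (Nat.succ_ne_zero m)] at h3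
      refine h3.congr' ?_
      filter_upwards [hrw (d 0) (d 1), hrw (d0 0) (d0 1), hY, hwpos] with b h4 h5 h6 h7
      rw [h4, h5, ← h2, hm]
      field_simp
      ring
  have hlim : Tendsto (fun b => MvPolynomial.eval ![Y b, V b] R /
      (Y b ^ d0 0 * V b ^ d0 1)) l (𝓝 (R.coeff d0)) := by
    have h1 : ∀ b, MvPolynomial.eval ![Y b, V b] R =
        ∑ d ∈ R.support, R.coeff d * (Y b ^ d 0 * V b ^ d 1) := by
      intro b
      rw [MvPolynomial.eval_eq']
      refine Finset.sum_congr rfl (fun d _ => ?_)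
      simp [Fin.prod_univ_two]
    have h2 : Tendsto (fun b => ∑ d ∈ R.support, R.coeff d *
        ((Y b ^ d 0 * V b ^ d 1) / (Y b ^ d0 0 * V b ^ d0 1))) l
        (𝓝 (∑ d ∈ R.support, R.coeff d * (if d = d0 then 1 else 0))) := by
      refine tendsto_finsetSum _ (fun d hd => ?_)
      refine Tendsto.const_mul _ ?_
      split_ifs with h
      · subst h
        refine tendsto_const_nhds.congr' ?_
        filter_upwards [hY, hV] with b h3 h4
        rw [div_self]
        positivity
      · exact hmono d hd h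
    have h3 : ∑ d ∈ R.support, R.coeff d * (if d = d0 then 1 else 0) = R.coeff d0 := by
      simp [hd0]
    rw [h3] at h2
    refine h2.congr (fun b => ?_)
    rw [h1, Finset.sum_div]
    refine Finset.sum_congr rfl (fun d _ => ?_)
    ring
  have hc : R.coeff d0 ≠ 0 := MvPolynomial.mem_support_iff.1 hd0
  filter_upwards [hlim.eventually_ne hc] with b hb hz
  rw [hz, zero_div] at hb
  exact hb rfl

end Run7.h331
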