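import Pool.Agent.Run7.h331.Defs

/-!
Semialgebraic sets.
-/

namespace Run7.h331

/-- Semialgebraic subsets of `ℝ^ι`: finite Boolean combinations of sets given by
one polynomial inequality. -/
inductive IsSemialg {ι : Type} : Set (ι → ℝ) → Prop
  | pos (p : MvPolynomial ι ℝ) : IsSemialg {x | 0 < MvPolynomial.eval x p}
  | compl {s : Set (ι → ℝ)} : IsSemialg s → IsSemialg sᶜ
  | inter {s t : Set (ι → ℝ)} : IsSemialg s → IsSemialg t → IsSemialg (s ∩ t)

/-- A subset of `ℂ^S`, written in real coordinates (real and imaginary parts). -/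
def realForm {S : Type} (V : Set (S → ℂ)) : Set (S × Bool → ℝ) :=
  {x | (fun k : S => (⟨x (k, false), x (k, true)⟩ : ℂ)) ∈ V}

end Run7.h331
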