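import Pool.Agent.Run7.h331.Front

/-!
The structure of the maximisers of a coefficient functional.
-/

open Filter Topology Complex Set

set_option maxHeartbeats 400000

namespace Run7.h331

/-- the closed annulus `r ≤ |z| ≤ 1` -/
def closedAnn (r : ℝ) : Set ℂ := {z | r ≤ ‖z‖ ∧ ‖z‖ ≤ 1}

/-- the Laurent polynomial `∑ c_k z^{-k}` of a functional -/
noncomputable def QL (S : Finset ℤ) (c : ℤ → ℂ) (z : ℂ) : ℂ := ∑ k ∈ S, c k * z ^ (-k)

/-- the polynomial `∑ conj(c_k) z^k` -/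
noncomputable def QS (S : Finset ℤ) (c : ℤ → ℂ) (z : ℂ) : ℂ :=
  ∑ k ∈ S, (starRingEnd ℂ) (c k) * z ^ k

/-- the polynomial `∑ conj(c_k) r^{-2k} z^k` -/
noncomputable def QR (r : ℝ) (S : Finset ℤ) (c : ℤ → ℂ) (z : ℂ) : ℂ :=
  ∑ k ∈ S, (starRingEnd ℂ) (c k) * (r : ℂ) ^ (-2 * k) * z ^ k

/-- the two-sided type -/
def TypeT (r : ℝ) (S : Finset ℤ) (c : ℤ → ℂ) (f : ℂ → ℂ) : Prop :=
  ∃ F h₁ h₂ : ℂ → ℂ, AnalyticOnNhd ℂ F (closedAnn r) ∧ AnalyticOnNhd ℂ h₁ (closedAnn r) ∧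
    AnalyticOnNhd ℂ h₂ (closedAnn r) ∧ (∀ z ∈ annulus r, F z = f z) ∧
    (∀ z ∈ closedAnn r, h₁ z + h₂ z = QL S c z) ∧
    (∀ z, ‖z‖ = 1 → ‖F z‖ = 1 ∧ F z * h₁ z = (‖h₁ z‖ : ℂ)) ∧
    (∀ z, ‖z‖ = r → ‖F z‖ = 1 ∧ F z * h₂ z = (‖h₂ z‖ : ℂ))

lemma inv_mem {r : ℝ} (hr : 0 < r) {z : ℂ} (hz : z ∈ annulus r) : (r : ℂ) / z ∈ annulus r := by
  have h0 : 0 < ‖z‖ := hr.trans hz.1
  have h1 : ‖(r : ℂ) / z‖ = r / ‖z‖ := by
    rw [norm_div, Complex.norm_real, Real.norm_of_nonneg hr.le]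
  refine ⟨?_, ?_⟩
  · rw [h1, lt_div_iff₀ h0]
    have : ‖z‖ < 1 := hz.2
    nlinarith
  · rw [h1, div_lt_one h0]
    exact hz.1

lemma div_div_r {r : ℝ} (hr : 0 < r) {z : ℂ} (hz : z ≠ 0) : (r : ℂ) / (r / z) = z := by
  have : (r : ℂ) ≠ 0 := by exact_mod_cast hr.ne'
  field_simp

/-- gluing along the annulus -/
lemma glue {r : ℝ} (hr : 0 < r) (hr1 : r < 1) {A B : ℂ → ℂ}
    (hA : AnalyticOnNhd ℂ A {z | r < ‖z‖ ∧ ‖z‖ ≤ 1})
    (hB : AnalyticOnNhd ℂ B {z | r < ‖z‖ ∧ ‖z‖ ≤ 1})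
    (hAB : ∀ z ∈ annulus r, A z = B (r / z)) :
    ∃ F : ℂ → ℂ, AnalyticOnNhd ℂ F (closedAnn r) ∧ (∀ z, r < ‖z‖ → F z = A z) ∧
      (∀ z, r ≤ ‖z‖ → ‖z‖ < 1 → F z = B (r / z)) := by
  classical
  refine ⟨fun z => if r < ‖z‖ then A z else B (r / z), ?_, fun z hz => if_pos hz, ?_⟩
  · intro z hz
    rcases lt_or_eq_of_le hz.1 with h | h
    · refine (hA z ⟨h, hz.2⟩).congr ?_
      have : {w : ℂ | r < ‖w‖} ∈ 𝓝 z := (isOpen_lt continuous_const continuous_norm).mem_nhds h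
      filter_upwards [this] with w hw
      exact (if_pos hw).symm
    · have hz0 : z ≠ 0 := by
        intro h0
        rw [h0, norm_zero] at h
        exact hr.ne' h
      have h1 : AnalyticAt ℂ (fun w => B (r / w)) z := by
        have h2 : AnalyticAt ℂ (fun w : ℂ => (r : ℂ) / w) z :=
          analyticAt_const.div analyticAt_id hz0
        refine AnalyticAt.comp' ?_ h2
        refine hB _ ⟨?_, ?_⟩
        · rw [norm_div, Complex.norm_real, Real.norm_of_nonneg hr.le, ← h, div_self hr.ne']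
          exact hr1
        · rw [norm_div, Complex.norm_real, Real.norm_of_nonneg hr.le, ← h, div_self hr.ne']
      refine h1.congr ?_
      have h3 : {w : ℂ | ‖w‖ < 1} ∈ 𝓝 z := by
        refine (isOpen_lt continuous_norm continuous_const).mem_nhds ?_
        rw [Set.mem_ofPred_eq, ← h]; exact hr1
      filter_upwards [h3] with w hw
      split_ifs with h4
      · exact (hAB w ⟨h4, hw⟩).symm
      · rfl
  · intro z h1 h2
    simp only
    split_ifs with h4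
    · exact hAB z ⟨h4, h2⟩
    · rfl

lemma QL_analyticAt (S : Finset ℤ) (c : ℤ → ℂ) {z : ℂ} (hz : z ≠ 0) :
    AnalyticAt ℂ (QL S c) z := by
  unfold QL
  refine Finset.analyticAt_fun_sum _ (fun k _ => analyticAt_const.mul ?_)
  exact AnalyticAt.zpow analyticAt_id hz

/-- the package for a maximiser -/
structure Pack (r : ℝ) (S : Finset ℤ) (c : ℤ → ℂ) (f : ℂ → ℂ) (a m₁ n₁ m₂ n₂ : ℤ → ℂ) : Prop where
  o₁ : OS r f a m₁ n₁
  o₂ : OS r (fun z => f (r / z)) (fun j => a (-j) * ((r ^ (-j) : ℝ) : ℂ)) (fun k => m₂ (-k))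
    (fun k => n₂ (-k))
  sum : ∀ k, m₁ k + ((r ^ k : ℝ) : ℂ) * m₂ k = if k ∈ S then c k else 0

namespace Pack

variable {r : ℝ} {S : Finset ℤ} {c : ℤ → ℂ} {f : ℂ → ℂ} {a m₁ n₁ m₂ n₂ : ℤ → ℂ}

lemma hasSum_QL (S : Finset ℤ) (c : ℤ → ℂ) (z : ℂ) :
    HasSum (fun k : ℤ => (if -k ∈ S then c (-k) else 0) * z ^ k) (QL S c z) := by
  rw [← (Equiv.neg ℤ).hasSum_iff]
  unfold QL
  have h1 : HasSum (fun k : ℤ => (if k ∈ S then c k else 0) * z ^ (-k))
      (∑ k ∈ S, (if k ∈ S then c k else 0) * z ^ (-k)) :=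
    hasSum_sum_of_ne_finset_zero (fun k hk => by rw [if_neg hk, zero_mul])
  have h2 : ∑ k ∈ S, (if k ∈ S then c k else 0) * z ^ (-k) = ∑ k ∈ S, c k * z ^ (-k) :=
    Finset.sum_congr rfl (fun k hk => by rw [if_pos hk])
  rw [h2] at h1
  refine h1.congr_fun (fun k => ?_)
  simp only [Function.comp, Equiv.neg_apply, neg_neg]

/-- the decomposition of the Laurent polynomial -/
lemma decomp (H : Pack r S c f a m₁ n₁ m₂ n₂) {z : ℂ} (hz : z ∈ annulus r) :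
    LS (fun k => m₁ (-k)) z + LS (fun k => m₂ (- -k)) (r / z) = QL S c z := by
  have hr := H.o₁.hr
  have hz' := inv_mem hr hz
  have h1 := H.o₁.h_hasL z (ring_mono le_rfl H.o₁.one_lt_inv.le hz)
  have h2 := H.o₂.h_hasL (r / z) (ring_mono le_rfl H.o₁.one_lt_inv.le hz')
  have h3 := (Equiv.neg ℤ).hasSum_iff.2 h2
  have h4 := h1.add h3
  refine h4.unique ((hasSum_QL S c z).congr_fun (fun k => ?_))
  simp only [Function.comp, Equiv.neg_apply, neg_neg]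
  rw [← H.sum (-k), div_zpow, zpow_neg z]
  push_cast
  field_simp

/-- the outer type -/
lemma typeO (H : Pack r S c f a m₁ n₁ m₂ n₂) (h0 : n₂ 0 = 0) {z : ℂ} (hz : z ∈ annulus r) :
    f z ^ 2 * QL S c z = QS S c z := by
  have h1 : ∀ k, m₂ k = 0 := by
    intro k
    have := H.o₂.m_zero (by simpa using h0) (-k)
    simpa using this
  have h2 : LS (fun k => m₂ (- -k)) (r / z) = 0 := by
    unfold LS
    simp [h1]
  have h3 := H.decomp hz
  rw [h2, add_zero] at h3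
  have h4 : LS (fun k => (starRingEnd ℂ) (m₁ k)) z = QS S c z := by
    unfold LS QS
    rw [tsum_eq_sum (s := S)]
    · refine Finset.sum_congr rfl (fun k hk => ?_)
      have := H.sum k
      rw [h1, mul_zero, add_zero, if_pos hk] at this
      simp only [this]
    · intro k hk
      have := H.sum k
      rw [h1, mul_zero, add_zero, if_neg hk] at this
      simp only [this, map_zero, zero_mul]
  rw [← h3, ← h4, ← H.o₁.rel2.2 z hz, ← H.o₁.rel1.2 z hz]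
  ring

/-- the inner type -/
lemma typeI (H : Pack r S c f a m₁ n₁ m₂ n₂) (h0 : n₁ 0 = 0) {z : ℂ} (hz : z ∈ annulus r) :
    f z ^ 2 * QL S c z = QR r S c z := by
  have hr := H.o₁.hr
  have hz0 := ne_zero_of_mem hr hz
  have hrc : (r : ℂ) ≠ 0 := by exact_mod_cast hr.ne'
  have h1 : ∀ k, m₁ k = 0 := H.o₁.m_zero h0
  have h2 : LS (fun k => m₁ (-k)) z = 0 := by
    unfold LS
    simp [h1]
  have h3 := H.decomp hz
  rw [h2, zero_add] at h3
  have hz' := inv_mem hr hz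
  have h4 : LS (fun k => (starRingEnd ℂ) (m₂ (-k))) (r / z) = QR r S c z := by
    unfold LS QR
    rw [← tsum_neg_int, tsum_eq_sum (s := S)]
    · refine Finset.sum_congr rfl (fun k hk => ?_)
      have := H.sum k
      rw [h1, zero_add, if_pos hk] at this
      have hrk : (r : ℂ) ^ k ≠ 0 := zpow_ne_zero k hrc
      have h5 : (starRingEnd ℂ) (c k) = (r : ℂ) ^ k * (starRingEnd ℂ) (m₂ k) := by
        rw [← this, map_mul, Complex.conj_ofReal]
        push_cast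
        rfl
      simp only [neg_neg]
      rw [h5, div_zpow, zpow_neg z, zpow_neg, neg_mul, zpow_neg, two_mul,
        zpow_add₀ hrc]
      field_simp
    · intro k hk
      have := H.sum k
      rw [h1, zero_add, if_neg hk] at this
      have h5 : ((r ^ k : ℝ) : ℂ) ≠ 0 := by
        exact_mod_cast (zpow_pos hr k).ne'
      have h6 := (mul_eq_zero.1 this).resolve_left h5
      simp only [neg_neg, h6, map_zero, zero_mul]
  have h5 := H.o₂.rel1.2 _ hz'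
  have h6 := H.o₂.rel2.2 _ hz'
  simp only [div_div_r hr hz0] at h5 h6
  rw [← h3, ← h4, ← h6, ← h5]
  ring

/-- the two-sided type -/
lemma typeT (H : Pack r S c f a m₁ n₁ m₂ n₂) (h1 : n₁ 0 ≠ 0) (h2 : n₂ 0 ≠ 0) :
    TypeT r S c f := by
  have hr := H.o₁.hr
  have hr1 := H.o₁.hr1
  have hinv := H.o₁.one_lt_inv
  obtain ⟨F₁, hF₁, hF₁f, hF₁n, hF₁h⟩ := H.o₁.ext h1
  obtain ⟨F₂, hF₂, hF₂f, hF₂n, hF₂h⟩ := H.o₂.ext (by simpa using h2)
  obtain ⟨F, hF, hFA, hFB⟩ := glue hr hr1 hF₁ hF₂ (fun z hz => by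
    rw [hF₁f z hz, hF₂f _ (inv_mem hr hz), div_div_r hr (ne_zero_of_mem hr hz)])
  have hsub : {z : ℂ | r < ‖z‖ ∧ ‖z‖ ≤ 1} ⊆ ring r r⁻¹ :=
    fun z hz => ⟨hz.1, lt_of_le_of_lt hz.2 hinv⟩
  have hA : AnalyticOnNhd ℂ (LS fun k => m₁ (-k)) {z | r < ‖z‖ ∧ ‖z‖ ≤ 1} :=
    (H.o₁.h_hasL.analytic hr.le).mono hsub
  have hB : AnalyticOnNhd ℂ (fun w => QL S c (r / w) - LS (fun k => m₂ (- -k)) w)
      {z | r < ‖z‖ ∧ ‖z‖ ≤ 1} := by
    intro z hz
    have hz0 : z ≠ 0 := by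
      intro h0
      have := hz.1
      rw [h0, norm_zero] at this
      linarith
    have hrc : (r : ℂ) ≠ 0 := by exact_mod_cast hr.ne'
    refine AnalyticAt.sub ?_ ((H.o₂.h_hasL.analytic hr.le).mono hsub z hz)
    have h3 : AnalyticAt ℂ (fun w : ℂ => (r : ℂ) / w) z :=
      analyticAt_const.div analyticAt_id hz0
    exact AnalyticAt.comp' (QL_analyticAt S c (div_ne_zero hrc hz0)) h3
  obtain ⟨K, hK, hKA, hKB⟩ := glue hr hr1 hA hB (fun z hz => by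
    have h3 := H.decomp hz
    rw [div_div_r hr (ne_zero_of_mem hr hz), ← h3, add_sub_cancel_right])
  refine ⟨F, K, fun z => QL S c z - K z, hF, hK, ?_, ?_, ?_, ?_, ?_⟩
  · intro z hz
    have hz0 : z ≠ 0 := by
      intro h0
      have := hz.1
      rw [h0, norm_zero] at this
      linarith
    exact (QL_analyticAt S c hz0).sub (hK z hz)
  · intro z hz
    rw [hFA z hz.1, hF₁f z hz]
  · intro z _
    ring
  · intro z hz
    have hz' : r < ‖z‖ := by rw [hz]; exact hr1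
    rw [hFA z hz', hKA z hz']
    exact ⟨hF₁n z hz, hF₁h z hz⟩
  · intro z hz
    have hz0 : z ≠ 0 := by
      intro h0
      rw [h0, norm_zero] at hz
      exact hr.ne hz
    have hz' : ‖(r : ℂ) / z‖ = 1 := by
      rw [norm_div, Complex.norm_real, Real.norm_of_nonneg hr.le, hz, div_self hr.ne']
    have hz1 : ‖z‖ < 1 := by rw [hz]; exact hr1
    simp only
    rw [hFB z hz.ge hz1, hKB z hz.ge hz1, div_div_r hr hz0, sub_sub_cancel]
    exact ⟨hF₂n _ hz', hF₂h _ hz'⟩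

end Pack

/-- maximisers come with a package; the data depend only on the functional -/
lemma exists_pack {r : ℝ} (hr : 0 < r) (hr1 : r < 1) (S : Finset ℤ) (c : ℤ → ℂ) {f : ℂ → ℂ}
    {a : ℤ → ℂ} (hf : IsB r f) (hL : IsLaurent r f a) (hmax : IsMax r S c a) :
    ∃ m₁ n₁ m₂ n₂ : ℤ → ℂ, n₁ 0 + n₂ 0 = ((Lc S c a).re : ℂ) ∧
      ∀ (g : ℂ → ℂ) (b : ℤ → ℂ), IsB r g → IsLaurent r g b → (Lc S c b).re = (Lc S c a).re →
        Pack r S c g b m₁ n₁ m₂ n₂ := by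
  obtain ⟨m₁, n₁, m₂, n₂, s₁, s₂, hsum, hM, hrel⟩ := exists_data hr hr1 S c (M := (Lc S c a).re)
    (fun g b hg hb => hmax g b hg hb) ⟨f, a, hf, hL, rfl⟩
  refine ⟨m₁, n₁, m₂, n₂, hM, fun g b hg hb hgb => ?_⟩
  obtain ⟨r₁, r₂⟩ := hrel g b hg hb hgb
  refine ⟨⟨hr, hr1, hb, cb_of hr hr1 hg hb, s₁, r₁⟩, ⟨hr, hr1, isLaurent_inv hr hb, ?_, s₂, r₂⟩,
    hsum⟩
  exact cb_of hr hr1 (isB_inv hr hg) (isLaurent_inv hr hb)

lemma max_pos {r : ℝ} (hr : 0 < r) {S : Finset ℤ} {c : ℤ → ℂ}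
    (hc : ∃ k ∈ S, c k ≠ 0) {a : ℤ → ℂ} (hmax : IsMax r S c a) : 0 < (Lc S c a).re := by
  have h0 := zero_mem_interior hr S
  rw [mem_interior_iff_mem_nhds] at h0
  have hcont : Continuous fun ε : ℝ => (fun k : S => (ε : ℂ) * (starRingEnd ℂ) (c k)) :=
    continuous_pi fun k => Complex.continuous_ofReal.mul continuous_const
  have h1 : (fun ε : ℝ => (fun k : S => (ε : ℂ) * (starRingEnd ℂ) (c k))) ⁻¹' (body r S)
      ∈ 𝓝 (0:ℝ) := by
    refine hcont.continuousAt.preimage_mem_nhds ?_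
    have : (fun k : S => ((0:ℝ) : ℂ) * (starRingEnd ℂ) (c k)) = 0 := by
      funext k; simp
    rw [this]; exact h0
  have h2 : ∀ᶠ ε : ℝ in 𝓝[>] 0, (fun k : S => (ε : ℂ) * (starRingEnd ℂ) (c k)) ∈ body r S :=
    nhdsWithin_le_nhds h1
  obtain ⟨ε, hε, hε0⟩ := (h2.and self_mem_nhdsWithin).exists
  obtain ⟨g, b, hg, hb, hgb⟩ := hε
  have h3 := hmax g b hg hb
  have h4 : Lc S c b = (ε : ℂ) * ((∑ k ∈ S, ‖c k‖ ^ 2 : ℝ) : ℂ) := by
    unfold Lc
    push_cast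
    rw [Finset.mul_sum]
    refine Finset.sum_congr rfl (fun k hk => ?_)
    have h5 : b k = (ε : ℂ) * (starRingEnd ℂ) (c k) := (hgb ⟨k, hk⟩).symm
    rw [h5]
    have h6 : c k * (starRingEnd ℂ) (c k) = (‖c k‖ : ℂ) ^ 2 := Complex.mul_conj' (c k)
    linear_combination (ε : ℂ) * h6
  rw [h4, ← Complex.ofReal_mul, Complex.ofReal_re] at h3
  obtain ⟨k0, hk0, hck⟩ := hc
  have h5 : 0 < ∑ k ∈ S, ‖c k‖ ^ 2 := by
    refine Finset.sum_pos' (fun k _ => by positivity) ⟨k0, hk0, ?_⟩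
    have := norm_pos_iff.2 hck
    positivity
  have h6 : 0 < ε * ∑ k ∈ S, ‖c k‖ ^ 2 := mul_pos hε0 h5
  linarith

/-- the three types of maximisers -/
theorem max_types {r : ℝ} (hr : 0 < r) (hr1 : r < 1) (S : Finset ℤ) (c : ℤ → ℂ) {f : ℂ → ℂ}
    {a : ℤ → ℂ} (hf : IsB r f) (hL : IsLaurent r f a) (hmax : IsMax r S c a) :
    (∀ z ∈ annulus r, f z ^ 2 * QL S c z = QS S c z) ∨
    (∀ z ∈ annulus r, f z ^ 2 * QL S c z = QR r S c z) ∨ TypeT r S c f := by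
  obtain ⟨m₁, n₁, m₂, n₂, -, h⟩ := exists_pack hr hr1 S c hf hL hmax
  have H := h f a hf hL rfl
  by_cases h2 : n₂ 0 = 0
  · exact Or.inl fun z hz => H.typeO h2 hz
  by_cases h1 : n₁ 0 = 0
  · exact Or.inr (Or.inl fun z hz => H.typeI h1 hz)
  · exact Or.inr (Or.inr (H.typeT h1 h2))

/-- two functions with the same product with a nonzero function -/
lemma eq_of_mul {r : ℝ} (hr : 0 < r) {f g P : ℂ → ℂ}
    (hf : DifferentiableOn ℂ f (ring r 1)) (hg : DifferentiableOn ℂ g (ring r 1))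
    (hP : DifferentiableOn ℂ P (ring r 1)) (h : ∀ z ∈ ring r 1, f z * P z = g z * P z)
    (h0 : ∃ z ∈ ring r 1, P z ≠ 0) {z : ℂ} (hz : z ∈ ring r 1) : f z = g z := by
  obtain ⟨w, hw, hw0⟩ := h0
  have ho := ring_isOpen r 1
  have hd : AnalyticOnNhd ℂ (fun z => f z - g z) (ring r 1) :=
    (hf.sub hg).analyticOnNhd ho
  have hev : (fun z => f z - g z) =ᶠ[𝓝 w] 0 := by
    have h1 : ∀ᶠ u in 𝓝 w, P u ≠ 0 :=
      (hP.differentiableAt (ho.mem_nhds hw)).continuousAt.eventually_ne hw0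
    filter_upwards [h1, ho.mem_nhds hw] with u hu hu2
    have := h u hu2
    have h3 : f u = g u := mul_right_cancel₀ hu this
    simp [h3]
  have := hd.eqOn_zero_of_preconnected_of_eventuallyEq_zero (ring_isPreconnected hr.le) hw hev hz
  exact sub_eq_zero.1 this

lemma OS.P_ne {r : ℝ} {f : ℂ → ℂ} {a m n : ℤ → ℂ} (H : OS r f a m n) (hn : n 0 ≠ 0) :
    ∃ z ∈ ring r 1, LS (fun k => n (-k)) z ≠ 0 := by
  by_contra hcon
  push Not at hcon
  apply hn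
  obtain ⟨ρ, h1, h2⟩ := exists_between H.hr1
  have h0 : 0 ≤ ρ := (H.hr.trans h1).le
  have h3 := (H.P_hasL.mono le_rfl H.one_lt_inv.le).integral h0 h1 h2 0
  have h4 : (∫ θ in (0:ℝ)..2 * Real.pi,
      LS (fun k => n (-k)) ((ρ : ℂ) * ex 1 θ) * ex (-0) θ) = 0 := by
    have : ∀ θ : ℝ, LS (fun k => n (-k)) ((ρ : ℂ) * ex 1 θ) * ex (-0) θ = 0 := by
      intro θ
      rw [hcon _ (circ_mem h0 h1 h2 θ), zero_mul]
    simp only [this, intervalIntegral.integral_zero]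
  rw [h4] at h3
  have h5 := (mul_eq_zero.1 h3.symm).resolve_left two_pi_ne
  simpa using h5

/-- uniqueness of the maximiser -/
theorem max_unique {r : ℝ} (hr : 0 < r) (hr1 : r < 1) {S : Finset ℤ} {c : ℤ → ℂ}
    (hc : ∃ k ∈ S, c k ≠ 0) {f g : ℂ → ℂ}
    {a b : ℤ → ℂ} (hf : IsB r f) (hL : IsLaurent r f a) (hmax : IsMax r S c a)
    (hg : IsB r g) (hL' : IsLaurent r g b) (hmax' : IsMax r S c b) {z : ℂ} (hz : z ∈ annulus r) :
    f z = g z := by
  have hab : (Lc S c b).re = (Lc S c a).re :=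
    le_antisymm (hmax g b hg hL') (hmax' f a hf hL)
  obtain ⟨m₁, n₁, m₂, n₂, hM, h⟩ := exists_pack hr hr1 S c hf hL hmax
  have H := h f a hf hL rfl
  have H' := h g b hg hL' hab
  by_cases h1 : n₁ 0 = 0
  · have h2 : n₂ 0 ≠ 0 := by
      intro h2
      rw [h1, h2, add_zero] at hM
      have h3 := max_pos hr hc hmax
      have h4 : (Lc S c a).re = 0 := by exact_mod_cast hM.symm
      linarith
    have h3 : ∀ w ∈ ring r 1, f (r / w) = g (r / w) := by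
      intro w hw
      have hP : DifferentiableOn ℂ (LS fun k => n₂ (- -k)) (ring r 1) :=
        (H.o₂.P_hasL.mono le_rfl H.o₂.one_lt_inv.le).differentiableOn hr.le
      refine eq_of_mul hr (f := fun z => f (r / z)) (g := fun z => g (r / z))
        (isB_inv hr hf).1 (isB_inv hr hg).1 hP
        (fun u hu => ?_) (H.o₂.P_ne (by simpa using h2)) hw
      rw [H.o₂.rel2.2 u hu, H'.o₂.rel2.2 u hu]
    have h4 := h3 _ (inv_mem hr hz)
    rwa [div_div_r hr (ne_zero_of_mem hr hz)] at h4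
  · have hP : DifferentiableOn ℂ (LS fun k => n₁ (-k)) (ring r 1) :=
      (H.o₁.P_hasL.mono le_rfl H.o₁.one_lt_inv.le).differentiableOn hr.le
    refine eq_of_mul hr hf.1 hg.1 hP (fun u hu => ?_) (H.o₁.P_ne h1) hz
    rw [H.o₁.rel2.2 u hu, H'.o₁.rel2.2 u hu]

end Run7.h331
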