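import Pool.Agent.Run7.h331.Struct

/-!
The theta quotients of the annulus.
-/

open Filter Topology Complex Set

set_option maxHeartbeats 400000

namespace Run7.h331

/-- the infinite product `∏_{n ≥ 0} (1 - q^n w)` -/
noncomputable def poch (q : ℝ) (w : ℂ) : ℂ := ∏' n : ℕ, (1 - (q : ℂ) ^ n * w)

/-- the theta function `∏_{n ≥ 0} (1 - q^n w) (1 - q^{n+1} / w)` -/
noncomputable def theta (q : ℝ) (w : ℂ) : ℂ := poch q w * poch q (q / w)

/-- the elementary factor of the annulus with a simple zero at `a` -/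
noncomputable def bl (r : ℝ) (a z : ℂ) : ℂ :=
  theta (r ^ 2) (z / a) / theta (r ^ 2) ((starRingEnd ℂ) a * z)

section

variable {q : ℝ} (h0 : 0 < q) (h1 : q < 1)

include h0 h1

lemma poch_summable (w : ℂ) : Summable fun n : ℕ => ‖-((q : ℂ) ^ n * w)‖ := by
  have h2 : Summable fun n : ℕ => q ^ n * ‖w‖ :=
    (summable_geometric_of_lt_one h0.le h1).mul_right _
  refine h2.congr (fun n => ?_)
  rw [norm_neg, norm_mul, norm_pow, Complex.norm_real, Real.norm_of_nonneg h0.le]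

lemma poch_multipliable (w : ℂ) : Multipliable fun n : ℕ => (1 - (q : ℂ) ^ n * w) := by
  have := multipliable_one_add_of_summable (poch_summable h0 h1 w)
  simpa only [← sub_eq_add_neg] using this

lemma poch_succ (w : ℂ) : poch q w = (1 - w) * poch q (q * w) := by
  have hm : Multipliable fun n : ℕ => (1 - (q : ℂ) ^ (n + 1) * w) := by
    refine (poch_multipliable h0 h1 (q * w)).congr (fun n => ?_)
    rw [pow_succ]
    ring
  have h2 := tprod_eq_zero_mul' (f := fun n : ℕ => (1 - (q : ℂ) ^ n * w)) hm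
  unfold poch
  rw [h2, pow_zero, one_mul]
  congr 1
  refine tprod_congr (fun n => ?_)
  rw [pow_succ]
  ring

lemma poch_ne_zero {w : ℂ} (hw : ∀ n : ℕ, 1 - (q : ℂ) ^ n * w ≠ 0) : poch q w ≠ 0 := by
  have := tprod_one_add_ne_zero_of_summable (f := fun n : ℕ => -((q : ℂ) ^ n * w))
    (fun n => by rw [← sub_eq_add_neg]; exact hw n) (poch_summable h0 h1 w)
  simp only [← sub_eq_add_neg] at this
  exact this

lemma poch_ne_zero' {w : ℂ} (hw : ‖w‖ < 1) : poch q w ≠ 0 := by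
  refine poch_ne_zero h0 h1 (fun n h => ?_)
  have h2 : (q : ℂ) ^ n * w = 1 := by linear_combination -h
  have h3 := congrArg norm h2
  rw [norm_mul, norm_pow, Complex.norm_real, Real.norm_of_nonneg h0.le, norm_one] at h3
  have h4 : q ^ n ≤ 1 := pow_le_one₀ h0.le h1.le
  have h5 : q ^ n * ‖w‖ ≤ 1 * ‖w‖ := mul_le_mul_of_nonneg_right h4 (norm_nonneg _)
  linarith

lemma poch_conj (w : ℂ) : (starRingEnd ℂ) (poch q w) = poch q ((starRingEnd ℂ) w) := by
  unfold poch
  have h2 := (poch_multipliable h0 h1 w).hasProd.map (starRingEnd ℂ) Complex.continuous_conj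
  rw [← h2.tprod_eq]
  refine tprod_congr (fun n => ?_)
  simp only [Function.comp, map_sub, map_one, map_mul, map_pow, Complex.conj_ofReal]

lemma poch_differentiable : Differentiable ℂ (poch q) := by
  intro w
  have hball : Metric.ball (0:ℂ) (‖w‖ + 1) ∈ 𝓝 w :=
    Metric.isOpen_ball.mem_nhds (by rw [Metric.mem_ball, dist_zero_right]; linarith)
  have h2 := Summable.hasProdLocallyUniformlyOn_nat_one_add
    (f := fun (n : ℕ) (w : ℂ) => -((q : ℂ) ^ n * w)) (K := Metric.ball (0:ℂ) (‖w‖ + 1))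
    Metric.isOpen_ball (u := fun n => q ^ n * (‖w‖ + 1))
    ((summable_geometric_of_lt_one h0.le h1).mul_right _)
    (Eventually.of_forall (fun n x hx => by
      rw [norm_neg, norm_mul, norm_pow, Complex.norm_real, Real.norm_of_nonneg h0.le]
      rw [Metric.mem_ball, dist_zero_right] at hx
      exact mul_le_mul_of_nonneg_left hx.le (pow_nonneg h0.le n)))
    (fun n => Continuous.continuousOn (by fun_prop))
  simp only [← sub_eq_add_neg] at h2
  have h3 : DifferentiableOn ℂ (fun x => ∏' i : ℕ, (1 - (q : ℂ) ^ i * x))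
      (Metric.ball (0:ℂ) (‖w‖ + 1)) := by
    refine TendstoLocallyUniformlyOn.differentiableOn h2 ?_ Metric.isOpen_ball
    refine Eventually.of_forall (fun s => ?_)
    refine Differentiable.differentiableOn ?_
    fun_prop
  exact h3.differentiableAt hball

lemma theta_inv {w : ℂ} (hw : w ≠ 0) : theta q w⁻¹ * w = -theta q w := by
  unfold theta
  have e1 : (q : ℂ) / w⁻¹ = q * w := by rw [div_inv_eq_mul]
  have e2 : (q : ℂ) * w⁻¹ = q / w := (div_eq_mul_inv _ _).symm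
  rw [poch_succ h0 h1 w⁻¹, poch_succ h0 h1 w, e1, e2]
  have : (1 - w⁻¹) * w = -(1 - w) := by
    rw [sub_mul, inv_mul_cancel₀ hw]; ring
  linear_combination poch q (q / w) * poch q (q * w) * this

lemma theta_div (w : ℂ) (hw : w ≠ 0) : theta q (q / w) = theta q w := by
  unfold theta
  have hq : (q : ℂ) ≠ 0 := by exact_mod_cast h0.ne'
  have e : (q : ℂ) / (q / w) = w := by field_simp
  rw [e, mul_comm]

lemma theta_conj (w : ℂ) : (starRingEnd ℂ) (theta q w) = theta q ((starRingEnd ℂ) w) := by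
  unfold theta
  rw [map_mul, poch_conj h0 h1, poch_conj h0 h1, map_div₀, Complex.conj_ofReal]

lemma theta_norm_conj (w : ℂ) : ‖theta q w‖ = ‖theta q ((starRingEnd ℂ) w)‖ := by
  rw [← theta_conj h0 h1, RCLike.norm_conj]

lemma theta_analyticAt {w : ℂ} (hw : w ≠ 0) : AnalyticAt ℂ (theta q) w := by
  unfold theta
  refine AnalyticAt.mul ?_ ?_
  · exact (poch_differentiable h0 h1).analyticAt w
  · exact AnalyticAt.comp' ((poch_differentiable h0 h1).analyticAt _)
      (analyticAt_const.div analyticAt_id hw)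

end

section

variable {r : ℝ} (hr : 0 < r) (hr1 : r < 1)

include hr hr1

lemma sq_pos' : 0 < r ^ 2 := by positivity

lemma sq_lt' : r ^ 2 < 1 := by nlinarith

lemma theta_den_ne {a z : ℂ} (ha : a ∈ annulus r) (hz : z ∈ closedAnn r) :
    theta (r ^ 2) ((starRingEnd ℂ) a * z) ≠ 0 := by
  have h0 := sq_pos' hr hr1
  have h1 := sq_lt' hr hr1
  have ha0 : 0 < ‖a‖ := hr.trans ha.1
  have hz0 : 0 < ‖z‖ := hr.trans_le hz.1
  have hn : ‖(starRingEnd ℂ) a * z‖ = ‖a‖ * ‖z‖ := by rw [norm_mul, RCLike.norm_conj]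
  unfold theta
  refine mul_ne_zero (poch_ne_zero' h0 h1 ?_) (poch_ne_zero' h0 h1 ?_)
  · rw [hn]
    calc ‖a‖ * ‖z‖ ≤ ‖a‖ * 1 := mul_le_mul_of_nonneg_left hz.2 ha0.le
      _ < 1 := by rw [mul_one]; exact ha.2
  · rw [norm_div, hn, Complex.norm_real, Real.norm_of_nonneg h0.le, div_lt_one (by positivity)]
    calc r ^ 2 = r * r := pow_two r
      _ < ‖a‖ * r := mul_lt_mul_of_pos_right ha.1 hr
      _ ≤ ‖a‖ * ‖z‖ := mul_le_mul_of_nonneg_left hz.1 ha0.le

lemma bl_norm_one {a z : ℂ} (ha : a ∈ annulus r) (hz : ‖z‖ = 1) : ‖bl r a z‖ = ‖a‖⁻¹ := by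
  have h0 := sq_pos' hr hr1
  have h1 := sq_lt' hr hr1
  have ha0 : 0 < ‖a‖ := hr.trans ha.1
  have hzc : z ∈ closedAnn r := ⟨by rw [hz]; exact hr1.le, hz.le⟩
  have hz0 : z ≠ 0 := by intro h; rw [h, norm_zero] at hz; exact zero_ne_one hz
  have hane : a ≠ 0 := norm_pos_iff.1 ha0
  have hd := theta_den_ne hr hr1 ha hzc
  have hcz : (starRingEnd ℂ) z = z⁻¹ := by
    rw [Complex.inv_def, Complex.normSq_eq_norm_sq, hz]
    simp
  unfold bl
  rw [norm_div, theta_norm_conj h0 h1 (z / a), map_div₀, hcz]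
  have e : z⁻¹ / (starRingEnd ℂ) a = ((starRingEnd ℂ) a * z)⁻¹ := by
    rw [mul_inv]; ring
  rw [e]
  have h2 := theta_inv h0 h1 (w := (starRingEnd ℂ) a * z)
    (mul_ne_zero ((map_ne_zero _).2 hane) hz0)
  have h3 := congrArg norm h2
  rw [norm_mul, norm_neg, norm_mul, RCLike.norm_conj, hz, mul_one] at h3
  rw [div_eq_iff (norm_ne_zero_iff.2 hd), ← h3]
  field_simp

lemma bl_norm_r {a z : ℂ} (ha : a ∈ annulus r) (hz : ‖z‖ = r) : ‖bl r a z‖ = 1 := by
  have h0 := sq_pos' hr hr1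
  have h1 := sq_lt' hr hr1
  have ha0 : 0 < ‖a‖ := hr.trans ha.1
  have hzc : z ∈ closedAnn r := ⟨hz.ge, by rw [hz]; exact hr1.le⟩
  have hz0 : z ≠ 0 := by intro h; rw [h, norm_zero] at hz; exact hr.ne hz
  have hane : a ≠ 0 := norm_pos_iff.1 ha0
  have hd := theta_den_ne hr hr1 ha hzc
  have hcz : (starRingEnd ℂ) z = ((r ^ 2 : ℝ) : ℂ) / z := by
    rw [eq_div_iff hz0, mul_comm, Complex.mul_conj, Complex.normSq_eq_norm_sq, hz]
  unfold bl
  rw [norm_div, theta_norm_conj h0 h1 (z / a), map_div₀, hcz]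
  have e : ((r ^ 2 : ℝ) : ℂ) / z / (starRingEnd ℂ) a = ((r ^ 2 : ℝ) : ℂ) / ((starRingEnd ℂ) a * z) := by
    rw [div_div, mul_comm z]
  rw [e, theta_div h0 h1 _ (mul_ne_zero ((map_ne_zero _).2 hane) hz0),
    div_self (norm_ne_zero_iff.2 hd)]

/-- the cofactor of the simple zero -/
noncomputable def cof (r : ℝ) (a z : ℂ) : ℂ :=
  -(a⁻¹ * (poch (r ^ 2) ((r ^ 2 : ℝ) * (z / a)) * poch (r ^ 2) ((r ^ 2 : ℝ) / (z / a)))) /
    theta (r ^ 2) ((starRingEnd ℂ) a * z)

lemma bl_eq {a : ℂ} (ha : a ∈ annulus r) (z : ℂ) :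
    bl r a z = (z - a) * cof r a z := by
  have h0 := sq_pos' hr hr1
  have h1 := sq_lt' hr hr1
  have hane : a ≠ 0 := norm_pos_iff.1 (hr.trans ha.1)
  unfold bl cof
  rw [theta, poch_succ h0 h1 (z / a), ← mul_div_assoc]
  congr 1
  field_simp
  ring

lemma cof_ne {a z : ℂ} (ha : a ∈ annulus r) (hz : z ∈ closedAnn r) : cof r a z ≠ 0 := by
  have h0 := sq_pos' hr hr1
  have h1 := sq_lt' hr hr1
  have ha0 : 0 < ‖a‖ := hr.trans ha.1
  have hane : a ≠ 0 := norm_pos_iff.1 ha0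
  have hz0 : 0 < ‖z‖ := hr.trans_le hz.1
  unfold cof
  refine div_ne_zero (neg_ne_zero.2 (mul_ne_zero (inv_ne_zero hane)
    (mul_ne_zero (poch_ne_zero' h0 h1 ?_) (poch_ne_zero' h0 h1 ?_)))) (theta_den_ne hr hr1 ha hz)
  · rw [norm_mul, norm_div, Complex.norm_real, Real.norm_of_nonneg h0.le, ← mul_div_assoc,
      div_lt_one ha0]
    calc r ^ 2 * ‖z‖ ≤ r ^ 2 * 1 := mul_le_mul_of_nonneg_left hz.2 h0.le
      _ = r * r := by ring
      _ < r := by nlinarith
      _ < ‖a‖ := ha.1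
  · rw [norm_div, norm_div, Complex.norm_real, Real.norm_of_nonneg h0.le, div_div_eq_mul_div,
      div_lt_one hz0]
    calc r ^ 2 * ‖a‖ < r ^ 2 * 1 := mul_lt_mul_of_pos_left ha.2 h0
      _ = r * r := by ring
      _ < r := by nlinarith
      _ ≤ ‖z‖ := hz.1

lemma cof_analyticAt {a z : ℂ} (ha : a ∈ annulus r) (hz : z ∈ closedAnn r) :
    AnalyticAt ℂ (cof r a) z := by
  have h0 := sq_pos' hr hr1
  have h1 := sq_lt' hr hr1
  have ha0 : 0 < ‖a‖ := hr.trans ha.1
  have hane : a ≠ 0 := norm_pos_iff.1 ha0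
  have hz0 : z ≠ 0 := norm_pos_iff.1 (hr.trans_le hz.1)
  unfold cof
  have hza : AnalyticAt ℂ (fun z : ℂ => z / a) z := analyticAt_id.div_const
  refine AnalyticAt.div ?_ ?_ (theta_den_ne hr hr1 ha hz)
  · refine AnalyticAt.neg (analyticAt_const.mul (AnalyticAt.mul ?_ ?_))
    · exact AnalyticAt.comp' ((poch_differentiable h0 h1).analyticAt _) (analyticAt_const.mul hza)
    · exact AnalyticAt.comp' ((poch_differentiable h0 h1).analyticAt _)
        (analyticAt_const.div hza (div_ne_zero hz0 hane))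
  · refine AnalyticAt.comp' (theta_analyticAt h0 h1 ?_) (analyticAt_const.mul analyticAt_id)
    exact mul_ne_zero ((map_ne_zero _).2 hane) hz0

lemma bl_analyticAt {a z : ℂ} (ha : a ∈ annulus r) (hz : z ∈ closedAnn r) :
    AnalyticAt ℂ (bl r a) z := by
  have : bl r a = fun z => (z - a) * cof r a z := funext (bl_eq hr hr1 ha)
  rw [this]
  exact (analyticAt_id.sub analyticAt_const).mul (cof_analyticAt hr hr1 ha hz)

end

end Run7.h331
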