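import Pool.Agent.Run7.h331.ClassB
import Pool.Agent.Run7.h331.DualLimit

/-!
Continuous functions on two circles, and the Hahn-Banach extension of a coefficient functional.
-/

open Filter Topology Complex Set

set_option maxHeartbeats 400000

namespace Run7.h331

/-- two circles: `true` is the outer one, `false` the inner one -/
abbrev KK : Type := Bool × Circle

lemma circle_ne (z : Circle) : (z : ℂ) ≠ 0 := Circle.coe_ne_zero z

/-- `z^k` on the circle `b`, zero on the other one -/
noncomputable def mon (b : Bool) (k : ℤ) : C(KK, ℂ) :=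
  ⟨fun p => (if p.1 = b then 1 else 0) * (p.2 : ℂ) ^ k, by
    refine Continuous.mul ?_ ?_
    · exact (continuous_of_discreteTopology (f := fun x : Bool => (if x = b then (1:ℂ) else 0))).comp
        continuous_fst
    · refine Continuous.zpow₀ ?_ k (fun p => Or.inl (circle_ne p.2))
      exact continuous_induced_dom.comp continuous_snd⟩

lemma mon_apply (b : Bool) (k : ℤ) (p : KK) :
    mon b k p = (if p.1 = b then 1 else 0) * (p.2 : ℂ) ^ k := rfl

lemma mon_mul (b : Bool) (k l : ℤ) : mon b k * mon b l = mon b (k + l) := by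
  ext p
  simp only [ContinuousMap.mul_apply, mon_apply]
  rw [zpow_add₀ (circle_ne p.2)]
  split_ifs <;> ring

lemma mon_mul_ne {b b' : Bool} (h : b ≠ b') (k l : ℤ) : mon b k * mon b' l = 0 := by
  ext p
  simp only [ContinuousMap.mul_apply, mon_apply, ContinuousMap.zero_apply]
  by_cases h1 : p.1 = b
  · have h2 : ¬ p.1 = b' := fun h2 => h (h1.symm.trans h2)
    rw [if_neg h2]
    ring
  · rw [if_neg h1]
    ring

lemma mon_star (b : Bool) (k : ℤ) : star (mon b k) = mon b (-k) := by
  ext p
  rw [ContinuousMap.star_apply, mon_apply, mon_apply, Complex.star_def, map_mul, map_zpow₀,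
    ← Circle.coe_inv_eq_conj, Circle.coe_inv, inv_zpow, zpow_neg]
  split_ifs <;> simp

lemma mon_norm_le (b : Bool) (k : ℤ) : ‖mon b k‖ ≤ 1 := by
  rw [ContinuousMap.norm_le _ zero_le_one]
  intro p
  rw [mon_apply, norm_mul, norm_zpow, Circle.norm_coe, one_zpow, mul_one]
  split_ifs <;> simp

lemma mon_one : mon true 0 + mon false 0 = 1 := by
  ext ⟨b, z⟩
  cases b <;> simp [mon_apply]

/-- `z^k` restricted to both circles -/
noncomputable def EE (r : ℝ) (k : ℤ) : C(KK, ℂ) := mon true k + ((r ^ k : ℝ) : ℂ) • mon false k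

lemma EE_true (r : ℝ) (k : ℤ) (z : Circle) : EE r k (true, z) = (z : ℂ) ^ k := by
  simp [EE, mon_apply]

lemma EE_false (r : ℝ) (k : ℤ) (z : Circle) : EE r k (false, z) = ((r : ℂ) * z) ^ k := by
  simp [EE, mon_apply, mul_zpow]

lemma EE_mul_true (r : ℝ) (j k : ℤ) : EE r j * mon true k = mon true (j + k) := by
  unfold EE
  rw [add_mul, mon_mul, smul_mul_assoc, mon_mul_ne (by decide), smul_zero, add_zero]

lemma EE_mul_false (r : ℝ) (j k : ℤ) :
    EE r j * mon false k = ((r ^ j : ℝ) : ℂ) • mon false (j + k) := by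
  unfold EE
  rw [add_mul, mon_mul_ne (by decide), zero_add, smul_mul_assoc, mon_mul]

/-- the circle point of angle `θ` -/
noncomputable def cpt (b : Bool) (θ : ℝ) : KK := (b, Circle.exp θ)

lemma cpt_continuous (b : Bool) : Continuous (cpt b) := by
  unfold cpt
  fun_prop

/-- Fourier coefficient on the outer circle -/
noncomputable def coefF (k : ℤ) : C(KK, ℂ) →L[ℂ] ℂ :=
  LinearMap.mkContinuous
    { toFun := fun φ => (2 * Real.pi : ℂ)⁻¹ * ∫ θ in (0:ℝ)..2 * Real.pi, φ (cpt true θ) * ex (-k) θ
      map_add' := by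
        intro φ ψ
        have h : ∀ φ : C(KK, ℂ), IntervalIntegrable (fun θ => φ (cpt true θ) * ex (-k) θ)
            MeasureTheory.volume 0 (2 * Real.pi) := fun φ =>
          ((φ.continuous.comp (cpt_continuous true)).mul (ex_continuous _)).intervalIntegrable _ _
        rw [← mul_add, ← intervalIntegral.integral_add (h φ) (h ψ)]
        congr 1
        refine intervalIntegral.integral_congr (fun θ _ => ?_)
        simp only [ContinuousMap.add_apply]
        ring
      map_smul' := by
        intro c φ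
        simp only [ContinuousMap.smul_apply, smul_eq_mul, RingHom.id_apply]
        have : (∫ θ in (0:ℝ)..2 * Real.pi, c * φ (cpt true θ) * ex (-k) θ) =
            c * ∫ θ in (0:ℝ)..2 * Real.pi, φ (cpt true θ) * ex (-k) θ := by
          rw [← intervalIntegral.integral_const_mul]
          refine intervalIntegral.integral_congr (fun θ _ => ?_)
          ring
        rw [this]
        ring } 1 (by
      intro φ
      simp only [LinearMap.coe_mk, AddHom.coe_mk]
      have hp : 0 < 2 * Real.pi := by positivity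
      have h3 : (2 * Real.pi : ℂ) = ((2 * Real.pi : ℝ) : ℂ) := by push_cast; ring
      have h1 : ‖∫ θ in (0:ℝ)..2 * Real.pi, φ (cpt true θ) * ex (-k) θ‖ ≤
          ‖φ‖ * |2 * Real.pi - 0| := by
        refine intervalIntegral.norm_integral_le_of_norm_le_const (fun θ _ => ?_)
        rw [norm_mul, norm_ex, mul_one]
        exact φ.norm_coe_le_norm _
      rw [norm_mul, norm_inv, h3, Complex.norm_real, Real.norm_of_nonneg hp.le, one_mul,
        inv_mul_le_iff₀ hp]
      rw [sub_zero, abs_of_pos hp] at h1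
      linarith)

lemma coefF_apply (k : ℤ) (φ : C(KK, ℂ)) :
    coefF k φ = (2 * Real.pi : ℂ)⁻¹ * ∫ θ in (0:ℝ)..2 * Real.pi, φ (cpt true θ) * ex (-k) θ := rfl

lemma cexp_zpow (θ : ℝ) (k : ℤ) : ((Circle.exp θ : Circle) : ℂ) ^ k = ex k θ := by
  unfold ex
  rw [Circle.coe_exp]

lemma coefF_EE (r : ℝ) (k j : ℤ) : coefF k (EE r j) = if j = k then 1 else 0 := by
  rw [coefF_apply]
  have h : ∀ θ : ℝ, EE r j (cpt true θ) * ex (-k) θ = ex (j - k) θ := by
    intro θ
    unfold cpt
    rw [EE_true, cexp_zpow, ex_mul]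
    congr 1
  simp only [h]
  rw [int_ex]
  by_cases hjk : j = k
  · rw [if_pos hjk, if_pos (by omega), inv_mul_cancel₀ two_pi_ne]
  · rw [if_neg hjk, if_neg (by omega), mul_zero]

/-- the maximum principle for Laurent polynomials -/
lemma laurent_poly_max {r : ℝ} (hr : 0 < r) (hr1 : r < 1) (b : ℤ →₀ ℂ) {C : ℝ}
    (h1 : ∀ z : ℂ, ‖z‖ = 1 → ‖b.sum (fun k x => x * z ^ k)‖ ≤ C)
    (h2 : ∀ z : ℂ, ‖z‖ = r → ‖b.sum (fun k x => x * z ^ k)‖ ≤ C) :
    ∀ z ∈ annulus r, ‖b.sum (fun k x => x * z ^ k)‖ ≤ C := by
  have hcl : closure (annulus r) ⊆ {z | r ≤ ‖z‖ ∧ ‖z‖ ≤ 1} := by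
    apply closure_minimal
    · intro z hz; exact ⟨hz.1.le, hz.2.le⟩
    · exact (isClosed_le continuous_const continuous_norm).inter
        (isClosed_le continuous_norm continuous_const)
  have hfr : ∀ z ∈ frontier (annulus r), ‖z‖ = 1 ∨ ‖z‖ = r := by
    intro z hz
    rw [(annulus_isOpen r).frontier_eq] at hz
    have h3 := hcl hz.1
    have h4 : ¬ (r < ‖z‖ ∧ ‖z‖ < 1) := hz.2
    by_contra hcon
    push Not at hcon
    apply h4
    exact ⟨lt_of_le_of_ne h3.1 (Ne.symm hcon.2), lt_of_le_of_ne h3.2 hcon.1⟩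
  have hd : ∀ z : ℂ, z ≠ 0 → DifferentiableAt ℂ (fun z => b.sum (fun k x => x * z ^ k)) z := by
    intro z hz
    unfold Finsupp.sum
    refine DifferentiableAt.fun_sum (fun k _ => ?_)
    exact (differentiableAt_zpow.2 (Or.inl hz)).const_mul _
  have hne : ∀ z ∈ closure (annulus r), z ≠ 0 := by
    intro z hz h0
    have := (hcl hz).1
    rw [h0, norm_zero] at this
    linarith
  have hdc : DiffContOnCl ℂ (fun z => b.sum (fun k x => x * z ^ k)) (annulus r) := by
    refine ⟨fun z hz => (hd z (hne z (subset_closure hz))).differentiableWithinAt, fun z hz =>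
      (hd z (hne z hz)).continuousAt.continuousWithinAt⟩
  have hbdd : Bornology.IsBounded (annulus r) := by
    refine (Metric.isBounded_ball (x := (0:ℂ)) (r := 1)).subset ?_
    intro z hz
    simpa using hz.2
  intro z hz
  refine Complex.norm_le_of_forall_mem_frontier_norm_le hbdd hdc (fun w hw => ?_)
    (subset_closure hz)
  rcases hfr w hw with h | h
  · exact h1 w h
  · exact h2 w h

/-- finitely supported Laurent series -/
lemma hasSum_finsupp (b : ℤ →₀ ℂ) (z : ℂ) :
    HasSum (fun k : ℤ => b k * z ^ k) (b.sum (fun k x => x * z ^ k)) := by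
  unfold Finsupp.sum
  refine hasSum_sum_of_ne_finset_zero (fun k hk => ?_)
  rw [Finsupp.notMem_support_iff.1 hk, zero_mul]

/-- Hahn-Banach: a norm preserving extension of the coefficient functional. -/
theorem exists_functional {r : ℝ} (hr : 0 < r) (hr1 : r < 1) (S : Finset ℤ) (c : ℤ → ℂ) {M : ℝ}
    (hmax : ∀ (g : ℂ → ℂ) (b : ℤ → ℂ), IsB r g → IsLaurent r g b →
      (∑ k ∈ S, c k * b k).re ≤ M) :
    ∃ Λ : C(KK, ℂ) →L[ℂ] ℂ, ‖Λ‖ ≤ M ∧ ∀ k, Λ (EE r k) = if k ∈ S then c k else 0 := by
  have hM : 0 ≤ M := by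
    have := hmax (fun _ => 0) (fun _ => 0) ⟨differentiableOn_const _, fun z _ => by simp⟩
      (fun z _ => by simp)
    simpa using this
  set L : C(KK, ℂ) →L[ℂ] ℂ := ∑ k ∈ S, c k • coefF k with hL
  have hLE : ∀ j, L (EE r j) = if j ∈ S then c j else 0 := by
    intro j
    rw [hL]
    simp only [ContinuousLinearMap.sum_apply, ContinuousLinearMap.smul_apply, coefF_EE,
      smul_eq_mul, mul_ite, mul_one, mul_zero]
    rw [Finset.sum_ite_eq S j]
  set W : Submodule ℂ C(KK, ℂ) := Submodule.span ℂ (Set.range (EE r)) with hW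
  have hbound : ∀ w ∈ W, ‖L w‖ ≤ M * ‖w‖ := by
    intro w hw
    obtain ⟨b, hb⟩ := (Finsupp.mem_span_range_iff_exists_finsupp).1 hw
    have hLw : L w = ∑ k ∈ S, c k * b k := by
      rw [← hb]
      unfold Finsupp.sum
      rw [map_sum]
      simp only [map_smul, hLE, smul_eq_mul, mul_ite, mul_zero]
      rw [← Finset.sum_filter]
      have e1 : ∑ k ∈ S, c k * b k = ∑ k ∈ S with k ∈ b.support, c k * b k := by
        rw [Finset.sum_filter]
        refine Finset.sum_congr rfl (fun k _ => ?_)
        split_ifs with h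
        · rfl
        · rw [Finsupp.notMem_support_iff.1 h, mul_zero]
      rw [e1]
      refine Finset.sum_congr ?_ (fun k _ => mul_comm _ _)
      ext k
      simp only [Finset.mem_filter]
      exact and_comm
    have hval : ∀ p : KK, w p = b.sum (fun k x => x * EE r k p) := by
      intro p
      rw [← hb]
      unfold Finsupp.sum
      rw [ContinuousMap.sum_apply]
      rfl
    have hall : ∀ z ∈ annulus r, ‖b.sum (fun k x => x * z ^ k)‖ ≤ ‖w‖ := by
      refine laurent_poly_max hr hr1 b ?_ ?_
      · intro z hz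
        have h1 := hval (true, ⟨z, by simpa [Submonoid.unitSphere] using hz⟩)
        simp only [EE_true] at h1
        rw [← h1]
        exact w.norm_coe_le_norm _
      · intro z hz
        have hz1 : ‖z / r‖ = 1 := by
          rw [norm_div, Complex.norm_real, Real.norm_of_nonneg hr.le, hz, div_self hr.ne']
        have h1 := hval (false, ⟨z / r, by simpa [Submonoid.unitSphere] using hz1⟩)
        simp only [EE_false] at h1
        have hrc : (r : ℂ) ≠ 0 := by exact_mod_cast hr.ne'
        rw [mul_div_cancel₀ _ hrc] at h1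
        rw [← h1]
        exact w.norm_coe_le_norm _
    rcases eq_or_lt_of_le (norm_nonneg w) with h0 | h0
    · have : w = 0 := norm_eq_zero.1 h0.symm
      rw [this]
      simp
    · obtain ⟨u, hu, huw⟩ := exists_phase (L w)
      have hB : IsB r (fun z => (u / ‖w‖) * b.sum (fun k x => x * z ^ k)) := by
        constructor
        · intro z hz
          have hz0 : z ≠ 0 := by
            intro h
            have := hz.1
            rw [h, norm_zero] at this
            linarith
          refine DifferentiableAt.differentiableWithinAt ?_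
          refine DifferentiableAt.const_mul ?_ _
          unfold Finsupp.sum
          refine DifferentiableAt.fun_sum (fun k _ => ?_)
          exact (differentiableAt_zpow.2 (Or.inl hz0)).const_mul _
        · intro z hz
          rw [norm_mul, norm_div, hu, Complex.norm_real, norm_norm, one_div,
            inv_mul_le_iff₀ h0, mul_one]
          exact hall z hz
      have hLau : IsLaurent r (fun z => (u / ‖w‖) * b.sum (fun k x => x * z ^ k))
          (fun k => (u / ‖w‖) * b k) := by
        intro z hz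
        refine ((hasSum_finsupp b z).mul_left (u / ‖w‖)).congr_fun (fun k => ?_)
        ring
      have h1 := hmax _ _ hB hLau
      have h2 : ∑ k ∈ S, c k * ((u / ‖w‖) * b k) = ((‖L w‖ / ‖w‖ : ℝ) : ℂ) := by
        have e1 : ∑ k ∈ S, c k * ((u / ‖w‖) * b k) = (1 / ‖w‖) * (u * L w) := by
          rw [hLw, Finset.mul_sum, Finset.mul_sum]
          refine Finset.sum_congr rfl (fun k _ => ?_)
          ring
        rw [e1, huw]
        push_cast
        ring
      rw [h2, Complex.ofReal_re, div_le_iff₀ h0] at h1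
      exact h1
  obtain ⟨Λ, hΛ1, hΛ2⟩ := exists_extension_norm_eq W (L.comp W.subtypeL)
  refine ⟨Λ, ?_, ?_⟩
  · rw [hΛ2]
    refine ContinuousLinearMap.opNorm_le_bound _ hM (fun w => ?_)
    exact hbound w w.2
  · intro k
    have hmem : EE r k ∈ W := Submodule.subset_span ⟨k, rfl⟩
    have := hΛ1 ⟨EE r k, hmem⟩
    rw [this]
    exact hLE k

end Run7.h331
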